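import Pool.Agent.Helper88.CS.Defs

/-!
# Project CS, module AmpA: finite amplifications of a von Neumann algebra
-/

open scoped InnerProductSpace Topology
open ContinuousLinearMap Filter

namespace Pool.Agent.Helper88.CS

open Pool.Agent.Helper23

universe u

variable {H : Type u} [NormedAddCommGroup H] [InnerProductSpace ℂ H] [CompleteSpace H]

/-- the direct sum of `m` copies of `H` -/
abbrev HS (H : Type u) [NormedAddCommGroup H] (m : ℕ) : Type u := PiLp 2 (fun _ : Fin m => H)

/-- the operator `x ⊕ ... ⊕ x` -/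
noncomputable def diag (m : ℕ) (x : H →L[ℂ] H) : HS H m →L[ℂ] HS H m :=
  (PiLp.continuousLinearEquiv 2 ℂ (fun _ : Fin m => H)).symm.toContinuousLinearMap ∘L
    (ContinuousLinearMap.pi fun i => x ∘L ContinuousLinearMap.proj i) ∘L
      (PiLp.continuousLinearEquiv 2 ℂ (fun _ : Fin m => H)).toContinuousLinearMap

theorem diag_apply (m : ℕ) (x : H →L[ℂ] H) (F : HS H m) (i : Fin m) : diag m x F i = x (F i) := by
  rfl

theorem inner_diag (m : ℕ) (x : H →L[ℂ] H) (F G : HS H m) :
    ⟪F, diag m x G⟫_ℂ = ∑ i, ⟪F i, x (G i)⟫_ℂ := by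
  rw [PiLp.inner_apply]
  rfl

theorem diag_mul (m : ℕ) (x y : H →L[ℂ] H) : diag m (x * y) = diag m x * diag m y := by
  ext F i
  rfl

theorem diag_add (m : ℕ) (x y : H →L[ℂ] H) : diag m (x + y) = diag m x + diag m y := by
  ext F i
  rfl

theorem diag_smul (m : ℕ) (c : ℂ) (x : H →L[ℂ] H) : diag m (c • x) = c • diag m x := by
  ext F i
  rfl

theorem diag_star (m : ℕ) (x : H →L[ℂ] H) : diag m (star x) = star (diag m x) := by
  refine ContinuousLinearMap.ext fun F => ext_inner_left ℂ fun G => ?_
  rw [ContinuousLinearMap.star_eq_adjoint (diag m x), ContinuousLinearMap.adjoint_inner_right,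
    PiLp.inner_apply, PiLp.inner_apply]
  refine Finset.sum_congr rfl fun i _ => ?_
  rw [diag_apply, diag_apply, ContinuousLinearMap.star_eq_adjoint,
    ContinuousLinearMap.adjoint_inner_right]

theorem diag_one (m : ℕ) : diag m (1 : H →L[ℂ] H) = 1 := by
  ext F i
  rfl

theorem diag_norm_le (m : ℕ) (x : H →L[ℂ] H) : ‖diag m x‖ ≤ ‖x‖ := by
  refine ContinuousLinearMap.opNorm_le_bound _ (norm_nonneg _) fun F => ?_
  rw [PiLp.norm_eq_of_L2, PiLp.norm_eq_of_L2]
  rw [← Real.sqrt_sq (norm_nonneg x), ← Real.sqrt_mul (sq_nonneg _)]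
  refine Real.sqrt_le_sqrt ?_
  rw [Finset.mul_sum]
  refine Finset.sum_le_sum fun i _ => ?_
  rw [diag_apply, ← mul_pow]
  exact pow_le_pow_left₀ (norm_nonneg _) (x.le_opNorm _) 2

/-- the amplification of `N` -/
noncomputable def amp (m : ℕ) (N : VonNeumannAlgebra H) : VonNeumannAlgebra (HS H m) where
  toStarSubalgebra := StarSubalgebra.centralizer ℂ {T | ∀ x ∈ N, T * diag m x = diag m x * T}
  centralizer_centralizer' := Set.centralizer_centralizer_centralizer _

namespace AmpAAux

/-- inclusion of the summand `i` -/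
noncomputable def inj (m : ℕ) (i : Fin m) : H →L[ℂ] HS H m :=
  (PiLp.continuousLinearEquiv 2 ℂ (fun _ : Fin m => H)).symm.toContinuousLinearMap ∘L
    (ContinuousLinearMap.single ℂ (fun _ : Fin m => H) i)

/-- projection to the summand `i` -/
noncomputable def prj (m : ℕ) (i : Fin m) : HS H m →L[ℂ] H :=
  (ContinuousLinearMap.proj i) ∘L
      (PiLp.continuousLinearEquiv 2 ℂ (fun _ : Fin m => H)).toContinuousLinearMap

theorem inj_apply (m : ℕ) (i j : Fin m) (v : H) :
    inj m i v j = if j = i then v else 0 := by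
  show (Pi.single i v : Fin m → H) j = _
  rw [Pi.single_apply]

theorem prj_apply (m : ℕ) (i : Fin m) (F : HS H m) : prj m i F = F i := rfl

theorem sum_app (m : ℕ) (f : Fin m → HS H m) (j : Fin m) : (∑ i, f i) j = ∑ i, f i j := by
  rw [WithLp.ofLp_sum, Finset.sum_apply]

theorem sum_inj (m : ℕ) (F : HS H m) : F = ∑ i, inj m i (F i) := by
  ext j
  rw [sum_app]
  simp [inj_apply]

end AmpAAux

open AmpAAux in
theorem mem_amp {m : ℕ} (hm : 0 < m) (N : VonNeumannAlgebra H) {T : HS H m →L[ℂ] HS H m} :
    T ∈ amp m N ↔ ∃ x ∈ N, diag m x = T := by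
  have hmem : T ∈ amp m N ↔ ∀ g : HS H m →L[ℂ] HS H m,
      (∀ x ∈ N, g * diag m x = diag m x * g) → g * T = T * g ∧ star g * T = T * star g := by
    change T ∈ StarSubalgebra.centralizer ℂ _ ↔ _
    rw [StarSubalgebra.mem_centralizer_iff]
    rfl
  rw [hmem]
  constructor
  · intro h
    let i0 : Fin m := ⟨0, hm⟩
    let t : H →L[ℂ] H := prj m i0 ∘L T ∘L inj m i0
    have hE : ∀ i j : Fin m, (inj m i ∘L prj m j) * T = T * (inj m i ∘L prj m j) := by
      intro i j
      refine (h _ fun x _ => ?_).1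
      refine ContinuousLinearMap.ext fun F => ?_
      ext k
      show (inj m i (x (F j))) k = x ((inj m i (F j)) k)
      rw [inj_apply, inj_apply]
      split_ifs
      · rfl
      · rw [map_zero]
    have hT : diag m t = T := by
      refine ContinuousLinearMap.ext fun F => ?_
      ext k
      have h1 : ∀ j : Fin m, T (inj m j (F j)) = inj m j (t (F j)) := by
        intro j
        have h2 := congrArg (fun S : HS H m →L[ℂ] HS H m => S (inj m i0 (F j))) (hE j i0)
        have h3 : (inj m j) (prj m i0 (T (inj m i0 (F j)))) =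
            T (inj m j (prj m i0 (inj m i0 (F j)))) := h2
        have h4 : prj m i0 (inj m i0 (F j)) = F j := by
          rw [prj_apply, inj_apply, if_pos rfl]
        rw [h4] at h3
        rw [← h3]
        rfl
      rw [diag_apply]
      conv_rhs => rw [sum_inj m F, map_sum, sum_app]
      simp only [h1, inj_apply]
      simp
    refine ⟨t, ?_, hT⟩
    rw [← N.commutant_commutant, VonNeumannAlgebra.mem_commutant_iff]
    intro y hy
    rw [VonNeumannAlgebra.mem_commutant_iff] at hy
    have h5 := (h (diag m y) fun x hx => by rw [← diag_mul, ← diag_mul, hy x hx]).1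
    refine ContinuousLinearMap.ext fun v => ?_
    have h6 := congrArg (fun S : HS H m →L[ℂ] HS H m => S (inj m i0 v) i0) h5
    have h7 : y (T (inj m i0 v) i0) = T (diag m y (inj m i0 v)) i0 := h6
    have h8 : diag m y (inj m i0 v) = inj m i0 (y v) := by
      ext k
      rw [diag_apply, inj_apply, inj_apply]
      split_ifs
      · rfl
      · rw [map_zero]
    rw [h8] at h7
    exact h7
  · rintro ⟨x, hx, rfl⟩ g hg
    refine ⟨hg x hx, ?_⟩
    have h1 := congrArg star (hg (star x) (star_mem hx))
    rw [star_mul, star_mul, ← diag_star, star_star] at h1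
    exact h1.symm

end Pool.Agent.Helper88.CS
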