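import Pool.Agent.Helper88.CS.SuppA

/-!
# Project CS, module Cent: the centralizer
-/

open scoped InnerProductSpace Topology BoundedContinuousFunction
open ContinuousLinearMap Filter MeasureTheory

namespace Pool.Agent.Helper88.CS

open Pool.Agent.Helper23
open Pool.Agent.Helper78.BC (Std rm Fixed)

variable {H : Type*} [NormedAddCommGroup H] [InnerProductSpace ℂ H] [CompleteSpace H]

variable {A : VonNeumannAlgebra H} {ξ : H} {J : H →L[ℝ] H}
  {Ψ : (ℝ →ᵇ ℂ) →⋆ₐ[ℂ] (H →L[ℂ] H)} {R : H →L[ℂ] H} {D : H →L[ℝ] H}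

namespace CentAux

open Pool.Agent.Helper78.BC (fixed_of J_of_fixed)
open Pool.Agent.Helper78.BC.FixAux (Pl Pl_apply plat plat_cont norm_Pl_le Pl_tendsto mm_zero
  mm_nonneg mm_le)
open Pool.Agent.Helper70.U8 (GB GB_apply kg kg_int kg_fourier)

theorem Pl_supp (n : ℕ) : HasCompactSupport (Pl n : ℝ → ℂ) := by
  refine HasCompactSupport.intro (isCompact_Icc (a := -((n : ℝ) + 1)) (b := (n : ℝ) + 1)) ?_
  intro ρ hρ
  have h1 : (n : ℝ) + 1 ≤ |ρ| := by
    by_contra hh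
    rw [not_le, abs_lt] at hh
    exact hρ ⟨hh.1.le, hh.2.le⟩
  rw [Pl_apply]
  have h2 : plat n ρ = 0 := mm_zero (by linarith)
  rw [h2, Complex.ofReal_zero]

theorem Pl_lim (h : Std A ξ J Ψ) (v : H) : Tendsto (fun n => Ψ (Pl n) v) atTop (𝓝 v) := by
  have h2 := h.psi_cont (fun n => Pl n) 1 1 norm_Pl_le Pl_tendsto v
  rwa [map_one, ContinuousLinearMap.one_apply] at h2

theorem zero_of_Pl (h : Std A ξ J Ψ) {v : H} (hv : ∀ n, Ψ (Pl n) v = 0) : v = 0 := by
  refine tendsto_nhds_unique (Pl_lim h v) ?_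
  simp only [hv]
  exact tendsto_const_nhds

/-- division -/
theorem exists_div (F G : ℝ →ᵇ ℂ) (hG : HasCompactSupport (G : ℝ → ℂ))
    (hFG : ∀ ρ ∈ tsupport (G : ℝ → ℂ), F ρ ≠ 0) : ∃ G₁ : ℝ →ᵇ ℂ, G = G₁ * F := by
  have hc : Continuous fun ρ : ℝ => G ρ / F ρ := by
    rw [continuous_iff_continuousAt]
    intro ρ
    by_cases hρ : ρ ∈ tsupport (G : ℝ → ℂ)
    · exact G.continuous.continuousAt.div F.continuous.continuousAt (hFG ρ hρ)
    · have h1 : (fun ρ : ℝ => G ρ / F ρ) =ᶠ[𝓝 ρ] fun _ => (0 : ℂ) := by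
        have h2 := notMem_tsupport_iff_eventuallyEq.1 hρ
        filter_upwards [h2] with x hx
        rw [hx]
        simp
      exact continuousAt_const.congr h1.symm
  have hs : HasCompactSupport fun ρ : ℝ => G ρ / F ρ := by
    refine hG.mono ?_
    intro ρ hρ
    rw [Function.mem_support] at hρ ⊢
    intro h0
    exact hρ (by rw [h0, zero_div])
  obtain ⟨C, hC⟩ := hs.exists_bound_of_continuous hc
  refine ⟨BoundedContinuousFunction.ofNormedAddCommGroup _ hc C hC, ?_⟩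
  ext ρ
  rw [BoundedContinuousFunction.mul_apply]
  change G ρ = G ρ / F ρ * F ρ
  by_cases hρ : ρ ∈ tsupport (G : ℝ → ℂ)
  · rw [div_mul_cancel₀ _ (hFG ρ hρ)]
  · rw [image_eq_zero_of_notMem_tsupport hρ, zero_div, zero_mul]

theorem kill {v : H} {F G : ℝ →ᵇ ℂ} (hF : Ψ F v = 0) (hG : HasCompactSupport (G : ℝ → ℂ))
    (hFG : ∀ ρ ∈ tsupport (G : ℝ → ℂ), F ρ ≠ 0) : Ψ G v = 0 := by
  obtain ⟨G₁, hG₁⟩ := exists_div F G hG hFG
  rw [hG₁, map_mul, mul_apply_eq_comp, hF, map_zero]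

theorem inj_of_ne (h : Std A ξ J Ψ) {v : H} {F : ℝ →ᵇ ℂ} (hF : Ψ F v = 0)
    (hne : ∀ ρ, F ρ ≠ 0) : v = 0 :=
  zero_of_Pl h fun n => kill hF (Pl_supp n) fun ρ _ => hne ρ

/-- commutation with the Gaussians -/
theorem comm_GB (h : Modular A ξ R D Ψ) {e : H →L[ℂ] H}
    (hc : ∀ t : ℝ, e * Ψ (expB t) = Ψ (expB t) * e) {ε : ℝ} (hε : 0 < ε) (κ : ℝ) :
    e * Ψ (GB ε hε κ) = Ψ (GB ε hε κ) * e := by
  ext w
  refine ext_inner_left ℂ fun v => ?_
  have hK : ∀ ρ, GB ε hε κ ρ = ∫ t, kg ε κ t * expB (2 * Real.pi * t) ρ := fun ρ => by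
    rw [GB_apply]
    exact kg_fourier hε κ ρ
  rw [mul_apply_eq_comp, mul_apply_eq_comp, ← h.integral_psi (kg_int hε κ) hK v (e w),
    ← star_star e, inner_star_right, ← h.integral_psi (kg_int hε κ) hK (star e v) w]
  congr 1
  funext t
  have h1 := congrArg (fun T : H →L[ℂ] H => T w) (hc (2 * Real.pi * t))
  simp only [mul_apply_eq_comp] at h1
  rw [star_star, ← h1, ← inner_star_right, star_star]

/-- commutation with the unitary group implies commutation with the functional calculus -/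
theorem comm_all (h : St A ξ J Ψ R D) {e : H →L[ℂ] H}
    (hc : ∀ t : ℝ, e * Ψ (expB t) = Ψ (expB t) * e) (G : ℝ →ᵇ ℂ) : e * Ψ G = Ψ G * e := by
  refine h.mod.psi_comm e ?_ G
  have e0 := comm_GB h.mod hc one_pos 0
  have e1 := comm_GB h.mod hc one_pos 1
  have hS : ∀ ρ, (GB 1 one_pos 0 + GB 1 one_pos 1 : ℝ →ᵇ ℂ) ρ ≠ 0 := by
    intro ρ
    rw [BoundedContinuousFunction.coe_add, Pi.add_apply, GB_apply, GB_apply,
      ← Complex.ofReal_add]
    have : (0 : ℝ) < Real.exp (-(1 * ρ ^ 2) + 0 * ρ) + Real.exp (-(1 * ρ ^ 2) + 1 * ρ) := by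
      positivity
    exact_mod_cast this.ne'
  have hm : (GB 1 one_pos 0 + GB 1 one_pos 1 : ℝ →ᵇ ℂ) * FR = (2 : ℂ) • GB 1 one_pos 0 := by
    ext ρ
    have h0 : ((2 : ℂ) • GB 1 one_pos 0 : ℝ →ᵇ ℂ) ρ = (2 : ℂ) * GB 1 one_pos 0 ρ := rfl
    have h2 : (2 : ℂ) = ((2 : ℝ) : ℂ) := by norm_num
    rw [h0, BoundedContinuousFunction.mul_apply, BoundedContinuousFunction.coe_add, Pi.add_apply,
      GB_apply, GB_apply, Pool.Agent.Helper43.TTF.FR_apply, h2, ← Complex.ofReal_add,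
      ← Complex.ofReal_mul, ← Complex.ofReal_mul]
    congr 1
    have h3 : Real.exp (-(1 * ρ ^ 2) + 1 * ρ) =
        Real.exp (-(1 * ρ ^ 2) + 0 * ρ) * Real.exp ρ := by
      rw [← Real.exp_add]
      congr 1
      ring
    rw [h3]
    have h4 : (0 : ℝ) < 1 + Real.exp ρ := by positivity
    field_simp
  have hm' : Ψ (GB 1 one_pos 0 + GB 1 one_pos 1) * R = (2 : ℂ) • Ψ (GB 1 one_pos 0) := by
    rw [← h.mod.psi_FR, ← map_mul, hm, map_smul]
  have hS' : e * Ψ (GB 1 one_pos 0 + GB 1 one_pos 1) =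
      Ψ (GB 1 one_pos 0 + GB 1 one_pos 1) * e := by
    rw [map_add, mul_add, add_mul, e0, e1]
  have key : Ψ (GB 1 one_pos 0 + GB 1 one_pos 1) * (e * R - R * e) = 0 := by
    rw [mul_sub, ← mul_assoc, ← hS', mul_assoc, hm', ← mul_assoc, hm', mul_smul_comm,
      smul_mul_assoc, e0, sub_self]
  rw [← sub_eq_zero]
  ext v
  have h5 := congrArg (fun T : H →L[ℂ] H => T v) key
  simp only [mul_apply_eq_comp] at h5
  exact inj_of_ne h.toStd h5 hS

end CentAux

open CentAux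
open Pool.Agent.Helper78.BC (fixed_of J_of_fixed)
open Pool.Agent.Helper78.BC.FixAux (Pl Pl_apply plat plat_cont norm_Pl_le Pl_tendsto mm_zero
  mm_nonneg mm_le)
open Pool.Agent.Helper70.U8 (GB GB_apply)

/-- elements of the centralizer: `e ξ` is fixed -/
theorem fixed_of_J (h : St A ξ J Ψ R D) {e : H →L[ℂ] H} (he : e ∈ A) (hs : star e = e)
    (hJ : J (e ξ) = e ξ) : Fixed Ψ (e ξ) := by
  refine fixed_of h.toStd hJ fun a b ha hab G hG => ?_
  have h1 := h.psi_half (GB 1 one_pos 0) (GB 1 one_pos (1 / 2)) (fun ρ => by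
    rw [GB_apply, GB_apply, ← Complex.ofReal_mul, ← Real.exp_add]
    congr 2
    ring) e he
  rw [hs, hJ] at h1
  have h2 : Ψ (GB 1 one_pos (1 / 2) - GB 1 one_pos 0) (e ξ) = 0 := by
    rw [map_sub, ContinuousLinearMap.sub_apply, h1, sub_self]
  have hsub : tsupport (G : ℝ → ℂ) ⊆ Set.Icc a b := by
    refine closure_minimal ?_ isClosed_Icc
    intro ρ hρ
    by_contra hh
    exact hρ (hG ρ hh)
  have hGc : HasCompactSupport (G : ℝ → ℂ) :=
    HasCompactSupport.intro isCompact_Icc fun ρ hρ => hG ρ hρ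
  refine kill h2 hGc fun ρ hρ => ?_
  have hρ0 : 0 < ρ := ha.trans_le (hsub hρ).1
  rw [BoundedContinuousFunction.coe_sub, Pi.sub_apply, GB_apply, GB_apply, sub_ne_zero]
  intro h3
  have h4 := Complex.ofReal_injective h3
  have h5 := Real.exp_injective h4
  linarith

theorem J_of_state (h : St A ξ J Ψ R D) {e : H →L[ℂ] H} (he : e ∈ A) (hs : star e = e)
    (hc : ∀ x ∈ A, ⟪e ξ, x ξ⟫_ℂ = ⟪(star x) ξ, e ξ⟫_ℂ) : J (e ξ) = e ξ := by
  -- the state condition
  have key : ∀ G G' : ℝ →ᵇ ℂ, HasCompactSupport (G : ℝ → ℂ) →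
      (∀ ρ, G' ρ = ((Real.exp (ρ / 2) : ℝ) : ℂ) * G ρ) → star G = G → star G' = G' →
      Ψ G (e ξ) = Ψ G' (J (e ξ)) := by
    intro G G' hG hGG hr hr'
    refine ext_inner_right ℂ fun θ => ?_
    rw [Pool.Agent.Helper43.TTF.psi_star, Pool.Agent.Helper43.TTF.psi_star, hr, hr']
    have hb : ∀ n : ℕ, ∃ b ∈ A, ‖b ξ - Ψ G θ‖ ≤ 1 / ((n : ℝ) + 1) ∧
        ‖J ((star b) ξ) - Ψ G' θ‖ ≤ 1 / ((n : ℝ) + 1) := fun n =>
      h.core G G' hG hGG θ (1 / ((n : ℝ) + 1)) (by positivity)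
    choose b hbA hb1 hb2 using hb
    have t1 : Tendsto (fun n => (b n) ξ) atTop (𝓝 (Ψ G θ)) := by
      rw [tendsto_iff_norm_sub_tendsto_zero]
      exact squeeze_zero (fun _ => norm_nonneg _) hb1 tendsto_one_div_add_atTop_nhds_zero_nat
    have t2 : Tendsto (fun n => J ((star (b n)) ξ)) atTop (𝓝 (Ψ G' θ)) := by
      rw [tendsto_iff_norm_sub_tendsto_zero]
      exact squeeze_zero (fun _ => norm_nonneg _) hb2 tendsto_one_div_add_atTop_nhds_zero_nat
    have t3 : Tendsto (fun n => ⟪e ξ, (b n) ξ⟫_ℂ) atTop (𝓝 ⟪e ξ, Ψ G θ⟫_ℂ) :=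
      tendsto_const_nhds.inner t1
    have t4 : Tendsto (fun n => ⟪J (e ξ), J ((star (b n)) ξ)⟫_ℂ) atTop
        (𝓝 ⟪J (e ξ), Ψ G' θ⟫_ℂ) := tendsto_const_nhds.inner t2
    refine tendsto_nhds_unique t3 ?_
    have e1 : (fun n => ⟪e ξ, (b n) ξ⟫_ℂ) = fun n => ⟪J (e ξ), J ((star (b n)) ξ)⟫_ℂ := by
      funext n
      rw [hc _ (hbA n), h.J_inner]
    rw [e1]
    exact t4
  rw [eq_comm, ← sub_eq_zero]
  refine zero_of_Pl h.toStd fun n => ?_
  -- `G = Pl / (1 + e^{ρ/2})`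
  have hden : ∀ ρ : ℝ, (0 : ℝ) < 1 + Real.exp (ρ / 2) := fun ρ => by positivity
  set g : ℝ → ℝ := fun ρ => plat n ρ / (1 + Real.exp (ρ / 2)) with hg
  have hgc : Continuous g := by
    refine (plat_cont n).div (by fun_prop) fun ρ => (hden ρ).ne'
  set g' : ℝ → ℝ := fun ρ => Real.exp (ρ / 2) * g ρ with hg'
  have hgc' : Continuous g' := by
    have : Continuous fun ρ : ℝ => Real.exp (ρ / 2) := by fun_prop
    exact this.mul hgc
  have p0 : ∀ ρ, 0 ≤ plat n ρ := fun ρ => mm_nonneg _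
  have p1 : ∀ ρ, plat n ρ ≤ 1 := fun ρ => mm_le _
  have g0 : ∀ ρ, 0 ≤ g ρ := fun ρ => div_nonneg (p0 ρ) (hden ρ).le
  have g1 : ∀ ρ, g ρ ≤ 1 := fun ρ => by
    rw [hg]
    simp only
    rw [div_le_one (hden ρ)]
    have := p1 ρ
    have := Real.exp_pos (ρ / 2)
    linarith
  have g0' : ∀ ρ, 0 ≤ g' ρ := fun ρ => mul_nonneg (Real.exp_pos _).le (g0 ρ)
  have hsum : ∀ ρ, g ρ + g' ρ = plat n ρ := fun ρ => by
    rw [hg', hg]
    simp only
    have := (hden ρ).ne'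
    field_simp
  have g1' : ∀ ρ, g' ρ ≤ 1 := fun ρ => by
    have := hsum ρ
    have := p1 ρ
    have := g0 ρ
    linarith
  set G : ℝ →ᵇ ℂ := BoundedContinuousFunction.ofNormedAddCommGroup
    (fun ρ : ℝ => ((g ρ : ℝ) : ℂ)) (Complex.continuous_ofReal.comp hgc) 1 (fun ρ => by
      rw [Complex.norm_real, Real.norm_of_nonneg (g0 ρ)]
      exact g1 ρ) with hG
  set G' : ℝ →ᵇ ℂ := BoundedContinuousFunction.ofNormedAddCommGroup
    (fun ρ : ℝ => ((g' ρ : ℝ) : ℂ)) (Complex.continuous_ofReal.comp hgc') 1 (fun ρ => by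
      rw [Complex.norm_real, Real.norm_of_nonneg (g0' ρ)]
      exact g1' ρ) with hG'
  have hGa : ∀ ρ, G ρ = ((g ρ : ℝ) : ℂ) := fun ρ => rfl
  have hGa' : ∀ ρ, G' ρ = ((g' ρ : ℝ) : ℂ) := fun ρ => rfl
  have hGG : ∀ ρ, G' ρ = ((Real.exp (ρ / 2) : ℝ) : ℂ) * G ρ := fun ρ => by
    rw [hGa, hGa', ← Complex.ofReal_mul]
  have hr : star G = G := by
    ext ρ
    rw [BoundedContinuousFunction.star_apply, hGa, Complex.star_def, Complex.conj_ofReal]
  have hr' : star G' = G' := by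
    ext ρ
    rw [BoundedContinuousFunction.star_apply, hGa', Complex.star_def, Complex.conj_ofReal]
  have hGs : HasCompactSupport (G : ℝ → ℂ) := by
    refine (Pl_supp n).mono ?_
    intro ρ hρ
    rw [Function.mem_support] at hρ ⊢
    intro h0
    apply hρ
    rw [hGa]
    rw [Pl_apply, Complex.ofReal_eq_zero] at h0
    rw [hg]
    simp only
    rw [h0, zero_div, Complex.ofReal_zero]
  have hPl : Pl n = G + G' := by
    ext ρ
    rw [BoundedContinuousFunction.coe_add, Pi.add_apply, hGa, hGa', ← Complex.ofReal_add, hsum,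
      Pl_apply]
  have k1 := key G G' hGs hGG hr hr'
  have k2 := h.psi_half G G' hGG e he
  rw [hs] at k2
  rw [hPl, map_add, ContinuousLinearMap.add_apply, map_sub, map_sub, k1, ← k2]
  abel

/-- elements of the centralizer commute with the modular group -/
theorem comm_psi (h : St A ξ J Ψ R D) {e : H →L[ℂ] H} (he : e ∈ A) (hs : star e = e)
    (hJ : J (e ξ) = e ξ) (G : ℝ →ᵇ ℂ) : e * Ψ G = Ψ G * e := by
  refine comm_all h (fun t => ?_) G
  have hf := fixed_of_J h he hs hJ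
  have hx : (Ψ (expB t) * e * Ψ (expB (-t)) - e) ξ = 0 := by
    rw [sub_apply, mul_apply_eq_comp, mul_apply_eq_comp, h.mod.psi_xi,
      Pool.Agent.Helper43.TTF.expB_apply, mul_zero, Complex.ofReal_zero, zero_mul,
      Complex.exp_zero, one_smul, hf (expB t), Pool.Agent.Helper43.TTF.expB_apply, mul_zero,
      Complex.ofReal_zero, zero_mul, Complex.exp_zero, one_smul, sub_self]
  have h1 := h.sep _ (sub_mem (h.mod.mem t e he) he) hx
  rw [sub_eq_zero] at h1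
  have h2 : Ψ (expB (-t)) * Ψ (expB t) = 1 := by
    rw [← map_mul]
    have : expB (-t) * expB t = 1 := by
      ext ρ
      rw [BoundedContinuousFunction.mul_apply, Pool.Agent.Helper43.TTF.expB_apply,
        Pool.Agent.Helper43.TTF.expB_apply, ← Complex.exp_add, Pool.Agent.Helper43.TTF.one_bcf]
      have : ((-t * ρ : ℝ) : ℂ) * Complex.I + ((t * ρ : ℝ) : ℂ) * Complex.I = 0 := by
        push_cast
        ring
      rw [this, Complex.exp_zero]
    rw [this, map_one]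
  calc e * Ψ (expB t) = Ψ (expB t) * e * Ψ (expB (-t)) * Ψ (expB t) := by rw [h1]
    _ = Ψ (expB t) * e := by rw [mul_assoc, h2, mul_one]

/-- a projection of `A` commuting with the modular group is in the centralizer -/
theorem J_of_comm (h : St A ξ J Ψ R D) {e : H →L[ℂ] H} (he : e ∈ A) (hs : star e = e)
    (hc : ∀ t : ℝ, e * Ψ (expB t) = Ψ (expB t) * e) : J (e ξ) = e ξ := by
  have hf : Fixed Ψ (e ξ) := by
    intro G
    have h1 := congrArg (fun T : H →L[ℂ] H => T ξ) (comm_all h hc G)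
    simp only [mul_apply_eq_comp] at h1
    rw [← h1, h.mod.psi_xi, map_smul]
  have h2 := J_of_fixed h.toStd he hf
  rwa [hs] at h2

end Pool.Agent.Helper88.CS
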