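import Pool.Agent.Helper88.CS.Defs

/-!
# Project CS, module Cone: corners of the cone
-/

open scoped InnerProductSpace Topology BoundedContinuousFunction
open ContinuousLinearMap Filter MeasureTheory

namespace Pool.Agent.Helper88.CS

open Pool.Agent.Helper23
open Pool.Agent.Helper78.BC (Std rm Fixed)

variable {H : Type*} [NormedAddCommGroup H] [InnerProductSpace ℂ H] [CompleteSpace H]

variable {A : VonNeumannAlgebra H} {ξ : H} {J : H →L[ℝ] H}
  {Ψ : (ℝ →ᵇ ℂ) →⋆ₐ[ℂ] (H →L[ℂ] H)} {R : H →L[ℂ] H} {D : H →L[ℝ] H}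

namespace ConeAux

variable (h : St A ξ J Ψ R D)
include h

/-- right multiplication: `J (a (J (y ξ))) = y (J (a ξ))` -/
theorem jc {a y : H →L[ℂ] H} (ha : a ∈ A) (hy : y ∈ A) :
    J (a (J (y ξ))) = y (J (a ξ)) := by
  rw [h.J_comm a ha y hy, h.J_xi]

theorem herm {b c : H →L[ℂ] H} (hb : b ∈ A) (hc : c ∈ A) :
    ⟪J (b ξ), (star c) ξ⟫_ℂ = (starRingEnd ℂ) ⟪J (c ξ), (star b) ξ⟫_ℂ := by
  have h1 : ⟪J (b ξ), (star c) ξ⟫_ℂ = ⟪c (J (b ξ)), ξ⟫_ℂ := by
    rw [star_eq_adjoint, adjoint_inner_right]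
  have h2 : ⟪c (J (b ξ)), ξ⟫_ℂ = ⟪ξ, J (c (J (b ξ)))⟫_ℂ := by
    have h3 := h.J_inner (c (J (b ξ))) ξ
    rw [h.J_xi] at h3
    rw [← inner_conj_symm, ← h3, inner_conj_symm]
  rw [h1, h2, jc h hc hb, inner_conj_symm, star_eq_adjoint, adjoint_inner_left]

theorem zero_of {c : H →L[ℂ] H} (hc : c ∈ A) (h0 : ⟪J (c ξ), (star c) ξ⟫_ℂ = 0)
    {b : H →L[ℂ] H} (hb : b ∈ A) : ⟪J (c ξ), (star b) ξ⟫_ℂ = 0 := by
  set B : ℂ := ⟪J (c ξ), (star b) ξ⟫_ℂ with hB
  have key : ∀ t : ℝ, 0 ≤ -(2 * t * ‖B‖ ^ 2) + (⟪J (b ξ), (star b) ξ⟫_ℂ).re := by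
    intro t
    set l : ℂ := -((t : ℂ) * (starRingEnd ℂ) B) with hl
    have hx : l • c + b ∈ A := add_mem (smul_mem' l hc) hb
    have h1 := h.J_pos _ hx
    have h2 : J ((l • c + b) ξ) = (starRingEnd ℂ) l • J (c ξ) + J (b ξ) := by
      rw [_root_.add_apply, _root_.smul_apply, map_add, h.J_conj]
    have h3 : (star (l • c + b)) ξ = (starRingEnd ℂ) l • (star c) ξ + (star b) ξ := by
      rw [star_add, star_smul, _root_.add_apply, _root_.smul_apply]
      rfl
    rw [h2, h3, inner_add_left, inner_add_right, inner_add_right, inner_smul_left, inner_smul_left,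
      inner_smul_right, inner_smul_right, h0, herm h hb hc, ← hB, Complex.conj_conj] at h1
    have h4 : l * B = -((t * ‖B‖ ^ 2 : ℝ) : ℂ) := by
      rw [hl, neg_mul, mul_assoc, ← Complex.normSq_eq_conj_mul_self, Complex.normSq_eq_norm_sq]
      push_cast
      ring
    have h5 : (starRingEnd ℂ) l * (starRingEnd ℂ) B = -((t * ‖B‖ ^ 2 : ℝ) : ℂ) := by
      rw [← map_mul, h4, map_neg, Complex.conj_ofReal]
    rw [h4, h5] at h1
    simp only [mul_zero, zero_add, Complex.add_re, Complex.neg_re, Complex.ofReal_re] at h1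
    linarith
  by_contra hne
  have hpos : 0 < ‖B‖ ^ 2 := by positivity
  have h6 := key (((⟪J (b ξ), (star b) ξ⟫_ℂ).re + 1) / (2 * ‖B‖ ^ 2))
  have h7 : 2 * (((⟪J (b ξ), (star b) ξ⟫_ℂ).re + 1) / (2 * ‖B‖ ^ 2)) * ‖B‖ ^ 2
      = (⟪J (b ξ), (star b) ξ⟫_ℂ).re + 1 := by
    field_simp
  rw [h7] at h6
  linarith

end ConeAux

/-- the vector `u* ξ u` -/
noncomputable def kap (J : H →L[ℝ] H) (ξ : H) (u : H →L[ℂ] H) : H := (star u) (J ((star u) ξ))

theorem kap_J (h : St A ξ J Ψ R D) {u : H →L[ℂ] H} (hu : u ∈ A) : J (kap J ξ u) = kap J ξ u := by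
  have hu' : star u ∈ A := star_mem hu
  unfold kap
  rw [ConeAux.jc h hu' hu']

theorem kap_sep (h : St A ξ J Ψ R D) {u : H →L[ℂ] H} (hu : u ∈ A) (hu1 : star u * u = 1) :
    ∀ a ∈ A, a (kap J ξ u) = 0 → a = 0 := by
  intro a ha h0
  have hu' : star u ∈ A := star_mem hu
  have hc : a * star u ∈ A := mul_mem ha hu'
  have h1 : (star u) (J ((a * star u) ξ)) = 0 := by
    rw [← ConeAux.jc h hc hu']
    have h2 : (a * star u) (J ((star u) ξ)) = 0 := h0
    rw [h2, map_zero]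
  have h3 : ⟪J ((a * star u) ξ), (star (a * star u)) ξ⟫_ℂ = 0 := by
    rw [star_eq_adjoint (a * star u), adjoint_inner_right, ContinuousLinearMap.mul_apply, h1,
      map_zero, inner_zero_left]
  have h4 : J ((a * star u) ξ) = 0 := by
    have h5 : ∀ v : H, ⟪J ((a * star u) ξ), v⟫_ℂ = 0 := by
      intro v
      have hcl : IsClosed {w : H | ⟪J ((a * star u) ξ), w⟫_ℂ = 0} :=
        isClosed_eq (by fun_prop) continuous_const
      have hsub : (orb A ξ : Set H) ⊆ {w : H | ⟪J ((a * star u) ξ), w⟫_ℂ = 0} := by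
        rintro _ ⟨b, hb, rfl⟩
        have h6 := ConeAux.zero_of h hc h3 (b := star b) (star_mem hb)
        rwa [star_star] at h6
      exact hcl.closure_subset_iff.mpr hsub (h.dense v)
    exact inner_self_eq_zero.mp (h5 _)
  have h7 : (a * star u) ξ = 0 := by
    rw [← h.J_J ((a * star u) ξ), h4, map_zero]
  have h8 := h.sep _ hc h7
  calc a = (a * star u) * u := by rw [mul_assoc, hu1, mul_one]
    _ = 0 := by rw [h8, zero_mul]

theorem kap_dense (h : St A ξ J Ψ R D) {u : H →L[ℂ] H} (hu : u ∈ A) (hu1 : star u * u = 1) :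
    Dense (orb A (kap J ξ u) : Set H) := by
  have h1 := dense_of_separating A.commutant (kap J ξ u) (by
    intro b hb h0
    obtain ⟨a, ha, hab⟩ := h.J_mem b hb
    have h2 : a (kap J ξ u) = 0 := by
      rw [← h.J_J (a (kap J ξ u))]
      have h3 := hab (kap J ξ u)
      rw [h0, kap_J h hu] at h3
      rw [← h3, map_zero]
    have h4 := kap_sep h hu hu1 a ha h2
    ext v
    rw [hab v, h4]
    simp)
  rwa [VonNeumannAlgebra.commutant_commutant] at h1

theorem kap_pos (h : St A ξ J Ψ R D) {u : H →L[ℂ] H} (hu : u ∈ A) :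
    ∀ a ∈ A, 0 ≤ (⟪J (a (kap J ξ u)), (star a) (kap J ξ u)⟫_ℂ).re := by
  intro a ha
  have hu' : star u ∈ A := star_mem hu
  have ha' : star a ∈ A := star_mem ha
  have hc : a * star u ∈ A := mul_mem ha hu'
  have hb : u * (star a * star u) ∈ A := mul_mem hu (mul_mem ha' hu')
  have h1 : J (a (kap J ξ u)) = (star u) (J ((a * star u) ξ)) := ConeAux.jc h hc hu'
  have h2 : ⟪J (a (kap J ξ u)), (star a) (kap J ξ u)⟫_ℂ
      = ⟪J ((u * (star a * star u)) ξ), (star (u * (star a * star u))) ξ⟫_ℂ := by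
    rw [h1]
    have h3 : ⟪(star u) (J ((a * star u) ξ)), (star a) (kap J ξ u)⟫_ℂ
        = ⟪J ((a * star u) ξ), (u * (star a * star u)) (J ((star u) ξ))⟫_ℂ := by
      rw [star_eq_adjoint u, adjoint_inner_left]
      rfl
    have h4 : ⟪J ((a * star u) ξ), (u * (star a * star u)) (J ((star u) ξ))⟫_ℂ
        = ⟪J ((u * (star a * star u)) (J ((star u) ξ))), (a * star u) ξ⟫_ℂ := by
      have := h.J_inner ((a * star u) ξ) (J ((u * (star a * star u)) (J ((star u) ξ))))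
      rwa [h.J_J] at this
    rw [h3, h4, ConeAux.jc h hb hu']
    have h5 : star (u * (star a * star u)) = u * (a * star u) := by
      rw [star_mul, star_mul, star_star, star_star, mul_assoc]
    rw [h5, star_eq_adjoint u, adjoint_inner_left]
    rfl
  rw [h2]
  exact h.J_pos _ hb

end Pool.Agent.Helper88.CS
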