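import Pool.Agent.Helper88.CS.Infty

/-!
# Project CS, module Equiv: all nonzero projections are equivalent
-/

open scoped InnerProductSpace Topology BoundedContinuousFunction
open ContinuousLinearMap Filter MeasureTheory

namespace Pool.Agent.Helper88.CS

open Pool.Agent.Helper23
open Pool.Agent.Helper78.BC (Std rm Fixed)

variable {H : Type*} [NormedAddCommGroup H] [InnerProductSpace ℂ H] [CompleteSpace H]

variable {A : VonNeumannAlgebra H} {ξ : H}

namespace EquivAux

/-- orthogonality of the shifted projections -/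
theorem shift_ortho {q w : H →L[ℂ] H} (hq : star q = q) (h1 : star w * w = 1)
    (h2 : q * w = 0) (m n : ℕ) (hmn : m ≠ n) :
    (w ^ m * q * star w ^ m) * (w ^ n * q * star w ^ n) = 0 := by
  have hws : ∀ k : ℕ, star w ^ k * w ^ k = 1 := by
    intro k
    induction k with
    | zero => simp
    | succ k ih =>
      rw [pow_succ (star w) k, pow_succ' w k]
      calc star w ^ k * star w * (w * w ^ k) = star w ^ k * (star w * w) * w ^ k := by
            simp only [mul_assoc]
        _ = 1 := by rw [h1, mul_one, ih]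
  have h3 : star w * q = 0 := by
    have := congrArg star h2
    simpa [hq] using this
  rcases lt_or_gt_of_ne hmn with h | h
  · obtain ⟨k, rfl⟩ := Nat.exists_eq_add_of_lt h
    have e1 : w ^ (m + k + 1) = w ^ m * (w * w ^ k) := by
      rw [← pow_succ', ← pow_add]; ring_nf
    calc (w ^ m * q * star w ^ m) * (w ^ (m + k + 1) * q * star w ^ (m + k + 1))
        = w ^ m * q * (star w ^ m * w ^ m) * w * w ^ k * q * star w ^ (m + k + 1) := by
          rw [e1]; simp only [mul_assoc]
      _ = w ^ m * (q * w) * w ^ k * q * star w ^ (m + k + 1) := by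
          rw [hws]; simp only [mul_assoc, one_mul, mul_one]
      _ = 0 := by rw [h2]; simp
  · obtain ⟨k, rfl⟩ := Nat.exists_eq_add_of_lt h
    have e1 : star w ^ (n + k + 1) = star w ^ k * star w * star w ^ n := by
      rw [← pow_succ, ← pow_add]; ring_nf
    calc (w ^ (n + k + 1) * q * star w ^ (n + k + 1)) * (w ^ n * q * star w ^ n)
        = w ^ (n + k + 1) * q * star w ^ k * star w * (star w ^ n * w ^ n) * q * star w ^ n := by
          rw [e1]; simp only [mul_assoc]
      _ = w ^ (n + k + 1) * q * star w ^ k * (star w * q) * star w ^ n := by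
          rw [hws]; simp only [mul_assoc, one_mul, mul_one]
      _ = 0 := by rw [h3]; simp

/-- the shifted projections are projections -/
theorem shift_proj {q w : H →L[ℂ] H} (hq : star q = q) (hq2 : q * q = q) (h1 : star w * w = 1)
    (n : ℕ) : star (w ^ n * q * star w ^ n) = w ^ n * q * star w ^ n ∧
      (w ^ n * q * star w ^ n) * (w ^ n * q * star w ^ n) = w ^ n * q * star w ^ n := by
  have hws : ∀ k : ℕ, star w ^ k * w ^ k = 1 := by
    intro k
    induction k with
    | zero => simp
    | succ k ih =>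
      rw [pow_succ (star w) k, pow_succ' w k]
      calc star w ^ k * star w * (w * w ^ k) = star w ^ k * (star w * w) * w ^ k := by
            simp only [mul_assoc]
        _ = 1 := by rw [h1, mul_one, ih]
  constructor
  · rw [star_mul, star_mul, star_pow, star_pow, star_star, hq, mul_assoc]
  · calc (w ^ n * q * star w ^ n) * (w ^ n * q * star w ^ n)
        = w ^ n * q * (star w ^ n * w ^ n) * q * star w ^ n := by simp only [mul_assoc]
      _ = w ^ n * (q * q) * star w ^ n := by rw [hws]; simp only [mul_assoc, mul_one, one_mul]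
      _ = _ := by rw [hq2]

end EquivAux

/-- Cantor - Bernstein -/
theorem csb {e w : H →L[ℂ] H} (he : IsP A e) (hw : w ∈ A) (h1 : star w * w = 1) (h2 : e * w = w) :
    ∃ u ∈ A, star u * u = 1 ∧ u * star u = e := by
  obtain ⟨heA, hes, hee⟩ := he
  set q : H →L[ℂ] H := 1 - e with hqdef
  have hqA : q ∈ A := sub_mem (one_mem A) heA
  have hq : star q = q := by rw [hqdef, star_sub, star_one, hes]
  have hq2 : q * q = q := by
    rw [hqdef, sub_mul, mul_sub, mul_sub, hee]; simp
  have hqw : q * w = 0 := by rw [hqdef, sub_mul, one_mul, h2, sub_self]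
  set p : ℕ → H →L[ℂ] H := fun n => w ^ n * q * star w ^ n with hp
  have hpA : ∀ n, p n ∈ A := fun n =>
    mul_mem (mul_mem (pow_mem hw n) hqA) (pow_mem (star_mem hw) n)
  have hps : ∀ n, star (p n) = p n := fun n => (EquivAux.shift_proj hq hq2 h1 n).1
  have hpp : ∀ n, p n * p n = p n := fun n => (EquivAux.shift_proj hq hq2 h1 n).2
  have hpo : ∀ m n, m ≠ n → p m * p n = 0 := fun m n h => EquivAux.shift_ortho hq h1 hqw m n h
  obtain ⟨r, hrA, -, hr1, hr2, hr3, -, -, -⟩ := exists_sum (A := A) (w := p) hpA
    (fun n => by rw [hps, hpp, hpp]) (fun m n h => by rw [hps]; exact hpo m n h)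
    (fun m n h => by rw [hps]; exact hpo m n h)
  have hrs : star r = r := by
    ext x
    have a1 := hr2 x
    simp only [hps] at a1
    exact a1.unique (hr1 x)
  have hrr : r * r = r := by
    ext x
    have a1 := hr3 x
    simp only [hps, hpp, hrs] at a1
    exact a1.unique (hr1 x)
  have hp0 : p 0 = q := by simp [hp]
  have hpsucc : ∀ n, w * p n * star w = p (n + 1) := by
    intro n
    simp only [hp]
    rw [pow_succ' w n, pow_succ (star w) n]
    simp only [mul_assoc]
  have hwrw : w * r * star w = r - q := by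
    ext x
    have a1 : HasSum (fun n => p (n + 1) x) ((w * r * star w) x) := by
      have a2 := (hr1 ((star w) x)).mapL w
      refine (a2.congr_fun ?_)
      intro n
      rw [← hpsucc n]; rfl
    have a3 : HasSum (fun n => p (n + 1) x) (r x - p 0 x) := by
      have := (hasSum_nat_add_iff' 1).2 (hr1 x)
      simpa using this
    have := a1.unique a3
    rw [this, hp0]; rfl
  have hwr : w * r = r * w := by
    calc w * r = w * r * (star w * w) := by rw [h1, mul_one]
      _ = (w * r * star w) * w := by simp only [mul_assoc]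
      _ = r * w := by rw [hwrw, sub_mul, hqw, sub_zero]
  have hrwr : r * (w * r) = w * r := by
    rw [hwr, ← mul_assoc, hrr]
  have hrwr' : (r * star w) * r = r * star w := by
    have := congrArg star hrwr
    simpa [hrs, mul_assoc] using this
  refine ⟨w * r + (1 - r), add_mem (mul_mem hw hrA) (sub_mem (one_mem A) hrA), ?_, ?_⟩
  · rw [star_add, star_sub, star_one, star_mul, hrs]
    calc (r * star w + (1 - r)) * (w * r + (1 - r))
        = r * (star w * w) * r + (r * star w - (r * star w) * r) + (w * r - r * (w * r))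
          + (1 - r - r + r * r) := by noncomm_ring
      _ = 1 := by rw [h1, hrwr, hrwr', mul_one, hrr]; abel
  · rw [star_add, star_sub, star_one, star_mul, hrs]
    calc (w * r + (1 - r)) * (r * star w + (1 - r))
        = w * (r * r) * star w + (w * r - w * (r * r)) + (r * star w - (r * r) * star w)
          + (1 - r - r + r * r) := by noncomm_ring
      _ = e := by rw [hrr, hwrw, hqdef]; abel

theorem equiv_one (hA : FInf A) (hsep : ∀ a ∈ A, a ξ = 0 → a = 0) {e : H →L[ℂ] H}
    (he : IsP A e) (he0 : e ≠ 0) : ∃ u ∈ A, star u * u = 1 ∧ u * star u = e := by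
  obtain ⟨w, hw, h1, h2⟩ := exists_isometry hA hsep he he0
  exact csb he hw h1 h2

theorem equiv_pair (hA : FInf A) (hsep : ∀ a ∈ A, a ξ = 0 → a = 0) {e f : H →L[ℂ] H}
    (he : IsP A e) (he0 : e ≠ 0) (hf : IsP A f) (hf0 : f ≠ 0) :
    ∃ u ∈ A, star u * u = e ∧ u * star u = f := by
  obtain ⟨u, hu, hu1, hu2⟩ := equiv_one hA hsep he he0
  obtain ⟨v, hv, hv1, hv2⟩ := equiv_one hA hsep hf hf0
  refine ⟨v * star u, mul_mem hv (star_mem hu), ?_, ?_⟩
  · rw [star_mul, star_star]
    calc u * star v * (v * star u) = u * (star v * v) * star u := by simp only [mul_assoc]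
      _ = e := by rw [hv1, mul_one, hu2]
  · rw [star_mul, star_star]
    calc v * star u * (u * star v) = v * (star u * u) * star v := by simp only [mul_assoc]
      _ = f := by rw [hu1, mul_one, hv2]

/-- Cuntz pair -/
theorem exists_cuntz (hA : FInf A) (hsep : ∀ a ∈ A, a ξ = 0 → a = 0) (hξ : ξ ≠ 0) :
    ∃ a ∈ A, ∃ b ∈ A, star a * a = 1 ∧ star b * b = 1 ∧ a * star a + b * star b = 1 ∧
      star a * b = 0 ∧ star b * a = 0 := by
  have h10 : (1 : H →L[ℂ] H) ≠ 0 := by
    intro h
    apply hξ
    have := congrArg (fun T : H →L[ℂ] H => T ξ) h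
    simpa using this
  have h1P : IsP A (1 : H →L[ℂ] H) := ⟨one_mem A, star_one _, one_mul _⟩
  obtain ⟨v, hv, hv1, -, hv2⟩ := hA.infinite 1 h1P h10
  have heP : IsP A (v * star v) := by
    refine ⟨mul_mem hv (star_mem hv), by rw [star_mul, star_star], ?_⟩
    calc v * star v * (v * star v) = v * (star v * v) * star v := by simp only [mul_assoc]
      _ = v * star v := by rw [hv1, mul_one]
  have he0 : v * star v ≠ 0 := by
    intro h
    apply h10
    calc (1 : H →L[ℂ] H) = star v * v * (star v * v) := by rw [hv1, mul_one]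
      _ = star v * (v * star v) * v := by simp only [mul_assoc]
      _ = 0 := by rw [h]; simp
  have hfP : IsP A (1 - v * star v) := by
    obtain ⟨a1, a2, a3⟩ := heP
    refine ⟨sub_mem (one_mem A) a1, by rw [star_sub, star_one, a2], ?_⟩
    rw [sub_mul, mul_sub, mul_sub, a3]; simp
  have hf0 : 1 - v * star v ≠ 0 := by
    intro h
    exact hv2 (sub_eq_zero.1 h).symm
  obtain ⟨a, ha, ha1, ha2⟩ := equiv_one hA hsep heP he0
  obtain ⟨b, hb, hb1, hb2⟩ := equiv_one hA hsep hfP hf0
  have hab : star a * b = 0 := by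
    calc star a * b = (star a * a) * star a * (b * (star b * b)) := by rw [ha1, hb1]; simp
      _ = star a * (a * star a) * (b * star b) * b := by simp only [mul_assoc]
      _ = star a * ((v * star v) * (1 - v * star v)) * b := by
          rw [ha2, hb2]; simp only [mul_assoc]
      _ = 0 := by rw [mul_sub, mul_one, heP.2.2]; simp
  refine ⟨a, ha, b, hb, ha1, hb1, by rw [ha2, hb2]; abel, hab, ?_⟩
  have := congrArg star hab
  simpa using this

/-- nonzero subprojections of small mass -/
theorem exists_small (hA : FInf A) (ξ : H) {e : H →L[ℂ] H} (he : IsP A e) (he0 : e ≠ 0)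
    {ε : ℝ} (hε : 0 < ε) : ∃ r, IsP A r ∧ r ≠ 0 ∧ e * r = r ∧ ‖r ξ‖ ≤ ε := by
  obtain ⟨p, x, hp, hpo, -⟩ := exists_seq hA he he0
  obtain ⟨r, -, -, hr1, -⟩ := exists_sum (A := A) (w := p) (fun n => (hp n).1.1)
    (fun n => by rw [(hp n).1.2.1, (hp n).1.2.2, (hp n).1.2.2])
    (fun m n h => by rw [(hp m).1.2.1]; exact hpo m n h)
    (fun m n h => by rw [(hp n).1.2.1]; exact hpo m n h)
  have h1 := (hr1 ξ).summable.tendsto_atTop_zero
  have h2 := (Metric.tendsto_atTop.1 h1) ε hε
  obtain ⟨N, hN⟩ := h2
  have h3 := hN N le_rfl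
  rw [dist_zero_right] at h3
  exact ⟨p N, (hp N).1, (hp N).2.1, (hp N).2.2, h3.le⟩

end Pool.Agent.Helper88.CS
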