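import Pool.Agent.Helper88.CS.Defs

/-!
# Project CS, module JUniq: uniqueness of the modular conjugation on the cone
-/

open scoped InnerProductSpace Topology BoundedContinuousFunction
open ContinuousLinearMap Filter MeasureTheory

namespace Pool.Agent.Helper88.CS

open Pool.Agent.Helper23
open Pool.Agent.Helper78.BC (Std rm Fixed)

variable {H : Type*} [NormedAddCommGroup H] [InnerProductSpace ℂ H] [CompleteSpace H]

variable {A : VonNeumannAlgebra H} {J : H →L[ℝ] H}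

namespace JUniqAux

open Pool.Agent.Helper43.TTF Pool.Agent.Helper23.TTA Pool.Agent.Helper70.U8

variable {κ : H}

/-- the operator `J x J` for a bare conjugation -/
noncomputable def cj (hJ : Conj A J) (x : H →L[ℂ] H) : H →L[ℂ] H :=
  LinearMap.mkContinuous
    { toFun := fun v => J (x (J v))
      map_add' := by intro v w; simp only [map_add]
      map_smul' := by
        intro c v
        rw [hJ.J_conj, map_smul, hJ.J_conj, Complex.conj_conj, RingHom.id_apply] } ‖x‖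
    (by
      intro v
      change ‖J (x (J v))‖ ≤ _
      rw [hJ.J_norm]
      refine (x.le_opNorm _).trans ?_
      rw [hJ.J_norm])

lemma cj_apply (hJ : Conj A J) (x : H →L[ℂ] H) (v : H) : cj hJ x v = J (x (J v)) := rfl

lemma inner_J (hJ : Conj A J) (v w : H) : ⟪J v, w⟫_ℂ = ⟪J w, v⟫_ℂ := by
  have h := hJ.J_inner v (J w)
  rwa [hJ.J_J] at h

lemma star_cj (hJ : Conj A J) (x : H →L[ℂ] H) : star (cj hJ x) = cj hJ (star x) := by
  apply ContinuousLinearMap.ext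
  intro v
  apply ext_inner_right ℂ
  intro w
  rw [inner_star_left, cj_apply, cj_apply, inner_J hJ, inner_star_right, ← hJ.J_inner, hJ.J_J]

lemma cj_mem (hJ : Conj A J) {a : H →L[ℂ] H} (ha : a ∈ A) : cj hJ a ∈ A.commutant := by
  rw [VonNeumannAlgebra.mem_commutant_iff]
  intro y hy
  apply ContinuousLinearMap.ext
  intro v
  rw [mul_apply_eq_comp, mul_apply_eq_comp, cj_apply, cj_apply, hJ.J_comm a ha y hy]

/-- all canonical data of a cyclic and separating unit vector -/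
lemma st_all {Ψ : (ℝ →ᵇ ℂ) →⋆ₐ[ℂ] (H →L[ℂ] H)} {R : H →L[ℂ] H} {D : H →L[ℝ] H}
    (hξ : ‖κ‖ = 1) (hcyc : Dense (orb A κ : Set H)) (hsep : ∀ a ∈ A, a κ = 0 → a = 0)
    (h' : TTData A κ R D) (hF : FC R D Ψ) (hJ : JD D Ψ J) : St A κ J Ψ R D := by
  have hcyc' : Dense (Pool.Agent.Helper23.orb A.commutant κ : Set H) :=
    Pool.Agent.Helper23.dense_of_separating A κ hsep
  have hmod := Pool.Agent.Helper43.TTF.modular_of h' hcyc hsep hF
  have happ : ∀ {B : VonNeumannAlgebra H}, Dense (Pool.Agent.Helper23.orb B κ : Set H) →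
      ∀ v : H, ∀ ε : ℝ, 0 < ε → ∃ a ∈ B, ‖a κ - v‖ < ε := by
    intro B hB v ε hε
    obtain ⟨w, ⟨a, ha, rfl⟩, hw⟩ := Metric.mem_closure_iff.1 (hB v) ε hε
    refine ⟨a, ha, ?_⟩
    rwa [dist_comm, dist_eq_norm] at hw
  have hcj : ∀ a ∈ A, hJ.cj a ∈ A.commutant := fun a ha =>
    Pool.Agent.Helper43.TTF.cj_mem h' hcyc hcyc' hF hJ ha
  have hcj' : ∀ b ∈ A.commutant, hJ.cj b ∈ A := by
    intro b hb
    have h1 := Pool.Agent.Helper43.TTF.cj_mem h'.symm hcyc'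
      (by rwa [VonNeumannAlgebra.commutant_commutant]) hF.symm hJ.symm hb
    rw [VonNeumannAlgebra.commutant_commutant] at h1
    exact h1
  refine ⟨⟨hξ, happ hcyc, happ hcyc', hsep, hJ.J_J, hJ.J_conj, hJ.J_norm, hJ.J_add_inner,
    Pool.Agent.Helper70.U8.J_xi h' hJ hmod, ?_, ?_,
    fun a ha => Pool.Agent.Helper78.BC.StdEx.J_pos' h' hF hJ ha,
    fun G G' hG v => Pool.Agent.Helper78.BC.StdEx.psi_J' h' hF hJ G G' hG v, hF.psi_cont,
    fun G G' hG a ha => Pool.Agent.Helper78.BC.StdEx.psi_half' h' hF hJ G G' hG ha,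
    fun G G' hG hG' θ ε hε =>
      Pool.Agent.Helper78.BC.StdEx.core' hmod hF hJ (happ hcyc) G G' hG hG' θ ε hε⟩,
    hmod, hJ, hcyc⟩
  · intro a ha y hy v
    have h1 : hJ.cj a * y = y * hJ.cj a :=
      (VonNeumannAlgebra.mem_commutant_iff.1 (hcj a ha) y hy).symm
    have h2 := congrArg (fun T : H →L[ℂ] H => T v) h1
    simp only [mul_apply_eq_comp, hJ.cj_apply] at h2
    exact h2
  · intro b hb
    refine ⟨hJ.cj b, hcj' b hb, fun v => ?_⟩
    rw [hJ.cj_apply, hJ.J_J, hJ.J_J]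

/-- `J R v = (2 - R) J v` for the canonical conjugation -/
lemma J_R {ξ : H} {Ψ : (ℝ →ᵇ ℂ) →⋆ₐ[ℂ] (H →L[ℂ] H)} {R : H →L[ℂ] H} {D : H →L[ℝ] H}
    (h : St A ξ J Ψ R D) (v : H) : J (R v) = (2 : ℂ) • J v - R (J v) := by
  have h1 := h.psi_J FR (2 - FR) (fun ρ => by
    have h3 : (2 : ℝ →ᵇ ℂ) ρ = 2 := rfl
    rw [BoundedContinuousFunction.sub_apply, FR_apply, FR_apply, h3, Complex.conj_ofReal]
    have h4 : (0 : ℝ) < Real.exp ρ := Real.exp_pos _
    have h5 : (2 : ℝ) - 2 / (1 + Real.exp ρ) = 2 / (1 + Real.exp (-ρ)) := by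
      rw [Real.exp_neg]
      field_simp
      ring
    rw [← h5]
    push_cast
    rfl) v
  rw [h.mod.psi_FR, map_sub, h.mod.psi_FR, Pool.Agent.Helper43.TTF.psi_two, sub_apply, smul_apply,
    one_apply_eq_self] at h1
  exact h1

lemma J_D {ξ : H} {Ψ : (ℝ →ᵇ ℂ) →⋆ₐ[ℂ] (H →L[ℂ] H)} {R : H →L[ℂ] H} {D : H →L[ℝ] H}
    (h : St A ξ J Ψ R D) (v : H) : J (D v) = D (J v) := by
  rw [← h.jd.T_J v, ← h.jd.J_T (J v)]

/-- uniqueness of the operators of Rieffel and van Daele -/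
lemma uniq {R' : H →L[ℂ] H} {D' : H →L[ℝ] H}
    (hconj : ∀ (c : ℂ) (v : H), D' (c • v) = (starRingEnd ℂ) c • D' v)
    (h1 : ∀ a ∈ A, D' (a κ) = (2 : ℂ) • (star a) κ - R' ((star a) κ))
    (h2 : ∀ a ∈ A.commutant, D' (a κ) = R' ((star a) κ))
    (key : ∀ v, P A κ v = 0 →
      v ∈ closure {x : H | ∃ b ∈ A.commutant, star b = b ∧ x = Complex.I • b κ}) (v : H) :
    R' v = Rop A κ v ∧ D' v = Dop A κ v := by
  have hK : ∀ u ∈ K A κ, R' u + D' u = (2 : ℂ) • u := by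
    intro u hu
    have hcl : IsClosed {u : H | R' u + D' u = (2 : ℂ) • u} :=
      isClosed_eq (by fun_prop) (by fun_prop)
    have hsub : (TTA.K0 A κ : Set H) ⊆ {u : H | R' u + D' u = (2 : ℂ) • u} := by
      rintro _ ⟨a, ha, ha', rfl⟩
      change R' (a κ) + D' (a κ) = (2 : ℂ) • a κ
      rw [h1 a ha, ha']
      abel
    exact closure_minimal hsub hcl hu
  have h0 : ∀ u, P A κ u = 0 → R' u + D' u = 0 := by
    intro u hu
    have hcl : IsClosed {u : H | R' u + D' u = 0} :=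
      isClosed_eq (by fun_prop) (by fun_prop)
    have hsub : {x : H | ∃ b ∈ A.commutant, star b = b ∧ x = Complex.I • b κ} ⊆
        {u : H | R' u + D' u = 0} := by
      rintro _ ⟨b, hb, hb', rfl⟩
      change R' (Complex.I • b κ) + D' (Complex.I • b κ) = 0
      rw [hconj, h2 b hb, hb', map_smul, Complex.conj_I, neg_smul, add_neg_cancel]
    exact closure_minimal hsub hcl (key u hu)
  have hP : ∀ u, R' u + D' u = (2 : ℂ) • P A κ u := by
    intro u
    have e1 := hK _ (P_mem A κ u)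
    have e2 := h0 (u - P A κ u) (by rw [map_sub, P_P, sub_self])
    rw [map_sub, map_sub] at e2
    calc R' u + D' u = (R' u - R' (P A κ u) + (D' u - D' (P A κ u))) +
          (R' (P A κ u) + D' (P A κ u)) := by abel
      _ = _ := by rw [e2, e1, zero_add]
  have hQ : R' v - D' v = (2 : ℂ) • Q A κ v := by
    have e1 := hP (Complex.I • v)
    rw [hconj, map_smul, Complex.conj_I, ← I_smul_Q, smul_comm (2 : ℂ) Complex.I, neg_smul,
      ← sub_eq_add_neg, ← smul_sub] at e1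
    exact smul_right_injective H Complex.I_ne_zero e1
  have hP' := hP v
  have h3 : (2 : ℂ) • R' v = (2 : ℂ) • Rop A κ v := by
    rw [Rop_apply, smul_add, ← hP', ← hQ, two_smul]
    abel
  have h4 : (2 : ℂ) • D' v = (2 : ℂ) • Dop A κ v := by
    rw [Dop_apply, smul_sub, ← hP', ← hQ, two_smul]
    abel
  exact ⟨smul_right_injective H two_ne_zero h3, smul_right_injective H two_ne_zero h4⟩

/-- the orthogonal complement of the closure of the selfadjoint part -/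
lemma key {J₀ : H →L[ℝ] H} {Ψ : (ℝ →ᵇ ℂ) →⋆ₐ[ℂ] (H →L[ℂ] H)}
    (h : St A κ J₀ Ψ (Rop A κ) (Dop A κ)) (v : H) (hv : P A κ v = 0) :
      v ∈ closure {x : H | ∃ b ∈ A.commutant, star b = b ∧ x = Complex.I • b κ} := by
  have hw : P A κ (J₀ (Complex.I • v)) = J₀ (Complex.I • v) := by
    have e1 : (2 : ℂ) • P A κ (J₀ (Complex.I • v)) =
        Rop A κ (J₀ (Complex.I • v)) + Dop A κ (J₀ (Complex.I • v)) := by
      rw [Rop_apply, Dop_apply, two_smul]
      abel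
    have e2 : Rop A κ (J₀ (Complex.I • v)) =
        (2 : ℂ) • J₀ (Complex.I • v) - J₀ (Rop A κ (Complex.I • v)) := by
      rw [J_R h]
      abel
    have e3 : Dop A κ (Complex.I • v) = Rop A κ (Complex.I • v) := by
      rw [Rop_apply, Dop_apply, Q_I_smul, hv, smul_zero, sub_zero, add_zero]
    rw [← J_D h, e2, e3] at e1
    have e4 : (2 : ℂ) • P A κ (J₀ (Complex.I • v)) = (2 : ℂ) • J₀ (Complex.I • v) := by
      rw [e1]
      abel
    exact smul_right_injective H two_ne_zero e4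
  have hwK : J₀ (Complex.I • v) ∈ closure (TTA.K0 A κ : Set H) := by
    have := P_mem A κ (J₀ (Complex.I • v))
    rwa [hw] at this
  have hc : Continuous fun w : H => (-Complex.I) • J₀ w := by fun_prop
  have h1 : (-Complex.I) • J₀ (J₀ (Complex.I • v)) ∈
      closure ((fun w : H => (-Complex.I) • J₀ w) '' (TTA.K0 A κ : Set H)) :=
    image_closure_subset_closure_image hc ⟨_, hwK, rfl⟩
  rw [h.J_J, smul_smul, neg_mul, Complex.I_mul_I, neg_neg, one_smul] at h1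
  refine closure_mono ?_ h1
  rintro _ ⟨_, ⟨a, ha, ha', rfl⟩, rfl⟩
  refine ⟨-(cj h.conj a), ?_, ?_, ?_⟩
  · exact neg_mem (cj_mem h.conj ha)
  · rw [star_neg, star_cj, ha']
  · change (-Complex.I) • J₀ (a κ) = Complex.I • (-(J₀ (a (J₀ κ))))
    rw [h.J_xi, neg_smul, smul_neg]

/-- a bare conjugation fixing `κ` intertwines as the canonical one -/
lemma bare {J₀ : H →L[ℝ] H} {Ψ : (ℝ →ᵇ ℂ) →⋆ₐ[ℂ] (H →L[ℂ] H)}
    (h : St A κ J₀ Ψ (Rop A κ) (Dop A κ)) (hJ : Conj A J) (hκ : J κ = κ) (v : H) :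
    J (Rop A κ v) = (2 : ℂ) • J v - Rop A κ (J v) ∧ J (Dop A κ v) = Dop A κ (J v) := by
  have h2c : ∀ v : H, J ((2 : ℂ) • v) = (2 : ℂ) • J v := by
    intro v
    have := hJ.J_conj 2 v
    rwa [Complex.conj_ofNat] at this
  have hu := uniq (A := A) (κ := κ) (R' := (2 : ℂ) • (1 : H →L[ℂ] H) - cj hJ (Rop A κ))
    (D' := J.comp ((Dop A κ).comp J)) ?_ ?_ ?_ (key h)
  · have e1 := (hu (J v)).1
    have e2 := (hu (J v)).2
    constructor
    · rw [sub_apply, smul_apply, one_apply_eq_self, cj_apply, hJ.J_J] at e1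
      rw [← e1]
      abel
    · change J (Dop A κ (J (J v))) = _ at e2
      rwa [hJ.J_J] at e2
  · intro c v
    change J (Dop A κ (J (c • v))) = (starRingEnd ℂ) c • J (Dop A κ (J v))
    rw [hJ.J_conj, h.mod.data.D_conj, hJ.J_conj, Complex.conj_conj]
  · intro a ha
    change J (Dop A κ (J (a κ))) = _
    have e1 : J (a κ) = cj hJ a κ := by rw [cj_apply, hκ]
    rw [e1, h.mod.data.D_comm _ (cj_mem hJ ha), star_cj, cj_apply, hκ, sub_apply, smul_apply,
      one_apply_eq_self, cj_apply]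
    abel
  · intro b hb
    change J (Dop A κ (J (b κ))) = _
    obtain ⟨a, ha, hab⟩ := hJ.J_mem b hb
    have e0 : b = cj hJ a := by
      apply ContinuousLinearMap.ext
      intro v
      rw [hab, cj_apply]
    rw [e0, star_cj, cj_apply, cj_apply, hκ, hJ.J_J, h.mod.data.D_mem a ha, map_sub, h2c,
      sub_apply, smul_apply, one_apply_eq_self, cj_apply, hJ.J_J]

/-- uniqueness of the conjugation -/
lemma J_eq {J₀ : H →L[ℝ] H} {Ψ : (ℝ →ᵇ ℂ) →⋆ₐ[ℂ] (H →L[ℂ] H)}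
    (h : St A κ J₀ Ψ (Rop A κ) (Dop A κ)) (hJ : Conj A J) (hκ : J κ = κ)
    (hpos : ∀ a ∈ A, 0 ≤ (⟪J (a κ), (star a) κ⟫_ℂ).re) : J = J₀ := by
  have hF : FC (Rop A κ) (Dop A κ) Ψ := ⟨h.mod.psi_FR, h.mod.psi_comm, h.mod.psi_D, h.mod.psi_cont⟩
  -- the unitary `V = J J₀`
  let V : H →L[ℂ] H := LinearMap.mkContinuous
    { toFun := fun v => J (J₀ v)
      map_add' := by intro v w; simp only [map_add]
      map_smul' := by
        intro c v
        rw [h.J_conj, hJ.J_conj, Complex.conj_conj, RingHom.id_apply] } 1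
    (by
      intro v
      change ‖J (J₀ v)‖ ≤ _
      rw [hJ.J_norm, h.J_norm, one_mul])
  have hV : ∀ v, V v = J (J₀ v) := fun v => rfl
  have hJ2 : ∀ v : H, J ((2 : ℂ) • v) = (2 : ℂ) • J v := by
    intro v
    have := hJ.J_conj 2 v
    rwa [Complex.conj_ofNat] at this
  have hVR : ∀ v, V (Rop A κ v) = Rop A κ (V v) := by
    intro v
    rw [hV, hV, J_R h, map_sub, hJ2, (bare h hJ hκ (J₀ v)).1]
    abel
  have hVD : ∀ v, V (Dop A κ v) = Dop A κ (V v) := by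
    intro v
    rw [hV, hV, J_D h, (bare h hJ hκ (J₀ v)).2]
  have hVpsi : ∀ (G : ℝ →ᵇ ℂ) (v : H), V (Ψ G v) = Ψ G (V v) := by
    intro G v
    have e1 := h.mod.psi_comm V (by
      apply ContinuousLinearMap.ext
      intro w
      rw [mul_apply_eq_comp, mul_apply_eq_comp, hVR]) G
    have e2 := congrArg (fun T : H →L[ℂ] H => T v) e1
    simpa only [mul_apply_eq_comp] using e2
  have hVJ : ∀ v, V (J₀ v) = J₀ (V v) := by
    refine Pool.Agent.Helper78.BC.StdEx.ext_dense h.mod.data hF (fun v => V (J₀ v) = J₀ (V v))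
      (isClosed_eq (by fun_prop) (by fun_prop)) (fun v => ?_)
    rw [h.jd.J_T, hVD, hVpsi, h.jd.J_T]
  have hVV : ∀ v, V (V v) = v := by
    intro v
    rw [hV (V v), ← hVJ, hV, h.J_J, hJ.J_J]
  -- positivity of `V`
  have hcut : ∀ (n : ℕ) (θ : H), 0 ≤ (⟪V (Ψ (ctB n) θ), Ψ (ctB n) θ⟫_ℂ).re := by
    intro n θ
    have hcs : HasCompactSupport (ctB n) := by
      refine HasCompactSupport.of_support_subset_isCompact
        (isCompact_Icc (a := -((n : ℝ) + 1)) (b := (n : ℝ) + 1)) ?_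
      intro ρ hρ
      rw [Function.mem_support] at hρ
      rw [Set.mem_Icc, ← abs_le]
      by_contra hc
      push Not at hc
      exact hρ (by rw [ctB_apply, ct_zero hc.le, Complex.ofReal_zero])
    have hex : ∀ c : ℝ, ∃ G : ℝ →ᵇ ℂ, ∀ ρ, G ρ = ((Real.exp (c * ρ) : ℝ) : ℂ) * ctB n ρ := by
      intro c
      have hc : Continuous fun ρ : ℝ => ((Real.exp (c * ρ) : ℝ) : ℂ) * ctB n ρ := by fun_prop
      have hs : HasCompactSupport fun ρ : ℝ => ((Real.exp (c * ρ) : ℝ) : ℂ) * ctB n ρ :=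
        hcs.mul_left
      obtain ⟨C, hC⟩ := hs.exists_bound_of_continuous hc
      exact ⟨BoundedContinuousFunction.ofNormedAddCommGroup _ hc C hC, fun ρ => rfl⟩
    obtain ⟨G, hG⟩ := hex (-(1 / 4))
    obtain ⟨G', hG'⟩ := hex (1 / 4)
    have hGs : HasCompactSupport G := by
      have hs : HasCompactSupport fun ρ : ℝ => ((Real.exp (-(1 / 4) * ρ) : ℝ) : ℂ) * ctB n ρ :=
        hcs.mul_left
      have e : (G : ℝ → ℂ) = fun ρ : ℝ => ((Real.exp (-(1 / 4) * ρ) : ℝ) : ℂ) * ctB n ρ :=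
        funext hG
      rwa [← e] at hs
    have hGG : ∀ ρ, G' ρ = ((Real.exp (ρ / 2) : ℝ) : ℂ) * G ρ := by
      intro ρ
      rw [hG, hG', ← mul_assoc, ← Complex.ofReal_mul, ← Real.exp_add]
      congr 3
      ring
    have hpos' : 0 ≤ (⟪V (Ψ G' θ), Ψ G θ⟫_ℂ).re := by
      have hc : ∀ m : ℕ, ∃ b ∈ A, ‖b κ - Ψ G θ‖ ≤ 1 / ((m : ℝ) + 1) ∧
          ‖J₀ ((star b) κ) - Ψ G' θ‖ ≤ 1 / ((m : ℝ) + 1) := fun m =>
        h.core G G' hGs hGG θ _ (by positivity)
      choose b hbA hb1 hb2 using hc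
      have t1 : Tendsto (fun m => b m κ) atTop (𝓝 (Ψ G θ)) :=
        tendsto_iff_norm_sub_tendsto_zero.2 (squeeze_zero (fun _ => norm_nonneg _) hb1
          tendsto_one_div_add_atTop_nhds_zero_nat)
      have t2 : Tendsto (fun m => J₀ ((star (b m)) κ)) atTop (𝓝 (Ψ G' θ)) :=
        tendsto_iff_norm_sub_tendsto_zero.2 (squeeze_zero (fun _ => norm_nonneg _) hb2
          tendsto_one_div_add_atTop_nhds_zero_nat)
      have t3 : Tendsto (fun m => (⟪V (J₀ ((star (b m)) κ)), b m κ⟫_ℂ).re) atTop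
          (𝓝 (⟪V (Ψ G' θ), Ψ G θ⟫_ℂ).re) :=
        (Complex.continuous_re.tendsto _).comp
          (((V.continuous.tendsto _).comp t2).inner t1)
      refine ge_of_tendsto' t3 fun m => ?_
      have e1 := hpos (star (b m)) (star_mem (hbA m))
      rw [star_star] at e1
      rwa [hV, h.J_J]
    have hstar : star G * G' = ctB n * ctB n := by
      ext ρ
      rw [BoundedContinuousFunction.mul_apply, BoundedContinuousFunction.mul_apply,
        BoundedContinuousFunction.star_apply, hG, hG', ctB_apply, Complex.star_def, map_mul,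
        Complex.conj_ofReal, Complex.conj_ofReal, mul_mul_mul_comm, ← Complex.ofReal_mul,
        ← Real.exp_add]
      have e1 : -(1 / 4) * ρ + 1 / 4 * ρ = 0 := by ring
      rw [e1, Real.exp_zero, Complex.ofReal_one, one_mul]
    have hsc : star (ctB n) = ctB n := by
      ext ρ
      rw [BoundedContinuousFunction.star_apply, ctB_apply, Complex.star_def, Complex.conj_ofReal]
    have e2 : ⟪V (Ψ G' θ), Ψ G θ⟫_ℂ = ⟪V (Ψ (ctB n) θ), Ψ (ctB n) θ⟫_ℂ := by
      have s1 : ⟪V (Ψ G' θ), Ψ G θ⟫_ℂ = ⟪V (Ψ (star G * G') θ), θ⟫_ℂ := by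
        rw [hVpsi, hVpsi, Pool.Agent.Helper43.TTF.psi_mul_apply, psi_star Ψ (star G), star_star]
      have s2 : ⟪V (Ψ (ctB n) θ), Ψ (ctB n) θ⟫_ℂ = ⟪V (Ψ (ctB n * ctB n) θ), θ⟫_ℂ := by
        rw [hVpsi, hVpsi, Pool.Agent.Helper43.TTF.psi_mul_apply, psi_star Ψ (ctB n) (Ψ (ctB n) (V θ)), hsc]
      rw [s1, s2, hstar]
    rwa [e2] at hpos'
  have hVpos : ∀ w : H, 0 ≤ (⟪V w, w⟫_ℂ).re := by
    intro w
    have t1 := tendsto_ct hF w
    have t2 : Tendsto (fun n => (⟪V (Ψ (ctB n) w), Ψ (ctB n) w⟫_ℂ).re) atTop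
        (𝓝 (⟪V w, w⟫_ℂ).re) :=
      (Complex.continuous_re.tendsto _).comp (((V.continuous.tendsto _).comp t1).inner t1)
    exact ge_of_tendsto' t2 fun n => hcut n w
  have hV1 : ∀ w : H, V w = w := by
    intro w
    have e1 := hVpos (w - V w)
    rw [map_sub, hVV] at e1
    have e2 : V w - w = -(w - V w) := by abel
    rw [e2, inner_neg_left, Complex.neg_re, inner_self_eq_norm_sq_to_K] at e1
    have e3 : (((‖w - V w‖ : ℂ)) ^ 2).re = ‖w - V w‖ ^ 2 := by norm_cast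
    have e4 : 0 ≤ -(‖w - V w‖ ^ 2) := e3 ▸ e1
    have e5 : ‖w - V w‖ = 0 := by nlinarith [norm_nonneg (w - V w)]
    exact (sub_eq_zero.1 (norm_eq_zero.1 e5)).symm
  apply ContinuousLinearMap.ext
  intro w
  have e1 := hV1 (J₀ w)
  rwa [hV, h.J_J] at e1

end JUniqAux

open JUniqAux in
/-- existence of the standard form -/
theorem exists_st' {κ : H} (h1 : ‖κ‖ = 1) (hcyc : Dense (orb A κ : Set H))
    (hsep : ∀ a ∈ A, a κ = 0 → a = 0) :
    ∃ (J : H →L[ℝ] H) (Ψ : (ℝ →ᵇ ℂ) →⋆ₐ[ℂ] (H →L[ℂ] H)) (R : H →L[ℂ] H) (D : H →L[ℝ] H),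
      St A κ J Ψ R D := by
  have h' := Pool.Agent.Helper43.TTF.ttdata A κ hcyc hsep
  obtain ⟨Ψ, hF⟩ := Pool.Agent.Helper43.TTF.exists_FC h'
  obtain ⟨J, hJ⟩ := hF.exists_J h'
  exact ⟨J, Ψ, _, _, st_all h1 hcyc hsep h' hF hJ⟩

open JUniqAux in
/-- If `κ` is cyclic and separating, `J κ = κ` and `κ` is positive then `J` is the modular
conjugation of `κ`. -/
theorem exists_st (hJ : Conj A J) {κ : H} (h1 : ‖κ‖ = 1) (hcyc : Dense (orb A κ : Set H))
    (hsep : ∀ a ∈ A, a κ = 0 → a = 0) (hκ : J κ = κ)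
    (hpos : ∀ a ∈ A, 0 ≤ (⟪J (a κ), (star a) κ⟫_ℂ).re) :
    ∃ (Ψ : (ℝ →ᵇ ℂ) →⋆ₐ[ℂ] (H →L[ℂ] H)) (R : H →L[ℂ] H) (D : H →L[ℝ] H), St A κ J Ψ R D := by
  have h' := Pool.Agent.Helper43.TTF.ttdata A κ hcyc hsep
  obtain ⟨Ψ, hF⟩ := Pool.Agent.Helper43.TTF.exists_FC h'
  obtain ⟨J₀, hJ₀⟩ := hF.exists_J h'
  have hst := st_all h1 hcyc hsep h' hF hJ₀
  have hJJ := J_eq hst hJ hκ hpos
  subst hJJ
  exact ⟨Ψ, _, _, hst⟩

end Pool.Agent.Helper88.CS
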