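import Pool.Agent.Helper88.CS.Cent
import Pool.Agent.Helper88.CS.Equiv

/-!
# Project CS, module CornerSpec: full spectrum of the corners of the centralizer
-/

open scoped InnerProductSpace Topology BoundedContinuousFunction
open ContinuousLinearMap Filter MeasureTheory

namespace Pool.Agent.Helper88.CS

open Pool.Agent.Helper23
open Pool.Agent.Helper78.BC (Std rm Fixed)

variable {H : Type*} [NormedAddCommGroup H] [InnerProductSpace ℂ H] [CompleteSpace H]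

variable {A : VonNeumannAlgebra H} {ξ : H} {J : H →L[ℝ] H}
  {Ψ : (ℝ →ᵇ ℂ) →⋆ₐ[ℂ] (H →L[ℂ] H)} {R : H →L[ℂ] H} {D : H →L[ℝ] H}

namespace CornerSpecAux

open Pool.Agent.Helper78.BC.FixAux (Pl Pl_apply plat mm_zero norm_Pl_le Pl_tendsto)

theorem psiv (Ψ : (ℝ →ᵇ ℂ) →⋆ₐ[ℂ] (H →L[ℂ] H)) (G : ℝ →ᵇ ℂ) (v : H) :
    ‖Ψ G v‖ ≤ ‖G‖ * ‖v‖ :=
  ((Ψ G).le_opNorm v).trans (mul_le_mul_of_nonneg_right
    (NonUnitalStarAlgHom.norm_apply_le Ψ G) (norm_nonneg _))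

theorem psi_mul' (Ψ : (ℝ →ᵇ ℂ) →⋆ₐ[ℂ] (H →L[ℂ] H)) (G G' : ℝ →ᵇ ℂ) (v : H) :
    Ψ (G * G') v = Ψ G (Ψ G' v) := by
  rw [map_mul]
  rfl

/-- the regularized inverse of a continuous function -/
theorem exists_inv (f : ℝ → ℂ) (hf : Continuous f) {m : ℝ} (hm : 0 < m) :
    ∃ p : ℝ →ᵇ ℂ, ∀ ρ, m ≤ ‖f ρ‖ → f ρ * p ρ = 1 := by
  have hpos : ∀ ρ, 0 < max (‖f ρ‖ ^ 2) (m ^ 2) := fun ρ =>
    lt_max_of_lt_right (by positivity)
  have hc : Continuous fun ρ : ℝ =>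
      (starRingEnd ℂ) (f ρ) / (((max (‖f ρ‖ ^ 2) (m ^ 2) : ℝ)) : ℂ) := by
    refine Continuous.div (Complex.continuous_conj.comp hf)
      (Complex.continuous_ofReal.comp (by fun_prop)) fun ρ => ?_
    exact_mod_cast (hpos ρ).ne'
  have hb : ∀ ρ : ℝ,
      ‖(starRingEnd ℂ) (f ρ) / (((max (‖f ρ‖ ^ 2) (m ^ 2) : ℝ)) : ℂ)‖ ≤ 1 / m := by
    intro ρ
    rw [norm_div, RCLike.norm_conj, Complex.norm_real, Real.norm_of_nonneg (hpos ρ).le,
      div_le_div_iff₀ (hpos ρ) hm, one_mul]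
    rcases le_or_gt m ‖f ρ‖ with h | h
    · refine le_trans ?_ (le_max_left _ _)
      nlinarith [norm_nonneg (f ρ)]
    · refine le_trans ?_ (le_max_right _ _)
      nlinarith [norm_nonneg (f ρ)]
  refine ⟨BoundedContinuousFunction.ofNormedAddCommGroup _ hc (1 / m) hb, fun ρ hρ => ?_⟩
  change f ρ * ((starRingEnd ℂ) (f ρ) / (((max (‖f ρ‖ ^ 2) (m ^ 2) : ℝ)) : ℂ)) = 1
  have h1 : m ^ 2 ≤ ‖f ρ‖ ^ 2 := by
    have := hm.le
    gcongr
  rw [max_eq_left h1, ← mul_div_assoc, Complex.mul_conj, Complex.normSq_eq_norm_sq, div_self]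
  have h2 : (0 : ℝ) < ‖f ρ‖ ^ 2 := lt_of_lt_of_le (by positivity) h1
  exact_mod_cast h2.ne'

theorem Pl_compact (n : ℕ) : HasCompactSupport (Pl n) := by
  refine HasCompactSupport.intro (isCompact_Icc (a := -((n : ℝ) + 1)) (b := (n : ℝ) + 1))
    fun ρ hρ => ?_
  have h1 : (n : ℝ) + 1 - |ρ| ≤ 0 := by
    by_contra hh
    refine hρ ⟨?_, ?_⟩ <;> [have := neg_abs_le ρ; have := le_abs_self ρ] <;> linarith
  rw [Pl_apply, plat, mm_zero h1, Complex.ofReal_zero]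

/-- multiplication of a compactly supported function by a continuous function -/
theorem exists_mul (f : ℝ → ℂ) (hf : Continuous f) (G : ℝ →ᵇ ℂ) (hG : HasCompactSupport G) :
    ∃ F : ℝ →ᵇ ℂ, (∀ ρ, F ρ = f ρ * G ρ) ∧ HasCompactSupport F := by
  have hc : Continuous fun ρ : ℝ => f ρ * G ρ := by fun_prop
  have hs : HasCompactSupport fun ρ : ℝ => f ρ * G ρ := hG.mul_left
  obtain ⟨C, hC⟩ := hs.exists_bound_of_continuous hc
  exact ⟨BoundedContinuousFunction.ofNormedAddCommGroup _ hc C hC, fun ρ => rfl, hs⟩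

/-- the spectral estimate -/
theorem est (h : St A ξ J Ψ R D) {b : H →L[ℂ] H} (hb : b ∈ A) {l κ : ℝ}
    (hκ : 0 ≤ κ) (he : ∀ w ∈ A, ‖⟪J ((star w) ξ), J ((star b) ξ)⟫_ℂ - (l : ℂ) * ⟪w ξ, b ξ⟫_ℂ‖ ≤
      κ * ‖w ξ‖) {G F : ℝ →ᵇ ℂ} (hG : HasCompactSupport G)
    (hF : ∀ ρ, F ρ = ((Real.exp ρ : ℝ) : ℂ) * G ρ - (l : ℂ) * G ρ) :
    ‖Ψ F (b ξ)‖ ≤ κ * ‖G‖ := by
  set θ := Ψ F (b ξ) with hθ
  have hGs : HasCompactSupport (star G : ℝ →ᵇ ℂ) := by
    refine HasCompactSupport.intro hG fun ρ hρ => ?_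
    rw [BoundedContinuousFunction.star_apply, image_eq_zero_of_notMem_tsupport hρ, star_zero]
  obtain ⟨G1, hG1, hG1c⟩ := exists_mul (fun ρ => ((Real.exp (ρ / 2) : ℝ) : ℂ))
    (by fun_prop) (star G) hGs
  obtain ⟨G2, hG2, hG2c⟩ := exists_mul (fun ρ => ((Real.exp ρ : ℝ) : ℂ)) (by fun_prop) G hG
  -- the inner products
  have e1 : ⟪Ψ (star G) θ, b ξ⟫_ℂ = ⟪θ, Ψ G (b ξ)⟫_ℂ := by
    rw [map_star, ContinuousLinearMap.star_eq_adjoint, ContinuousLinearMap.adjoint_inner_left]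
  have e2 : ⟪Ψ G1 θ, J ((star b) ξ)⟫_ℂ = ⟪θ, Ψ G2 (b ξ)⟫_ℂ := by
    have h1 : ⟪Ψ G1 θ, J ((star b) ξ)⟫_ℂ = ⟪θ, Ψ (star G1) (J ((star b) ξ))⟫_ℂ := by
      rw [map_star, ContinuousLinearMap.star_eq_adjoint (Ψ G1),
        ContinuousLinearMap.adjoint_inner_right]
    rw [h1, h.psi_half (star G1) G2 (fun ρ => ?_) b hb]
    rw [hG2, BoundedContinuousFunction.star_apply, hG1, star_mul',
      BoundedContinuousFunction.star_apply, star_star, Complex.star_def, Complex.conj_ofReal,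
      ← mul_assoc, ← Complex.ofReal_mul, ← Real.exp_add, add_halves]
  have e3 : F = G2 - (l : ℂ) • G := by
    ext ρ
    rw [BoundedContinuousFunction.sub_apply, BoundedContinuousFunction.smul_apply, hF, hG2,
      smul_eq_mul]
  have e4 : ⟪θ, θ⟫_ℂ = ⟪Ψ G1 θ, J ((star b) ξ)⟫_ℂ - (l : ℂ) * ⟪Ψ (star G) θ, b ξ⟫_ℂ := by
    rw [e1, e2]
    nth_rewrite 2 [hθ]
    rw [e3, map_sub, map_smul, ContinuousLinearMap.sub_apply, ContinuousLinearMap.smul_apply,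
      inner_sub_right, inner_smul_right]
  -- the limit
  have e5 : ‖⟪Ψ G1 θ, J ((star b) ξ)⟫_ℂ - (l : ℂ) * ⟪Ψ (star G) θ, b ξ⟫_ℂ‖ ≤
      κ * ‖Ψ (star G) θ‖ := by
    have hex : ∀ n : ℕ, ∃ w ∈ A, ‖w ξ - Ψ (star G) θ‖ ≤ 1 / ((n : ℝ) + 1) ∧
        ‖J ((star w) ξ) - Ψ G1 θ‖ ≤ 1 / ((n : ℝ) + 1) := fun n =>
      h.core (star G) G1 hGs hG1 θ _ (by positivity)
    choose w hwA hw1 hw2 using hex
    have hz : Tendsto (fun n : ℕ => 1 / ((n : ℝ) + 1)) atTop (𝓝 0) :=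
      tendsto_one_div_add_atTop_nhds_zero_nat
    have t1 : Tendsto (fun n => w n ξ) atTop (𝓝 (Ψ (star G) θ)) := by
      rw [tendsto_iff_norm_sub_tendsto_zero]
      exact squeeze_zero (fun n => norm_nonneg _) hw1 hz
    have t2 : Tendsto (fun n => J ((star (w n)) ξ)) atTop (𝓝 (Ψ G1 θ)) := by
      rw [tendsto_iff_norm_sub_tendsto_zero]
      exact squeeze_zero (fun n => norm_nonneg _) hw2 hz
    refine le_of_tendsto_of_tendsto' (((t2.inner tendsto_const_nhds).sub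
      ((t1.inner tendsto_const_nhds).const_mul (l : ℂ))).norm) (t1.norm.const_mul κ)
      fun n => he (w n) (hwA n)
  rw [← e4, inner_self_eq_norm_sq_to_K] at e5
  have e6 : ‖θ‖ * ‖θ‖ ≤ κ * (‖G‖ * ‖θ‖) := by
    have h1 : ‖((‖θ‖ : ℂ)) ^ 2‖ = ‖θ‖ * ‖θ‖ := by
      rw [norm_pow, Complex.norm_real, norm_norm, sq]
    have h2 : ‖Ψ (star G) θ‖ ≤ ‖G‖ * ‖θ‖ := by
      refine (psiv Ψ (star G) θ).trans ?_
      rw [norm_star]
    calc ‖θ‖ * ‖θ‖ = ‖((‖θ‖ : ℂ)) ^ 2‖ := h1.symm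
      _ ≤ κ * ‖Ψ (star G) θ‖ := e5
      _ ≤ κ * (‖G‖ * ‖θ‖) := mul_le_mul_of_nonneg_left h2 hκ
  rcases (norm_nonneg θ).eq_or_lt with h0 | h0
  · rw [← h0]
    positivity
  · refine le_of_mul_le_mul_right ?_ h0
    linarith

/-- all vectors orthogonal to the spectral point vanish -/
theorem norm_le_of (h : St A ξ J Ψ R D) (γ : ℝ) (G : ℝ →ᵇ ℂ) (hG : G γ ≠ 0) :
    ∃ C : ℝ, 0 ≤ C ∧ ∀ b ∈ A, Ψ G (b ξ) = 0 → ∀ κ : ℝ, 0 ≤ κ →
      (∀ w ∈ A, ‖⟪J ((star w) ξ), J ((star b) ξ)⟫_ℂ -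
        ((Real.exp γ : ℝ) : ℂ) * ⟪w ξ, b ξ⟫_ℂ‖ ≤ κ * ‖w ξ‖) → ‖b ξ‖ ≤ κ * C := by
  have hm : 0 < ‖G γ‖ / 2 := by
    have := norm_pos_iff.2 hG
    positivity
  -- a neighbourhood of `e ^ γ`
  have hc : ContinuousAt (fun t : ℝ => ‖G (Real.log t)‖) (Real.exp γ) := by
    refine (G.continuous.norm.continuousAt).comp ?_
    exact Real.continuousAt_log (Real.exp_pos γ).ne'
  have hlt : ‖G γ‖ / 2 < ‖G (Real.log (Real.exp γ))‖ := by
    rw [Real.log_exp]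
    linarith
  obtain ⟨m', hm', hball⟩ := Metric.eventually_nhds_iff.1 (hc.eventually (lt_mem_nhds hlt))
  obtain ⟨p, hp⟩ := exists_inv (fun ρ => G ρ) G.continuous hm
  obtain ⟨r, hr⟩ := exists_inv (fun ρ => ((Real.exp ρ - Real.exp γ : ℝ) : ℂ))
    (Complex.continuous_ofReal.comp (by fun_prop)) hm'
  set G4 : ℝ →ᵇ ℂ := r * (1 - G * p) with hG4
  have key : ∀ ρ, 1 = G ρ * p ρ + ((Real.exp ρ - Real.exp γ : ℝ) : ℂ) * G4 ρ := by
    intro ρ
    have h1 : G4 ρ = r ρ * (1 - G ρ * p ρ) := rfl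
    rw [h1]
    by_cases hρ : m' ≤ ‖((Real.exp ρ - Real.exp γ : ℝ) : ℂ)‖
    · rw [← mul_assoc, hr ρ hρ]
      ring
    · have h2 : ‖G γ‖ / 2 ≤ ‖G ρ‖ := by
        have h3 := @hball (Real.exp ρ) (by
          rw [Real.dist_eq]
          rw [Complex.norm_real, Real.norm_eq_abs] at hρ
          exact not_le.1 hρ)
        rw [Real.log_exp] at h3
        exact h3.le
      rw [hp ρ h2]
      ring
  refine ⟨‖G4‖, norm_nonneg _, fun b hb hzero κ hκ he => ?_⟩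
  have hbound : ∀ n : ℕ, ‖Ψ (Pl n) (b ξ)‖ ≤ κ * ‖G4‖ := by
    intro n
    have hcs : HasCompactSupport (G4 * Pl n : ℝ →ᵇ ℂ) := by
      refine HasCompactSupport.intro (Pl_compact n) fun ρ hρ => ?_
      rw [BoundedContinuousFunction.mul_apply, image_eq_zero_of_notMem_tsupport hρ, mul_zero]
    obtain ⟨F, hF, -⟩ := exists_mul (fun ρ => ((Real.exp ρ - Real.exp γ : ℝ) : ℂ))
      (Complex.continuous_ofReal.comp (by fun_prop)) (G4 * Pl n) hcs
    have h1 := est h hb (l := Real.exp γ) hκ he (G := G4 * Pl n) (F := F) hcs (fun ρ => by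
      rw [hF, Complex.ofReal_sub]
      ring)
    have h2 : Pl n = (p * Pl n) * G + F := by
      ext ρ
      rw [BoundedContinuousFunction.add_apply, BoundedContinuousFunction.mul_apply,
        BoundedContinuousFunction.mul_apply, hF, BoundedContinuousFunction.mul_apply]
      have h3 := key ρ
      linear_combination (Pl n ρ) * h3
    rw [h2, map_add, ContinuousLinearMap.add_apply, psi_mul', hzero, map_zero, zero_add]
    refine h1.trans (mul_le_mul_of_nonneg_left ?_ hκ)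
    exact (norm_mul_le _ _).trans (mul_le_of_le_one_right (norm_nonneg _) (norm_Pl_le n))
  have hlim := h.psi_cont (fun n => Pl n) 1 1 norm_Pl_le Pl_tendsto (b ξ)
  rw [map_one, ContinuousLinearMap.one_apply] at hlim
  exact le_of_tendsto' hlim.norm hbound

theorem norm_proj_le {q : H →L[ℂ] H} (h1 : star q = q) (h2 : q * q = q) (v : H) :
    ‖q v‖ ≤ ‖v‖ := by
  have h3 : ⟪q v, q v⟫_ℂ = ⟪v, q v⟫_ℂ := by
    have h4 : ⟪q v, q v⟫_ℂ = ⟪v, (star q) (q v)⟫_ℂ := by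
      rw [ContinuousLinearMap.star_eq_adjoint, ContinuousLinearMap.adjoint_inner_right]
    rw [h4, h1]
    have h5 : q (q v) = q v := congrArg (fun T : H →L[ℂ] H => T v) h2
    rw [h5]
  have h6 : ‖q v‖ * ‖q v‖ ≤ ‖v‖ * ‖q v‖ := by
    calc ‖q v‖ * ‖q v‖ = ‖⟪q v, q v⟫_ℂ‖ := by
          rw [inner_self_eq_norm_sq_to_K, norm_pow, RCLike.norm_ofReal, abs_norm, sq]
      _ = ‖⟪v, q v⟫_ℂ‖ := by rw [h3]
      _ ≤ ‖v‖ * ‖q v‖ := norm_inner_le_norm _ _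
  rcases (norm_nonneg (q v)).eq_or_lt with h0 | h0
  · rw [← h0]
    exact norm_nonneg _
  · exact le_of_mul_le_mul_right h6 h0

theorem norm_iso {u : H →L[ℂ] H} (h1 : star u * u = 1) (v : H) : ‖u v‖ = ‖v‖ := by
  have h3 : ⟪u v, u v⟫_ℂ = ⟪v, v⟫_ℂ := by
    have h4 : ⟪u v, u v⟫_ℂ = ⟪v, (star u) (u v)⟫_ℂ := by
      rw [ContinuousLinearMap.star_eq_adjoint, ContinuousLinearMap.adjoint_inner_right]
    rw [h4]
    have h5 : (star u) (u v) = v := congrArg (fun T : H →L[ℂ] H => T v) h1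
    rw [h5]
  rw [inner_self_eq_norm_sq_to_K, inner_self_eq_norm_sq_to_K] at h3
  have h6 : ‖u v‖ ^ 2 = ‖v‖ ^ 2 := by exact_mod_cast h3
  exact (sq_eq_sq₀ (norm_nonneg _) (norm_nonneg _)).1 h6

end CornerSpecAux

open CornerSpecAux

theorem corner_spec (h : St A ξ J Ψ R D) (hA : III1V A) {q : H →L[ℂ] H} (hq : IsP A q)
    (hq0 : q ≠ 0) (hJ : J (q ξ) = q ξ) (γ : ℝ) (G : ℝ →ᵇ ℂ) (hG : G γ ≠ 0) :
    ∃ y ∈ A, q * y = y ∧ y * q = y ∧ Ψ G (y ξ) ≠ 0 := by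
  by_contra hcon
  push Not at hcon
  obtain ⟨hqA, hqs, hqq⟩ := hq
  obtain ⟨u, huA, hu1, hu2⟩ := equiv_one hA.toFInf h.sep ⟨hqA, hqs, hqq⟩ hq0
  have husA : star u ∈ A := star_mem huA
  -- pointwise identities
  have hu1' : ∀ v, (star u) (u v) = v := fun v => congrArg (fun T : H →L[ℂ] H => T v) hu1
  have hu2' : ∀ v, u ((star u) v) = q v := fun v => congrArg (fun T : H →L[ℂ] H => T v) hu2
  have hsu : star u ≠ 0 := by
    intro h0
    apply hq0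
    rw [← hu2, h0, mul_zero]
  set c : ℝ := ‖(star u) ξ‖ with hcdef
  have hc : 0 < c := by
    refine norm_pos_iff.2 fun h0 => hsu (h.sep _ husA h0)
  set z : H := ((c⁻¹ : ℝ) : ℂ) • (star u) ξ with hz
  have hz1 : ‖z‖ = 1 := by
    rw [hz, norm_smul, Complex.norm_real, Real.norm_of_nonneg (inv_nonneg.2 hc.le), ← hcdef,
      inv_mul_cancel₀ hc.ne']
  have hcc : ((c⁻¹ : ℝ) : ℂ) ≠ 0 := by exact_mod_cast (inv_pos.2 hc).ne'
  have hzsep : ∀ a ∈ A, a z = 0 → a = 0 := by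
    intro a ha h0
    rw [hz, map_smul, smul_eq_zero] at h0
    have h1 : (a * star u) ξ = 0 := h0.resolve_left hcc
    have h2 := h.sep _ (mul_mem ha husA) h1
    calc a = a * (star u * u) := by rw [hu1, mul_one]
      _ = (a * star u) * u := (mul_assoc _ _ _).symm
      _ = 0 := by rw [h2, zero_mul]
  obtain ⟨C, hC0, hC⟩ := norm_le_of h γ G hG
  set ε : ℝ := 1 / (2 * (C + 1)) with hε
  have hε0 : 0 < ε := by positivity
  obtain ⟨a, haA, ha1, ha2⟩ := hA.spec z hz1 hzsep (Real.exp γ) (Real.exp_pos γ) ε hε0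
  set b : H →L[ℂ] H := u * a * star u with hb
  have hbA : b ∈ A := mul_mem (mul_mem huA haA) husA
  have hqu : q * u = u := by rw [← hu2, mul_assoc, hu1, mul_one]
  have huq : star u * q = star u := by
    have := congrArg star hqu
    rwa [star_mul, hqs] at this
  have hqb : q * b = b := by rw [hb, ← mul_assoc, ← mul_assoc, hqu]
  have hbq : b * q = b := by rw [hb, mul_assoc, huq]
  have hbs : star b = u * star a * star u := by
    rw [hb, star_mul, star_mul, star_star, mul_assoc]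
  have hbsq : star b * q = star b := by rw [hbs, mul_assoc, huq]
  have hzero := hcon b hbA hqb hbq
  -- right multiplication by `q`
  have hJq : ∀ y ∈ A, J (q (J (y ξ))) = y (q ξ) := by
    intro y hy
    rw [h.J_comm q hqA y hy ξ, h.J_xi, hJ]
  have hself : ∀ v w : H, ⟪J (q (J v)), w⟫_ℂ = ⟪v, J (q (J w))⟫_ℂ := by
    intro v w
    have h1 : ⟪J (q (J v)), w⟫_ℂ = ⟪J w, q (J v)⟫_ℂ := by
      conv_lhs => rw [← h.J_J w]
      rw [h.J_inner]
    have h2 : ⟪v, J (q (J w))⟫_ℂ = ⟪q (J w), J v⟫_ℂ := by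
      conv_lhs => rw [← h.J_J v]
      rw [h.J_inner]
    rw [h1, h2]
    nth_rewrite 2 [← hqs]
    rw [ContinuousLinearMap.star_eq_adjoint, ContinuousLinearMap.adjoint_inner_left]
  have hbx : ‖b ξ‖ = c := by
    have h1 : b ξ = u (a ((star u) ξ)) := rfl
    have h2 : (star u) ξ = ((c : ℝ) : ℂ) • z := by
      rw [hz, smul_smul, ← Complex.ofReal_mul, mul_inv_cancel₀ hc.ne', Complex.ofReal_one,
        one_smul]
    rw [h1, norm_iso hu1, h2, map_smul, norm_smul, ha1, mul_one, Complex.norm_real,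
      Real.norm_of_nonneg hc.le]
  -- the estimate
  have hest : ∀ w ∈ A, ‖⟪J ((star w) ξ), J ((star b) ξ)⟫_ℂ -
        ((Real.exp γ : ℝ) : ℂ) * ⟪w ξ, b ξ⟫_ℂ‖ ≤ (c * ε) * ‖w ξ‖ := by
    intro w hw
    have hsw : star w ∈ A := star_mem hw
    have hx : star u * star w * u ∈ A := mul_mem (mul_mem husA hsw) huA
    have h1 := ha2 _ hx
    have hxs : star (star u * star w * u) = star u * w * u := by
      rw [star_mul, star_mul, star_star, star_star, mul_assoc]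
    rw [hxs] at h1
    have hcn : ∀ T : H →L[ℂ] H, T z = ((c⁻¹ : ℝ) : ℂ) • T ((star u) ξ) := fun T => by
      rw [hz, map_smul]
    have e1 : ⟪(star a) z, (star u * star w * u) z⟫_ℂ =
        ((c⁻¹ : ℝ) : ℂ) * (((c⁻¹ : ℝ) : ℂ) * ⟪J ((star w) ξ), J ((star b) ξ)⟫_ℂ) := by
      rw [hcn, hcn (star u * star w * u), inner_smul_left, inner_smul_right,
        Complex.conj_ofReal, h.J_inner]
      congr 2
      have h2 : (star u * star w * u) ((star u) ξ) = (star u) ((star w) (q ξ)) := by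
        change (star u) ((star w) (u ((star u) ξ))) = _
        rw [hu2']
      have h3 : ⟪(star a) ((star u) ξ), (star u) ((star w) (q ξ))⟫_ℂ =
          ⟪(star b) ξ, (star w) (q ξ)⟫_ℂ := by
        rw [hbs]
        change _ = ⟪u ((star a) ((star u) ξ)), (star w) (q ξ)⟫_ℂ
        rw [ContinuousLinearMap.star_eq_adjoint u, ContinuousLinearMap.adjoint_inner_right]
      rw [h2, h3, ← hJq _ hsw, ← hself, hJq _ (star_mem hbA)]
      congr 1
      exact congrArg (fun T : H →L[ℂ] H => T ξ) hbsq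
    have e2 : ⟪(star u * w * u) z, a z⟫_ℂ =
        ((c⁻¹ : ℝ) : ℂ) * (((c⁻¹ : ℝ) : ℂ) * ⟪w ξ, b ξ⟫_ℂ) := by
      rw [hcn, hcn a, inner_smul_left, inner_smul_right, Complex.conj_ofReal]
      congr 2
      have h2 : (star u * w * u) ((star u) ξ) = (star u) (w (q ξ)) := by
        change (star u) (w (u ((star u) ξ))) = _
        rw [hu2']
      have h3 : ⟪(star u) (w (q ξ)), a ((star u) ξ)⟫_ℂ = ⟪w (q ξ), b ξ⟫_ℂ := by
        rw [hb]
        change _ = ⟪w (q ξ), u (a ((star u) ξ))⟫_ℂ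
        rw [ContinuousLinearMap.star_eq_adjoint u, ContinuousLinearMap.adjoint_inner_left]
      rw [h2, h3, ← hJq _ hw, hself, hJq _ hbA]
      congr 1
      exact congrArg (fun T : H →L[ℂ] H => T ξ) hbq
    have e3 : ‖(star u * w * u) z‖ ≤ c⁻¹ * ‖w ξ‖ := by
      rw [hcn, norm_smul, Complex.norm_real, Real.norm_of_nonneg (inv_nonneg.2 hc.le)]
      refine mul_le_mul_of_nonneg_left ?_ (inv_nonneg.2 hc.le)
      have h2 : (star u * w * u) ((star u) ξ) = (star u) (w (q ξ)) := by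
        change (star u) (w (u ((star u) ξ))) = _
        rw [hu2']
      rw [h2, ← norm_iso hu1, hu2']
      refine (norm_proj_le hqs hqq _).trans ?_
      rw [← hJq _ hw, h.J_norm]
      refine (norm_proj_le hqs hqq _).trans ?_
      rw [h.J_norm]
    rw [e1, e2] at h1
    have e4 : ((c⁻¹ : ℝ) : ℂ) * (((c⁻¹ : ℝ) : ℂ) * ⟪J ((star w) ξ), J ((star b) ξ)⟫_ℂ) -
        ((Real.exp γ : ℝ) : ℂ) * (((c⁻¹ : ℝ) : ℂ) * (((c⁻¹ : ℝ) : ℂ) * ⟪w ξ, b ξ⟫_ℂ)) =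
        ((c⁻¹ * c⁻¹ : ℝ) : ℂ) * (⟪J ((star w) ξ), J ((star b) ξ)⟫_ℂ -
        ((Real.exp γ : ℝ) : ℂ) * ⟪w ξ, b ξ⟫_ℂ) := by
      rw [Complex.ofReal_mul]
      ring
    rw [e4, norm_mul, Complex.norm_real, Real.norm_of_nonneg (by positivity)] at h1
    have h5 := h1.trans (mul_le_mul_of_nonneg_left e3 hε0.le)
    have h6 : c⁻¹ * c⁻¹ * ‖⟪J ((star w) ξ), J ((star b) ξ)⟫_ℂ -
        ((Real.exp γ : ℝ) : ℂ) * ⟪w ξ, b ξ⟫_ℂ‖ ≤ c⁻¹ * c⁻¹ * ((c * ε) * ‖w ξ‖) := by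
      refine h5.trans (le_of_eq ?_)
      field_simp
    exact le_of_mul_le_mul_left h6 (by positivity)
  have hfin := hC b hbA hzero (c * ε) (by positivity) hest
  rw [hbx] at hfin
  have h7 : ε * C < 1 := by
    rw [hε, div_mul_eq_mul_div, one_mul, div_lt_one (by positivity)]
    linarith
  nlinarith

end Pool.Agent.Helper88.CS
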