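import Pool.Agent.Helper88.CS.Defs

/-!
# Project CS, module Polar: range projections and partial isometries
-/

open scoped InnerProductSpace Topology BoundedContinuousFunction
open ContinuousLinearMap Filter MeasureTheory

namespace Pool.Agent.Helper88.CS

open Pool.Agent.Helper23
open Pool.Agent.Helper78.BC (Std rm Fixed)

set_option linter.unusedSectionVars false
set_option linter.unusedVariables false

variable {H : Type*} [NormedAddCommGroup H] [InnerProductSpace ℂ H] [CompleteSpace H]

variable {A : VonNeumannAlgebra H}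

/-- the projection onto the closure of the range of `a` -/
noncomputable def rp (a : H →L[ℂ] H) : H →L[ℂ] H :=
  (LinearMap.range (a : H →ₗ[ℂ] H)).topologicalClosure.starProjection

namespace PolarAux

theorem apply_mem (a : H →L[ℂ] H) (v : H) :
    a v ∈ (LinearMap.range (a : H →ₗ[ℂ] H)).topologicalClosure :=
  Submodule.le_topologicalClosure _ ⟨v, rfl⟩

theorem rp_closed (a : H →L[ℂ] H) {s : Set H} (hs : IsClosed s) (h : ∀ v, a v ∈ s) (v : H) :
    rp a v ∈ s := by
  have h1 : ((LinearMap.range (a : H →ₗ[ℂ] H)) : Set H) ⊆ s := by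
    rintro _ ⟨w, rfl⟩
    exact h w
  have h2 : rp a v ∈ (LinearMap.range (a : H →ₗ[ℂ] H)).topologicalClosure :=
    Submodule.starProjection_apply_mem _ v
  exact closure_minimal h1 hs h2

theorem rp_star (a : H →L[ℂ] H) : star (rp a) = rp a :=
  (isStarProjection_starProjection (U := (LinearMap.range (a : H →ₗ[ℂ] H)).topologicalClosure)).2

theorem rp_rp (a : H →L[ℂ] H) : rp a * rp a = rp a :=
  (isStarProjection_starProjection (U := (LinearMap.range (a : H →ₗ[ℂ] H)).topologicalClosure)).1

end PolarAux

open PolarAux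

theorem rp_isP {a : H →L[ℂ] H} (ha : a ∈ A) : IsP A (rp a) := by
  refine ⟨?_, rp_star a, rp_rp a⟩
  have hsp : IsStarProjection
      (LinearMap.range (a : H →ₗ[ℂ] H)).topologicalClosure.starProjection :=
    isStarProjection_starProjection
  rw [rp, VonNeumannAlgebra.IsStarProjection.mem_iff hsp]
  intro y hy
  rw [Submodule.range_starProjection, Module.End.mem_invtSubmodule]
  intro x hx
  rw [Submodule.mem_comap]
  have h1 : ((LinearMap.range (a : H →ₗ[ℂ] H)) : Set H) ⊆
      y ⁻¹' ((LinearMap.range (a : H →ₗ[ℂ] H)).topologicalClosure : Set H) := by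
    rintro _ ⟨w, rfl⟩
    change y (a w) ∈ (LinearMap.range (a : H →ₗ[ℂ] H)).topologicalClosure
    rw [← commute_apply ha hy]
    exact apply_mem a (y w)
  exact closure_minimal h1 ((Submodule.isClosed_topologicalClosure _).preimage y.continuous) hx

theorem rp_mul (a : H →L[ℂ] H) : rp a * a = a := by
  ext v
  exact Submodule.starProjection_eq_self_iff.2 (apply_mem a v)

theorem mul_rp_star (a : H →L[ℂ] H) : a * rp (star a) = a := by
  have h := congrArg star (rp_mul (star a))
  rwa [star_mul, star_star, rp_star] at h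

/-- `rp a` is the smallest projection `e` with `e a = a` -/
theorem mul_rp {a b : H →L[ℂ] H} (h : b * a = a) : b * rp a = rp a := by
  ext v
  exact rp_closed a (s := {y | b y = y}) (isClosed_eq b.continuous continuous_id)
    (fun w => congrArg (fun T : H →L[ℂ] H => T w) h) v

theorem zero_mul_rp {a b : H →L[ℂ] H} (h : b * a = 0) : b * rp a = 0 := by
  ext v
  exact rp_closed a (s := {y | b y = 0}) (isClosed_eq b.continuous continuous_const)
    (fun w => congrArg (fun T : H →L[ℂ] H => T w) h) v

namespace PolarAux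

theorem eq_mul_rp {p s t : H →L[ℂ] H} (h : s * p = t * p) : s * rp p = t * rp p := by
  have h1 : (s - t) * p = 0 := by rw [sub_mul, h, sub_self]
  have h2 := zero_mul_rp h1
  rwa [sub_mul, sub_eq_zero] at h2

theorem abs_mem {a : H →L[ℂ] H} (ha : a ∈ A) : CFC.abs a ∈ A := by
  rw [mem_iff_commutes]
  intro g hg
  have h1 : Commute a g := mem_comm_iff.1 hg a ha
  have h2 : Commute a (star g) := mem_comm_iff.1 (star_mem hg) a ha
  exact (h1.cfcAbs_left h2).symm

theorem abs_star' (a : H →L[ℂ] H) : star (CFC.abs a) = CFC.abs a :=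
  (CFC.abs_nonneg a).star_eq

theorem norm_abs (a : H →L[ℂ] H) (w : H) : ‖(CFC.abs a) w‖ = ‖a w‖ := by
  have h1 : ⟪(CFC.abs a) w, (CFC.abs a) w⟫_ℂ = ⟪a w, a w⟫_ℂ := by
    have h2 : (CFC.abs a) ((CFC.abs a) w) = (star a) (a w) :=
      congrArg (fun T : H →L[ℂ] H => T w) (CFC.abs_mul_abs a)
    have h3 : ⟪(star (CFC.abs a)) ((CFC.abs a) w), w⟫_ℂ = ⟪(star a) (a w), w⟫_ℂ := by
      rw [abs_star', h2]
    rwa [star_eq_adjoint, star_eq_adjoint, adjoint_inner_left, adjoint_inner_left] at h3
  rw [inner_self_eq_norm_sq_to_K, inner_self_eq_norm_sq_to_K] at h1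
  have h4 : ‖(CFC.abs a) w‖ ^ 2 = ‖a w‖ ^ 2 := by exact_mod_cast h1
  exact (sq_eq_sq₀ (norm_nonneg _) (norm_nonneg _)).1 h4

/-- the partial isometry part of the polar decomposition -/
theorem exists_ext (a : H →L[ℂ] H) :
    ∃ v : H →L[ℂ] H, v * CFC.abs a = a ∧ v * rp (CFC.abs a) = v := by
  set p := CFC.abs a with hp
  set K := (LinearMap.range (p : H →ₗ[ℂ] H)).topologicalClosure with hK
  set f : H →ₗ[ℂ] K := LinearMap.codRestrict K (p : H →ₗ[ℂ] H) (fun w => apply_mem p w) with hf
  have hd : DenseRange f := by
    intro x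
    have hx : (x : H) ∈ closure ((LinearMap.range (p : H →ₗ[ℂ] H)) : Set H) := x.2
    rw [Metric.mem_closure_iff] at hx
    rw [Metric.mem_closure_iff]
    intro ε hε
    obtain ⟨_, ⟨w, rfl⟩, hw⟩ := hx ε hε
    exact ⟨f w, ⟨w, rfl⟩, hw⟩
  have hn : ∃ C, ∀ x, ‖(a : H →ₗ[ℂ] H) x‖ ≤ C * ‖f x‖ := by
    refine ⟨1, fun x => ?_⟩
    rw [one_mul]
    exact (norm_abs a x).ge
  set v0 := ((a : H →ₗ[ℂ] H)).extendOfNorm f with hv0
  have hv : ∀ w, v0 (f w) = a w := fun w => LinearMap.extendOfNorm_eq hd hn w
  refine ⟨v0.comp K.orthogonalProjectionOnto, ?_, ?_⟩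
  · ext w
    change v0 (K.orthogonalProjectionOnto (p w)) = a w
    rw [← hv w]
    congr 1
    exact Submodule.orthogonalProjectionOnto_mem_subspace_eq_self (f w)
  · ext w
    change v0 (K.orthogonalProjectionOnto (rp p w)) = v0 (K.orthogonalProjectionOnto w)
    congr 1
    exact Submodule.orthogonalProjectionOnto_mem_subspace_eq_self (K.orthogonalProjectionOnto w)

end PolarAux

/-- polar decomposition -/
theorem exists_polar {a : H →L[ℂ] H} (ha : a ∈ A) :
    ∃ v ∈ A, star v * v = rp (star a) ∧ v * star v = rp a := by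
  obtain ⟨v, h1, h2⟩ := exists_ext a
  set p := CFC.abs a with hp
  have hpA : p ∈ A := abs_mem ha
  have hps : star p = p := abs_star' a
  have heA := (rp_isP hpA).1
  have hpp : p * p = star a * a := CFC.abs_mul_abs a
  -- `v ∈ A`
  have hvA : v ∈ A := by
    rw [mem_iff_commutes]
    intro g hg
    have c1 : a * g = g * a := mem_comm_iff.1 hg a ha
    have c2 : p * g = g * p := mem_comm_iff.1 hg p hpA
    have c3 : rp p * g = g * rp p := mem_comm_iff.1 hg _ heA
    have h3 : (g * v) * p = (v * g) * p := by
      rw [mul_assoc, h1, mul_assoc, ← c2, ← mul_assoc, h1, c1]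
    have h4 := eq_mul_rp h3
    rwa [mul_assoc, h2, mul_assoc, ← c3, ← mul_assoc, h2] at h4
  -- `v* a = p`
  have hsa : star v * a = p := by
    have h3 : p * (star v * a) = p * p := by
      have : star (v * p) = star a := by rw [h1]
      rw [star_mul, hps] at this
      rw [← mul_assoc, this, hpp]
    have h4 : rp p * (star v * a) = rp p * p := by
      have h5 : (star (star v * a)) * p = p * p := by
        have := congrArg star h3
        rwa [star_mul, star_mul p p, hps] at this
      have h6 := eq_mul_rp h5
      have := congrArg star h6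
      rwa [star_mul, star_star, star_mul, hps, rp_star] at this
    have h7 : rp p * star v = star v := by
      have := congrArg star h2
      rwa [star_mul, rp_star] at this
    rwa [← mul_assoc, h7, rp_mul] at h4
  have hvv : star v * v = rp p := by
    have h3 : (star v * v) * p = rp p * p := by
      rw [mul_assoc, h1, hsa, rp_mul]
    have h4 := eq_mul_rp h3
    rwa [mul_assoc, h2, rp_rp] at h4
  have hrp : rp p = rp (star a) := by
    have e1 : a * rp p = a := by
      have h3 : p * rp p = p := by
        have := congrArg star (rp_mul p)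
        rwa [star_mul, hps, rp_star] at this
      calc a * rp p = v * (p * rp p) := by rw [← mul_assoc, h1]
        _ = a := by rw [h3, h1]
    have e2 : rp p * star a = star a := by
      have := congrArg star e1
      rwa [star_mul, rp_star] at this
    have e3 : rp p * rp (star a) = rp (star a) := mul_rp e2
    have e4 : p * rp (star a) = p := by
      rw [← hsa, mul_assoc, mul_rp_star]
    have e5 : rp (star a) * p = p := by
      have := congrArg star e4
      rwa [star_mul, rp_star, hps] at this
    have e6 : rp (star a) * rp p = rp p := mul_rp e5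
    have e7 := congrArg star e6
    rw [star_mul, rp_star, rp_star] at e7
    rw [← e7, e3]
  refine ⟨v, hvA, hvv.trans hrp, ?_⟩
  have h3 : (v * star v) * a = a := by rw [mul_assoc, hsa, h1]
  have h4 : (v * star v) * rp a = rp a := mul_rp h3
  have h5 : (rp a * v) * p = v * p := by rw [mul_assoc, h1, rp_mul]
  have h6 := eq_mul_rp h5
  rw [mul_assoc, h2] at h6
  have h7 : star v * rp a = star v := by
    have := congrArg star h6
    rwa [star_mul, rp_star] at this
  rwa [mul_assoc, h7] at h4

/-- in a factor `f x e ≠ 0` for some `x` -/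
theorem exists_mul_ne (hA : FInf A) {e f : H →L[ℂ] H} (he : IsP A e) (hf : IsP A f)
    (he0 : e ≠ 0) (hf0 : f ≠ 0) : ∃ x ∈ A, f * x * e ≠ 0 := by
  by_contra hcon
  push Not at hcon
  obtain ⟨h0, hh0⟩ : ∃ h, e h ≠ 0 := by
    by_contra h
    push Not at h
    exact he0 (ContinuousLinearMap.ext h)
  set S : Set H := {y | ∃ x ∈ A, ∃ h, x (e h) = y} with hS
  set V : Submodule ℂ H := (Submodule.span ℂ S).topologicalClosure with hV
  have hVc : IsClosed (V : Set H) := Submodule.isClosed_topologicalClosure _
  have hcv : CompleteSpace V := hVc.completeSpace_coe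
  have hind : ∀ (W : Submodule ℂ H), IsClosed (W : Set H) → (∀ x ∈ S, x ∈ W) → V ≤ W := by
    intro W hW h
    exact Submodule.topologicalClosure_minimal _ (Submodule.span_le.2 h) hW
  have hSV : ∀ x ∈ S, x ∈ V := fun x hx =>
    Submodule.le_topologicalClosure _ (Submodule.subset_span hx)
  have hsp : IsStarProjection V.starProjection := isStarProjection_starProjection
  have hinv : ∀ y : H →L[ℂ] H, (∀ x ∈ S, y x ∈ V) →
      LinearMap.range (V.starProjection : H →ₗ[ℂ] H) ∈ Module.End.invtSubmodule (y : H →ₗ[ℂ] H) := by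
    intro y hy
    rw [Submodule.range_starProjection, Module.End.mem_invtSubmodule]
    exact hind (V.comap (y : H →ₗ[ℂ] H)) (hVc.preimage y.continuous) (fun x hx => hy x hx)
  have hz1 : V.starProjection ∈ A := by
    rw [VonNeumannAlgebra.IsStarProjection.mem_iff hsp]
    intro y hy
    refine hinv y ?_
    rintro _ ⟨x, hx, h, rfl⟩
    refine hSV _ ⟨x, hx, y h, ?_⟩
    rw [commute_apply he.1 hy, commute_apply hx hy]
  have hz2 : V.starProjection ∈ A.commutant := by
    rw [VonNeumannAlgebra.IsStarProjection.mem_iff hsp]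
    intro y hy
    rw [VonNeumannAlgebra.commutant_commutant] at hy
    refine hinv y ?_
    rintro _ ⟨x, hx, h, rfl⟩
    exact hSV _ ⟨y * x, mul_mem hy hx, h, rfl⟩
  obtain ⟨c, hc⟩ := hA.factor _ hz1 hz2
  have hmem : e h0 ∈ V := hSV _ ⟨1, one_mem A, h0, rfl⟩
  have h1 : V.starProjection (e h0) = e h0 := Submodule.starProjection_eq_self_iff.2 hmem
  have h2 : c = 1 := by
    rw [hc] at h1
    have h3 : (c - 1) • e h0 = 0 := by
      rw [sub_smul, one_smul, sub_eq_zero]
      exact h1
    rcases smul_eq_zero.1 h3 with h4 | h4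
    · exact sub_eq_zero.1 h4
    · exact absurd h4 hh0
  apply hf0
  ext w
  have h3 : w ∈ V := by
    rw [← Submodule.starProjection_eq_self_iff, hc, h2, one_smul]
    rfl
  have h4 : V ≤ LinearMap.ker (f : H →ₗ[ℂ] H) := by
    refine hind _ (ContinuousLinearMap.isClosed_ker f) ?_
    rintro _ ⟨x, hx, h, rfl⟩
    have := congrArg (fun T : H →L[ℂ] H => T h) (hcon x hx)
    exact this
  exact h4 h3

/-- comparison: a nonzero partial isometry between subprojections -/
theorem exists_pi (hA : FInf A) {e f : H →L[ℂ] H} (he : IsP A e) (hf : IsP A f)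
    (he0 : e ≠ 0) (hf0 : f ≠ 0) :
    ∃ v ∈ A, v ≠ 0 ∧ v * star v * v = v ∧ f * v = v ∧ v * e = v := by
  obtain ⟨x, hx, hne⟩ := exists_mul_ne hA he hf he0 hf0
  set a := f * x * e with ha
  have haA : a ∈ A := mul_mem (mul_mem hf.1 hx) he.1
  obtain ⟨v, hv, h1, h2⟩ := exists_polar haA
  have hfa : f * a = a := by rw [ha, ← mul_assoc, ← mul_assoc, hf.2.2]
  have hae : a * e = a := by rw [ha, mul_assoc, he.2.2]
  have hpi : v * star v * v = v := by
    have h3 : star (v - v * star v * v) * (v - v * star v * v) = 0 := by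
      have hq : star v * v * (star v * v) = star v * v := by rw [h1, rp_rp]
      have h4 : star (v * star v * v) = star v * v * star v := by
        rw [star_mul, star_mul, star_star, mul_assoc]
      rw [star_sub, h4, sub_mul, mul_sub, mul_sub]
      have e1 : star v * (v * star v * v) = star v * v := by
        rw [← hq]; simp only [mul_assoc]
      have e2 : star v * v * star v * v = star v * v := by
        rw [mul_assoc]; exact hq
      have e3 : star v * v * star v * (v * star v * v) = star v * v := by
        calc star v * v * star v * (v * star v * v) =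
            (star v * v * (star v * v)) * (star v * v) := by simp only [mul_assoc]
          _ = _ := by rw [hq, hq]
      rw [e1, e2, e3]
      simp
    have h5 := (CStarRing.star_mul_self_eq_zero_iff (v - v * star v * v)).1 h3
    exact (sub_eq_zero.1 h5).symm
  refine ⟨v, hv, ?_, hpi, ?_, ?_⟩
  · rintro rfl
    apply hne
    rw [← rp_mul a, ← h2, zero_mul, zero_mul]
  · have h3 : f * rp a = rp a := mul_rp hfa
    calc f * v = f * (v * star v * v) := by rw [hpi]
      _ = f * rp a * v := by rw [h2, mul_assoc]
      _ = v * star v * v := by rw [h3, h2]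
      _ = v := hpi
  · have h3 : e * star a = star a := by
      have := congrArg star hae
      rwa [star_mul, he.2.1] at this
    have h4 : e * rp (star a) = rp (star a) := mul_rp h3
    have h5 : rp (star a) * e = rp (star a) := by
      have := congrArg star h4
      rwa [star_mul, rp_star, he.2.1] at this
    calc v * e = (v * star v * v) * e := by rw [hpi]
      _ = v * (rp (star a) * e) := by rw [← h1]; simp only [mul_assoc]
      _ = v * star v * v := by rw [h5, ← h1]; simp only [mul_assoc]
      _ = v := hpi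

end Pool.Agent.Helper88.CS
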