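import Pool.Agent.Helper88.CS.Cent
import Pool.Agent.Helper88.CS.Polar

/-!
# Project CS, module Hull: the hull of an element in the centralizer
-/

open scoped InnerProductSpace Topology BoundedContinuousFunction
open ContinuousLinearMap Filter MeasureTheory

namespace Pool.Agent.Helper88.CS

open Pool.Agent.Helper23
open Pool.Agent.Helper78.BC (Std rm Fixed)

variable {H : Type*} [NormedAddCommGroup H] [InnerProductSpace ℂ H] [CompleteSpace H]

variable {A : VonNeumannAlgebra H} {ξ : H} {J : H →L[ℝ] H}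
  {Ψ : (ℝ →ᵇ ℂ) →⋆ₐ[ℂ] (H →L[ℂ] H)} {R : H →L[ℂ] H} {D : H →L[ℝ] H}

namespace HullAux

open Pool.Agent.Helper70.U8 (U V U_star V_star)

/-- the closed span of the ranges -/
noncomputable def sp (Ψ : (ℝ →ᵇ ℂ) →⋆ₐ[ℂ] (H →L[ℂ] H)) (x : H →L[ℂ] H) : Submodule ℂ H :=
  (Submodule.span ℂ {v | ∃ (t : ℝ) (w : H), v = U Ψ t ((star x) (V Ψ t w))}).topologicalClosure

theorem gen_mem (x : H →L[ℂ] H) (t : ℝ) (w : H) : U Ψ t ((star x) (V Ψ t w)) ∈ sp Ψ x :=
  Submodule.le_topologicalClosure _ (Submodule.subset_span ⟨t, w, rfl⟩)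

/-- closed subspaces are tested on the generators -/
theorem sp_le {x : H →L[ℂ] H} {N : Submodule ℂ H} (hN : IsClosed (N : Set H))
    (h : ∀ (t : ℝ) (w : H), U Ψ t ((star x) (V Ψ t w)) ∈ N) : sp Ψ x ≤ N := by
  refine Submodule.topologicalClosure_minimal _ (Submodule.span_le.2 ?_) hN
  rintro v ⟨t, w, rfl⟩
  exact h t w

/-- invariance is tested on the generators -/
theorem sp_inv {x b : H →L[ℂ] H}
    (h : ∀ (t : ℝ) (w : H), b (U Ψ t ((star x) (V Ψ t w))) ∈ sp Ψ x) :
    ∀ v ∈ sp Ψ x, b v ∈ sp Ψ x := by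
  intro v hv
  have hcl : IsClosed (((sp Ψ x).comap (b : H →ₗ[ℂ] H) : Submodule ℂ H) : Set H) := by
    have : (((sp Ψ x).comap (b : H →ₗ[ℂ] H) : Submodule ℂ H) : Set H) = b ⁻¹' (sp Ψ x : Set H) :=
      rfl
    rw [this]
    exact (Submodule.isClosed_topologicalClosure _).preimage b.continuous
  have h2 := sp_le (Ψ := Ψ) (x := x) hcl h
  exact h2 hv

/-- projections commute with operators leaving the space and its complement invariant -/
theorem proj_comm (K : Submodule ℂ H) [K.HasOrthogonalProjection] {b : H →L[ℂ] H}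
    (h1 : ∀ v ∈ K, b v ∈ K) (h2 : ∀ v ∈ K, (star b) v ∈ K) :
    b * K.starProjection = K.starProjection * b := by
  ext v
  rw [mul_apply_eq_comp, mul_apply_eq_comp]
  refine (Submodule.eq_starProjection_of_mem_of_inner_eq_zero (K := K) ?_ ?_).symm
  · exact h1 _ (Submodule.starProjection_apply_mem _ _)
  · intro w hw
    rw [← map_sub, ← star_star b, inner_star_left]
    exact K.starProjection_inner_eq_zero v _ (h2 w hw)

end HullAux

/-- the right hull of `x`: the projection onto the closed span of the ranges of `σ_t(x*)` -/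
theorem exists_hull (h : St A ξ J Ψ R D) {x : H →L[ℂ] H} (hx : x ∈ A) (hx0 : x ≠ 0) :
    ∃ q, IsP A q ∧ q ≠ 0 ∧ J (q ξ) = q ξ ∧ x * q = x ∧
      (∀ e ∈ A, star e = e → J (e ξ) = e ξ → x * e = x → e * q = q) ∧
      ∀ y ∈ A, (∀ t : ℝ, (Pool.Agent.Helper70.U8.U Ψ t * x * Pool.Agent.Helper70.U8.V Ψ t) * y = 0) →
        q * y = 0 := by
  classical
  set K := HullAux.sp Ψ x with hK
  have hKc : IsClosed (K : Set H) := Submodule.isClosed_topologicalClosure _
  haveI : CompleteSpace K := hKc.completeSpace_coe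
  have hsa : star K.starProjection = K.starProjection :=
    (isStarProjection_starProjection (U := K)).isSelfAdjoint.star_eq
  have hid : K.starProjection * K.starProjection = K.starProjection :=
    (isStarProjection_starProjection (U := K)).isIdempotentElem
  -- the orbit of `x*` is in `A`
  have hmem : ∀ t : ℝ, Pool.Agent.Helper70.U8.U Ψ t * star x * Pool.Agent.Helper70.U8.V Ψ t ∈ A :=
    fun t => h.mod.mem _ _ (star_mem hx)
  -- `q` is in `A`
  have hinv : ∀ g ∈ A.commutant, ∀ v ∈ K, g v ∈ K := by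
    intro g hg
    refine HullAux.sp_inv fun t w => ?_
    have h1 : g * (Pool.Agent.Helper70.U8.U Ψ t * star x * Pool.Agent.Helper70.U8.V Ψ t) =
        Pool.Agent.Helper70.U8.U Ψ t * star x * Pool.Agent.Helper70.U8.V Ψ t * g :=
      mem_iff_commutes.1 (hmem t) g hg
    have h2 := congrArg (fun T : H →L[ℂ] H => T w) h1
    simp only [mul_apply_eq_comp] at h2
    rw [h2]
    exact HullAux.gen_mem x t (g w)
  have hqA : K.starProjection ∈ A := by
    rw [mem_iff_commutes]
    intro g hg
    exact HullAux.proj_comm K (hinv g hg) (hinv (star g) (star_mem hg))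
  -- `q` commutes with the modular group
  have hexp : ∀ s : ℝ, ∀ v ∈ K, Ψ (expB s) v ∈ K := by
    intro s
    refine HullAux.sp_inv fun t w => ?_
    have e1 : Ψ (expB s) * Pool.Agent.Helper70.U8.U Ψ t =
        Pool.Agent.Helper70.U8.U Ψ (t + s / (2 * Real.pi)) := by
      unfold Pool.Agent.Helper70.U8.U
      rw [← map_mul, expB_mul]
      congr 2
      field_simp
      ring
    have e2 : Pool.Agent.Helper70.U8.V Ψ t =
        Pool.Agent.Helper70.U8.V Ψ (t + s / (2 * Real.pi)) * Ψ (expB s) := by
      unfold Pool.Agent.Helper70.U8.V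
      rw [← map_mul, expB_mul]
      congr 2
      field_simp
      ring
    rw [← mul_apply_eq_comp, e1, e2, mul_apply_eq_comp]
    exact HullAux.gen_mem x _ _
  have hcomm : ∀ s : ℝ, K.starProjection * Ψ (expB s) = Ψ (expB s) * K.starProjection := by
    intro s
    refine (HullAux.proj_comm K (hexp s) ?_).symm
    rw [← map_star, expB_star]
    exact hexp (-s)
  have hJq : J (K.starProjection ξ) = K.starProjection ξ := J_of_comm h hqA hsa hcomm
  -- `q x* = x*`
  have hqx : K.starProjection * star x = star x := by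
    ext w
    rw [mul_apply_eq_comp, Submodule.starProjection_eq_self_iff]
    have h1 := HullAux.gen_mem (Ψ := Ψ) x 0 w
    have h2 : Pool.Agent.Helper70.U8.U Ψ 0 = 1 := by
      unfold Pool.Agent.Helper70.U8.U
      rw [mul_zero, expB_zero, map_one]
    have h3 : Pool.Agent.Helper70.U8.V Ψ 0 = 1 := by
      unfold Pool.Agent.Helper70.U8.V
      rw [mul_zero, neg_zero, expB_zero, map_one]
    rw [h2, h3] at h1
    exact h1
  have hxq : x * K.starProjection = x := by
    have h1 := congrArg star hqx
    rwa [star_mul, star_star, hsa] at h1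
  refine ⟨K.starProjection, ⟨hqA, hsa, hid⟩, ?_, hJq, hxq, ?_, ?_⟩
  · intro h0
    rw [h0, mul_zero] at hxq
    exact hx0 hxq.symm
  · intro e he hes hJe hxe
    have hex : e * star x = star x := by
      have h1 := congrArg star hxe
      rwa [star_mul, hes] at h1
    have hle : K ≤ LinearMap.ker ((e - 1 : H →L[ℂ] H) : H →ₗ[ℂ] H) := by
      refine HullAux.sp_le ?_ fun t w => ?_
      · exact ContinuousLinearMap.isClosed_ker (e - 1)
      · rw [LinearMap.mem_ker]
        have h1 : e * Pool.Agent.Helper70.U8.U Ψ t = Pool.Agent.Helper70.U8.U Ψ t * e :=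
          comm_psi h he hes hJe _
        have h2 : e (Pool.Agent.Helper70.U8.U Ψ t ((star x) (Pool.Agent.Helper70.U8.V Ψ t w))) =
            Pool.Agent.Helper70.U8.U Ψ t ((star x) (Pool.Agent.Helper70.U8.V Ψ t w)) := by
          have h3 := congrArg (fun T : H →L[ℂ] H =>
            T ((star x) (Pool.Agent.Helper70.U8.V Ψ t w))) h1
          have h4 := congrArg (fun T : H →L[ℂ] H => T (Pool.Agent.Helper70.U8.V Ψ t w)) hex
          simp only [mul_apply_eq_comp] at h3 h4
          rw [h3, h4]
        change e _ - _ = 0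
        rw [h2]
        exact sub_self _
    ext v
    rw [mul_apply_eq_comp]
    have h1 := hle (Submodule.starProjection_apply_mem K v)
    rw [LinearMap.mem_ker] at h1
    have h2 : e (K.starProjection v) - K.starProjection v = 0 := h1
    exact sub_eq_zero.1 h2
  · intro y hy h0
    ext v
    rw [mul_apply_eq_comp, zero_apply, Submodule.starProjection_apply_eq_zero_iff]
    have hle : K ≤ (Submodule.span ℂ {y v})ᗮ := by
      refine HullAux.sp_le (Submodule.isClosed_orthogonal _) fun t w => ?_
      rw [Submodule.mem_orthogonal_singleton_iff_inner_right]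
      have h1 : (Pool.Agent.Helper70.U8.U Ψ t * x * Pool.Agent.Helper70.U8.V Ψ t) (y v) = 0 := by
        rw [← mul_apply_eq_comp, h0 t, zero_apply]
      have h2 : ⟪y v, Pool.Agent.Helper70.U8.U Ψ t
          ((star x) (Pool.Agent.Helper70.U8.V Ψ t w))⟫_ℂ =
          ⟪Pool.Agent.Helper70.U8.U Ψ t (x (Pool.Agent.Helper70.U8.V Ψ t (y v))), w⟫_ℂ := by
        rw [← Pool.Agent.Helper70.U8.V_star t, inner_star_right, inner_star_right,
          inner_star_left]
      rw [h2]
      simp only [mul_apply_eq_comp] at h1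
      rw [h1, inner_zero_left]
    rw [Submodule.mem_orthogonal]
    intro u hu
    have h3 := hle hu
    rw [Submodule.mem_orthogonal_singleton_iff_inner_right] at h3
    rw [← inner_conj_symm, h3, map_zero]

end Pool.Agent.Helper88.CS
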