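import Pool.Agent.Helper88.CS.SuppB
import Pool.Agent.Helper88.CS.Hull
import Pool.Agent.Helper88.CS.CornerSpec

/-!
# Project CS, module SpecB: the off-diagonal spectrum
-/

open scoped InnerProductSpace Topology BoundedContinuousFunction
open ContinuousLinearMap Filter MeasureTheory

namespace Pool.Agent.Helper88.CS

open Pool.Agent.Helper23
open Pool.Agent.Helper78.BC (Std rm Fixed)

variable {H : Type*} [NormedAddCommGroup H] [InnerProductSpace ℂ H] [CompleteSpace H]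

variable {A : VonNeumannAlgebra H} {ξ : H} {J : H →L[ℝ] H}
  {Ψ : (ℝ →ᵇ ℂ) →⋆ₐ[ℂ] (H →L[ℂ] H)} {R : H →L[ℂ] H} {D : H →L[ℝ] H}

namespace SpecBAux

open Pool.Agent.Helper70.U8 (sm U V)

/-- smoothing is a left module map over the commutant of the modular group -/
theorem mul_sm (h : Modular A ξ R D Ψ) {k : ℝ → ℂ} (hk : Integrable k) {e z : H →L[ℂ] H}
    (hc : ∀ G : ℝ →ᵇ ℂ, e * Ψ G = Ψ G * e) (hz : e * z = z) : e * sm h hk z = sm h hk z := by
  ext w
  rw [mul_apply_eq_comp, Pool.Agent.Helper70.U8.sm_apply,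
    ← ContinuousLinearMap.integral_comp_comm e (Pool.Agent.Helper70.U8.orbit_int h hk z w)]
  congr 1
  funext t
  rw [map_smul]
  congr 1
  have h1 := congrArg (fun T : H →L[ℂ] H => T (z (V Ψ t w))) (hc (expB (2 * Real.pi * t)))
  have h2 := congrArg (fun T : H →L[ℂ] H => T (V Ψ t w)) hz
  simp only [mul_apply_eq_comp] at h1 h2
  unfold U
  rw [h1, h2]

/-- smoothing is a right module map over the commutant of the modular group -/
theorem sm_mul (h : Modular A ξ R D Ψ) {k : ℝ → ℂ} (hk : Integrable k) {e z : H →L[ℂ] H}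
    (hc : ∀ G : ℝ →ᵇ ℂ, e * Ψ G = Ψ G * e) (hz : z * e = z) : sm h hk z * e = sm h hk z := by
  ext w
  rw [mul_apply_eq_comp, Pool.Agent.Helper70.U8.sm_apply, Pool.Agent.Helper70.U8.sm_apply]
  congr 1
  funext t
  congr 2
  have h1 := congrArg (fun T : H →L[ℂ] H => T w) (hc (expB (-(2 * Real.pi * t))))
  have h2 := congrArg (fun T : H →L[ℂ] H => T (V Ψ t w)) hz
  simp only [mul_apply_eq_comp] at h1 h2
  unfold V at h2 ⊢
  rw [← h1, h2]

/-- translation of the smoothing -/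
theorem orbit_sm (h : Modular A ξ R D Ψ) {k : ℝ → ℂ} (hk : Integrable k) (r : ℝ)
    (hk' : Integrable fun t => k (t - r)) (z : H →L[ℂ] H) :
    U Ψ r * sm h hk z * V Ψ r = sm h hk' z := by
  ext w
  rw [mul_apply_eq_comp, mul_apply_eq_comp, Pool.Agent.Helper70.U8.sm_apply,
    Pool.Agent.Helper70.U8.sm_apply,
    ← ContinuousLinearMap.integral_comp_comm (U Ψ r)
      (Pool.Agent.Helper70.U8.orbit_int h hk z (V Ψ r w)),
    ← integral_sub_right_eq_self (fun t : ℝ => U Ψ r (k t • U Ψ t (z (V Ψ t (V Ψ r w))))) r]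
  congr 1
  funext t
  rw [map_smul]
  congr 1
  have e1 : ∀ v : H, U Ψ r (U Ψ (t - r) v) = U Ψ t v := by
    intro v
    unfold U
    rw [← Pool.Agent.Helper43.TTF.psi_mul_apply, expB_mul]
    congr 3
    ring
  have e2 : ∀ v : H, V Ψ (t - r) (V Ψ r v) = V Ψ t v := by
    intro v
    unfold V
    rw [← Pool.Agent.Helper43.TTF.psi_mul_apply, expB_mul]
    congr 3
    ring
  rw [e1, e2]

end SpecBAux

theorem exists_near_zero (h : St A ξ J Ψ R D) (hA : III1V A) {e f : H →L[ℂ] H} (he : IsP A e)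
    (hf : IsP A f) (he0 : e ≠ 0) (hf0 : f ≠ 0) (hJe : J (e ξ) = e ξ) (hJf : J (f ξ) = f ξ)
    {η : ℝ} (hη : 0 < η) :
    ∃ x ∈ A, f * x = x ∧ x * e = x ∧ x ≠ 0 ∧ Supp Ψ (x ξ) (-η) η := by
  classical
  obtain ⟨x0, hx0, hne⟩ := exists_mul_ne hA.toFInf he hf he0 hf0
  set z := f * x0 * e with hz
  have hzA : z ∈ A := mul_mem (mul_mem hf.1 hx0) he.1
  have hfz : f * z = z := by rw [hz, ← mul_assoc, ← mul_assoc, hf.2.2]
  have hze : z * e = z := by rw [hz, mul_assoc, he.2.2]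
  have hzξ : z ξ ≠ 0 := fun h0 => hne (h.sep z hzA h0)
  have hce := comm_psi h he.1 he.2.1 hJe
  have hcf := comm_psi h hf.1 hf.2.1 hJf
  obtain ⟨s, k, K, hk, hK, hKz⟩ := exists_piece h hzξ (half_pos hη)
  set x1 := Pool.Agent.Helper70.U8.sm h.mod hk.int z with hx1
  have hx1A : x1 ∈ A := Pool.Agent.Helper70.U8.sm_mem h.mod hk.int h.mod.mem hzA
  have hx1ne : x1 ≠ 0 := by
    intro h0
    have h1 := Pool.Agent.Helper70.U8.sm_xi h.mod hk.int hk.four z
    rw [← hx1, h0, zero_apply] at h1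
    exact hKz h1.symm
  have hx1e : x1 * e = x1 := SpecBAux.sm_mul h.mod hk.int hce hze
  obtain ⟨q, hq, hq0, hJq, -, hq1, hq2⟩ := exists_hull h hx1A hx1ne
  have heq : e * q = q := hq1 e he.1 he.2.1 hJe hx1e
  have hqe : q * e = q := by
    have h1 := congrArg star heq
    rwa [star_mul, he.2.1, hq.2.1] at h1
  have hcq := comm_psi h hq.1 hq.2.1 hJq
  obtain ⟨l, L, hl, hL, hLs⟩ := exists_piece_at h (s := -s) (half_pos hη)
  obtain ⟨y0, hy0, hqy, hyq, hLy⟩ := corner_spec h hA hq hq0 hJq (-s) L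
    (by rw [hLs]; exact one_ne_zero)
  set y1 := Pool.Agent.Helper70.U8.sm h.mod hl.int y0 with hy1
  have hy1A : y1 ∈ A := Pool.Agent.Helper70.U8.sm_mem h.mod hl.int h.mod.mem hy0
  have hy1ne : y1 ≠ 0 := by
    intro h0
    have h1 := Pool.Agent.Helper70.U8.sm_xi h.mod hl.int hl.four y0
    rw [← hy1, h0, zero_apply] at h1
    exact hLy h1.symm
  have hqy1 : q * y1 = y1 := SpecBAux.mul_sm h.mod hl.int hcq hqy
  have hy1q : y1 * q = y1 := SpecBAux.sm_mul h.mod hl.int hcq hyq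
  have hy1e : y1 * e = y1 := by rw [← hy1q, mul_assoc, hqe]
  obtain ⟨t, ht⟩ : ∃ t : ℝ, (Pool.Agent.Helper70.U8.U Ψ t * x1 *
      Pool.Agent.Helper70.U8.V Ψ t) * y1 ≠ 0 := by
    by_contra hcon
    push Not at hcon
    have h1 := hq2 y1 hy1A hcon
    rw [hqy1] at h1
    exact hy1ne h1
  obtain ⟨K', hk', hK'⟩ := hk.shift t
  have horb := SpecBAux.orbit_sm h.mod hk.int t hk'.int z
  rw [← hx1] at horb
  rw [horb] at ht
  have hfx : f * Pool.Agent.Helper70.U8.sm h.mod hk'.int z =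
      Pool.Agent.Helper70.U8.sm h.mod hk'.int z := SpecBAux.mul_sm h.mod hk'.int hcf hfz
  refine ⟨Pool.Agent.Helper70.U8.sm h.mod hk'.int z * y1,
    mul_mem (Pool.Agent.Helper70.U8.sm_mem h.mod hk'.int h.mod.mem hzA) hy1A, ?_, ?_, ht, ?_⟩
  · rw [← mul_assoc, hfx]
  · rw [mul_assoc, hy1e]
  · have h1 := supp_mul h hk' hl (a := s - η / 2) (b := s + η / 2) (c := -s - η / 2)
      (d := -s + η / 2) (fun ρ hρ => by rw [hK', hK ρ hρ, mul_zero]) hL z y0
    exact h1.mono (by linarith) (by linarith)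

end Pool.Agent.Helper88.CS
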