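import Pool.Agent.Helper88.CS.Trick1

/-!
# Project CS, module Trick2: Connes' trick for off-diagonal elements
-/

open scoped InnerProductSpace Topology BoundedContinuousFunction
open ContinuousLinearMap Filter MeasureTheory

namespace Pool.Agent.Helper88.CS

open Pool.Agent.Helper23
open Pool.Agent.Helper78.BC (Std rm Fixed)

variable {H : Type*} [NormedAddCommGroup H] [InnerProductSpace ℂ H] [CompleteSpace H]

variable {A : VonNeumannAlgebra H} {J : H →L[ℝ] H} {κ : H}

namespace Trick2Aux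

theorem pyth {e f : H →L[ℂ] H} (hes : star e = e) (hef0 : e * f = 0) (v w : H) :
    ‖e v + f w‖ ^ 2 = ‖e v‖ ^ 2 + ‖f w‖ ^ 2 := by
  have h0 : ⟪e v, f w⟫_ℂ = 0 := by
    rw [← hes, ContinuousLinearMap.star_eq_adjoint, ContinuousLinearMap.adjoint_inner_left]
    have : e (f w) = (e * f) w := rfl
    rw [this, hef0]
    simp
  have h := @norm_add_sq ℂ H _ _ _ (e v) (f w)
  rw [h, h0]
  simp

/-- the arithmetic of the constants -/
theorem arith {a b S t δ : ℝ} (ha : 0 ≤ a) (hb : 0 ≤ b) (hS : 0 < S) (ht : 0 ≤ t)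
    (hδ1 : δ ≤ 1 / 100) (hS2 : S ^ 2 = a ^ 2 + b ^ 2) (hab : b ≤ a + t)
    (htS : 2 * t ^ 2 ≤ 32 * δ * S ^ 2) (hδ : 0 < δ) : t ^ 2 ≤ 100 * δ * a ^ 2 := by
  have h1 : t ≤ 4 / 10 * S := by
    have h2 : t ^ 2 ≤ (4 / 10 * S) ^ 2 := by nlinarith [sq_nonneg S]
    exact abs_le_of_sq_le_sq' h2 (by positivity) |>.2
  have h3 : S ≤ 5 / 2 * a := by
    by_contra hcon
    push Not at hcon
    have h4 : a ≤ 2 / 5 * S := by linarith
    have h5 : b ≤ 4 / 5 * S := by linarith
    have h6 : a ^ 2 ≤ (2 / 5 * S) ^ 2 := pow_le_pow_left₀ ha h4 2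
    have h7 : b ^ 2 ≤ (4 / 5 * S) ^ 2 := pow_le_pow_left₀ hb h5 2
    nlinarith [sq_pos_of_pos hS]
  have h8 : S ^ 2 ≤ (5 / 2 * a) ^ 2 := pow_le_pow_left₀ hS.le h3 2
  nlinarith

end Trick2Aux

open Trick2Aux in
theorem cut_offdiag (hJ : Conj A J) (hκ : J κ = κ) (hsep : ∀ a ∈ A, a κ = 0 → a = 0)
    {e f : H →L[ℂ] H} (he : IsP A e) (hf : IsP A f) (hef : e + f = 1) (hJe : J (e κ) = e κ)
    {x : H →L[ℂ] H} (hx : x ∈ A) (hfx : f * x = x) (hxe : x * e = x) (hx0 : x ≠ 0)
    {δ : ℝ} (hδ : 0 < δ) (hδ1 : δ ≤ 1 / 100) (h : ‖x κ - rm J x κ‖ ≤ δ * ‖x κ‖) :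
    ∃ w ∈ A, w * star w * w = w ∧ f * w = w ∧ w * e = w ∧ w ≠ 0 ∧
      ‖w κ - rm J w κ‖ ^ 2 ≤ 100 * δ * ‖w κ‖ ^ 2 := by
  obtain ⟨heA, hes, hee⟩ := he
  obtain ⟨hfA, hfs, hff⟩ := hf
  have hef0 : e * f = 0 := by
    have h1 : e * (e + f) = e := by rw [hef, mul_one]
    rw [mul_add, hee] at h1
    exact left_eq_add.1 h1.symm
  have hfe0 : f * e = 0 := by
    have h1 := congrArg star hef0
    rw [star_mul, hes, hfs, star_zero] at h1
    exact h1
  have hex : e * x = 0 := by rw [← hfx, ← mul_assoc, hef0, zero_mul]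
  have hxf : x * f = 0 := by rw [← hxe, mul_assoc, hef0, mul_zero]
  have hxs : star x ∈ A := star_mem hx
  have hesx : e * star x = star x := by
    have h1 := congrArg star hxe
    rwa [star_mul, hes] at h1
  have hsxf : star x * f = star x := by
    have h1 := congrArg star hfx
    rwa [star_mul, hfs] at h1
  have hfsx : f * star x = 0 := by
    have h1 := congrArg star hxf
    rwa [star_mul, hfs, star_zero] at h1
  have hsxe : star x * e = 0 := by
    have h1 := congrArg star hex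
    rwa [star_mul, hes, star_zero] at h1
  -- the self-adjoint element
  have hXA : x + star x ∈ A := add_mem hx hxs
  have hXs : star (x + star x) = x + star x := by rw [star_add, star_star, add_comm]
  have hnX : ‖(x + star x) κ‖ ^ 2 = ‖x κ‖ ^ 2 + ‖(star x) κ‖ ^ 2 := by
    have e1 : x κ = f (x κ) := by
      have : (f * x) κ = x κ := by rw [hfx]
      exact this.symm
    have e2 : (star x) κ = e ((star x) κ) := by
      have : (e * star x) κ = (star x) κ := by rw [hesx]
      exact this.symm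
    have h1 := pyth hes hef0 ((star x) κ) (x κ)
    rw [← e1, ← e2] at h1
    have e3 : (x + star x) κ = (star x) κ + x κ := by
      rw [ContinuousLinearMap.add_apply, add_comm]
    rw [e3, h1, add_comm]
  have hxκ : x κ ≠ 0 := fun h0 => hx0 (hsep x hx h0)
  have hle : ‖x κ‖ ≤ ‖(x + star x) κ‖ := by
    have h1 : ‖x κ‖ ^ 2 ≤ ‖(x + star x) κ‖ ^ 2 := by
      rw [hnX]; nlinarith [sq_nonneg ‖(star x) κ‖]
    exact abs_le_of_sq_le_sq' h1 (norm_nonneg _) |>.2
  have hXκ : (x + star x) κ ≠ 0 := by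
    intro h0
    rw [h0, norm_zero] at hle
    exact hxκ (norm_le_zero_iff.1 hle)
  have hrm : ∀ y : H →L[ℂ] H, rm J y κ = J ((star y) κ) := by
    intro y
    unfold rm
    rw [hκ]
  have hflip : ∀ y : H →L[ℂ] H, ‖(star y) κ - J (y κ)‖ = ‖y κ - J ((star y) κ)‖ := by
    intro y
    have h1 : J (y κ - J ((star y) κ)) = -((star y) κ - J (y κ)) := by
      rw [map_sub, hJ.J_J]
      abel
    rw [← norm_neg, ← h1, hJ.J_norm]
  have hXd : ‖(x + star x) κ - J ((x + star x) κ)‖ ≤ (2 * δ) * ‖(x + star x) κ‖ := by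
    have e1 : (x + star x) κ - J ((x + star x) κ) =
        (x κ - J ((star x) κ)) + ((star x) κ - J (x κ)) := by
      rw [ContinuousLinearMap.add_apply, map_add]
      abel
    have h1 : ‖x κ - J ((star x) κ)‖ ≤ δ * ‖x κ‖ := by rw [← hrm]; exact h
    have h2 := norm_add_le (x κ - J ((star x) κ)) ((star x) κ - J (x κ))
    rw [hflip x] at h2
    rw [e1]
    have h3 : δ * ‖x κ‖ ≤ δ * ‖(x + star x) κ‖ := mul_le_mul_of_nonneg_left hle hδ.le
    linarith
  obtain ⟨F, hFA, hFs, hFFF, hFκ, hFd, hFU⟩ := cut hJ hκ hXA hXs (by positivity) hXκ hXd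
  -- the symmetry `f - e`
  have hU := hFU (f - e) (by rw [star_sub, hes, hfs]) (by
    rw [mul_sub, sub_mul, sub_mul, hff, hee, hef0, hfe0]
    rw [← hef]
    abel) (by
    rw [mul_add, add_mul, sub_mul, sub_mul, mul_sub, mul_sub, hfx, hex, hfsx, hesx, hxf, hxe,
      hsxf, hsxe]
    abel)
  rw [sub_mul, mul_sub] at hU
  have heFe : e * F * e = 0 := by
    have h1 : e * (f * F - e * F) * e = e * -(F * f - F * e) * e := by rw [hU]
    have h2 : e * (f * F - e * F) * e = -(e * F * e) := by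
      rw [mul_sub, ← mul_assoc, ← mul_assoc, hef0, hee, zero_mul, zero_sub, neg_mul]
    have h3 : e * -(F * f - F * e) * e = e * F * e := by
      have : -(F * f - F * e) = F * e - F * f := by abel
      rw [this, mul_sub, sub_mul, mul_assoc e (F * e) e, mul_assoc F e e, hee,
        mul_assoc e (F * f) e, mul_assoc F f e, hfe0, mul_zero, mul_zero, sub_zero, mul_assoc]
    rw [h2, h3] at h1
    have h4 : (2 : ℂ) • (e * F * e) = 0 := by
      rw [two_smul]
      nth_rewrite 1 [← h1]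
      rw [neg_add_cancel]
    exact (smul_eq_zero.1 h4).resolve_left two_ne_zero
  have hfFf : f * F * f = 0 := by
    have h1 : f * (f * F - e * F) * f = f * -(F * f - F * e) * f := by rw [hU]
    have h2 : f * (f * F - e * F) * f = f * F * f := by
      rw [mul_sub, ← mul_assoc, ← mul_assoc, hfe0, hff, zero_mul, sub_zero]
    have h3 : f * -(F * f - F * e) * f = -(f * F * f) := by
      have : -(F * f - F * e) = F * e - F * f := by abel
      rw [this, mul_sub, sub_mul, mul_assoc f (F * e) f, mul_assoc F e f, hef0,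
        mul_assoc f (F * f) f, mul_assoc F f f, hff, mul_zero, mul_zero, zero_sub, mul_assoc]
    rw [h2, h3] at h1
    have h4 : (2 : ℂ) • (f * F * f) = 0 := by
      rw [two_smul]
      nth_rewrite 2 [h1]
      rw [add_neg_cancel]
    exact (smul_eq_zero.1 h4).resolve_left two_ne_zero
  have hws : star (f * F * e) = e * F * f := by
    rw [star_mul, star_mul, hes, hfs, hFs, mul_assoc]
  have hFdec : F = f * F * e + e * F * f := by
    have h1 : F = (e + f) * F * (e + f) := by rw [hef, one_mul, mul_one]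
    have h2 : (e + f) * F * (e + f) = e * F * e + e * F * f + (f * F * e + f * F * f) := by
      rw [add_mul, add_mul, mul_add, mul_add]
    rw [h2, heFe, hfFf, zero_add, add_zero] at h1
    rw [add_comm] at h1
    exact h1
  have hwww : f * F * e * (e * F * f) * (f * F * e) = f * F * e := by
    have h1 : f * (F * F * F) * e = f * F * e := by rw [hFFF]
    have h2 : f * (F * F * F) * e = f * F * (e + f) * F * (e + f) * F * e := by
      rw [hef, mul_one, mul_one]
      simp only [mul_assoc]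
    have h3 : f * F * (e + f) * F * (e + f) * F * e =
        f * F * e * (e * F * f) * (f * F * e) := by
      have a1 : f * F * (e + f) = f * F * e := by rw [mul_add, hfFf, add_zero]
      have a2 : (e + f) * F * e = f * F * e := by rw [add_mul, add_mul, heFe, zero_add]
      have a3 : f * F * (e + f) * F * (e + f) * F * e =
          (f * F * (e + f)) * F * ((e + f) * F * e) := by simp only [mul_assoc]
      rw [a3, a1, a2]
      have a4 : f * F * e * (e * F * f) * (f * F * e) =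
          f * F * (e * e) * F * (f * f) * F * e := by simp only [mul_assoc]
      have a5 : f * F * e * F * (f * F * e) = f * F * e * F * f * F * e := by
        simp only [mul_assoc]
      rw [a4, a5, hee, hff]
    rw [← h3, ← h2, h1]
  have hwA : f * F * e ∈ A := mul_mem (mul_mem hfA hFA) heA
  have hw0 : f * F * e ≠ 0 := by
    intro h0
    have h1 : e * F * f = 0 := by rw [← hws, h0, star_zero]
    rw [h0, h1, add_zero] at hFdec
    exact hFκ (by rw [hFdec]; rfl)
  refine ⟨f * F * e, hwA, by rw [hws]; exact hwww, by rw [← mul_assoc, ← mul_assoc, hff],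
    by rw [mul_assoc, hee], hw0, ?_⟩
  rw [hrm, hws]
  -- the vectors
  have hfκ : J (f κ) = f κ := by
    have h1 : f κ = κ - e κ := by
      have h2 : (e + f) κ = κ := by rw [hef]; rfl
      rw [ContinuousLinearMap.add_apply] at h2
      exact eq_sub_of_add_eq (by rw [add_comm]; exact h2)
    rw [h1, map_sub, hκ, hJe]
  have v1 : (f * F * e) κ = f (J (e (J (F κ)))) := by
    have h1 : e κ = J (e (J κ)) := by rw [hκ, hJe]
    calc (f * F * e) κ = f (F (e κ)) := rfl
      _ = f (F (J (e (J κ)))) := by rw [← h1]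
      _ = f (J (e (J (F κ)))) := by rw [hJ.J_comm e heA F hFA]
  have v2 : (e * F * f) κ = e (J (f (J (F κ)))) := by
    have h1 : f κ = J (f (J κ)) := by rw [hκ, hfκ]
    calc (e * F * f) κ = e (F (f κ)) := rfl
      _ = e (F (J (f (J κ)))) := by rw [← h1]
      _ = e (J (f (J (F κ)))) := by rw [hJ.J_comm f hfA F hFA]
  have w1 : J ((e * F * f) κ) = f (J (e (F κ))) := by
    rw [v2, ← hJ.J_comm f hfA e heA, hJ.J_J]
  have w2 : J ((f * F * e) κ) = e (J (f (F κ))) := by
    rw [v1, ← hJ.J_comm e heA f hfA, hJ.J_J]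
  have d1 : (f * F * e) κ - J ((e * F * f) κ) = f (J (e (J (F κ - J (F κ))))) := by
    rw [v1, w1, map_sub J, hJ.J_J, map_sub e, map_sub J, map_sub f]
  have d2 : (e * F * f) κ - J ((f * F * e) κ) = e (J (f (J (F κ - J (F κ))))) := by
    rw [v2, w2, map_sub J, hJ.J_J, map_sub f, map_sub J, map_sub e]
  set D : H := F κ - J (F κ) with hD
  have hpy : ∀ v : H, ‖v‖ ^ 2 = ‖e v‖ ^ 2 + ‖f v‖ ^ 2 := by
    intro v
    have h1 : v = e v + f v := by
      have h2 : (e + f) v = v := by rw [hef]; rfl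
      rw [ContinuousLinearMap.add_apply] at h2
      exact h2.symm
    have h3 := pyth hes hef0 v v
    rw [← h1] at h3
    exact h3
  have hn1 : ‖f (J (e (J D)))‖ ^ 2 ≤ ‖f D‖ ^ 2 := by
    have h1 : f (J (e (J D))) = J (e (J (f D))) := (hJ.J_comm e heA f hfA D).symm
    rw [h1, hJ.J_norm]
    have h2 := hpy (J (f D))
    rw [hJ.J_norm] at h2
    nlinarith [sq_nonneg ‖f (J (f D))‖]
  have hn2 : ‖e (J (f (J D)))‖ ^ 2 ≤ ‖e D‖ ^ 2 := by
    have h1 : e (J (f (J D))) = J (f (J (e D))) := (hJ.J_comm f hfA e heA D).symm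
    rw [h1, hJ.J_norm]
    have h2 := hpy (J (e D))
    rw [hJ.J_norm] at h2
    nlinarith [sq_nonneg ‖e (J (e D))‖]
  have hfl : ‖(e * F * f) κ - J ((f * F * e) κ)‖ = ‖(f * F * e) κ - J ((e * F * f) κ)‖ := by
    have h1 := hflip (f * F * e)
    rwa [hws] at h1
  have hsum : 2 * ‖(f * F * e) κ - J ((e * F * f) κ)‖ ^ 2 ≤ ‖D‖ ^ 2 := by
    have h1 := hpy D
    rw [← d1] at hn1
    rw [← d2, hfl] at hn2
    linarith
  have hS2 : ‖F κ‖ ^ 2 = ‖(f * F * e) κ‖ ^ 2 + ‖(e * F * f) κ‖ ^ 2 := by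
    have h1 : F κ = e ((F * f) κ) + f ((F * e) κ) := by
      conv_lhs => rw [hFdec]
      rw [ContinuousLinearMap.add_apply, add_comm]
      rfl
    have h2 := pyth hes hef0 ((F * f) κ) ((F * e) κ)
    rw [← h1] at h2
    rw [h2, add_comm]
    rfl
  have hb : ‖(e * F * f) κ‖ ≤ ‖(f * F * e) κ‖ + ‖(f * F * e) κ - J ((e * F * f) κ)‖ := by
    have h1 : ‖J ((e * F * f) κ)‖ ≤ ‖(f * F * e) κ‖ + ‖(f * F * e) κ - J ((e * F * f) κ)‖ := by
      have h2 := norm_sub_le ((f * F * e) κ) ((f * F * e) κ - J ((e * F * f) κ))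
      have h3 : (f * F * e) κ - ((f * F * e) κ - J ((e * F * f) κ)) = J ((e * F * f) κ) := by
        abel
      rwa [h3] at h2
    rwa [hJ.J_norm] at h1
  refine arith (norm_nonneg _) (norm_nonneg _) (norm_pos_iff.2 hFκ) (norm_nonneg _) hδ1 hS2 hb
    ?_ hδ
  have h1 : ‖D‖ ^ 2 ≤ 32 * δ * ‖F κ‖ ^ 2 := by
    have h2 : 16 * (2 * δ) * ‖F κ‖ ^ 2 = 32 * δ * ‖F κ‖ ^ 2 := by ring
    rw [← h2]
    exact hFd
  exact hsum.trans h1

end Pool.Agent.Helper88.CS
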