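import Pool.Agent.Helper88.CS.Cone
import Pool.Agent.Helper88.CS.JUniq
import Pool.Agent.Helper88.CS.SpecB
import Pool.Agent.Helper88.CS.Trick2
import Pool.Agent.Helper88.CS.Equiv

/-!
# Project CS, module Corner: the local step
-/

open scoped InnerProductSpace Topology BoundedContinuousFunction
open ContinuousLinearMap Filter MeasureTheory

namespace Pool.Agent.Helper88.CS

open Pool.Agent.Helper23
open Pool.Agent.Helper78.BC (Std rm Fixed)

variable {H : Type*} [NormedAddCommGroup H] [InnerProductSpace ℂ H] [CompleteSpace H]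

variable {A : VonNeumannAlgebra H} {ξ : H} {J : H →L[ℝ] H}
  {Ψ : (ℝ →ᵇ ℂ) →⋆ₐ[ℂ] (H →L[ℂ] H)} {R : H →L[ℂ] H} {D : H →L[ℝ] H}

namespace CornerAux

lemma norm_proj_le {s : H →L[ℂ] H} (h1 : star s = s) (h2 : s * s = s) (v : H) : ‖s v‖ ≤ ‖v‖ := by
  have h3 : ‖s v‖ ^ 2 ≤ ‖s v‖ * ‖v‖ := by
    have h4 : (⟪s v, s v⟫_ℂ) = ⟪s v, v⟫_ℂ := by
      have h5 : ⟪s v, s v⟫_ℂ = ⟪(star s) (s v), v⟫_ℂ := by
        rw [star_eq_adjoint, adjoint_inner_left]
      rw [h5, h1]
      show ⟪(s * s) v, v⟫_ℂ = _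
      rw [h2]
    have h6 : ((‖s v‖ : ℂ)) ^ 2 = ⟪s v, v⟫_ℂ := by
      rw [← h4, inner_self_eq_norm_sq_to_K]; rfl
    have h7 : ‖s v‖ ^ 2 = ‖⟪s v, v⟫_ℂ‖ := by
      rw [← h6, norm_pow, Complex.norm_real, norm_norm]
    rw [h7]
    exact norm_inner_le_norm _ _
  by_contra hc
  push Not at hc
  have h8 : 0 < ‖s v‖ := lt_of_le_of_lt (norm_nonneg _) hc
  nlinarith

lemma norm_isom {u : H →L[ℂ] H} (h1 : star u * u = 1) (v : H) : ‖u v‖ = ‖v‖ := by
  have h4 : (⟪u v, u v⟫_ℂ) = ⟪v, v⟫_ℂ := by
    have h5 : ⟪u v, u v⟫_ℂ = ⟪(star u) (u v), v⟫_ℂ := by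
      rw [star_eq_adjoint, adjoint_inner_left]
    rw [h5]
    show ⟪(star u * u) v, v⟫_ℂ = _
    rw [h1]; rfl
  rw [inner_self_eq_norm_sq_to_K, inner_self_eq_norm_sq_to_K] at h4
  have h6 : ‖u v‖ ^ 2 = ‖v‖ ^ 2 := by exact_mod_cast h4
  exact (sq_eq_sq₀ (norm_nonneg _) (norm_nonneg _)).1 h6

/-- right multiplication by an element under `f` lands under `f` -/
lemma right_under (h : St A ξ J Ψ R D) {f b : H →L[ℂ] H} (hf : f ∈ A) (hb : b ∈ A)
    (hJ : J (f ξ) = f ξ) (hbf : b * f = b) : f (J (b ξ)) = J (b ξ) := by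
  have h1 : J (b ξ) = J (b (J (f ξ))) := by
    rw [hJ]
    show J (b ξ) = J ((b * f) ξ)
    rw [hbf]
  have h2 : J (b (J (f ξ))) = f (J (b ξ)) := by
    rw [h.J_comm b hb f hf, h.J_xi]
  rw [← h2, ← h1]

end CornerAux

open CornerAux in
theorem local_step (h : St A ξ J Ψ R D) (hA : III1V A) {e f s r : H →L[ℂ] H} (he : IsP A e)
    (hf : IsP A f) (hef : e + f = 1) (hJe : J (e ξ) = e ξ) (hs : IsP A s) (hr : IsP A r)
    (hs0 : s ≠ 0) (hr0 : r ≠ 0) (hes : e * s = s) (hfr : f * r = r) {δ : ℝ} (hδ : 0 < δ) :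
    ∃ w ∈ A, w * star w * w = w ∧ r * w = w ∧ w * s = w ∧ w ≠ 0 ∧
      ‖w (rm J s ξ) - r (rm J w ξ)‖ ^ 2 ≤ δ * ‖w ξ‖ ^ 2 := by
  obtain ⟨heA, hes', hee⟩ := he
  obtain ⟨hfA, hfs', hff⟩ := hf
  obtain ⟨hsA, hss', hss⟩ := hs
  obtain ⟨hrA, hrs', hrr⟩ := hr
  have hfe : f = 1 - e := by rw [← hef]; abel
  have hJf : J (f ξ) = f ξ := by
    rw [hfe, sub_apply, one_apply_eq_self, map_sub, hJe, h.J_xi]
  have hef0 : e * f = 0 := by rw [hfe, mul_sub, mul_one, hee, sub_self]
  have hfe0 : f * e = 0 := by rw [hfe, sub_mul, one_mul, hee, sub_self]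
  have hse : s * e = s := by
    have := congrArg star hes
    rwa [star_mul, hss', hes'] at this
  have hrf : r * f = r := by
    have := congrArg star hfr
    rwa [star_mul, hrs', hfs'] at this
  have hsf : s * f = 0 := by rw [← hse, mul_assoc, hef0, mul_zero]
  have hre : r * e = 0 := by rw [← hrf, mul_assoc, hfe0, mul_zero]
  have hsr : s * r = 0 := by rw [← hfr, ← mul_assoc, hsf, zero_mul]
  have hrs : r * s = 0 := by rw [← hes, ← mul_assoc, hre, zero_mul]
  -- the isometry
  have hg : IsP A (s + r) := by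
    refine ⟨add_mem hsA hrA, by rw [star_add, hss', hrs'], ?_⟩
    rw [add_mul, mul_add, mul_add, hss, hrr, hsr, hrs, add_zero, zero_add]
  have hg0 : s + r ≠ 0 := by
    intro h0
    have : (s + r) * s = 0 := by rw [h0, zero_mul]
    rw [add_mul, hss, hrs, add_zero] at this
    exact hs0 this
  obtain ⟨u, huA, hu1, hu2⟩ := equiv_one hA.toFInf h.sep hg hg0
  have huA' : star u ∈ A := star_mem huA
  have hgs : (s + r) * s = s := by rw [add_mul, hss, hrs, add_zero]
  have hsg : s * (s + r) = s := by rw [mul_add, hss, hsr, add_zero]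
  have hgr : (s + r) * r = r := by rw [add_mul, hrr, hsr, zero_add]
  have hrg : r * (s + r) = r := by rw [mul_add, hrr, hrs, zero_add]
  have hug : star u * (s + r) = star u := by rw [← hu2, ← mul_assoc, hu1, one_mul]
  have hgu : (s + r) * u = u := by rw [← hu2, mul_assoc, hu1, mul_one]
  -- vanishing of off-diagonal parts
  have hz1 : s (J (r ξ)) = 0 := by
    have h1 := right_under h hfA hrA hJf hrf
    rw [← h1]
    show (s * f) (J (r ξ)) = 0
    rw [hsf]; rfl
  have hz2 : r (J (s ξ)) = 0 := by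
    have h1 := right_under h heA hsA hJe hse
    rw [← h1]
    show (r * e) (J (s ξ)) = 0
    rw [hre]; rfl
  have hgJs : (s + r) (J (s ξ)) = s (J (s ξ)) := by rw [add_apply, hz2, add_zero]
  have hJss : J (s (J (s ξ))) = s (J (s ξ)) := by rw [h.J_comm s hsA s hsA, h.J_xi]
  -- the vector
  set k0 : H := kap J ξ u with hk0
  have hk0' : k0 = (star u) (J ((star u) ξ)) := rfl
  have hJk0 : J k0 = k0 := kap_J h huA
  have hne : k0 ≠ 0 := by
    intro h0
    have h1 := kap_sep h huA hu1 1 (one_mem A) (by rw [← hk0, h0, map_zero])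
    apply hs0
    rw [← mul_one s, h1, mul_zero]
  have hnpos : 0 < ‖k0‖ := norm_pos_iff.2 hne
  set c : ℝ := ‖k0‖⁻¹ with hc
  have hcpos : 0 < c := inv_pos.2 hnpos
  have hc0 : (c : ℂ) ≠ 0 := Complex.ofReal_ne_zero.2 hcpos.ne'
  set k : H := (c : ℂ) • k0 with hk
  have hk1 : ‖k‖ = 1 := by
    rw [hk, norm_smul, Complex.norm_real, Real.norm_eq_abs, abs_of_pos hcpos, hc,
      inv_mul_cancel₀ hnpos.ne']
  have hJc : ∀ v : H, J ((c : ℂ) • v) = (c : ℂ) • J v := by
    intro v
    rw [h.J_conj, Complex.conj_ofReal]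
  have hJk : J k = k := by rw [hk, hJc, hJk0]
  have hksep : ∀ a ∈ A, a k = 0 → a = 0 := by
    intro a ha h0
    apply kap_sep h huA hu1 a ha
    rw [hk, map_smul] at h0
    exact (smul_eq_zero.1 h0).resolve_left hc0
  have hkd : Dense (orb A k : Set H) := by
    have h1 := kap_dense h huA hu1
    rw [← hk0] at h1
    refine h1.mono ?_
    rintro _ ⟨a, ha, rfl⟩
    refine ⟨((c : ℂ)⁻¹) • a, smul_mem' _ ha, ?_⟩
    rw [hk, smul_apply, map_smul, smul_smul, inv_mul_cancel₀ hc0, one_smul]
  have hkpos : ∀ a ∈ A, 0 ≤ (⟪J (a k), (star a) k⟫_ℂ).re := by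
    intro a ha
    have h1 := kap_pos h huA a ha
    rw [← hk0] at h1
    have e1 : a k = (c : ℂ) • a k0 := by rw [hk, map_smul]
    have e2 : (star a) k = (c : ℂ) • (star a) k0 := by rw [hk, map_smul]
    rw [e1, e2, hJc, inner_smul_left, inner_smul_right, Complex.conj_ofReal,
      ← mul_assoc, ← Complex.ofReal_mul, Complex.re_ofReal_mul]
    exact mul_nonneg (by positivity) h1
  obtain ⟨Ψ', R', D', h'⟩ := exists_st h.conj hk1 hkd hksep hJk hkpos
  -- the corner projections
  set e' : H →L[ℂ] H := star u * s * u with he'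
  set f' : H →L[ℂ] H := star u * r * u with hf'
  have hPe' : IsP A e' := by
    refine ⟨mul_mem (mul_mem huA' hsA) huA, ?_, ?_⟩
    · rw [he', star_mul, star_mul, star_star, hss', mul_assoc]
    · have : star u * s * u * (star u * s * u) = star u * (s * (u * star u) * s) * u := by
        simp only [mul_assoc]
      rw [he', this, hu2, hsg, hss]
  have hPf' : IsP A f' := by
    refine ⟨mul_mem (mul_mem huA' hrA) huA, ?_, ?_⟩
    · rw [hf', star_mul, star_mul, star_star, hrs', mul_assoc]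
    · have : star u * r * u * (star u * r * u) = star u * (r * (u * star u) * r) * u := by
        simp only [mul_assoc]
      rw [hf', this, hu2, hrg, hrr]
  have hef' : e' + f' = 1 := by
    rw [he', hf', ← add_mul, ← mul_add, hug, hu1]
  have hback : ∀ x : H →L[ℂ] H, u * (star u * x * u) * star u = (s + r) * x * (s + r) := by
    intro x
    rw [← hu2]
    simp only [mul_assoc]
  have he'0 : e' ≠ 0 := by
    intro h0
    have h1 := hback s
    rw [← he', h0, mul_zero, zero_mul, hgs, hsg] at h1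
    exact hs0 h1.symm
  have hf'0 : f' ≠ 0 := by
    intro h0
    have h1 := hback r
    rw [← hf', h0, mul_zero, zero_mul, hgr, hrg] at h1
    exact hr0 h1.symm
  -- `e'` commutes with `k0`
  have hJe'0 : J (e' k0) = e' k0 := by
    have h1 : e' k0 = (star u) (s (J ((star u) ξ))) := by
      rw [hk0', he']
      show (star u * s * u * star u) (J ((star u) ξ)) = (star u * s) (J ((star u) ξ))
      have : star u * s * u * star u = star u * (s * (u * star u)) := by simp only [mul_assoc]
      rw [this, hu2, hsg]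
    have h2 : J ((star u * s) (J ((star u) ξ))) = (star u) (J ((star u * s) ξ)) := by
      rw [h.J_comm _ (mul_mem huA' hsA) _ huA', h.J_xi]
    -- both equal `u* J u* s J s ξ`
    have h3 : (star u) (J ((star u * s) ξ)) = (star u) (J ((star u) (s (J (s ξ))))) := by
      have e1 : (star u) (J ((star u * s) ξ)) = (star u) ((s + r) (J ((star u * s) ξ))) := by
        show _ = (star u * (s + r)) (J ((star u * s) ξ))
        rw [hug]
      have e2 : J ((star u * s) ξ) = J ((star u) (J (J (s ξ)))) := by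
        rw [h.J_J]; rfl
      have e3 : (s + r) (J ((star u) (J (J (s ξ))))) = J ((star u) (J ((s + r) (J (s ξ))))) := by
        rw [h.J_comm _ huA' _ hg.1]
      rw [e1, e2, e3, hgJs, hJss]
    have h4 : (star u) (s (J ((star u) ξ))) = (star u) (J ((star u) (s (J (s ξ))))) := by
      have e1 : s (J ((star u) ξ)) = J ((star u) (J (s ξ))) := by
        rw [h.J_comm _ huA' _ hsA, h.J_xi]
      have e2 : (star u) (J (s ξ)) = (star u) (s (J (s ξ))) := by
        have : (star u) (J (s ξ)) = (star u) ((s + r) (J (s ξ))) := by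
          show _ = (star u * (s + r)) (J (s ξ))
          rw [hug]
        rw [this, hgJs]
      rw [e1, e2]
    rw [h1]
    have h5 : (star u) (s (J ((star u) ξ))) = (star u * s) (J ((star u) ξ)) := rfl
    rw [h5, h2, h3, ← h4, h5]
  have hJf'0 : J (f' k0) = f' k0 := by
    have : f' = 1 - e' := by rw [← hef']; abel
    rw [this, sub_apply, one_apply_eq_self, map_sub, hJe'0, hJk0]
  have hJe' : J (e' k) = e' k := by rw [hk, map_smul, hJc, hJe'0]
  have hJf' : J (f' k) = f' k := by rw [hk, map_smul, hJc, hJf'0]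
  -- small parameter
  set t : ℝ := min (1 / 100) (δ / 100) with ht
  have ht0 : 0 < t := lt_min (by norm_num) (by positivity)
  set η : ℝ := 2 * Real.log (1 + t) with hη
  have hη0 : 0 < η := by
    have := Real.log_pos (show (1 : ℝ) < 1 + t by linarith)
    rw [hη]; linarith
  have hexp : Real.exp (η / 2) - 1 = t := by
    rw [hη, mul_div_cancel_left₀ _ (two_ne_zero), Real.exp_log (by linarith)]
    ring
  obtain ⟨x, hxA, hfx, hxe, hx0, hsupp⟩ :=
    exists_near_zero h' hA hPe' hPf' he'0 hf'0 hJe' hJf' hη0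
  have hcomm := supp_comm h' hxA hη0 hsupp
  rw [hexp] at hcomm
  obtain ⟨w', hw'A, hw'1, hw'2, hw'3, hw'0, hw'4⟩ := cut_offdiag h.conj hJk hksep hPe' hPf' hef'
    hJe' hxA hfx hxe hx0 ht0 (min_le_left _ _) hcomm
  -- unscaled estimate
  have hest : ‖w' k0 - rm J w' k0‖ ^ 2 ≤ δ * ‖w' k0‖ ^ 2 := by
    have h1 : w' k - rm J w' k = (c : ℂ) • (w' k0 - rm J w' k0) := by
      simp only [rm, hk, map_smul, hJc, smul_sub]
    have h2 : w' k = (c : ℂ) • w' k0 := by rw [hk, map_smul]
    rw [h1, h2, norm_smul, norm_smul, mul_pow, mul_pow] at hw'4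
    have h3 : 0 < ‖(c : ℂ)‖ ^ 2 := by
      have := norm_pos_iff.2 hc0
      positivity
    have h4 : 100 * t ≤ δ := by
      have := min_le_right (1 / 100 : ℝ) (δ / 100)
      rw [ht]; linarith
    have h5 : ‖(c : ℂ)‖ ^ 2 * ‖w' k0 - rm J w' k0‖ ^ 2 ≤ ‖(c : ℂ)‖ ^ 2 * (100 * t * ‖w' k0‖ ^ 2) := by
      calc _ ≤ 100 * t * (‖(c : ℂ)‖ ^ 2 * ‖w' k0‖ ^ 2) := hw'4
        _ = _ := by ring
    have h6 := le_of_mul_le_mul_left h5 h3
    exact h6.trans (mul_le_mul_of_nonneg_right h4 (by positivity))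
  -- the partial isometry
  set w : H →L[ℂ] H := u * w' * star u with hw
  have hwA : w ∈ A := mul_mem (mul_mem huA hw'A) huA'
  have hws : star w = u * star w' * star u := by
    rw [hw, star_mul, star_mul, star_star, mul_assoc]
  have hrw : r * w = w := by
    have h1 : u * w' = r * (u * w') := by
      calc u * w' = u * (f' * w') := by rw [hw'2]
        _ = (u * star u) * r * (u * w') := by rw [hf']; simp only [mul_assoc]
        _ = r * (u * w') := by rw [hu2, hgr]
    rw [hw, ← mul_assoc, ← h1]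
  have hwss : w * s = w := by
    have h1 : w' * star u = w' * star u * s := by
      calc w' * star u = w' * e' * star u := by rw [hw'3]
        _ = w' * star u * (s * (u * star u)) := by rw [he']; simp only [mul_assoc]
        _ = w' * star u * s := by rw [hu2, hsg]
    rw [hw, mul_assoc, mul_assoc, ← mul_assoc w', ← h1, ← mul_assoc]
  have hw0 : w ≠ 0 := by
    intro h0
    apply hw'0
    have : star u * w * u = w' := by
      calc star u * w * u = (star u * u) * w' * (star u * u) := by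
            rw [hw]; simp only [mul_assoc]
        _ = w' := by rw [hu1, one_mul, mul_one]
    rw [← this, h0, mul_zero, zero_mul]
  have hw3 : w * star w * w = w := by
    calc w * star w * w = u * (w' * (star u * u) * star w' * (star u * u) * w') * star u := by
          rw [hws, hw]; simp only [mul_assoc]
      _ = w := by rw [hu1, mul_one, mul_one, hw'1]
  refine ⟨w, hwA, hw3, hrw, hwss, hw0, ?_⟩
  -- transport of the estimate
  have hrm1 : rm J s ξ = J (s ξ) := by rw [rm, hss', h.J_xi]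
  have hrm2 : rm J w ξ = J ((star w) ξ) := by rw [rm, h.J_xi]
  have hwr : w (J (r ξ)) = 0 := by
    have : w (J (r ξ)) = (w * s) (J (r ξ)) := by rw [hwss]
    rw [this]
    show w (s (J (r ξ))) = 0
    rw [hz1, map_zero]
  have hT1 : u (J (u (J (w' k0)))) = w (J (s ξ)) := by
    have e1 : J (u (J (w' k0))) = w' (J (u (J k0))) := h.J_comm u huA w' hw'A k0
    have e2 : J (u (J k0)) = (star u) (J ((s + r) ξ)) := by
      rw [hJk0, hk0']
      show J ((u * star u) (J ((star u) ξ))) = _
      rw [hu2, h.J_comm _ hg.1 _ huA', h.J_xi]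
    rw [e1, e2]
    show w (J ((s + r) ξ)) = _
    rw [add_apply, map_add, map_add, hwr, add_zero]
  have hsw : s (J ((star w) ξ)) = 0 := by
    have h1 : star w * f = star w := by
      have e1 : star w * r = star w := by
        have := congrArg star hrw
        rwa [star_mul, hrs'] at this
      calc star w * f = star w * r * f := by rw [e1]
        _ = star w := by rw [mul_assoc, hrf, e1]
    have h2 := right_under h hfA (star_mem hwA) hJf h1
    rw [← h2]
    show (s * f) (J ((star w) ξ)) = 0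
    rw [hsf]; rfl
  have hT2 : u (J (u (J (rm J w' k0)))) = r (J ((star w) ξ)) := by
    have e1 : rm J w' k0 = (star u) (J ((star w' * star u) ξ)) := by
      rw [rm, hJk0, hk0']
      show J ((star w' * star u) (J ((star u) ξ))) = _
      rw [h.J_comm _ (mul_mem (star_mem hw'A) huA') _ huA', h.J_xi]
    have e2 : J (u (J (rm J w' k0))) = (star u) (J ((star w) ξ)) := by
      rw [e1, h.J_comm u huA _ huA', h.J_J, hws]
      show (star u) (J ((u * (star w' * star u)) ξ)) = _
      rw [mul_assoc]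
    rw [e2]
    show (u * star u) (J ((star w) ξ)) = _
    rw [hu2, add_apply, hsw, zero_add]
  have hiso : ∀ v : H, ‖u (J (u (J v)))‖ = ‖v‖ := by
    intro v
    rw [norm_isom hu1, h.J_norm, norm_isom hu1, h.J_norm]
  have hfin1 : ‖w (J (s ξ)) - r (J ((star w) ξ))‖ = ‖w' k0 - rm J w' k0‖ := by
    rw [← hT1, ← hT2, ← map_sub, ← map_sub, ← map_sub, ← map_sub, hiso]
  have hfin2 : ‖w' k0‖ ≤ ‖w ξ‖ := by
    rw [← hiso (w' k0), hT1]
    have e1 : w (J (s ξ)) = J (s (J (w ξ))) := by rw [h.J_comm s hsA w hwA, h.J_xi]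
    rw [e1, h.J_norm]
    exact (norm_proj_le hss' hss _).trans (le_of_eq (h.J_norm _))
  rw [hrm1, hrm2, hfin1]
  refine hest.trans ?_
  have := mul_self_le_mul_self (norm_nonneg (w' k0)) hfin2
  nlinarith

end Pool.Agent.Helper88.CS
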