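import Pool.Agent.Helper78.BC.StdEx
import Pool.Agent.Helper78.BC.Fix

/-!
# Project CS: the Connes-Stoermer theorem from the textbook definition of type III₁: definitions
-/

open scoped InnerProductSpace Topology BoundedContinuousFunction
open ContinuousLinearMap Filter MeasureTheory

namespace Pool.Agent.Helper88.CS

open Pool.Agent.Helper23
open Pool.Agent.Helper78.BC (Std rm Fixed)

variable {H : Type*} [NormedAddCommGroup H] [InnerProductSpace ℂ H] [CompleteSpace H]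

/-- projections of `A` -/
def IsP (A : VonNeumannAlgebra H) (e : H →L[ℂ] H) : Prop := e ∈ A ∧ star e = e ∧ e * e = e

/-- a factor all of whose nonzero projections are infinite -/
structure FInf (A : VonNeumannAlgebra H) : Prop where
  factor : ∀ z ∈ A, z ∈ A.commutant → ∃ c : ℂ, z = c • (1 : H →L[ℂ] H)
  infinite : ∀ e, IsP A e → e ≠ 0 → ∃ v ∈ A, star v * v = e ∧ e * v = v ∧ v * star v ≠ e

/-- `l` is in the spectrum of the modular operator of the vector `ζ`, i.e. for each `ε > 0` there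
is `a ∈ A` with `‖a ζ‖ = 1` and `‖(Δ - l) a ζ‖ ≤ ε`; here `⟪x* ζ, Δ a ζ⟫ = ⟪a* ζ, x ζ⟫`. -/
def SpecAt (A : VonNeumannAlgebra H) (ζ : H) (l : ℝ) : Prop := ∀ ε : ℝ, 0 < ε → ∃ a ∈ A,
  ‖a ζ‖ = 1 ∧ ∀ x ∈ A, ‖⟪(star a) ζ, x ζ⟫_ℂ - (l : ℂ) * ⟪(star x) ζ, a ζ⟫_ℂ‖ ≤ ε * ‖(star x) ζ‖

/-- type III factor, `S(A) = [0, ∞)`, vector form -/
structure III1V (A : VonNeumannAlgebra H) : Prop extends FInf A where
  spec : ∀ ζ : H, ‖ζ‖ = 1 → (∀ a ∈ A, a ζ = 0 → a = 0) → ∀ l : ℝ, 0 < l → SpecAt A ζ l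

/-- the functional `x ↦ ∑ ⟪ζₙ, x ζₙ⟫` -/
noncomputable def st (ζ : ℕ → H) (x : H →L[ℂ] H) : ℂ := ∑' n, ⟪ζ n, x (ζ n)⟫_ℂ

/-- Type III₁ factor, textbook definition: `N` is a factor, every nonzero projection of `N` is
infinite, and for every faithful normal state `ψ = ∑ ⟪ζₙ, · ζₙ⟫` of `N` every `l > 0` belongs to
the spectrum of the modular operator of `ψ` (`S(N) = [0, ∞)`). -/
structure IsTypeIIIOne (N : VonNeumannAlgebra H) : Prop where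
  factor : ∀ z ∈ N, z ∈ N.commutant → ∃ c : ℂ, z = c • (1 : H →L[ℂ] H)
  infinite : ∀ e ∈ N, star e = e → e * e = e → e ≠ 0 →
    ∃ v ∈ N, star v * v = e ∧ e * v = v ∧ v * star v ≠ e
  spectrum : ∀ ζ : ℕ → H, Summable (fun n => ‖ζ n‖ ^ 2) → ∑' n, ‖ζ n‖ ^ 2 = 1 →
    (∀ a ∈ N, (∀ n, a (ζ n) = 0) → a = 0) → ∀ l : ℝ, 0 < l → ∀ ε : ℝ, 0 < ε →
    ∃ a ∈ N, st ζ (star a * a) = 1 ∧ ∀ x ∈ N,
      ‖st ζ (a * x) - (l : ℂ) * st ζ (x * a)‖ ≤ ε * Real.sqrt ((st ζ (x * star x)).re)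

/-- The standard form of project BC with the operators of Rieffel and van Daele. -/
structure St (A : VonNeumannAlgebra H) (ξ : H) (J : H →L[ℝ] H)
    (Ψ : (ℝ →ᵇ ℂ) →⋆ₐ[ℂ] (H →L[ℂ] H)) (R : H →L[ℂ] H) (D : H →L[ℝ] H) : Prop
    extends Std A ξ J Ψ where
  mod : Modular A ξ R D Ψ
  jd : Pool.Agent.Helper43.TTF.JD D Ψ J
  dense : Dense (orb A ξ : Set H)

/-- the bare conjugation: `J A J = A'` -/
structure Conj (A : VonNeumannAlgebra H) (J : H →L[ℝ] H) : Prop where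
  J_J : ∀ v, J (J v) = v
  J_conj : ∀ (c : ℂ) (v : H), J (c • v) = (starRingEnd ℂ) c • J v
  J_norm : ∀ v, ‖J v‖ = ‖v‖
  J_inner : ∀ v w, ⟪J v, J w⟫_ℂ = ⟪w, v⟫_ℂ
  J_comm : ∀ a ∈ A, ∀ y ∈ A, ∀ v, J (a (J (y v))) = y (J (a (J v)))
  J_mem : ∀ b ∈ A.commutant, ∃ a ∈ A, ∀ v, b v = J (a (J v))

theorem St.conj {A : VonNeumannAlgebra H} {ξ : H} {J : H →L[ℝ] H}
    {Ψ : (ℝ →ᵇ ℂ) →⋆ₐ[ℂ] (H →L[ℂ] H)} {R : H →L[ℂ] H} {D : H →L[ℝ] H} (h : St A ξ J Ψ R D) :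
    Conj A J :=
  ⟨h.J_J, h.J_conj, h.J_norm, h.J_inner, h.J_comm, h.J_mem⟩

/-- the spectral measure of `v` is supported in `[a, b]` -/
def Supp (Ψ : (ℝ →ᵇ ℂ) →⋆ₐ[ℂ] (H →L[ℂ] H)) (v : H) (a b : ℝ) : Prop :=
  ∀ G : ℝ →ᵇ ℂ, (∀ ρ ∈ Set.Icc a b, G ρ = 0) → Ψ G v = 0

/-- `k` is an integrable kernel with (inverse) Fourier transform `K` -/
structure Ker (k : ℝ → ℂ) (K : ℝ →ᵇ ℂ) : Prop where
  cont : Continuous k
  int : Integrable k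
  Kint : Integrable (K : ℝ → ℂ)
  four : ∀ ρ, K ρ = ∫ t, k t * expB (2 * Real.pi * t) ρ
  inv : ∀ t, k t = ∫ ρ, K ρ * expB (-(2 * Real.pi * t)) ρ

/-- the potential -/
noncomputable def Phi (J : H →L[ℝ] H) (ξ : H) (e f v : H →L[ℂ] H) : ℝ :=
  ‖v (rm J (star v * v) ξ) - (v * star v) (rm J v ξ)‖ ^ 2 +
    4 * ‖(star v * v) (rm J (e - star v * v) ξ)‖ ^ 2 +
    4 * ‖(f - v * star v) (rm J (v * star v) ξ)‖ ^ 2

end Pool.Agent.Helper88.CS
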