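import Pool.Agent.Helper88.CS.Defs

/-!
# Project CS, module Max: a countable maximality principle
-/

open scoped InnerProductSpace Topology BoundedContinuousFunction
open ContinuousLinearMap Filter MeasureTheory

namespace Pool.Agent.Helper88.CS

open Pool.Agent.Helper23
open Pool.Agent.Helper78.BC (Std rm Fixed)

variable {H : Type*} [NormedAddCommGroup H] [InnerProductSpace ℂ H] [CompleteSpace H]

theorem exists_max {α : Type*} [Preorder α] (m : α → ℝ) {C : ℝ} (hC : ∀ a, m a ≤ C)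
    (hm : Monotone m) (hseq : ∀ s : ℕ → α, Monotone s → ∃ b, ∀ n, s n ≤ b) (a : α) :
    ∃ b, a ≤ b ∧ ∀ c, b ≤ c → m c = m b := by
  have key : ∀ x : α, ∃ y, x ≤ y ∧ ∀ c, x ≤ c → (m x + m c) / 2 ≤ m y := by
    intro x
    by_contra hcon
    push Not at hcon
    have hb : BddAbove (m '' Set.Ici x) := ⟨C, by rintro _ ⟨c, _, rfl⟩; exact hC c⟩
    have hne : (m '' Set.Ici x).Nonempty := ⟨m x, x, le_refl x, rfl⟩
    obtain ⟨c₀, hc₀, h₀⟩ := hcon x (le_refl x)
    have h1 : m x < m c₀ := by linarith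
    have h2 : m c₀ ≤ sSup (m '' Set.Ici x) := le_csSup hb ⟨c₀, hc₀, rfl⟩
    obtain ⟨_, ⟨y, hy, rfl⟩, h3⟩ := exists_lt_of_lt_csSup hne
      (show (m x + sSup (m '' Set.Ici x)) / 2 < sSup (m '' Set.Ici x) by linarith)
    obtain ⟨c, hc, h4⟩ := hcon y hy
    have h5 : m c ≤ sSup (m '' Set.Ici x) := le_csSup hb ⟨c, hc, rfl⟩
    linarith
  choose f hf hf2 using key
  let s : ℕ → α := fun n => f^[n] a
  have hs : ∀ n, s (n + 1) = f (s n) := fun n => Function.iterate_succ_apply' f n a
  have hmono : Monotone s := monotone_nat_of_le_succ fun n => by rw [hs]; exact hf _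
  obtain ⟨b, hb⟩ := hseq s hmono
  refine ⟨b, hb 0, fun c hc => le_antisymm ?_ (hm hc)⟩
  have h1 : ∀ n, m c - m (s n) ≤ (m c - m a) * (1 / 2) ^ n := by
    intro n
    induction n with
    | zero => simp [s]
    | succ n ih =>
      have := hf2 (s n) c ((hb n).trans hc)
      rw [hs, pow_succ]
      linarith
  have h2 : ∀ n, m c - m b ≤ (m c - m a) * (1 / 2) ^ n := fun n => by
    have := hm (hb n)
    linarith [h1 n]
  have h3 : Filter.Tendsto (fun n : ℕ => (m c - m a) * (1 / 2 : ℝ) ^ n) Filter.atTop (nhds 0) := by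
    have := (tendsto_pow_atTop_nhds_zero_of_lt_one (r := (1 / 2 : ℝ)) (by norm_num)
      (by norm_num)).const_mul (m c - m a)
    simpa using this
  have := ge_of_tendsto' h3 h2
  linarith

end Pool.Agent.Helper88.CS
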