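import Pool.Agent.Helper88.CS.Defs

/-!
# Project CS, module Step: one step of the exhaustion
-/

open scoped InnerProductSpace Topology BoundedContinuousFunction
open ContinuousLinearMap Filter MeasureTheory

namespace Pool.Agent.Helper88.CS

open Pool.Agent.Helper23
open Pool.Agent.Helper78.BC (Std rm Fixed)

variable {H : Type*} [NormedAddCommGroup H] [InnerProductSpace ℂ H] [CompleteSpace H]

variable {A : VonNeumannAlgebra H} {ξ : H} {J : H →L[ℝ] H}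

namespace StepAux

lemma rm_add (J : H →L[ℝ] H) (y z : H →L[ℂ] H) (η : H) :
    rm J (y + z) η = rm J y η + rm J z η := by
  simp only [rm, star_add, add_apply, map_add]

lemma rm_sub (J : H →L[ℝ] H) (y z : H →L[ℂ] H) (η : H) :
    rm J (y - z) η = rm J y η - rm J z η := by
  simp only [rm, star_sub, sub_apply, map_sub]

lemma rm_vadd (J : H →L[ℝ] H) (y : H →L[ℂ] H) (η ζ : H) :
    rm J y (η + ζ) = rm J y η + rm J y ζ := by
  simp only [rm, map_add]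

lemma rm_vsub (J : H →L[ℝ] H) (y : H →L[ℂ] H) (η ζ : H) :
    rm J y (η - ζ) = rm J y η - rm J y ζ := by
  simp only [rm, map_sub]

lemma rm_zero (J : H →L[ℝ] H) (η : H) : rm J 0 η = 0 := by
  simp only [rm, star_zero, zero_apply, map_zero]

lemma rm_mul (hJ : Conj A J) (y z : H →L[ℂ] H) (η : H) :
    rm J z (rm J y η) = rm J (y * z) η := by
  simp only [rm, hJ.J_J, star_mul, mul_apply_eq_comp]

lemma rm_comm (hJ : Conj A J) {x y : H →L[ℂ] H} (hx : x ∈ A) (hy : y ∈ A) (η : H) :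
    x (rm J y η) = rm J y (x η) := by
  have h := hJ.J_comm (star y) (star_mem hy) x hx η
  simp only [rm]
  exact h.symm

lemma norm_l {v : H →L[ℂ] H} (hv : v * star v * v = v) (η : H) :
    ‖v η‖ ^ 2 = ‖(star v * v) η‖ ^ 2 := by
  have h1 : ⟪v η, v η⟫_ℂ = ⟪(star v * v) η, (star v * v) η⟫_ℂ := by
    have e1 : ⟪(star v * v) η, (star v * v) η⟫_ℂ = ⟪v η, v ((star v * v) η)⟫_ℂ := by
      rw [mul_apply_eq_comp, ContinuousLinearMap.star_eq_adjoint,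
        ContinuousLinearMap.adjoint_inner_left]
    rw [e1, ← mul_apply_eq_comp, ← mul_assoc, hv]
  rw [inner_self_eq_norm_sq_to_K, inner_self_eq_norm_sq_to_K] at h1
  exact_mod_cast h1

lemma norm_r (hJ : Conj A J) {w : H →L[ℂ] H} (hw : w * star w * w = w) (η : H) :
    ‖rm J w η‖ ^ 2 = ‖rm J (w * star w) η‖ ^ 2 := by
  have hw' : star w * star (star w) * star w = star w := by
    conv_rhs => rw [← hw]
    simp only [star_mul, star_star, mul_assoc]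
  simp only [rm, hJ.J_norm]
  rw [norm_l hw' (J η)]
  simp only [star_star, star_mul]

lemma pyth {p : H →L[ℂ] H} (hp : star p = p) (hpp : p * p = p) (η : H) :
    ‖η‖ ^ 2 = ‖p η‖ ^ 2 + ‖η - p η‖ ^ 2 := by
  have h0 : ⟪p η, η - p η⟫_ℂ = 0 := by
    have : ⟪p η, η - p η⟫_ℂ = ⟪η, p (η - p η)⟫_ℂ := by
      have h2 := ContinuousLinearMap.adjoint_inner_left p (η - p η) η
      rw [← ContinuousLinearMap.star_eq_adjoint, hp] at h2
      exact h2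
    rw [this, map_sub, ← mul_apply_eq_comp, hpp, sub_self, inner_zero_right]
  have h1 : ‖p η + (η - p η)‖ ^ 2 = ‖p η‖ ^ 2 + ‖η - p η‖ ^ 2 := by
    have := norm_add_pow_two (𝕜 := ℂ) (p η) (η - p η)
    rw [this, h0]
    simp
  rwa [add_sub_cancel] at h1

lemma pyth_l {p : H →L[ℂ] H} (hp : star p = p) (hpp : p * p = p) {η α β : H}
    (h1 : p η = α) (h2 : η = α + β) : ‖η‖ ^ 2 = ‖α‖ ^ 2 + ‖β‖ ^ 2 := by
  have := pyth hp hpp η
  rw [h1] at this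
  rw [this, show η - α = β by rw [h2]; abel]

lemma pyth_r (hJ : Conj A J) {p : H →L[ℂ] H} (hp : star p = p) (hpp : p * p = p) {η α β : H}
    (h1 : rm J p η = α) (h2 : η = α + β) : ‖η‖ ^ 2 = ‖α‖ ^ 2 + ‖β‖ ^ 2 := by
  have := pyth hp hpp (J η)
  rw [hJ.J_norm, ← hJ.J_norm (p (J η)), ← hJ.J_norm (J η - p (J η)), map_sub, hJ.J_J] at this
  have h3 : J (p (J η)) = α := by
    rw [← h1, rm, hp]
  rw [h3] at this
  rw [this, show η - α = β by rw [h2]; abel]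

lemma swap (hJ : Conj A J) (hξ : J ξ = ξ) {x y : H →L[ℂ] H} (hx : x ∈ A) (hy : y ∈ A) :
    ‖x (rm J y ξ)‖ ^ 2 = ‖(star y) (rm J (star x) ξ)‖ ^ 2 := by
  have h : J (x (rm J y ξ)) = (star y) (rm J (star x) ξ) := by
    rw [rm_comm hJ (star_mem hy) (star_mem hx)]
    simp only [rm, hξ, star_star]
  rw [← hJ.J_norm, h]

end StepAux

open StepAux in
theorem phi_step (hJ : Conj A J) (hξ : J ξ = ξ) {e f v w : H →L[ℂ] H} (he : IsP A e)
    (hf : IsP A f) (hef : e + f = 1) (hv : v ∈ A) (hv1 : v * star v * v = v) (hfv : f * v = v)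
    (hve : v * e = v) (hw : w ∈ A) (hw1 : w * star w * w = w)
    (hfw : (f - v * star v) * w = w) (hwe : w * (e - star v * v) = w) :
    Phi J ξ e f (v + w) ≤ Phi J ξ e f v +
      4 * ‖w (rm J (e - star v * v) ξ) - (f - v * star v) (rm J w ξ)‖ ^ 2 := by
  obtain ⟨heA, hes, hee⟩ := he
  obtain ⟨hfA, hfs, hff⟩ := hf
  -- the blocks
  obtain ⟨s0, hs0⟩ : ∃ s0, s0 = star v * v := ⟨_, rfl⟩
  obtain ⟨r0, hr0⟩ : ∃ r0, r0 = v * star v := ⟨_, rfl⟩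
  obtain ⟨s1, hs1⟩ : ∃ s1, s1 = star w * w := ⟨_, rfl⟩
  obtain ⟨r1, hr1⟩ : ∃ r1, r1 = w * star w := ⟨_, rfl⟩
  have s0A : s0 ∈ A := hs0 ▸ mul_mem (star_mem hv) hv
  have r0A : r0 ∈ A := hr0 ▸ mul_mem hv (star_mem hv)
  have s1A : s1 ∈ A := hs1 ▸ mul_mem (star_mem hw) hw
  have r1A : r1 ∈ A := hr1 ▸ mul_mem hw (star_mem hw)
  have s0s : star s0 = s0 := by rw [hs0]; simp
  have r0s : star r0 = r0 := by rw [hr0]; simp
  have s1s : star s1 = s1 := by rw [hs1]; simp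
  have r1s : star r1 = r1 := by rw [hr1]; simp
  have r0v : r0 * v = v := by rw [hr0]; exact hv1
  have vs0 : v * s0 = v := by rw [hs0, ← mul_assoc]; exact hv1
  have r1w : r1 * w = w := by rw [hr1]; exact hw1
  have ws1 : w * s1 = w := by rw [hs1, ← mul_assoc]; exact hw1
  have s0s0 : s0 * s0 = s0 := by
    nth_rewrite 1 [hs0]; rw [mul_assoc, vs0, ← hs0]
  have r0r0 : r0 * r0 = r0 := by
    nth_rewrite 2 [hr0]; rw [← mul_assoc, r0v, ← hr0]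
  have s1s1 : s1 * s1 = s1 := by
    nth_rewrite 1 [hs1]; rw [mul_assoc, ws1, ← hs1]
  have r1r1 : r1 * r1 = r1 := by
    nth_rewrite 2 [hr1]; rw [← mul_assoc, r1w, ← hr1]
  have s0e : s0 * e = s0 := by rw [hs0, mul_assoc, hve]
  have es0 : e * s0 = s0 := by
    have := congrArg star s0e
    rwa [star_mul, s0s, hes] at this
  have fr0 : f * r0 = r0 := by rw [hr0, ← mul_assoc, hfv]
  have r0f : r0 * f = r0 := by
    have := congrArg star fr0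
    rwa [star_mul, r0s, hfs] at this
  rw [← hs0] at hwe
  rw [← hr0] at hfw
  have ws0 : w * s0 = 0 := by
    rw [← hwe, mul_assoc, sub_mul, es0, s0s0, sub_self, mul_zero]
  have r0w : r0 * w = 0 := by
    rw [← hfw, ← mul_assoc, mul_sub, r0f, r0r0, sub_self, zero_mul]
  have s1s0 : s1 * s0 = 0 := by rw [hs1, mul_assoc, ws0, mul_zero]
  have s0s1 : s0 * s1 = 0 := by
    have := congrArg star s1s0
    rwa [star_mul, s0s, s1s, star_zero] at this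
  have r0r1 : r0 * r1 = 0 := by rw [hr1, ← mul_assoc, r0w, zero_mul]
  have r1r0 : r1 * r0 = 0 := by
    have := congrArg star r0r1
    rwa [star_mul, r0s, r1s, star_zero] at this
  have vs1 : v * s1 = 0 := by rw [← vs0, mul_assoc, s0s1, mul_zero]
  have r1v : r1 * v = 0 := by rw [← r0v, ← mul_assoc, r1r0, zero_mul]
  have we : w * e = w := by
    have : w * (e - s0) = w * e - w * s0 := mul_sub _ _ _
    rw [ws0, sub_zero] at this
    rw [← this, hwe]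
  have fw : f * w = w := by
    have : (f - r0) * w = f * w - r0 * w := sub_mul _ _ _
    rw [r0w, sub_zero] at this
    rw [← this, hfw]
  have s1e : s1 * e = s1 := by rw [hs1, mul_assoc, we]
  have es1 : e * s1 = s1 := by
    have := congrArg star s1e
    rwa [star_mul, s1s, hes] at this
  have fr1 : f * r1 = r1 := by rw [hr1, ← mul_assoc, fw]
  have r1f : r1 * f = r1 := by
    have := congrArg star fr1
    rwa [star_mul, r1s, hfs] at this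
  have svw : star v * w = 0 := by
    have h1 : star v * r0 = star v := by
      have := congrArg star r0v
      rwa [star_mul, r0s] at this
    rw [← h1, mul_assoc, r0w, mul_zero]
  have swv : star w * v = 0 := by
    have := congrArg star svw
    rwa [star_mul, star_star, star_zero] at this
  have wsv : w * star v = 0 := by
    have h1 : s0 * star v = star v := by
      have := congrArg star vs0
      rwa [star_mul, s0s] at this
    rw [← h1, ← mul_assoc, ws0, zero_mul]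
  have vsw : v * star w = 0 := by
    have := congrArg star wsv
    rwa [star_mul, star_star, star_zero] at this
  have hS : star (v + w) * (v + w) = s0 + s1 := by
    rw [star_add, add_mul, mul_add, mul_add, svw, swv, ← hs0, ← hs1]; abel
  have hR : (v + w) * star (v + w) = r0 + r1 := by
    rw [star_add, add_mul, mul_add, mul_add, vsw, wsv, ← hr0, ← hr1]; abel
  -- calculus of `x ξ y`
  have key : ∀ (p x : H →L[ℂ] H) (η : H), p (x η) = (p * x) η := fun _ _ _ => rfl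
  have kr : ∀ {q x : H →L[ℂ] H} (y : H →L[ℂ] H), q ∈ A → x ∈ A →
      rm J q (x (rm J y ξ)) = x (rm J (y * q) ξ) := by
    intro q x y hq hx
    rw [← rm_comm hJ hx hq, rm_mul hJ]
  have fA0 : f - r0 ∈ A := sub_mem hfA r0A
  obtain ⟨g, hg⟩ : ∃ g, g = e - (s0 + s1) := ⟨_, rfl⟩
  obtain ⟨k, hk⟩ : ∃ k, k = f - (r0 + r1) := ⟨_, rfl⟩
  have kA : k ∈ A := hk ▸ sub_mem hfA (add_mem r0A r1A)
  have gA : g ∈ A := hg ▸ sub_mem heA (add_mem s0A s1A)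
  have eg : e - s0 = s1 + g := by rw [hg]; abel
  have fk : f - r0 = r1 + k := by rw [hk]; abel
  have gs1 : g * s1 = 0 := by
    rw [hg, sub_mul, add_mul, es1, s0s1, s1s1]; abel
  have r1k : r1 * k = 0 := by
    rw [hk, mul_sub, mul_add, r1f, r1r0, r1r1]; abel
  -- first term
  obtain ⟨α0, hα0⟩ : ∃ α0, α0 = v (rm J s0 ξ) - r0 (rm J v ξ) := ⟨_, rfl⟩
  obtain ⟨α1, hα1⟩ : ∃ α1, α1 = v (rm J s1 ξ) - r0 (rm J w ξ) := ⟨_, rfl⟩
  obtain ⟨β0, hβ0⟩ : ∃ β0, β0 = w (rm J s0 ξ) - r1 (rm J v ξ) := ⟨_, rfl⟩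
  obtain ⟨β1, hβ1⟩ : ∃ β1, β1 = w (rm J s1 ξ) - r1 (rm J w ξ) := ⟨_, rfl⟩
  have t1 : ‖(v + w) (rm J (s0 + s1) ξ) - (r0 + r1) (rm J (v + w) ξ)‖ ^ 2 =
      ‖α0 + α1‖ ^ 2 + ‖β0 + β1‖ ^ 2 := by
    refine pyth_l r0s r0r0 (α := α0 + α1) (β := β0 + β1) ?_ ?_
    · rw [map_sub, key, key, mul_add, mul_add, r0v, r0w, r0r0, r0r1, add_zero, add_zero,
        rm_add, rm_add, map_add, map_add, hα0, hα1]
      abel
    · rw [hα0, hα1, hβ0, hβ1, rm_add, rm_add]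
      simp only [add_apply, map_add]
      abel
  have t2 : ‖α0 + α1‖ ^ 2 = ‖α0‖ ^ 2 + ‖α1‖ ^ 2 := by
    refine pyth_r hJ s0s s0s0 (α := α0) (β := α1) ?_ rfl
    rw [rm_vadd, hα0, hα1, rm_vsub, rm_vsub, kr _ s0A hv, kr _ s0A r0A, kr _ s0A hv,
      kr _ s0A r0A, s0s0, vs0, s1s0, ws0]
    simp only [rm_zero, map_zero, sub_zero, add_zero]
  have t3 : ‖β0 + β1‖ ^ 2 = ‖β0‖ ^ 2 + ‖β1‖ ^ 2 := by
    refine pyth_r hJ s0s s0s0 (α := β0) (β := β1) ?_ rfl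
    rw [rm_vadd, hβ0, hβ1, rm_vsub, rm_vsub, kr _ s0A hw, kr _ s0A r1A, kr _ s0A hw,
      kr _ s0A r1A, s0s0, vs0, s1s0, ws0]
    simp only [rm_zero, map_zero, sub_zero, add_zero]
  -- second term
  have t4 : ‖(s0 + s1) (rm J (e - (s0 + s1)) ξ)‖ ^ 2 =
      ‖s0 (rm J g ξ)‖ ^ 2 + ‖s1 (rm J g ξ)‖ ^ 2 := by
    rw [← hg]
    refine pyth_l s0s s0s0 ?_ (add_apply _ _ _)
    rw [key, mul_add, s0s0, s0s1, add_zero]
  have t5 : ‖s0 (rm J (e - s0) ξ)‖ ^ 2 = ‖s0 (rm J s1 ξ)‖ ^ 2 + ‖s0 (rm J g ξ)‖ ^ 2 := by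
    refine pyth_r hJ s1s s1s1 (α := s0 (rm J s1 ξ)) (β := s0 (rm J g ξ)) ?_ ?_
    · rw [kr _ s1A s0A, eg, add_mul, s1s1, gs1, add_zero]
    · rw [eg, rm_add, map_add]
  -- third term
  have t6 : ‖(f - (r0 + r1)) (rm J (r0 + r1) ξ)‖ ^ 2 =
      ‖k (rm J r0 ξ)‖ ^ 2 + ‖k (rm J r1 ξ)‖ ^ 2 := by
    rw [← hk]
    refine pyth_r hJ r0s r0r0 (α := k (rm J r0 ξ)) (β := k (rm J r1 ξ)) ?_ ?_
    · rw [kr _ r0A kA, add_mul, r0r0, r1r0, add_zero]
    · rw [rm_add, map_add]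
  have t7 : ‖(f - r0) (rm J r0 ξ)‖ ^ 2 = ‖r1 (rm J r0 ξ)‖ ^ 2 + ‖k (rm J r0 ξ)‖ ^ 2 := by
    refine pyth_l r1s r1r1 (α := r1 (rm J r0 ξ)) (β := k (rm J r0 ξ)) ?_ ?_
    · rw [key, fk, mul_add, r1r1, r1k, add_zero]
    · rw [fk, add_apply]
  -- the cross terms
  have nr : ∀ {x y : H →L[ℂ] H}, x ∈ A → y ∈ A → y * star y * y = y → y * star y ∈ A →
      ‖x (rm J y ξ)‖ ^ 2 = ‖x (rm J (y * star y) ξ)‖ ^ 2 := by
    intro x y hx hy h1 h2
    rw [rm_comm hJ hx hy, rm_comm hJ hx h2, norm_r hJ h1]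
  have c1 : ‖v (rm J s1 ξ)‖ ^ 2 = ‖s0 (rm J s1 ξ)‖ ^ 2 := by rw [norm_l hv1, ← hs0]
  have c2 : ‖r0 (rm J w ξ)‖ ^ 2 = ‖r1 (rm J r0 ξ)‖ ^ 2 := by
    rw [nr r0A hw hw1 (hr1 ▸ r1A), ← hr1, swap hJ hξ r0A r1A, r0s, r1s]
  have c3 : ‖w (rm J s0 ξ)‖ ^ 2 = ‖s0 (rm J s1 ξ)‖ ^ 2 := by
    rw [norm_l hw1, ← hs1, swap hJ hξ s1A s0A, s0s, s1s]
  have c4 : ‖r1 (rm J v ξ)‖ ^ 2 = ‖r1 (rm J r0 ξ)‖ ^ 2 := by
    rw [nr r1A hv hv1 (hr0 ▸ r0A), ← hr0]
  have nsub : ∀ x y : H, ‖x - y‖ ^ 2 ≤ 2 * ‖x‖ ^ 2 + 2 * ‖y‖ ^ 2 := by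
    intro x y
    have h1 := norm_sub_le x y
    have h2 := norm_nonneg (x - y)
    nlinarith [sq_nonneg (‖x‖ - ‖y‖), norm_nonneg x, norm_nonneg y]
  have b1 := nsub (v (rm J s1 ξ)) (r0 (rm J w ξ))
  have b2 := nsub (w (rm J s0 ξ)) (r1 (rm J v ξ))
  rw [c1, c2, ← hα1] at b1
  rw [c3, c4, ← hβ0] at b2
  -- the defect
  have d1 : ‖w (rm J (e - s0) ξ) - (f - r0) (rm J w ξ)‖ ^ 2 =
      ‖w (rm J (e - s0) ξ) - r1 (rm J w ξ)‖ ^ 2 + ‖-(k (rm J w ξ))‖ ^ 2 := by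
    refine pyth_l r1s r1r1 ?_ ?_
    · rw [map_sub, key, key, r1w, fk, mul_add, r1r1, r1k, add_zero]
    · rw [fk, add_apply]; abel
  have d2 : ‖-(k (rm J w ξ))‖ ^ 2 = ‖k (rm J r1 ξ)‖ ^ 2 := by
    rw [norm_neg, nr kA hw hw1 (hr1 ▸ r1A), ← hr1]
  have d3 : ‖w (rm J (e - s0) ξ) - r1 (rm J w ξ)‖ ^ 2 = ‖β1‖ ^ 2 + ‖w (rm J g ξ)‖ ^ 2 := by
    refine pyth_r hJ s1s s1s1 (α := β1) (β := w (rm J g ξ)) ?_ ?_
    · rw [rm_vsub, kr _ s1A hw, kr _ s1A r1A, eg, add_mul, s1s1, gs1, add_zero, ws1, hβ1]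
    · rw [hβ1, eg, rm_add, map_add]; abel
  have d4 : ‖w (rm J g ξ)‖ ^ 2 = ‖s1 (rm J g ξ)‖ ^ 2 := by rw [norm_l hw1, ← hs1]
  unfold Phi
  rw [hS, hR, ← hs0, ← hr0, t1, t2, t3, t4, t6, d1, d2, d3, d4, t5, t7, ← hα0]
  have p1 := sq_nonneg ‖β1‖
  have p2 := sq_nonneg ‖s1 (rm J g ξ)‖
  have p3 := sq_nonneg ‖k (rm J r1 ξ)‖
  linarith

end Pool.Agent.Helper88.CS
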