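import Pool.Agent.Helper88.CS.Defs

/-!
# Project CS, module Sums: orthogonal sums of partial isometries
-/

open scoped InnerProductSpace Topology BoundedContinuousFunction
open ContinuousLinearMap Filter MeasureTheory

namespace Pool.Agent.Helper88.CS

open Pool.Agent.Helper23
open Pool.Agent.Helper78.BC (Std rm Fixed)

variable {H : Type*} [NormedAddCommGroup H] [InnerProductSpace ℂ H] [CompleteSpace H]

namespace SumsAux

lemma star_inner (T : H →L[ℂ] H) (x y : H) : ⟪(star T) x, y⟫_ℂ = ⟪x, T y⟫_ℂ := by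
  rw [star_eq_adjoint]; exact adjoint_inner_left T y x

lemma inner_star (T : H →L[ℂ] H) (x y : H) : ⟪T x, y⟫_ℂ = ⟪x, (star T) y⟫_ℂ := by
  rw [star_eq_adjoint]; exact (adjoint_inner_right T x y).symm

/-- the orthogonality of the ranges -/
lemma inner_zero {w : ℕ → H →L[ℂ] H} (h1 : ∀ m n, m ≠ n → star (w m) * w n = 0)
    {m n : ℕ} (hmn : m ≠ n) (x y : H) : ⟪w m x, w n y⟫_ℂ = 0 := by
  rw [inner_star]
  have : (star (w m)) (w n y) = (star (w m) * w n) y := rfl
  rw [this, h1 m n hmn]
  simp

lemma norm_sq_sum {w : ℕ → H →L[ℂ] H} (h1 : ∀ m n, m ≠ n → star (w m) * w n = 0)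
    (F : Finset ℕ) (x : H) : ‖∑ n ∈ F, w n x‖ ^ 2 = ∑ n ∈ F, ‖w n x‖ ^ 2 := by
  classical
  induction F using Finset.induction_on with
  | empty => simp
  | insert a s ha ih =>
    rw [Finset.sum_insert ha, Finset.sum_insert ha, ← ih]
    have h0 : ⟪w a x, ∑ n ∈ s, w n x⟫_ℂ = 0 := by
      rw [inner_sum]
      refine Finset.sum_eq_zero fun n hn => inner_zero h1 ?_ x x
      rintro rfl
      exact ha hn
    have h2 := norm_add_sq (𝕜 := ℂ) (w a x) (∑ n ∈ s, w n x)
    rw [h0] at h2
    simpa using h2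

lemma sum_sq_le {w : ℕ → H →L[ℂ] H} (hw : ∀ n, w n * star (w n) * w n = w n)
    (h2 : ∀ m n, m ≠ n → w m * star (w n) = 0)
    (F : Finset ℕ) (x : H) : ∑ n ∈ F, ‖w n x‖ ^ 2 ≤ ‖x‖ ^ 2 := by
  classical
  set P : H →L[ℂ] H := ∑ n ∈ F, star (w n) * w n with hP
  have hstar : star P = P := by
    rw [hP, star_sum]
    refine Finset.sum_congr rfl fun n _ => ?_
    rw [star_mul, star_star]
  have hidem : P * P = P := by
    rw [hP, Finset.sum_mul]
    refine Finset.sum_congr rfl fun n hn => ?_
    rw [Finset.mul_sum, Finset.sum_eq_single n]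
    · rw [show star (w n) * w n * (star (w n) * w n) = star (w n) * (w n * star (w n) * w n) by
        simp only [mul_assoc], hw n]
    · intro m _ hm
      rw [show star (w n) * w n * (star (w m) * w m) = star (w n) * (w n * star (w m)) * w m by
        simp only [mul_assoc], h2 n m (Ne.symm hm)]
      simp
    · intro h; exact absurd hn h
  have e1 : (∑ n ∈ F, ‖w n x‖ ^ 2 : ℝ) = RCLike.re ⟪x, P x⟫_ℂ := by
    rw [hP]
    simp only [sum_apply, inner_sum, map_sum]
    refine Finset.sum_congr rfl fun n _ => ?_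
    have : (star (w n) * w n) x = (star (w n)) (w n x) := rfl
    rw [this, ← inner_star, inner_self_eq_norm_sq]
  have e2 : RCLike.re ⟪x, P x⟫_ℂ = ‖P x‖ ^ 2 := by
    have : ⟪P x, P x⟫_ℂ = ⟪x, P x⟫_ℂ := by
      rw [inner_star, hstar]
      have : P (P x) = (P * P) x := rfl
      rw [this, hidem]
    rw [← this, inner_self_eq_norm_sq]
  have e3 : ‖P x‖ ^ 2 ≤ ‖x‖ * ‖P x‖ := by
    rw [← e2]
    exact (RCLike.re_le_norm _).trans (norm_inner_le_norm _ _)
  rw [e1, e2]
  have e4 : ‖P x‖ ≤ ‖x‖ := by
    by_cases h0 : ‖P x‖ = 0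
    · rw [h0]; exact norm_nonneg x
    · have : 0 < ‖P x‖ := lt_of_le_of_ne (norm_nonneg _) (Ne.symm h0)
      nlinarith
  exact pow_le_pow_left₀ (norm_nonneg _) e4 2

lemma norm_sum_le' {w : ℕ → H →L[ℂ] H} (hw : ∀ n, w n * star (w n) * w n = w n)
    (h1 : ∀ m n, m ≠ n → star (w m) * w n = 0) (h2 : ∀ m n, m ≠ n → w m * star (w n) = 0)
    (F : Finset ℕ) (x : H) : ‖∑ n ∈ F, w n x‖ ≤ ‖x‖ := by
  have h := sum_sq_le hw h2 F x
  rw [← norm_sq_sum h1 F x] at h
  exact (pow_le_pow_iff_left₀ (norm_nonneg _) (norm_nonneg _) two_ne_zero).1 h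

lemma summable_app {w : ℕ → H →L[ℂ] H} (hw : ∀ n, w n * star (w n) * w n = w n)
    (h1 : ∀ m n, m ≠ n → star (w m) * w n = 0) (h2 : ∀ m n, m ≠ n → w m * star (w n) = 0)
    (x : H) : Summable (fun n => w n x) := by
  have hs : Summable (fun n => ‖w n x‖ ^ 2) :=
    summable_of_sum_le (fun n => by positivity) (fun F => sum_sq_le hw h2 F x)
  rw [summable_iff_vanishing_norm]
  intro ε hε
  obtain ⟨s, hs'⟩ := summable_iff_vanishing_norm.1 hs (ε ^ 2) (by positivity)
  refine ⟨s, fun t ht => ?_⟩
  have h3 := hs' t ht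
  rw [← norm_sq_sum h1 t x, Real.norm_of_nonneg (by positivity)] at h3
  exact (pow_lt_pow_iff_left₀ (norm_nonneg _) hε.le two_ne_zero).1 h3

lemma exists_lim {w : ℕ → H →L[ℂ] H} (hw : ∀ n, w n * star (w n) * w n = w n)
    (h1 : ∀ m n, m ≠ n → star (w m) * w n = 0) (h2 : ∀ m n, m ≠ n → w m * star (w n) = 0) :
    ∃ v : H →L[ℂ] H, ∀ x, HasSum (fun n => w n x) (v x) := by
  have hsum := summable_app hw h1 h2
  refine ⟨LinearMap.mkContinuous
    { toFun := fun x => ∑' n, w n x
      map_add' := fun x y => ?_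
      map_smul' := fun c x => ?_ } 1 fun x => ?_, fun x => ?_⟩
  · rw [← (hsum x).tsum_add (hsum y)]
    exact tsum_congr fun n => map_add _ _ _
  · rw [RingHom.id_apply, ← (hsum x).tsum_const_smul]
    exact tsum_congr fun n => map_smul _ _ _
  · rw [one_mul]
    refine le_of_tendsto (hsum x).hasSum.norm (Eventually.of_forall fun F => ?_)
    exact norm_sum_le' hw h1 h2 F x
  · exact (hsum x).hasSum

end SumsAux

variable {A : VonNeumannAlgebra H}

/-- The strong sum of a sequence of partial isometries with orthogonal initial and final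
projections. -/
theorem exists_sum {w : ℕ → H →L[ℂ] H} (hA : ∀ n, w n ∈ A) (hw : ∀ n, w n * star (w n) * w n = w n)
    (h1 : ∀ m n, m ≠ n → star (w m) * w n = 0) (h2 : ∀ m n, m ≠ n → w m * star (w n) = 0) :
    ∃ v ∈ A, v * star v * v = v ∧ (∀ x, HasSum (fun n => w n x) (v x)) ∧
      (∀ x, HasSum (fun n => star (w n) x) (star v x)) ∧
      (∀ x, HasSum (fun n => (star (w n) * w n) x) ((star v * v) x)) ∧
      (∀ x, HasSum (fun n => (w n * star (w n)) x) ((v * star v) x)) ∧
      (∀ n, v * (star (w n) * w n) = w n) ∧ ∀ n, w n * star (w n) * v = w n := by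
  obtain ⟨v, hv⟩ := SumsAux.exists_lim hw h1 h2
  have hw' : ∀ n, star (w n) * star (star (w n)) * star (w n) = star (w n) := fun n => by
    have := congrArg star (hw n)
    rw [star_mul, star_mul, star_star, ← mul_assoc] at this
    rw [star_star]
    exact this
  have h1' : ∀ m n, m ≠ n → star (star (w m)) * star (w n) = 0 := fun m n h => by
    rw [star_star]; exact h2 m n h
  have h2' : ∀ m n, m ≠ n → star (w m) * star (star (w n)) = 0 := fun m n h => by
    rw [star_star]; exact h1 m n h
  obtain ⟨v', hv'⟩ := SumsAux.exists_lim (w := fun n => star (w n)) hw' h1' h2'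
  have hvv' : star v = v' := by
    ext x
    refine ext_inner_right ℂ fun y => ?_
    rw [SumsAux.star_inner]
    have e1 : HasSum (fun n => ⟪x, w n y⟫_ℂ) ⟪x, v y⟫_ℂ := (hv y).mapL (innerSL ℂ x)
    have e2 : HasSum (fun n => ⟪(star (w n)) x, y⟫_ℂ) ⟪v' x, y⟫_ℂ := by
      have := ((hv' x).mapL (innerSL ℂ y)).map (starRingEnd ℂ) RCLike.continuous_conj
      simpa [Function.comp_def] using this
    refine e1.unique ?_
    convert e2 using 2 with n
    rw [SumsAux.star_inner]
  subst hvv'
  -- v w_n^* = w_n w_n^*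
  have k1 : ∀ n, v * star (w n) = w n * star (w n) := fun n => by
    ext y
    have e1 := hv ((star (w n)) y)
    have e2 : HasSum (fun m => w m ((star (w n)) y)) (w n ((star (w n)) y)) := by
      refine hasSum_single n fun m hm => ?_
      have : w m ((star (w n)) y) = (w m * star (w n)) y := rfl
      rw [this, h2 m n hm]; rfl
    exact e1.unique e2
  have k2 : ∀ n, star v * w n = star (w n) * w n := fun n => by
    ext y
    have e1 := hv' (w n y)
    have e2 : HasSum (fun m => (star (w m)) (w n y)) ((star (w n)) (w n y)) := by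
      refine hasSum_single n fun m hm => ?_
      have : (star (w m)) (w n y) = (star (w m) * w n) y := rfl
      rw [this, h1 m n hm]; rfl
    exact e1.unique e2
  have k3 : ∀ n, v * (star (w n) * w n) = w n := fun n => by
    rw [← mul_assoc, k1, hw n]
  have k4 : ∀ n, w n * star (w n) * v = w n := fun n => by
    have := congrArg star (k2 n)
    rw [star_mul, star_star, star_mul, star_star] at this
    rw [mul_assoc, this, ← mul_assoc, hw n]
  have s1 : ∀ x, HasSum (fun n => (star (w n) * w n) x) ((star v * v) x) := fun x => by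
    have h3 : HasSum (fun n => (star v) (w n x)) ((star v) (v x)) := (hv x).mapL (star v)
    have h4 : (fun n => (star (w n) * w n) x) = fun n => (star v) (w n x) := by
      funext n
      rw [← k2 n]; rfl
    rw [h4]
    exact h3
  have s2 : ∀ x, HasSum (fun n => (w n * star (w n)) x) ((v * star v) x) := fun x => by
    have h3 : HasSum (fun n => v ((star (w n)) x)) (v ((star v) x)) := (hv' x).mapL v
    have h4 : (fun n => (w n * star (w n)) x) = fun n => v ((star (w n)) x) := by
      funext n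
      rw [← k1 n]; rfl
    rw [h4]
    exact h3
  refine ⟨v, ?_, ?_, hv, hv', s1, s2, k3, k4⟩
  · rw [mem_iff_commutes]
    intro g hg
    ext x
    have e1 : HasSum (fun n => g (w n x)) (g (v x)) := (hv x).mapL g
    have e2 : HasSum (fun n => w n (g x)) (v (g x)) := hv (g x)
    refine e1.unique ?_
    have h4 : (fun n => g (w n x)) = fun n => w n (g x) := by
      funext n
      have := mem_iff_commutes.1 (hA n) g hg
      exact congrArg (fun T : H →L[ℂ] H => T x) this
    rw [h4]
    exact e2
  · ext x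
    have e1 : HasSum (fun n => v ((star (w n) * w n) x)) (v ((star v * v) x)) := (s1 x).mapL v
    have h4 : (fun n => v ((star (w n) * w n) x)) = fun n => w n x := by
      funext n
      exact congrArg (fun T : H →L[ℂ] H => T x) (k3 n)
    rw [h4] at e1
    rw [mul_assoc]
    exact e1.unique (hv x)

end Pool.Agent.Helper88.CS
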