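import Pool.Agent.Helper88.CS.Corner
import Pool.Agent.Helper88.CS.Step
import Pool.Agent.Helper88.CS.Max
import Pool.Agent.Helper88.CS.Sums

/-!
# Project CS, module Exh: the maximal partial isometry
-/

open scoped InnerProductSpace Topology BoundedContinuousFunction
open ContinuousLinearMap Filter MeasureTheory

namespace Pool.Agent.Helper88.CS

open Pool.Agent.Helper23
open Pool.Agent.Helper78.BC (Std rm Fixed)

variable {H : Type*} [NormedAddCommGroup H] [InnerProductSpace ℂ H] [CompleteSpace H]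

variable {A : VonNeumannAlgebra H} {ξ : H} {J : H →L[ℝ] H}
  {Ψ : (ℝ →ᵇ ℂ) →⋆ₐ[ℂ] (H →L[ℂ] H)} {R : H →L[ℂ] H} {D : H →L[ℝ] H}

namespace ExhAux

/-- the restriction order of partial isometries -/
def Le (v w : H →L[ℂ] H) : Prop := w * (star v * v) = v ∧ (v * star v) * w = v

lemma star_pi {v : H →L[ℂ] H} (hv : v * star v * v = v) : star v * v * star v = star v := by
  have := congrArg star hv
  simpa [star_mul, mul_assoc] using this

lemma ss {v : H →L[ℂ] H} (hv : v * star v * v = v) : star v * (v * star v) = star v := by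
  rw [← mul_assoc]; exact star_pi hv

lemma Le.refl {v : H →L[ℂ] H} (hv : v * star v * v = v) : Le v v :=
  ⟨by rw [← mul_assoc]; exact hv, hv⟩

lemma Le.star_mul_right {v w : H →L[ℂ] H} (hv : v * star v * v = v) (h : Le v w) :
    star v * w = star v * v := by
  have h1 : star v * ((v * star v) * w) = star v * v := by rw [h.2]
  rwa [← mul_assoc, ss hv] at h1

lemma Le.mul_star_left {v w : H →L[ℂ] H} (hv : v * star v * v = v) (h : Le v w) :
    w * star v = v * star v := by
  have h1 : (w * (star v * v)) * star v = v * star v := by rw [h.1]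
  rwa [mul_assoc, star_pi hv] at h1

lemma Le.star_mul_left {v w : H →L[ℂ] H} (hv : v * star v * v = v) (h : Le v w) :
    star w * v = star v * v := by
  have := congrArg star (h.star_mul_right hv)
  simpa [star_mul] using this

lemma Le.mul_star_right {v w : H →L[ℂ] H} (hv : v * star v * v = v) (h : Le v w) :
    v * star w = v * star v := by
  have := congrArg star (h.mul_star_left hv)
  simpa [star_mul] using this

lemma Le.trans {u v w : H →L[ℂ] H} (hu : u * star u * u = u) (hv : v * star v * v = v)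
    (h : Le u v) (h' : Le v w) : Le u w := by
  have e1 : (star v * v) * (star u * u) = star u * u := by
    have : v * (star u * u) = u := h.1
    rw [mul_assoc, this, h.star_mul_left hu]
  have e2 : (u * star u) * (v * star v) = u * star u := by
    rw [← mul_assoc, h.2, h.mul_star_right hu]
  constructor
  · calc w * (star u * u) = w * ((star v * v) * (star u * u)) := by rw [e1]
      _ = (w * (star v * v)) * (star u * u) := by rw [mul_assoc w]
      _ = v * (star u * u) := by rw [h'.1]
      _ = u := h.1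
  · calc (u * star u) * w = ((u * star u) * (v * star v)) * w := by rw [e2]
      _ = (u * star u) * ((v * star v) * w) := by rw [mul_assoc]
      _ = (u * star u) * v := by rw [h'.2]
      _ = u := h.2

lemma norm_proj_le {p : H →L[ℂ] H} (hp : star p = p) (hp2 : p * p = p) (x : H) :
    ‖p x‖ ≤ ‖x‖ := by
  have h1 : ⟪p x, p x⟫_ℂ = ⟪x, p x⟫_ℂ := by
    have : ⟪p x, p x⟫_ℂ = ⟪x, (star p) (p x)⟫_ℂ := by
      rw [ContinuousLinearMap.star_eq_adjoint, ContinuousLinearMap.adjoint_inner_right]
    rw [this, hp]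
    have : p (p x) = (p * p) x := rfl
    rw [this, hp2]
  have h2 : ‖p x‖ ^ 2 = ‖⟪p x, p x⟫_ℂ‖ := by
    rw [inner_self_eq_norm_sq_to_K]
    simp
  have h3 : ‖p x‖ ^ 2 ≤ ‖x‖ * ‖p x‖ := by
    rw [h2, h1]
    exact norm_inner_le_norm _ _
  by_contra hc
  push Not at hc
  have : 0 < ‖p x‖ := lt_of_le_of_lt (norm_nonneg _) hc
  nlinarith

lemma norm_pi_le {v : H →L[ℂ] H} (hv : v * star v * v = v) (x : H) : ‖v x‖ ≤ ‖x‖ := by
  have hp : star (star v * v) = star v * v := by simp [star_mul]
  have hp2 : (star v * v) * (star v * v) = star v * v := by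
    rw [mul_assoc, ← mul_assoc v, hv]
  have h1 : ‖v x‖ ^ 2 = ‖⟪x, (star v * v) x⟫_ℂ‖ := by
    have : ⟪x, (star v * v) x⟫_ℂ = ⟪v x, v x⟫_ℂ := by
      rw [show (star v * v) x = star v (v x) from rfl, ContinuousLinearMap.star_eq_adjoint,
        ContinuousLinearMap.adjoint_inner_right]
    rw [this, inner_self_eq_norm_sq_to_K]
    simp
  have h2 : ‖v x‖ ^ 2 ≤ ‖x‖ ^ 2 := by
    rw [h1]
    refine (norm_inner_le_norm _ _).trans ?_
    have := norm_proj_le hp hp2 x
    nlinarith [norm_nonneg x]
  exact le_of_sq_le_sq h2 (norm_nonneg _)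
where
  le_of_sq_le_sq {a b : ℝ} (h : a ^ 2 ≤ b ^ 2) (hb : 0 ≤ b) : a ≤ b := by
    by_contra hc
    push Not at hc
    nlinarith

lemma q_proj {v : H →L[ℂ] H} (hv : v * star v * v = v) :
    star (v * star v) = v * star v ∧ (v * star v) * (v * star v) = v * star v := by
  refine ⟨by simp [star_mul], ?_⟩
  rw [← mul_assoc, hv]

lemma Le.norm_le {v w : H →L[ℂ] H} (hv : v * star v * v = v) (h : Le v w) (x : H) :
    ‖v x‖ ≤ ‖w x‖ := by
  have : v x = (v * star v) (w x) := by
    conv_lhs => rw [← h.2]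
    rfl
  rw [this]
  exact norm_proj_le (q_proj hv).1 (q_proj hv).2 _

/-- the difference -/
lemma Le.diff {v w : H →L[ℂ] H} (hv : v * star v * v = v) (hw : w * star w * w = w)
    (h : Le v w) :
    star (w - v) * (w - v) = star w * w - star v * v ∧
      (w - v) * star (w - v) = w * star w - v * star v ∧
      (w - v) * star (w - v) * (w - v) = w - v := by
  have a1 := h.star_mul_right hv
  have a2 := h.mul_star_left hv
  have a3 := h.star_mul_left hv
  have a4 := h.mul_star_right hv
  have b1 : star (w - v) * (w - v) = star w * w - star v * v := by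
    rw [star_sub, sub_mul, mul_sub, mul_sub, a1, a3]; abel
  have b2 : (w - v) * star (w - v) = w * star w - v * star v := by
    rw [star_sub, sub_mul, mul_sub, mul_sub, a2, a4]; abel
  refine ⟨b1, b2, ?_⟩
  rw [b2, sub_mul, mul_sub, mul_sub, hw, hv]
  have c1 : w * star w * v = v := by
    rw [mul_assoc, a3]; exact h.1
  have c2 : v * star v * w = v := h.2
  rw [c1, c2]; abel

lemma tendsto_apply {T : ℕ → H →L[ℂ] H} {S : H →L[ℂ] H} (hT : ∀ n x, ‖T n x‖ ≤ ‖x‖)
    (h : ∀ x, Tendsto (fun n => T n x) atTop (𝓝 (S x))) {x : ℕ → H} {y : H}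
    (hx : Tendsto x atTop (𝓝 y)) : Tendsto (fun n => T n (x n)) atTop (𝓝 (S y)) := by
  have h1 : Tendsto (fun n => T n (x n - y)) atTop (𝓝 0) := by
    rw [tendsto_zero_iff_norm_tendsto_zero]
    have h2 : Tendsto (fun n => ‖x n - y‖) atTop (𝓝 0) := by
      have := (hx.sub_const y).norm
      simpa using this
    exact squeeze_zero (fun n => norm_nonneg _) (fun n => hT n _) h2
  have h3 := h1.add (h y)
  simp only [zero_add] at h3
  refine h3.congr fun n => ?_
  rw [map_sub]; abel

/-- `v` is the supremum of an increasing sequence of partial isometries -/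
lemma exists_sup {v : ℕ → H →L[ℂ] H} (hA : ∀ n, v n ∈ A)
    (hv : ∀ n, v n * star (v n) * v n = v n) (hmon : ∀ m n, m ≤ n → Le (v m) (v n)) :
    ∃ V ∈ A, V * star V * V = V ∧ (∀ n, Le (v n) V) ∧
      (∀ x, Tendsto (fun n => v n x) atTop (𝓝 (V x))) ∧
      (∀ x, Tendsto (fun n => star (v n) x) atTop (𝓝 (star V x))) ∧
      (∀ x, Tendsto (fun n => (star (v n) * v n) x) atTop (𝓝 ((star V * V) x))) ∧
      (∀ x, Tendsto (fun n => (v n * star (v n)) x) atTop (𝓝 ((V * star V) x))) := by
  set w : ℕ → H →L[ℂ] H := fun n => Nat.casesOn n (v 0) (fun k => v (k + 1) - v k) with hw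
  have hw0 : w 0 = v 0 := rfl
  have hw1 : ∀ k, w (k + 1) = v (k + 1) - v k := fun k => rfl
  have hd : ∀ k, _ := fun k => (hmon k (k + 1) (Nat.le_succ k)).diff (hv k) (hv (k + 1))
  have hwA : ∀ n, w n ∈ A := by
    intro n
    cases n with
    | zero => exact hA 0
    | succ k => exact sub_mem (hA _) (hA _)
  have hwp : ∀ n, w n * star (w n) * w n = w n := by
    intro n
    cases n with
    | zero => exact hv 0
    | succ k => exact (hd k).2.2
  have hs1 : ∀ n, (∑ i ∈ Finset.range (n + 1), w i) = v n := by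
    intro n
    induction n with
    | zero => simp [hw0]
    | succ n ih => rw [Finset.sum_range_succ, ih, hw1]; abel
  have hs2 : ∀ n, (∑ i ∈ Finset.range (n + 1), star (w i) * w i) = star (v n) * v n := by
    intro n
    induction n with
    | zero => simp [hw0]
    | succ n ih => rw [Finset.sum_range_succ, ih, hw1, (hd n).1]; abel
  have hs3 : ∀ n, (∑ i ∈ Finset.range (n + 1), w i * star (w i)) = v n * star (v n) := by
    intro n
    induction n with
    | zero => simp [hw0]
    | succ n ih => rw [Finset.sum_range_succ, ih, hw1, (hd n).2.1]; abel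
  -- orthogonality
  have ho1 : ∀ k n, k ≤ n → star (v k) * w (n + 1) = 0 := by
    intro k n hk
    rw [hw1, mul_sub, (hmon k (n + 1) (by omega)).star_mul_right (hv k),
      (hmon k n hk).star_mul_right (hv k), sub_self]
  have ho2 : ∀ k n, k ≤ n → v k * star (w (n + 1)) = 0 := by
    intro k n hk
    rw [hw1, star_sub, mul_sub, (hmon k (n + 1) (by omega)).mul_star_right (hv k),
      (hmon k n hk).mul_star_right (hv k), sub_self]
  have hp1 : ∀ m n, m < n → star (w m) * w n = 0 := by
    intro m n hmn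
    obtain ⟨n, rfl⟩ : ∃ k, n = k + 1 := ⟨n - 1, by omega⟩
    cases m with
    | zero => exact ho1 0 n (by omega)
    | succ m =>
      rw [hw1 m, star_sub, sub_mul, ho1 (m + 1) n (by omega), ho1 m n (by omega), sub_self]
  have hp2 : ∀ m n, m < n → w m * star (w n) = 0 := by
    intro m n hmn
    obtain ⟨n, rfl⟩ : ∃ k, n = k + 1 := ⟨n - 1, by omega⟩
    cases m with
    | zero => exact ho2 0 n (by omega)
    | succ m =>
      rw [hw1 m, sub_mul, ho2 (m + 1) n (by omega), ho2 m n (by omega), sub_self]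
  have h1 : ∀ m n, m ≠ n → star (w m) * w n = 0 := by
    intro m n hmn
    rcases lt_or_gt_of_ne hmn with h | h
    · exact hp1 m n h
    · have := congrArg star (hp1 n m h)
      simpa [star_mul] using this
  have h2 : ∀ m n, m ≠ n → w m * star (w n) = 0 := by
    intro m n hmn
    rcases lt_or_gt_of_ne hmn with h | h
    · exact hp2 m n h
    · have := congrArg star (hp2 n m h)
      simpa [star_mul] using this
  obtain ⟨V, hVA, hV, c1, c2, c3, c4, c5, c6⟩ := exists_sum hwA hwp h1 h2
  have lim : ∀ (F : ℕ → H →L[ℂ] H) (G : ℕ → H →L[ℂ] H) (S : H →L[ℂ] H) (x : H),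
      (∀ n, (∑ i ∈ Finset.range (n + 1), F i) = G n) → HasSum (fun n => F n x) (S x) →
      Tendsto (fun n => G n x) atTop (𝓝 (S x)) := by
    intro F G S x hFG hsum
    have := (hsum.tendsto_sum_nat).comp (tendsto_add_atTop_nat 1)
    refine this.congr fun n => ?_
    simp only [Function.comp]
    rw [← hFG n, ContinuousLinearMap.sum_apply]
  refine ⟨V, hVA, hV, fun n => ⟨?_, ?_⟩, fun x => lim w v V x hs1 (c1 x), fun x => ?_,
    fun x => lim _ _ _ x hs2 (c3 x), fun x => lim _ _ _ x hs3 (c4 x)⟩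
  · rw [← hs2 n, Finset.mul_sum, ← hs1 n]
    exact Finset.sum_congr rfl fun i _ => c5 i
  · rw [← hs3 n, Finset.sum_mul, ← hs1 n]
    exact Finset.sum_congr rfl fun i _ => c6 i
  · refine lim (fun n => star (w n)) (fun n => star (v n)) (star V) x (fun n => ?_) (c2 x)
    rw [← hs1 n, star_sum]

/-- admissible partial isometries -/
def Adm (A : VonNeumannAlgebra H) (ξ : H) (J : H →L[ℝ] H) (e f : H →L[ℂ] H) (δ : ℝ) :=
  {v : H →L[ℂ] H // v ∈ A ∧ v * star v * v = v ∧ f * v = v ∧ v * e = v ∧
    Phi J ξ e f v ≤ δ * ‖v ξ‖ ^ 2}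

instance (A : VonNeumannAlgebra H) (ξ : H) (J : H →L[ℝ] H) (e f : H →L[ℂ] H) (δ : ℝ) :
    Preorder (Adm A ξ J e f δ) where
  le a b := Le a.1 b.1
  le_refl a := Le.refl a.2.2.1
  le_trans a b c h h' := Le.trans a.2.2.1 b.2.2.1 h h'

end ExhAux

open ExhAux

theorem exists_maximal (h : St A ξ J Ψ R D) (hA : III1V A) {e f : H →L[ℂ] H} (he : IsP A e)
    (hf : IsP A f) (hef : e + f = 1) (hJe : J (e ξ) = e ξ) {δ : ℝ} (hδ : 0 < δ) :
    ∃ v ∈ A, v * star v * v = v ∧ f * v = v ∧ v * e = v ∧ Phi J ξ e f v ≤ δ ∧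
      (star v * v = e ∨ v * star v = f) := by
  have hone := h.norm_one
  have hJxi : J ξ = ξ := h.J_xi
  -- the zero element
  have hPhi0 : Phi J ξ e f 0 = 0 := by
    simp [Phi, rm]
  let a0 : Adm A ξ J e f δ := ⟨0, zero_mem _, by simp, by simp, by simp, by simp [hPhi0]⟩
  obtain ⟨b, -, hb⟩ := exists_max (α := Adm A ξ J e f δ) (fun v => ‖v.1 ξ‖ ^ 2) (C := 1)
    (fun v => by
      have := norm_pi_le v.2.2.1 ξ
      rw [hone] at this
      nlinarith [norm_nonneg (v.1 ξ)])
    (fun v w hvw => by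
      have := Le.norm_le v.2.2.1 (show Le v.1 w.1 from hvw) ξ
      have h0 := norm_nonneg (v.1 ξ)
      show ‖v.1 ξ‖ ^ 2 ≤ ‖w.1 ξ‖ ^ 2
      nlinarith)
    (fun s hs => by
      obtain ⟨V, hVA, hV, hle, t1, t2, t3, t4⟩ := exists_sup (A := A) (v := fun n => (s n).1)
        (fun n => (s n).2.1) (fun n => (s n).2.2.1) (fun m n hmn => hs hmn)
      have hfV : f * V = V := by
        ext x
        refine tendsto_nhds_unique ((f.continuous.tendsto _).comp (t1 x)) ?_
        refine (t1 x).congr fun n => ?_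
        have : f ((s n).1 x) = (f * (s n).1) x := rfl
        simp only [Function.comp]
        rw [this, (s n).2.2.2.1]
      have hVe : V * e = V := by
        ext x
        refine tendsto_nhds_unique (t1 (e x)) ?_
        refine (t1 x).congr fun n => ?_
        have : (s n).1 (e x) = ((s n).1 * e) x := rfl
        rw [this, (s n).2.2.2.2.1]
      have hPhi : Phi J ξ e f V ≤ δ * ‖V ξ‖ ^ 2 := by
        have hnv : ∀ n x, ‖(s n).1 x‖ ≤ ‖x‖ := fun n x => norm_pi_le (s n).2.2.1 x
        have hnp : ∀ n x, ‖(star (s n).1 * (s n).1) x‖ ≤ ‖x‖ := fun n x =>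
          norm_proj_le (by simp [star_mul])
            (by rw [mul_assoc, ← mul_assoc (s n).1, (s n).2.2.1]) x
        have hnq : ∀ n x, ‖((s n).1 * star (s n).1) x‖ ≤ ‖x‖ := fun n x =>
          norm_proj_le (q_proj (s n).2.2.1).1 (q_proj (s n).2.2.1).2 x
        have r1 : Tendsto (fun n => rm J (star (s n).1 * (s n).1) ξ) atTop
            (𝓝 (rm J (star V * V) ξ)) := by
          have : Tendsto (fun n => J ((star (s n).1 * (s n).1) (J ξ))) atTop
              (𝓝 (J ((star V * V) (J ξ)))) := (J.continuous.tendsto _).comp (t3 (J ξ))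
          simpa [rm, star_mul] using this
        have r2 : Tendsto (fun n => rm J (s n).1 ξ) atTop (𝓝 (rm J V ξ)) :=
          (J.continuous.tendsto _).comp (t2 (J ξ))
        have r3 : Tendsto (fun n => rm J (e - star (s n).1 * (s n).1) ξ) atTop
            (𝓝 (rm J (e - star V * V) ξ)) := by
          have : Tendsto (fun n => J (star e (J ξ) - (star (s n).1 * (s n).1) (J ξ))) atTop
              (𝓝 (J (star e (J ξ) - (star V * V) (J ξ)))) :=
            (J.continuous.tendsto _).comp ((t3 (J ξ)).const_sub _)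
          simpa [rm, star_mul] using this
        have r4 : Tendsto (fun n => rm J ((s n).1 * star (s n).1) ξ) atTop
            (𝓝 (rm J (V * star V) ξ)) := by
          have : Tendsto (fun n => J (((s n).1 * star (s n).1) (J ξ))) atTop
              (𝓝 (J ((V * star V) (J ξ)))) := (J.continuous.tendsto _).comp (t4 (J ξ))
          simpa [rm, star_mul] using this
        have l1 := tendsto_apply hnv t1 r1
        have l2 := tendsto_apply hnq t4 r2
        have l3 := tendsto_apply hnp t3 r3
        have l4 := tendsto_apply hnq t4 r4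
        have l5 : Tendsto (fun n => (f - (s n).1 * star (s n).1)
            (rm J ((s n).1 * star (s n).1) ξ)) atTop
            (𝓝 ((f - V * star V) (rm J (V * star V) ξ))) := by
          have := ((f.continuous.tendsto _).comp r4).sub l4
          simpa [Function.comp_def] using this
        have lphi : Tendsto (fun n => Phi J ξ e f (s n).1) atTop (𝓝 (Phi J ξ e f V)) :=
          (((l1.sub l2).norm.pow 2).add ((l3.norm.pow 2).const_mul 4)).add
            ((l5.norm.pow 2).const_mul 4)
        have lr : Tendsto (fun n => δ * ‖(s n).1 ξ‖ ^ 2) atTop (𝓝 (δ * ‖V ξ‖ ^ 2)) :=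
          ((t1 ξ).norm.pow 2).const_mul δ
        exact le_of_tendsto_of_tendsto' lphi lr fun n => (s n).2.2.2.2.2
      exact ⟨⟨V, hVA, hV, hfV, hVe, hPhi⟩, fun n => hle n⟩) a0
  obtain ⟨v, hvb⟩ : ∃ v : H →L[ℂ] H, v = b.1 := ⟨_, rfl⟩
  have hvA : v ∈ A := hvb ▸ b.2.1
  have hv : v * star v * v = v := hvb ▸ b.2.2.1
  have hfv : f * v = v := hvb ▸ b.2.2.2.1
  have hve : v * e = v := hvb ▸ b.2.2.2.2.1
  have hPhi : Phi J ξ e f v ≤ δ * ‖v ξ‖ ^ 2 := hvb ▸ b.2.2.2.2.2
  have hvx : ‖v ξ‖ ≤ 1 := by
    have := norm_pi_le hv ξ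
    rwa [hone] at this
  refine ⟨v, hvA, hv, hfv, hve, ?_, ?_⟩
  · refine hPhi.trans ?_
    have : ‖v ξ‖ ^ 2 ≤ 1 := by nlinarith [norm_nonneg (v ξ)]
    nlinarith
  by_contra hcon
  push Not at hcon
  obtain ⟨hne, hnf⟩ := hcon
  have hsv : star v * f = star v := by
    have := congrArg star hfv
    simpa [star_mul, hf.2.1] using this
  have hev : e * star v = star v := by
    have := congrArg star hve
    simpa [star_mul, he.2.1] using this
  have hpp : (star v * v) * (star v * v) = star v * v := by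
    rw [mul_assoc, ← mul_assoc v, hv]
  have hqq := (q_proj hv).2
  set s : H →L[ℂ] H := e - star v * v with hsdef
  set r : H →L[ℂ] H := f - v * star v with hrdef
  have hep : e * (star v * v) = star v * v := by rw [← mul_assoc, hev]
  have hpe : (star v * v) * e = star v * v := by rw [mul_assoc, hve]
  have hfq : f * (v * star v) = v * star v := by rw [← mul_assoc, hfv]
  have hqf : (v * star v) * f = v * star v := by rw [mul_assoc, hsv]
  have hsP : IsP A s := by
    refine ⟨sub_mem he.1 (mul_mem (star_mem hvA) hvA), by simp [hsdef, star_mul, he.2.1], ?_⟩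
    rw [hsdef, sub_mul, mul_sub, mul_sub, he.2.2, hep, hpe, hpp]; abel
  have hrP : IsP A r := by
    refine ⟨sub_mem hf.1 (mul_mem hvA (star_mem hvA)), by simp [hrdef, star_mul, hf.2.1], ?_⟩
    rw [hrdef, sub_mul, mul_sub, mul_sub, hf.2.2, hfq, hqf, hqq]; abel
  have hs0 : s ≠ 0 := fun h0 => hne (sub_eq_zero.mp h0).symm
  have hr0 : r ≠ 0 := fun h0 => hnf (sub_eq_zero.mp h0).symm
  have hes : e * s = s := by rw [hsdef, mul_sub, he.2.2, hep]
  have hse : s * e = s := by rw [hsdef, sub_mul, he.2.2, hpe]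
  have hfr : f * r = r := by rw [hrdef, mul_sub, hf.2.2, hfq]
  obtain ⟨w, hwA, hw, hrw, hws, hw0, hwd⟩ := local_step h hA he hf hef hJe hsP hrP hs0 hr0 hes
    hfr (δ := δ / 4) (by positivity)
  have hstep := phi_step h.conj hJxi he hf hef hvA hv hfv hve hwA hw hrw hws
  -- orthogonality of v and w
  have o1 : star v * w = 0 := by
    rw [← hrw, hrdef, ← mul_assoc, mul_sub, hsv, ss hv, sub_self, zero_mul]
  have o2 : w * star v = 0 := by
    rw [← hws, hsdef, mul_assoc, sub_mul, hev, star_pi hv, sub_self, mul_zero]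
  have o3 : star w * v = 0 := by
    have := congrArg star o1
    simpa [star_mul] using this
  have o4 : v * star w = 0 := by
    have := congrArg star o2
    simpa [star_mul] using this
  have hnorm : ‖(v + w) ξ‖ ^ 2 = ‖v ξ‖ ^ 2 + ‖w ξ‖ ^ 2 := by
    have horth : ⟪v ξ, w ξ⟫_ℂ = 0 := by
      have : ⟪v ξ, w ξ⟫_ℂ = ⟪ξ, (star v) (w ξ)⟫_ℂ := by
        rw [ContinuousLinearMap.star_eq_adjoint, ContinuousLinearMap.adjoint_inner_right]
      rw [this]
      have : (star v) (w ξ) = (star v * w) ξ := rfl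
      rw [this, o1]; simp
    have := @norm_add_sq ℂ H _ _ _ (v ξ) (w ξ)
    rw [horth] at this
    rw [ContinuousLinearMap.add_apply, this]
    simp
  have hvw : (v + w) * star (v + w) * (v + w) = v + w := by
    have : (v + w) * star (v + w) = v * star v + w * star w := by
      rw [star_add, add_mul, mul_add, mul_add, o2, o4]; abel
    rw [this, add_mul, mul_add, mul_add, hv, hw, mul_assoc v, o1, mul_assoc w, o3]
    simp
  have hfvw : f * (v + w) = v + w := by
    rw [mul_add, hfv]
    have : f * w = w := by rw [← hrw, ← mul_assoc, hfr]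
    rw [this]
  have hvwe : (v + w) * e = v + w := by
    rw [add_mul, hve]
    have : w * e = w := by rw [← hws, mul_assoc, hse]
    rw [this]
  have hphi' : Phi J ξ e f (v + w) ≤ δ * ‖(v + w) ξ‖ ^ 2 := by
    refine hstep.trans ?_
    rw [hnorm]
    have := hwd
    nlinarith
  let c : Adm A ξ J e f δ := ⟨v + w, add_mem hvA hwA, hvw, hfvw, hvwe, hphi'⟩
  have hbc : b ≤ c := by
    show Le b.1 (v + w)
    rw [← hvb]
    constructor
    · rw [add_mul, ← mul_assoc, hv, ← mul_assoc, o2, zero_mul, add_zero]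
    · rw [mul_add, hv, mul_assoc, o1, mul_zero, add_zero]
  have heq := hb c hbc
  have heq' : ‖(v + w) ξ‖ ^ 2 = ‖v ξ‖ ^ 2 := by
    have e1 : ‖c.1 ξ‖ ^ 2 = ‖b.1 ξ‖ ^ 2 := heq
    rw [← hvb] at e1
    exact e1
  rw [hnorm] at heq'
  have hwx : ‖w ξ‖ ^ 2 = 0 := by linarith
  have : w ξ = 0 := by
    have := pow_eq_zero_iff (two_ne_zero) |>.mp hwx
    exact norm_eq_zero.mp this
  exact hw0 (h.sep w hwA this)

end Pool.Agent.Helper88.CS
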