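import Pool.Agent.Helper88.CS.Full
import Pool.Agent.Helper88.CS.Real
import Pool.Agent.Helper88.CS.Equiv

/-!
# Project CS, module Final: the Connes-Stoermer theorem
-/

open scoped InnerProductSpace Topology
open ContinuousLinearMap Filter

namespace Pool.Agent.Helper88.CS

open Pool.Agent.Helper23

universe u

variable {H : Type u} [NormedAddCommGroup H] [InnerProductSpace ℂ H] [CompleteSpace H]

namespace FinalAux

theorem adj {L : Type*} [NormedAddCommGroup L] [InnerProductSpace ℂ L] [CompleteSpace L]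
    (T : L →L[ℂ] L) (v w : L) : ⟪v, (star T) w⟫_ℂ = ⟪T v, w⟫_ℂ := by
  rw [star_eq_adjoint, adjoint_inner_right]

theorem adj_sa {L : Type*} [NormedAddCommGroup L] [InnerProductSpace ℂ L] [CompleteSpace L]
    {T : L →L[ℂ] L} (hT : star T = T) (v w : L) : ⟪v, T w⟫_ℂ = ⟪T v, w⟫_ℂ := by
  conv_lhs => rw [← hT]
  exact adj T v w

theorem sq_of_inner {L : Type*} [NormedAddCommGroup L] [InnerProductSpace ℂ L]
    {v : L} {r : ℝ} (h : ⟪v, v⟫_ℂ = (r : ℂ)) : ‖v‖ ^ 2 = r := by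
  have h1 : RCLike.re ⟪v, v⟫_ℂ = ‖v‖ ^ 2 := inner_self_eq_norm_sq v
  rw [h] at h1
  rw [← h1]
  exact Complex.ofReal_re r

/-- the functional `s² (⟪η, · η⟫ + ⟪η', · η'⟫) + t² ⟪ξ, · ξ⟫` -/
noncomputable def fn (s t : ℝ) (η η' ξ : H) (z : H →L[ℂ] H) : ℂ :=
  ((s ^ 2 : ℝ) : ℂ) * (⟪η, z η⟫_ℂ + ⟪η', z η'⟫_ℂ) + ((t ^ 2 : ℝ) : ℂ) * ⟪ξ, z ξ⟫_ℂ

theorem fn_zero (s t : ℝ) (η η' ξ : H) : fn s t η η' ξ 0 = 0 := by
  simp [fn]

theorem fn_one {s t : ℝ} {η η' ξ : H} (hξ : ‖ξ‖ = 1) (h1 : ‖η‖ ^ 2 + ‖η'‖ ^ 2 = 1) :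
    fn s t η η' ξ 1 = ((s ^ 2 + t ^ 2 : ℝ) : ℂ) := by
  unfold fn
  simp only [ContinuousLinearMap.one_apply]
  rw [inner_self_eq_norm_sq_to_K, inner_self_eq_norm_sq_to_K, inner_self_eq_norm_sq_to_K, hξ]
  have h2 : (((‖η‖ ^ 2 + ‖η'‖ ^ 2 : ℝ)) : ℂ) = 1 := by rw [h1]; simp
  push_cast at h2 ⊢
  simp only [Complex.coe_algebraMap] at *
  rw [h2]
  simp

theorem inner_smul_self (c : ℝ) (v : H) (x a : H →L[ℂ] H) :
    ⟪(c : ℂ) • a v, x ((c : ℂ) • a v)⟫_ℂ = ((c ^ 2 : ℝ) : ℂ) * ⟪v, (star a * x * a) v⟫_ℂ := by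
  rw [map_smul, inner_smul_left, inner_smul_right, Complex.conj_ofReal]
  have h : ⟪v, (star a * x * a) v⟫_ℂ = ⟪a v, x (a v)⟫_ℂ := by
    show ⟪v, (star a) (x (a v))⟫_ℂ = _
    rw [star_eq_adjoint, adjoint_inner_right]
  rw [h]
  push_cast
  ring

theorem norm_iso {a : H →L[ℂ] H} (h : star a * a = 1) (v : H) : ‖a v‖ = ‖v‖ := by
  have h1 : ⟪a v, a v⟫_ℂ = ⟪v, v⟫_ℂ := by
    have h2 : ⟪v, (star a) (a v)⟫_ℂ = ⟪a v, a v⟫_ℂ := by
      rw [star_eq_adjoint, adjoint_inner_right]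
    rw [← h2]
    have h3 : (star a) (a v) = v := congrArg (fun T : H →L[ℂ] H => T v) h
    rw [h3]
  rw [inner_self_eq_norm_sq_to_K, inner_self_eq_norm_sq_to_K] at h1
  have h4 : ‖a v‖ ^ 2 = ‖v‖ ^ 2 := by exact_mod_cast h1
  exact (sq_eq_sq₀ (norm_nonneg _) (norm_nonneg _)).1 h4

theorem op_le_one {a : H →L[ℂ] H} (h : star a * a = 1) : ‖a‖ ≤ 1 :=
  ContinuousLinearMap.opNorm_le_bound _ zero_le_one fun v => by rw [norm_iso h, one_mul]

/-- the vector of `H⁶` -/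
noncomputable def vec (s t : ℝ) (a b : H →L[ℂ] H) (η η' ζ ζ' ξ : H) : HS H 6 :=
  WithLp.toLp 2 ![(s : ℂ) • a η, (s : ℂ) • a η', (t : ℂ) • a ξ, (s : ℂ) • b ζ, (s : ℂ) • b ζ',
    (t : ℂ) • b ξ]

theorem vec_sum (s t : ℝ) (a b : H →L[ℂ] H) (η η' ζ ζ' ξ : H) (x : H →L[ℂ] H) :
    ∑ i, ⟪vec s t a b η η' ζ ζ' ξ i, x (vec s t a b η η' ζ ζ' ξ i)⟫_ℂ =
      fn s t η η' ξ (star a * x * a) + fn s t ζ ζ' ξ (star b * x * b) := by
  have h : ∀ i, vec s t a b η η' ζ ζ' ξ i = (![(s : ℂ) • a η, (s : ℂ) • a η', (t : ℂ) • a ξ,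
    (s : ℂ) • b ζ, (s : ℂ) • b ζ', (t : ℂ) • b ξ] : Fin 6 → H) i := fun i => rfl
  simp only [h]
  rw [Fin.sum_univ_six]
  simp only [Matrix.cons_val]
  rw [inner_smul_self, inner_smul_self, inner_smul_self, inner_smul_self, inner_smul_self,
    inner_smul_self]
  unfold fn
  ring

theorem vec_norm {s t : ℝ} (hst : s ^ 2 + t ^ 2 = 1 / 2) {a b : H →L[ℂ] H}
    (ha : star a * a = 1) (hb : star b * b = 1) {η η' ζ ζ' ξ : H} (hξ : ‖ξ‖ = 1)
    (h1 : ‖η‖ ^ 2 + ‖η'‖ ^ 2 = 1) (h2 : ‖ζ‖ ^ 2 + ‖ζ'‖ ^ 2 = 1) :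
    ‖vec s t a b η η' ζ ζ' ξ‖ = 1 := by
  have h := vec_sum s t a b η η' ζ ζ' ξ 1
  rw [mul_one, mul_one, ha, hb, fn_one hξ h1, fn_one hξ h2, hst] at h
  simp only [ContinuousLinearMap.one_apply] at h
  have h3 : ⟪vec s t a b η η' ζ ζ' ξ, vec s t a b η η' ζ ζ' ξ⟫_ℂ = 1 := by
    rw [PiLp.inner_apply, h]
    push_cast
    norm_num
  have h4 : ‖vec s t a b η η' ζ ζ' ξ‖ ^ 2 = 1 := sq_of_inner (by rw [h3, Complex.ofReal_one])
  exact (pow_eq_one_iff_of_nonneg (norm_nonneg _) two_ne_zero).1 h4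

theorem vec_sep (N : VonNeumannAlgebra H) {s t : ℝ} (ht : t ≠ 0) {a b : H →L[ℂ] H}
    (ha : a ∈ N) (hb : b ∈ N) (hab : a * star a + b * star b = 1) {η η' ζ ζ' ξ : H}
    (hsep : ∀ x ∈ N, x ξ = 0 → x = 0) (x : H →L[ℂ] H) (hx : x ∈ N)
    (h : ∀ i, x (vec s t a b η η' ζ ζ' ξ i) = 0) : x = 0 := by
  have ht' : (t : ℂ) ≠ 0 := by exact_mod_cast ht
  have h2 : x ((t : ℂ) • a ξ) = 0 := h 2
  have h5 : x ((t : ℂ) • b ξ) = 0 := h 5
  rw [map_smul, smul_eq_zero] at h2 h5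
  have h3 : x * a = 0 := hsep _ (mul_mem hx ha) (h2.resolve_left ht')
  have h6 : x * b = 0 := hsep _ (mul_mem hx hb) (h5.resolve_left ht')
  calc x = x * (a * star a + b * star b) := by rw [hab, mul_one]
    _ = x * a * star a + x * b * star b := by rw [mul_add, mul_assoc, mul_assoc]
    _ = 0 := by rw [h3, h6, zero_mul, zero_mul, add_zero]

theorem st_le {η η' : H} (h1 : ‖η‖ ^ 2 + ‖η'‖ ^ 2 = 1) (z : H →L[ℂ] H) :
    ‖⟪η, z η⟫_ℂ + ⟪η', z η'⟫_ℂ‖ ≤ ‖z‖ := by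
  have h : ∀ v : H, ‖⟪v, z v⟫_ℂ‖ ≤ ‖z‖ * ‖v‖ ^ 2 := by
    intro v
    refine (norm_inner_le_norm _ _).trans ?_
    have := mul_le_mul_of_nonneg_left (z.le_opNorm v) (norm_nonneg v)
    nlinarith
  refine (norm_add_le _ _).trans ((add_le_add (h η) (h η')).trans ?_)
  rw [← mul_add, h1, mul_one]

end FinalAux

open FinalAux

/-- Two normal states in one standard form. -/
theorem approx_equiv (N : VonNeumannAlgebra H) {ξ : H} (hξ : ‖ξ‖ = 1)
    (hsep : ∀ a ∈ N, a ξ = 0 → a = 0) (hN : IsTypeIIIOne N) {η η' ζ ζ' : H}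
    (h1 : ‖η‖ ^ 2 + ‖η'‖ ^ 2 = 1) (h2 : ‖ζ‖ ^ 2 + ‖ζ'‖ ^ 2 = 1) {ε : ℝ} (hε : 0 < ε) :
    ∃ u ∈ N, star u * u = 1 ∧ u * star u = 1 ∧ ∀ x ∈ N,
      ‖⟪u η, x (u η)⟫_ℂ + ⟪u η', x (u η')⟫_ℂ - (⟪ζ, x ζ⟫_ℂ + ⟪ζ', x ζ'⟫_ℂ)‖ ≤ ε * ‖x‖ := by
  -- parameters
  obtain ⟨e₁, he0, he1, heε⟩ : ∃ e₁ : ℝ, 0 < e₁ ∧ e₁ < 1 ∧ e₁ ≤ ε / 8 :=
    ⟨min (ε / 8) (1 / 2), lt_min (by linarith) (by norm_num),
      lt_of_le_of_lt (min_le_right _ _) (by norm_num), min_le_left _ _⟩
  set s : ℝ := Real.sqrt ((1 - e₁) / 2) with hs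
  set t : ℝ := Real.sqrt (e₁ / 2) with ht
  have hs2 : s ^ 2 = (1 - e₁) / 2 := Real.sq_sqrt (by linarith)
  have ht2 : t ^ 2 = e₁ / 2 := Real.sq_sqrt (by linarith)
  have hst : s ^ 2 + t ^ 2 = 1 / 2 := by rw [hs2, ht2]; ring
  have ht0 : t ≠ 0 := (Real.sqrt_pos.2 (by linarith)).ne'
  -- Cuntz
  have hF : FInf N := ⟨hN.factor, fun e he h0 => hN.infinite e he.1 he.2.1 he.2.2 h0⟩
  have h0 : ξ ≠ 0 := by
    rintro rfl
    rw [norm_zero] at hξ
    exact zero_ne_one hξ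
  obtain ⟨a, ha, b, hb, haa, hbb, hab, hab0, hba0⟩ := exists_cuntz hF hsep h0
  have ha' : star a ∈ N := star_mem ha
  have hb' : star b ∈ N := star_mem hb
  set F : HS H 6 := vec s t a b η η' ζ ζ' ξ with hFdef
  have hF1 : ‖F‖ = 1 := vec_norm hst haa hbb hξ h1 h2
  obtain ⟨K, _, _, _, B, κ, π, hB, hκ, hcyc, hBsep, hπ, hst'⟩ :=
    exists_real N hN (by norm_num : 0 < 6) F hF1 (vec_sep N ht0 ha hb hab hsep)
  have hψ : ∀ x ∈ N, ⟪κ, π x κ⟫_ℂ =
      fn s t η η' ξ (star a * x * a) + fn s t ζ ζ' ξ (star b * x * b) := fun x hx => by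
    rw [hst' x hx, hFdef, vec_sum]
  obtain ⟨J, Ψ, R, D, hS⟩ := exists_st' hκ hcyc hBsep
  -- the two projections
  have hpa : a * star a ∈ N := mul_mem ha ha'
  have hpb : b * star b ∈ N := mul_mem hb hb'
  have hpaa : a * star a * (a * star a) = a * star a := by
    calc a * star a * (a * star a) = a * (star a * a) * star a := by simp only [mul_assoc]
      _ = a * star a := by rw [haa, mul_one]
  have hpbb : b * star b * (b * star b) = b * star b := by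
    calc b * star b * (b * star b) = b * (star b * b) * star b := by simp only [mul_assoc]
      _ = b * star b := by rw [hbb, mul_one]
  set e : K →L[ℂ] K := π (a * star a) with hedef
  set f : K →L[ℂ] K := π (b * star b) with hfdef
  have hes : star e = e := by
    rw [hedef, ← hπ.star _ hpa, star_mul, star_star]
  have hfs : star f = f := by
    rw [hfdef, ← hπ.star _ hpb, star_mul, star_star]
  have hee : e * e = e := by rw [hedef, ← hπ.mul _ hpa _ hpa, hpaa]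
  have hff : f * f = f := by rw [hfdef, ← hπ.mul _ hpb _ hpb, hpbb]
  have he : IsP B e := ⟨hπ.mem _ hpa, hes, hee⟩
  have hf : IsP B f := ⟨hπ.mem _ hpb, hfs, hff⟩
  have hef : e + f = 1 := by rw [hedef, hfdef, ← hπ.add _ hpa _ hpb, hab, hπ.one]
  -- `J e κ = e κ`
  have hJe : J (e κ) = e κ := by
    refine J_of_state hS he.1 hes fun x hx => ?_
    obtain ⟨y, hy, -, hyx⟩ := hπ.surj x hx
    have hl : ⟪e κ, x κ⟫_ℂ = ⟪κ, π (a * star a * y) κ⟫_ℂ := by
      rw [hπ.mul _ hpa _ hy, hyx]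
      exact (adj_sa hes κ (x κ)).symm
    have hr : ⟪(star x) κ, e κ⟫_ℂ = ⟪κ, π (y * (a * star a)) κ⟫_ℂ := by
      rw [hπ.mul _ hy _ hpa, hyx]
      show _ = ⟪κ, x (e κ)⟫_ℂ
      rw [← adj, star_star]
    rw [hl, hr, hψ _ (mul_mem hpa hy), hψ _ (mul_mem hy hpa)]
    have e1 : star a * (a * star a * y) * a = star a * y * a := by
      calc star a * (a * star a * y) * a = (star a * a) * star a * y * a := by
            simp only [mul_assoc]
        _ = star a * y * a := by rw [haa, one_mul]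
    have e2 : star b * (a * star a * y) * b = 0 := by
      calc star b * (a * star a * y) * b = (star b * a) * (star a * y * b) := by
            simp only [mul_assoc]
        _ = 0 := by rw [hba0, zero_mul]
    have e3 : star a * (y * (a * star a)) * a = star a * y * a := by
      calc star a * (y * (a * star a)) * a = star a * y * a * (star a * a) := by
            simp only [mul_assoc]
        _ = star a * y * a := by rw [haa, mul_one]
    have e4 : star b * (y * (a * star a)) * b = 0 := by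
      calc star b * (y * (a * star a)) * b = star b * y * a * (star a * b) := by
            simp only [mul_assoc]
        _ = 0 := by rw [hab0, mul_zero]
    rw [e1, e2, e3, e4]
  -- norms
  have hne : ‖e κ‖ ^ 2 = 1 / 2 := by
    have e1 : ⟪e κ, e κ⟫_ℂ = ⟪κ, e κ⟫_ℂ := by
      rw [← adj_sa hes]
      show ⟪κ, (e * e) κ⟫_ℂ = _
      rw [hee]
    rw [show ⟪κ, e κ⟫_ℂ = _ from hψ _ hpa] at e1
    have e2 : star a * (a * star a) * a = 1 := by
      calc star a * (a * star a) * a = (star a * a) * (star a * a) := by simp only [mul_assoc]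
        _ = 1 := by rw [haa, one_mul]
    have e3 : star b * (a * star a) * b = 0 := by
      calc star b * (a * star a) * b = (star b * a) * (star a * b) := by simp only [mul_assoc]
        _ = 0 := by rw [hba0, zero_mul]
    rw [e2, e3, fn_zero, add_zero, fn_one hξ h1, hst] at e1
    exact sq_of_inner e1
  have hnf : ‖f κ‖ ^ 2 = 1 / 2 := by
    have e1 : ⟪f κ, f κ⟫_ℂ = ⟪κ, f κ⟫_ℂ := by
      rw [← adj_sa hfs]
      show ⟪κ, (f * f) κ⟫_ℂ = _
      rw [hff]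
    rw [show ⟪κ, f κ⟫_ℂ = _ from hψ _ hpb] at e1
    have e2 : star b * (b * star b) * b = 1 := by
      calc star b * (b * star b) * b = (star b * b) * (star b * b) := by simp only [mul_assoc]
        _ = 1 := by rw [hbb, one_mul]
    have e3 : star a * (b * star b) * a = 0 := by
      calc star a * (b * star b) * a = (star a * b) * (star b * a) := by simp only [mul_assoc]
        _ = 0 := by rw [hab0, zero_mul]
    rw [e2, e3, fn_zero, zero_add, fn_one hξ h2, hst] at e1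
    exact sq_of_inner e1
  have hm : ‖e κ‖ = ‖f κ‖ :=
    (sq_eq_sq₀ (norm_nonneg _) (norm_nonneg _)).1 (by rw [hne, hnf])
  -- the partial isometry
  obtain ⟨v, hv, hv1, hv2, hv3⟩ := exists_full hS hB he hf hef hJe hm (δ := ε / 4) (by linarith)
  obtain ⟨w, hw, -, hwv⟩ := hπ.surj v hv
  have hw' : star w ∈ N := star_mem hw
  have hinj : ∀ x ∈ N, ∀ y ∈ N, π x = π y → x = y := by
    intro x hx y hy hxy
    have e1 : x + (-1 : ℂ) • y ∈ N := add_mem hx (smul_mem' _ hy)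
    have e2 := hπ.inj _ e1 (by
      rw [hπ.add _ hx _ (smul_mem' _ hy), hπ.smul _ _ hy, hxy]
      simp)
    rw [neg_one_smul, ← sub_eq_add_neg, sub_eq_zero] at e2
    exact e2
  have hw1 : star w * w = a * star a := hinj _ (mul_mem hw' hw) _ hpa (by
    rw [hπ.mul _ hw' _ hw, hπ.star _ hw, hwv, hv1])
  have hw2 : w * star w = b * star b := hinj _ (mul_mem hw hw') _ hpb (by
    rw [hπ.mul _ hw _ hw', hπ.star _ hw, hwv, hv2])
  have hwww : w * (a * star a) = w := by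
    have e1 : star (w - w * (a * star a)) * (w - w * (a * star a)) = 0 := by
      rw [star_sub, star_mul, star_mul, star_star]
      calc (star w - a * star a * star w) * (w - w * (a * star a))
          = star w * w - star w * w * (a * star a) - a * star a * (star w * w) +
            a * star a * (star w * w) * (a * star a) := by noncomm_ring
        _ = 0 := by rw [hw1, hpaa, hpaa]; abel
    have e2 := CStarRing.star_mul_self_eq_zero_iff (w - w * (a * star a)) |>.1 e1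
    exact (sub_eq_zero.1 e2).symm
  have hwb : w * b = 0 := by
    calc w * b = w * (a * star a) * b := by rw [hwww]
      _ = w * a * (star a * b) := by simp only [mul_assoc]
      _ = 0 := by rw [hab0, mul_zero]
  set u : H →L[ℂ] H := star b * w * a with hudef
  have hu : u ∈ N := mul_mem (mul_mem hb' hw) ha
  have hus : star u = star a * star w * b := by
    rw [hudef, star_mul, star_mul, star_star, mul_assoc]
  have hu1 : star u * u = 1 := by
    rw [hus, hudef]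
    calc star a * star w * b * (star b * w * a) = star a * star w * (b * star b) * w * a := by
          simp only [mul_assoc]
      _ = star a * (star w * w) * (star w * w) * a := by rw [← hw2]; simp only [mul_assoc]
      _ = (star a * a) * (star a * a) * (star a * a) := by rw [hw1]; simp only [mul_assoc]
      _ = 1 := by rw [haa, one_mul, one_mul]
  have hu2 : u * star u = 1 := by
    rw [hus, hudef]
    calc star b * w * a * (star a * star w * b) = star b * w * (a * star a) * star w * b := by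
          simp only [mul_assoc]
      _ = star b * (w * star w) * (w * star w) * b := by rw [← hw1]; simp only [mul_assoc]
      _ = (star b * b) * (star b * b) * (star b * b) := by rw [hw2]; simp only [mul_assoc]
      _ = 1 := by rw [hbb, one_mul, one_mul]
  refine ⟨u, hu, hu1, hu2, fun x hx => ?_⟩
  -- the estimate
  have hyN : b * x * star b ∈ N := mul_mem (mul_mem hb hx) hb'
  have hmain : ‖fn s t η η' ξ (star u * x * u) - fn s t ζ ζ' ξ x‖ ≤ ε / 4 * ‖x‖ := by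
    have g1 := hv3 (π (b * x * star b)) (hπ.mem _ hyN)
    have g2 : ⟪v κ, (π (b * x * star b)) (v κ)⟫_ℂ = fn s t η η' ξ (star u * x * u) := by
      have e1 : ⟪v κ, (π (b * x * star b)) (v κ)⟫_ℂ =
          ⟪κ, π (star w * (b * x * star b) * w) κ⟫_ℂ := by
        rw [hπ.mul _ (mul_mem hw' hyN) _ hw, hπ.mul _ hw' _ hyN, hπ.star _ hw, hwv]
        exact (adj v κ _).symm
      rw [e1, hψ _ (mul_mem (mul_mem hw' hyN) hw)]
      have e2 : star a * (star w * (b * x * star b) * w) * a = star u * x * u := by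
        rw [hus, hudef]
        simp only [mul_assoc]
      have e3 : star b * (star w * (b * x * star b) * w) * b = 0 := by
        calc star b * (star w * (b * x * star b) * w) * b
            = star b * (star w * (b * x * star b)) * (w * b) := by simp only [mul_assoc]
          _ = 0 := by rw [hwb, mul_zero]
      rw [e2, e3, fn_zero, add_zero]
    have g3 : ⟪f κ, (π (b * x * star b)) (f κ)⟫_ℂ = fn s t ζ ζ' ξ x := by
      have e1 : ⟪f κ, (π (b * x * star b)) (f κ)⟫_ℂ =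
          ⟪κ, π (b * star b * (b * x * star b) * (b * star b)) κ⟫_ℂ := by
        rw [hπ.mul _ (mul_mem hpb hyN) _ hpb, hπ.mul _ hpb _ hyN]
        exact (adj_sa hfs κ _).symm
      rw [e1, hψ _ (mul_mem (mul_mem hpb hyN) hpb)]
      have e2 : star a * (b * star b * (b * x * star b) * (b * star b)) * a = 0 := by
        calc star a * (b * star b * (b * x * star b) * (b * star b)) * a
            = (star a * b) * (star b * (b * x * star b) * (b * star b) * a) := by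
              simp only [mul_assoc]
          _ = 0 := by rw [hab0, zero_mul]
      have e3 : star b * (b * star b * (b * x * star b) * (b * star b)) * b = x := by
        calc star b * (b * star b * (b * x * star b) * (b * star b)) * b
            = (star b * b) * (star b * b) * x * (star b * b) * (star b * b) := by
              simp only [mul_assoc]
          _ = x := by rw [hbb, one_mul, one_mul, mul_one, mul_one]
      rw [e2, e3, fn_zero, zero_add]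
    rw [g2, g3] at g1
    refine g1.trans (mul_le_mul_of_nonneg_left ?_ (by linarith))
    refine (hπ.norm_le _ hyN).trans ?_
    have n1 : ‖b‖ ≤ 1 := op_le_one hbb
    have n2 : ‖star b‖ ≤ 1 := by rwa [norm_star]
    calc ‖b * x * star b‖ ≤ ‖b * x‖ * ‖star b‖ := norm_mul_le _ _
      _ ≤ ‖b * x‖ * 1 := mul_le_mul_of_nonneg_left n2 (norm_nonneg _)
      _ ≤ ‖b‖ * ‖x‖ := by rw [mul_one]; exact norm_mul_le _ _
      _ ≤ 1 * ‖x‖ := mul_le_mul_of_nonneg_right n1 (norm_nonneg _)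
      _ = ‖x‖ := one_mul _
  -- comparison
  set z : H →L[ℂ] H := star u * x * u with hz
  have hzn : ‖z‖ ≤ ‖x‖ := by
    have n1 : ‖u‖ ≤ 1 := op_le_one hu1
    have n2 : ‖star u‖ ≤ 1 := by rwa [norm_star]
    calc ‖star u * x * u‖ ≤ ‖star u * x‖ * ‖u‖ := norm_mul_le _ _
      _ ≤ ‖star u * x‖ * 1 := mul_le_mul_of_nonneg_left n1 (norm_nonneg _)
      _ ≤ ‖star u‖ * ‖x‖ := by rw [mul_one]; exact norm_mul_le _ _
      _ ≤ 1 * ‖x‖ := mul_le_mul_of_nonneg_right n2 (norm_nonneg _)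
      _ = ‖x‖ := one_mul _
  have hzi : ∀ θ : H, ⟪u θ, x (u θ)⟫_ℂ = ⟪θ, z θ⟫_ℂ := by
    intro θ
    show _ = ⟪θ, (star u) (x (u θ))⟫_ℂ
    rw [star_eq_adjoint, adjoint_inner_right]
  rw [hzi, hzi]
  have hφ : ∀ y : H →L[ℂ] H, ‖⟪ξ, y ξ⟫_ℂ‖ ≤ ‖y‖ := by
    intro y
    have := (norm_inner_le_norm (𝕜 := ℂ) ξ (y ξ)).trans
      (mul_le_mul_of_nonneg_left (y.le_opNorm ξ) (norm_nonneg ξ))
    rwa [hξ, mul_one, one_mul] at this
  have i1 := st_le h1 z
  have i2 := st_le h2 x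
  have i3 := hφ z
  have i4 := hφ x
  set α : ℂ := ⟪η, z η⟫_ℂ + ⟪η', z η'⟫_ℂ with hα
  set β : ℂ := ⟪ζ, x ζ⟫_ℂ + ⟪ζ', x ζ'⟫_ℂ with hβ
  have key : α - β = 2 * (fn s t η η' ξ z - fn s t ζ ζ' ξ x) +
      (e₁ : ℂ) * ((α - ⟪ξ, z ξ⟫_ℂ) - (β - ⟪ξ, x ξ⟫_ℂ)) := by
    unfold fn
    rw [← hα, ← hβ, hs2, ht2]
    push_cast
    ring
  rw [key]
  have hx0 := norm_nonneg x
  have j1 : ‖(α - ⟪ξ, z ξ⟫_ℂ) - (β - ⟪ξ, x ξ⟫_ℂ)‖ ≤ 4 * ‖x‖ := by
    have a1 := norm_sub_le (α - ⟪ξ, z ξ⟫_ℂ) (β - ⟪ξ, x ξ⟫_ℂ)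
    have a2 := norm_sub_le α ⟪ξ, z ξ⟫_ℂ
    have a3 := norm_sub_le β ⟪ξ, x ξ⟫_ℂ
    linarith
  calc ‖2 * (fn s t η η' ξ z - fn s t ζ ζ' ξ x) +
        (e₁ : ℂ) * ((α - ⟪ξ, z ξ⟫_ℂ) - (β - ⟪ξ, x ξ⟫_ℂ))‖
      ≤ ‖2 * (fn s t η η' ξ z - fn s t ζ ζ' ξ x)‖ +
        ‖(e₁ : ℂ) * ((α - ⟪ξ, z ξ⟫_ℂ) - (β - ⟪ξ, x ξ⟫_ℂ))‖ := norm_add_le _ _
    _ = 2 * ‖fn s t η η' ξ z - fn s t ζ ζ' ξ x‖ +
        e₁ * ‖(α - ⟪ξ, z ξ⟫_ℂ) - (β - ⟪ξ, x ξ⟫_ℂ)‖ := by
        rw [norm_mul, norm_mul, Complex.norm_real, Real.norm_of_nonneg he0.le]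
        norm_num
    _ ≤ 2 * (ε / 4 * ‖x‖) + ε / 8 * (4 * ‖x‖) := by
        refine add_le_add (mul_le_mul_of_nonneg_left hmain (by norm_num)) ?_
        exact mul_le_mul heε j1 (norm_nonneg _) (by linarith)
    _ = ε * ‖x‖ := by ring

/-- The Connes-Stoermer theorem. -/
theorem connes_stormer (N : VonNeumannAlgebra H) {ξ : H} (hξ : ‖ξ‖ = 1)
    (hsep : ∀ a ∈ N, a ξ = 0 → a = 0) (hN : IsTypeIIIOne N) :
    Pool.Agent.Helper23.RBF.TypeIIIOne N := by
  refine ⟨?_, fun η η' ζ ζ' h1 h2 ε hε => approx_equiv N hξ hsep hN h1 h2 hε⟩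
  have hF : FInf N := ⟨hN.factor, fun e he h0 => hN.infinite e he.1 he.2.1 he.2.2 h0⟩
  have h0 : ξ ≠ 0 := by
    rintro rfl
    rw [norm_zero] at hξ
    exact zero_ne_one hξ
  obtain ⟨a, ha, b, hb, h1, h2, h3, h4, h5⟩ := exists_cuntz hF hsep h0
  exact ⟨a, ha, b, hb, h1, h2, h4⟩

end Pool.Agent.Helper88.CS
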