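import Pool.Agent.Helper88.CS.Defs

/-!
# Project CS, module Fourier: kernels
-/

open scoped InnerProductSpace Topology BoundedContinuousFunction
open ContinuousLinearMap Filter MeasureTheory

namespace Pool.Agent.Helper88.CS

open Pool.Agent.Helper23
open Pool.Agent.Helper78.BC (Std rm Fixed)

variable {H : Type*} [NormedAddCommGroup H] [InnerProductSpace ℂ H] [CompleteSpace H]

namespace FourierAux

theorem expB_apply' (t ρ : ℝ) : expB t ρ = Complex.exp ((t * ρ : ℝ) * Complex.I) := rfl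

theorem norm_expB_apply (t ρ : ℝ) : ‖expB t ρ‖ = 1 := by
  rw [expB_apply', Complex.norm_exp_ofReal_mul_I]

theorem expB_add_left (t s ρ : ℝ) : expB (t + s) ρ = expB t ρ * expB s ρ := by
  rw [expB_apply', expB_apply', expB_apply', ← Complex.exp_add]
  congr 1
  push_cast
  ring

theorem expB_add_right (t ρ σ : ℝ) : expB t (ρ + σ) = expB t ρ * expB t σ := by
  rw [expB_apply', expB_apply', expB_apply', ← Complex.exp_add]
  congr 1
  push_cast
  ring

theorem continuous_expB : Continuous fun p : ℝ × ℝ => expB p.1 p.2 := by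
  have : (fun p : ℝ × ℝ => expB p.1 p.2) =
      fun p : ℝ × ℝ => Complex.exp ((p.1 * p.2 : ℝ) * Complex.I) := by
    ext p
    rw [expB_apply']
  rw [this]
  fun_prop

end FourierAux

open FourierAux

open scoped FourierTransform ContDiff in
/-- a smooth function of compact support has a kernel -/
theorem exists_ker (K : ℝ →ᵇ ℂ) (hK : ContDiff ℝ ∞ (K : ℝ → ℂ))
    (hc : HasCompactSupport (K : ℝ → ℂ)) : ∃ k : ℝ → ℂ, Ker k K := by
  set f : SchwartzMap ℝ ℂ := hc.toSchwartzMap hK with hf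
  have hfK : ∀ ρ, f ρ = K ρ := fun ρ => rfl
  refine ⟨fun t => (𝓕 f) t, (𝓕 f).continuous, (𝓕 f).integrable, f.integrable, ?_, ?_⟩
  · intro ρ
    have h1 : 𝓕⁻ (𝓕 f) = f := FourierTransform.fourierInv_fourier_eq f
    have h2 : (𝓕⁻ (𝓕 f)) ρ = 𝓕⁻ ((𝓕 f : SchwartzMap ℝ ℂ) : ℝ → ℂ) ρ := by
      rw [SchwartzMap.fourierInv_coe]
    rw [← hfK, ← congrFun (congrArg DFunLike.coe h1) ρ, h2, Real.fourierInv_eq']
    refine integral_congr_ae (Eventually.of_forall fun t => ?_)
    simp only [smul_eq_mul, RCLike.inner_apply, conj_trivial]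
    rw [expB_apply', mul_comm]
    congr 3
    push_cast
    ring
  · intro t
    have h2 : (𝓕 f) t = 𝓕 (f : ℝ → ℂ) t := by
      rw [SchwartzMap.fourier_coe]
    simp only [h2]
    rw [Real.fourier_eq']
    refine integral_congr_ae (Eventually.of_forall fun ρ => ?_)
    simp only [smul_eq_mul, RCLike.inner_apply, conj_trivial]
    rw [expB_apply', mul_comm, hfK]
    congr 3
    push_cast
    ring

/-- bump kernels -/
theorem exists_bump (a b δ : ℝ) (hab : a ≤ b) (hδ : 0 < δ) :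
    ∃ (k : ℝ → ℂ) (K : ℝ →ᵇ ℂ), Ker k K ∧ (∀ ρ, ∃ r : ℝ, 0 ≤ r ∧ r ≤ 1 ∧ K ρ = (r : ℂ)) ∧
      (∀ ρ ∈ Set.Icc a b, K ρ = 1) ∧ ∀ ρ, ρ ∉ Set.Ioo (a - δ) (b + δ) → K ρ = 0 := by
  let φ : ContDiffBump ((a + b) / 2 : ℝ) :=
    ⟨(b - a) / 2 + δ / 4, (b - a) / 2 + δ / 2, by linarith, by linarith⟩
  have hφc : Continuous fun ρ : ℝ => ((φ ρ : ℝ) : ℂ) := Complex.continuous_ofReal.comp φ.continuous
  let K : ℝ →ᵇ ℂ := BoundedContinuousFunction.ofNormedAddCommGroup
    (fun ρ : ℝ => ((φ ρ : ℝ) : ℂ)) hφc 1 (by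
      intro ρ
      rw [Complex.norm_real, Real.norm_eq_abs, abs_of_nonneg φ.nonneg]
      exact φ.le_one)
  have hK : ∀ ρ, K ρ = ((φ ρ : ℝ) : ℂ) := fun ρ => rfl
  have hsm : ContDiff ℝ (⊤ : ℕ∞) (K : ℝ → ℂ) := by
    have h1 : ContDiff ℝ (⊤ : ℕ∞) (fun ρ : ℝ => (φ ρ : ℝ)) := φ.contDiff
    exact Complex.ofRealCLM.contDiff.comp h1
  have hcs : HasCompactSupport (K : ℝ → ℂ) := by
    have h1 : HasCompactSupport (fun ρ : ℝ => (φ ρ : ℝ)) := φ.hasCompactSupport
    exact h1.comp_left (g := fun x : ℝ => (x : ℂ)) Complex.ofReal_zero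
  obtain ⟨k, hk⟩ := exists_ker K hsm hcs
  refine ⟨k, K, hk, ?_, ?_, ?_⟩
  · intro ρ
    exact ⟨φ ρ, φ.nonneg, φ.le_one, hK ρ⟩
  · intro ρ hρ
    rw [hK, φ.one_of_mem_closedBall, Complex.ofReal_one]
    rw [Metric.mem_closedBall, Real.dist_eq, abs_le]
    have h1 := hρ.1
    have h2 := hρ.2
    change -((b - a) / 2 + δ / 4) ≤ _ ∧ _ ≤ ((b - a) / 2 + δ / 4)
    constructor <;> linarith
  · intro ρ hρ
    rw [hK, φ.zero_of_le_dist, Complex.ofReal_zero]
    rw [Real.dist_eq]
    change ((b - a) / 2 + δ / 2) ≤ _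
    by_contra hcon
    push Not at hcon
    rw [abs_lt] at hcon
    apply hρ
    constructor <;> linarith [hcon.1, hcon.2]

/-- translation of a kernel -/
theorem Ker.shift {k : ℝ → ℂ} {K : ℝ →ᵇ ℂ} (h : Ker k K) (s : ℝ) :
    ∃ K' : ℝ →ᵇ ℂ, Ker (fun t => k (t - s)) K' ∧
      ∀ ρ, K' ρ = expB (2 * Real.pi * s) ρ * K ρ := by
  refine ⟨expB (2 * Real.pi * s) * K, ⟨?_, ?_, ?_, ?_, ?_⟩, fun ρ => rfl⟩
  · exact h.cont.comp (continuous_id.sub continuous_const)
  · exact h.int.comp_sub_right s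
  · have h1 : ((expB (2 * Real.pi * s) * K : ℝ →ᵇ ℂ) : ℝ → ℂ) =
        fun ρ => expB (2 * Real.pi * s) ρ * K ρ := rfl
    rw [h1]
    refine h.Kint.bdd_mul (c := 1) (expB (2 * Real.pi * s)).continuous.aestronglyMeasurable ?_
    exact Eventually.of_forall fun ρ => (norm_expB_apply _ _).le
  · intro ρ
    have h1 : ∫ t, k (t - s) * expB (2 * Real.pi * t) ρ =
        ∫ t, k t * expB (2 * Real.pi * (t + s)) ρ := by
      rw [← integral_sub_right_eq_self (fun t => k t * expB (2 * Real.pi * (t + s)) ρ) s]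
      simp only [sub_add_cancel]
    rw [h1]
    have h2 : ∀ t, k t * expB (2 * Real.pi * (t + s)) ρ =
        expB (2 * Real.pi * s) ρ * (k t * expB (2 * Real.pi * t) ρ) := by
      intro t
      rw [mul_add, expB_add_left]
      ring
    simp_rw [h2]
    rw [integral_const_mul, ← h.four]
    rfl
  · intro t
    rw [h.inv]
    refine integral_congr_ae (Eventually.of_forall fun ρ => ?_)
    have h2 : -(2 * Real.pi * (t - s)) = -(2 * Real.pi * t) + 2 * Real.pi * s := by ring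
    change K ρ * expB (-(2 * Real.pi * (t - s))) ρ =
      (expB (2 * Real.pi * s) ρ * K ρ) * expB (-(2 * Real.pi * t)) ρ
    rw [h2, expB_add_left]
    ring

theorem kernel_identity {h k l : ℝ → ℂ} {H' K L : ℝ →ᵇ ℂ} (hh : Ker h H') (hk : Ker k K)
    (hl : Ker l L) (hs : ∀ α β, K α ≠ 0 → L β ≠ 0 → H' (α + β) = 1) (t s : ℝ) :
    ∫ r, h r * (k (t - r) * l (s - r)) = k t * l s := by
  -- the product kernel
  have hprod : ∀ t' s' : ℝ, k t' * l s' = ∫ z : ℝ × ℝ,
      (K z.1 * expB (-(2 * Real.pi * t')) z.1) * (L z.2 * expB (-(2 * Real.pi * s')) z.2) := by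
    intro t' s'
    rw [hk.inv t', hl.inv s']
    exact (integral_prod_mul (μ := (volume : Measure ℝ)) (ν := (volume : Measure ℝ))
      (fun α => K α * expB (-(2 * Real.pi * t')) α)
      (fun β => L β * expB (-(2 * Real.pi * s')) β)).symm
  have hKL : Integrable (fun z : ℝ × ℝ => K z.1 * L z.2)
      ((volume : Measure ℝ).prod (volume : Measure ℝ)) := hk.Kint.mul_prod hl.Kint
  have hhKL : Integrable (fun w : ℝ × (ℝ × ℝ) => h w.1 * (K w.2.1 * L w.2.2))
      ((volume : Measure ℝ).prod ((volume : Measure ℝ).prod (volume : Measure ℝ))) :=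
    hh.int.mul_prod hKL
  have hF : Integrable (fun w : ℝ × (ℝ × ℝ) =>
      (expB (-(2 * Real.pi * (t - w.1))) w.2.1 * expB (-(2 * Real.pi * (s - w.1))) w.2.2) *
        (h w.1 * (K w.2.1 * L w.2.2)))
      ((volume : Measure ℝ).prod ((volume : Measure ℝ).prod (volume : Measure ℝ))) := by
    refine hhKL.bdd_mul (c := 1) ?_ ?_
    · refine Continuous.aestronglyMeasurable ?_
      refine Continuous.mul ?_ ?_
      · exact continuous_expB.comp (f := fun w : ℝ × (ℝ × ℝ) =>
          (-(2 * Real.pi * (t - w.1)), w.2.1)) (by fun_prop)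
      · exact continuous_expB.comp (f := fun w : ℝ × (ℝ × ℝ) =>
          (-(2 * Real.pi * (s - w.1)), w.2.2)) (by fun_prop)
    · exact Eventually.of_forall fun w => by
        rw [norm_mul, norm_expB_apply, norm_expB_apply, one_mul]
  have h1 : ∀ r, h r * (k (t - r) * l (s - r)) = ∫ z : ℝ × ℝ,
      (expB (-(2 * Real.pi * (t - r))) z.1 * expB (-(2 * Real.pi * (s - r))) z.2) *
        (h r * (K z.1 * L z.2)) := by
    intro r
    rw [hprod, ← integral_const_mul]
    refine integral_congr_ae (Eventually.of_forall fun z => ?_)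
    simp only
    ring
  simp_rw [h1]
  have h2 := integral_integral_swap (μ := (volume : Measure ℝ))
    (ν := (volume : Measure ℝ).prod (volume : Measure ℝ))
    (f := fun (r : ℝ) (z : ℝ × ℝ) =>
      (expB (-(2 * Real.pi * (t - r))) z.1 * expB (-(2 * Real.pi * (s - r))) z.2) *
        (h r * (K z.1 * L z.2))) hF
  change ∫ r, ∫ z, (expB (-(2 * Real.pi * (t - r))) z.1 * expB (-(2 * Real.pi * (s - r))) z.2) *
        (h r * (K z.1 * L z.2)) ∂((volume : Measure ℝ).prod (volume : Measure ℝ)) = k t * l s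
  rw [h2, hprod t s]
  change _ = ∫ z : ℝ × ℝ,
      (K z.1 * expB (-(2 * Real.pi * t)) z.1) * (L z.2 * expB (-(2 * Real.pi * s)) z.2)
      ∂((volume : Measure ℝ).prod (volume : Measure ℝ))
  refine integral_congr_ae (Eventually.of_forall fun z => ?_)
  obtain ⟨α, β⟩ := z
  simp only
  have h3 : ∀ r, (expB (-(2 * Real.pi * (t - r))) α * expB (-(2 * Real.pi * (s - r))) β) *
        (h r * (K α * L β)) =
      ((K α * expB (-(2 * Real.pi * t)) α) * (L β * expB (-(2 * Real.pi * s)) β)) *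
        (h r * expB (2 * Real.pi * r) (α + β)) := by
    intro r
    have e1 : -(2 * Real.pi * (t - r)) = -(2 * Real.pi * t) + 2 * Real.pi * r := by ring
    have e2 : -(2 * Real.pi * (s - r)) = -(2 * Real.pi * s) + 2 * Real.pi * r := by ring
    rw [e1, e2, expB_add_left, expB_add_left, expB_add_right]
    ring
  simp_rw [h3]
  rw [integral_const_mul, ← hh.four]
  by_cases hα : K α = 0
  · rw [hα]
    ring
  by_cases hβ : L β = 0
  · rw [hβ]
    ring
  rw [hs α β hα hβ, mul_one]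

end Pool.Agent.Helper88.CS
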