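import Pool.Agent.Helper88.CS.Exh

/-!
# Project CS, module Full: the full partial isometry
-/

open scoped InnerProductSpace Topology BoundedContinuousFunction
open ContinuousLinearMap Filter MeasureTheory

namespace Pool.Agent.Helper88.CS

open Pool.Agent.Helper23
open Pool.Agent.Helper78.BC (Std rm Fixed)

variable {H : Type*} [NormedAddCommGroup H] [InnerProductSpace ℂ H] [CompleteSpace H]

variable {A : VonNeumannAlgebra H} {ξ : H} {J : H →L[ℝ] H}
  {Ψ : (ℝ →ᵇ ℂ) →⋆ₐ[ℂ] (H →L[ℂ] H)} {R : H →L[ℂ] H} {D : H →L[ℝ] H}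

namespace FullAux

open ExhAux InftyAux

/-- left and right multiplication commute -/
lemma rm_comm (h : St A ξ J Ψ R D) {a b : H →L[ℂ] H} (ha : a ∈ A) (hb : b ∈ A) (v : H) :
    rm J b (a v) = a (rm J b v) :=
  h.J_comm (star b) (star_mem hb) a ha v

lemma rm_mul (h : St A ξ J Ψ R D) (b c : H →L[ℂ] H) (v : H) :
    rm J c (rm J b v) = rm J (b * c) v := by
  unfold rm
  rw [h.J_J, star_mul]
  rfl

lemma rm_sub (b : H →L[ℂ] H) (v w : H) : rm J b (v - w) = rm J b v - rm J b w := by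
  simp [rm]

lemma rm_add (b : H →L[ℂ] H) (v w : H) : rm J b (v + w) = rm J b v + rm J b w := by
  simp [rm]

lemma rm_add_left (b c : H →L[ℂ] H) (v : H) : rm J (b + c) v = rm J b v + rm J c v := by
  simp [rm]

lemma rm_sub_left (b c : H →L[ℂ] H) (v : H) : rm J (b - c) v = rm J b v - rm J c v := by
  simp [rm]

/-- `J (a ξ b) = b* ξ a*` -/
lemma J_mul (h : St A ξ J Ψ R D) {a b : H →L[ℂ] H} (ha : a ∈ A) (hb : b ∈ A) :
    J (a (rm J b ξ)) = (star b) (rm J (star a) ξ) := by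
  have h1 := h.J_comm a ha (star b) (star_mem hb) ξ
  have h2 : rm J b ξ = J ((star b) ξ) := by
    unfold rm; rw [h.J_xi]
  have h3 : rm J (star a) ξ = J (a ξ) := by
    unfold rm; rw [h.J_xi, star_star]
  rw [h2, h3, h1, h.J_xi]

lemma norm_rm_le (h : St A ξ J Ψ R D) {v : H →L[ℂ] H} (hv : v * star v * v = v) (x : H) :
    ‖rm J v x‖ ≤ ‖x‖ := by
  unfold rm
  rw [h.J_norm]
  have hs : star v * star (star v) * star v = star v := by
    rw [star_star]; exact star_pi hv
  have := norm_pi_le hs (J x)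
  rwa [h.J_norm] at this

omit [CompleteSpace H] in
lemma apply_mul (a b : H →L[ℂ] H) (x : H) : (a * b) x = a (b x) := rfl

lemma pyth {p : H →L[ℂ] H} (hp : star p = p) (hp2 : p * p = p) (x : H) :
    ‖x - p x‖ ^ 2 = ‖x‖ ^ 2 - ‖p x‖ ^ 2 := by
  have h0 : ⟪p x, x - p x⟫_ℂ = 0 := by
    have h1 : ⟪p x, p x⟫_ℂ = ⟪p x, x⟫_ℂ := by
      have : ⟪p x, p x⟫_ℂ = ⟪(star p) (p x), x⟫_ℂ := by
        rw [ContinuousLinearMap.star_eq_adjoint, ContinuousLinearMap.adjoint_inner_left]
      rw [this, hp]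
      have : p (p x) = (p * p) x := rfl
      rw [this, hp2]
    rw [inner_sub_right, h1, sub_self]
  have h2 : ‖p x + (x - p x)‖ ^ 2 = ‖p x‖ ^ 2 + ‖x - p x‖ ^ 2 := by
    have := norm_add_sq (𝕜 := ℂ) (p x) (x - p x)
    rw [h0] at this
    simpa using this
  have h3 : p x + (x - p x) = x := by abel
  rw [h3] at h2
  linarith

/-- right multiplication by `v*` is isometric on vectors `w = w e` -/
lemma inner_rm (h : St A ξ J Ψ R D) {v e : H →L[ℂ] H} (hv : star v * v = e) {w w' : H}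
    (hw : rm J (star e) w = w) :
    ⟪rm J (star v) w, rm J (star v) w'⟫_ℂ = ⟪w, w'⟫_ℂ := by
  have h1 : e (J w) = J w := by
    have h2 : J (rm J (star e) w) = J w := by rw [hw]
    unfold rm at h2
    rw [h.J_J, star_star] at h2
    exact h2
  unfold rm
  rw [star_star, h.J_inner]
  have h3 : ⟪v (J w'), v (J w)⟫_ℂ = ⟪J w', (star v) (v (J w))⟫_ℂ := by
    rw [ContinuousLinearMap.star_eq_adjoint, ContinuousLinearMap.adjoint_inner_right]
  rw [h3, ← apply_mul, hv, h1, h.J_inner]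

lemma norm_rm_eq (h : St A ξ J Ψ R D) {v e : H →L[ℂ] H} (hv : star v * v = e) {w : H}
    (hw : rm J (star e) w = w) : ‖rm J (star v) w‖ = ‖w‖ := by
  have h1 := inner_rm h hv hw (w' := w)
  rw [inner_self_eq_norm_sq_to_K, inner_self_eq_norm_sq_to_K] at h1
  have h2 : ‖rm J (star v) w‖ ^ 2 = ‖w‖ ^ 2 := by exact_mod_cast h1
  exact (sq_eq_sq₀ (norm_nonneg _) (norm_nonneg _)).1 h2

lemma rm_fix (h : St A ξ J Ψ R D) {e : H →L[ℂ] H} (hes : star e = e) (hJe : J (e ξ) = e ξ) :
    rm J e ξ = e ξ := by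
  unfold rm; rw [h.J_xi, hes, hJe]

lemma proj_pi {p : H →L[ℂ] H} (hp : star p = p) (hp2 : p * p = p) : p * star p * p = p := by
  rw [hp, hp2, hp2]

/-- the first case -/
lemma case1 (h : St A ξ J Ψ R D) (hA : FInf A) {e f : H →L[ℂ] H} (he : IsP A e)
    (hf : IsP A f) (he0 : e ≠ 0) (hJe : J (e ξ) = e ξ) (hJf : J (f ξ) = f ξ)
    (hm : ‖e ξ‖ = ‖f ξ‖) {δ : ℝ} (hδ : 0 < δ) {v : H →L[ℂ] H} (hvA : v ∈ A)
    (hv : v * star v * v = v) (hfv : f * v = v) (hve : star v * v = e)
    (hΦ : ‖v (rm J (star v * v) ξ) - (v * star v) (rm J v ξ)‖ ≤ δ) :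
    ∃ u ∈ A, star u * u = e ∧ u * star u = f ∧
      ‖u (rm J (star u) ξ) - f ξ‖ ≤ 5 * δ + 4 * Real.sqrt (2 * δ) := by
  obtain ⟨heA, hes, hee⟩ := he
  obtain ⟨hfA, hfs, hff⟩ := hf
  have hone := h.norm_one
  have hef : rm J e ξ = e ξ := rm_fix h hes hJe
  have hff' : rm J f ξ = f ξ := rm_fix h hfs hJf
  set r0 : H →L[ℂ] H := v * star v with hr0
  have hr0A : r0 ∈ A := mul_mem hvA (star_mem hvA)
  have hr0s : star r0 = r0 := by simp [hr0, star_mul]
  have hr02 : r0 * r0 = r0 := by rw [hr0, ← mul_assoc, hv]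
  have hfr0 : f * r0 = r0 := by rw [hr0, ← mul_assoc, hfv]
  have hr0f : r0 * f = r0 := by
    have := congrArg star hfr0
    simpa [star_mul, hr0s, hfs] using this
  have hvs : star v * v * star v = star v := star_pi hv
  have hevs : e * star v = star v := by rw [← hve, hvs]
  have hve' : v * e = v := by rw [← hve, ← mul_assoc, hv]
  rw [hve] at hΦ
  -- `v ξ v*` and `r0 ξ r0`
  have e1 : rm J (star v) (v (rm J e ξ)) = v (rm J (star v) ξ) := by
    rw [rm_comm h hvA (star_mem hvA), rm_mul h, hevs]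
  have e2 : rm J (star v) (r0 (rm J v ξ)) = r0 (rm J r0 ξ) := by
    rw [rm_comm h hr0A (star_mem hvA), rm_mul h]
  have hvsp : star v * star (star v) * star v = star v := by rw [star_star]; exact hvs
  have k1 : ‖v (rm J (star v) ξ) - r0 (rm J r0 ξ)‖ ≤ δ := by
    rw [← e1, ← e2, ← rm_sub]
    exact (norm_rm_le h hvsp _).trans hΦ
  have hvξ : v ξ = v (e ξ) := by rw [← apply_mul, hve']
  have k2 : ‖v (rm J (star v) ξ)‖ = ‖e ξ‖ := by
    rw [← rm_comm h hvA (star_mem hvA), norm_rm_eq h hve]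
    · have h1 : ⟪v ξ, v ξ⟫_ℂ = ⟪e ξ, e ξ⟫_ℂ := by
        have h3 : ⟪v ξ, v ξ⟫_ℂ = ⟪ξ, (star v) (v ξ)⟫_ℂ := by
          rw [ContinuousLinearMap.star_eq_adjoint, ContinuousLinearMap.adjoint_inner_right]
        have h4 : ⟪e ξ, e ξ⟫_ℂ = ⟪ξ, (star e) (e ξ)⟫_ℂ := by
          rw [ContinuousLinearMap.star_eq_adjoint, ContinuousLinearMap.adjoint_inner_right]
        rw [h3, h4, ← apply_mul, hve, hes, ← apply_mul, hee]
      rw [inner_self_eq_norm_sq_to_K, inner_self_eq_norm_sq_to_K] at h1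
      have h2 : ‖v ξ‖ ^ 2 = ‖e ξ‖ ^ 2 := by exact_mod_cast h1
      exact (sq_eq_sq₀ (norm_nonneg _) (norm_nonneg _)).1 h2
    · rw [hes, hvξ, rm_comm h hvA heA, rm_comm h heA heA, hef, ← apply_mul e e, hee]
  -- the distance of `f ξ` and `r0 ξ r0`
  have hm1 : ‖f ξ‖ ≤ 1 := by
    have := norm_proj_le hfs hff ξ
    rwa [hone] at this
  have hP : r0 (rm J r0 ξ) = r0 (rm J r0 (f ξ)) := by
    rw [rm_comm h hfA hr0A, ← apply_mul r0 f, hr0f]
  have k3 : ‖f ξ‖ ^ 2 - ‖r0 (rm J r0 ξ)‖ ^ 2 ≤ 2 * δ := by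
    have a1 : ‖f ξ‖ - ‖r0 (rm J r0 ξ)‖ ≤ δ := by
      have := norm_sub_norm_le (v (rm J (star v) ξ)) (r0 (rm J r0 ξ))
      rw [k2, hm] at this
      linarith
    have a2 : ‖r0 (rm J r0 ξ)‖ ≤ ‖f ξ‖ := by
      rw [hP]
      exact (norm_proj_le hr0s hr02 _).trans (norm_rm_le h (proj_pi hr0s hr02) _)
    have a3 := norm_nonneg (r0 (rm J r0 ξ))
    nlinarith
  have hsq : ∀ x : ℝ, x ^ 2 ≤ 2 * δ → x ≤ Real.sqrt (2 * δ) := fun x hx => Real.le_sqrt_of_sq_le hx
  have k4 : ‖f ξ - r0 (rm J r0 ξ)‖ ≤ 2 * Real.sqrt (2 * δ) := by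
    set y : H := rm J r0 (f ξ) with hy
    have hyle : ‖y‖ ≤ ‖f ξ‖ := norm_rm_le h (proj_pi hr0s hr02) _
    have a1 : ‖f ξ - y‖ ≤ Real.sqrt (2 * δ) := by
      apply hsq
      have b1 : ‖f ξ - y‖ ^ 2 = ‖f ξ‖ ^ 2 - ‖y‖ ^ 2 := by
        have c1 := pyth hr0s hr02 (J (f ξ))
        have c2 : ‖J (f ξ) - r0 (J (f ξ))‖ = ‖f ξ - y‖ := by
          rw [← h.J_norm (J (f ξ) - r0 (J (f ξ))), map_sub, h.J_J, hy]
          unfold rm
          rw [hr0s]
        have c3 : ‖r0 (J (f ξ))‖ = ‖y‖ := by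
          rw [hy]; unfold rm
          rw [h.J_norm, hr0s]
        rw [c2, c3, h.J_norm] at c1
        exact c1
      have b2 : ‖r0 (rm J r0 ξ)‖ ≤ ‖y‖ := by
        rw [hP]; exact norm_proj_le hr0s hr02 _
      have b3 := norm_nonneg (r0 (rm J r0 ξ))
      nlinarith
    have a2 : ‖y - r0 y‖ ≤ Real.sqrt (2 * δ) := by
      apply hsq
      rw [pyth hr0s hr02 y]
      have b2 : ‖r0 y‖ = ‖r0 (rm J r0 ξ)‖ := by rw [hP]
      rw [b2]
      have b3 := norm_nonneg y
      nlinarith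
    have a3 : f ξ - r0 (rm J r0 ξ) = (f ξ - y) + (y - r0 y) := by
      rw [hP]; abel
    rw [a3]
    have := norm_add_le (f ξ - y) (y - r0 y)
    linarith
  have k5 : ‖v (rm J (star v) ξ) - f ξ‖ ≤ δ + 2 * Real.sqrt (2 * δ) := by
    have a1 : v (rm J (star v) ξ) - f ξ =
        (v (rm J (star v) ξ) - r0 (rm J r0 ξ)) - (f ξ - r0 (rm J r0 ξ)) := by abel
    rw [a1]
    have := norm_sub_le (v (rm J (star v) ξ) - r0 (rm J r0 ξ)) (f ξ - r0 (rm J r0 ξ))
    linarith
  have hs0 := Real.sqrt_nonneg (2 * δ)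
  by_cases hr0f' : r0 = f
  · refine ⟨v, hvA, hve, hr0f', ?_⟩
    linarith
  -- a small piece
  have hr00 : r0 ≠ 0 := by
    intro h0
    apply he0
    have : v = 0 := by rw [← hv, h0, zero_mul]
    rw [← hve, this]; simp
  obtain ⟨r, ⟨hrA, hrs, hrr⟩, hrn, hr0r, hrδ⟩ := exists_small hA ξ ⟨hr0A, hr0s, hr02⟩ hr00 hδ
  have hrr0 : r * r0 = r := by
    have := congrArg star hr0r
    simpa [star_mul, hr0s, hrs] using this
  have hfr : f * r = r := by rw [← hr0r, ← mul_assoc, hfr0]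
  have hrf : r * f = r := by
    have := congrArg star hfr
    simpa [star_mul, hfs, hrs] using this
  set t : H →L[ℂ] H := (f - r0) + r with ht
  have htA : t ∈ A := add_mem (sub_mem hfA hr0A) hrA
  have hts : star t = t := by rw [ht, star_add, star_sub, hfs, hr0s, hrs]
  have htt : t * t = t := by
    rw [ht]
    have : (f - r0 + r) * (f - r0 + r) = f * f - f * r0 + f * r - r0 * f + r0 * r0 - r0 * r
        + r * f - r * r0 + r * r := by noncomm_ring
    rw [this, hff, hfr0, hfr, hr0f, hr02, hr0r, hrf, hrr0, hrr]; abel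
  have hrt : r * t = r := by
    rw [ht, mul_add, mul_sub, hrf, hrr0, hrr]; abel
  have ht0 : t ≠ 0 := by
    intro h0
    apply hrn
    rw [← hrt, h0, mul_zero]
  obtain ⟨z, hzA, hz1, hz2⟩ := equiv_pair hA h.sep ⟨hrA, hrs, hrr⟩ hrn ⟨htA, hts, htt⟩ ht0
  have hzr : z * r = z := mul_eq hrs hrr hz1
  have hzpi : z * star z * z = z := by rw [mul_assoc, hz1, hzr]
  have htz : t * z = z := by rw [← hz2, hzpi]
  have hrzs : r * star z = star z := by
    have := congrArg star hzr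
    simpa [star_mul, hrs] using this
  have hzst : star z * t = star z := by
    have := congrArg star htz
    simpa [star_mul, hts] using this
  have hqt : (r0 - r) * t = 0 := by
    rw [ht]
    have : (r0 - r) * (f - r0 + r) = r0 * f - r0 * r0 + r0 * r - r * f + r * r0 - r * r := by
      noncomm_ring
    rw [this, hr0f, hr02, hr0r, hrf, hrr0, hrr]; abel
  have htq : t * (r0 - r) = 0 := by
    rw [ht]
    have : (f - r0 + r) * (r0 - r) = f * r0 - f * r - r0 * r0 + r0 * r + r * r0 - r * r := by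
      noncomm_ring
    rw [this, hfr0, hfr, hr02, hr0r, hrr0, hrr]; abel
  have hqr : r * (r0 - r) = 0 := by rw [mul_sub, hrr0, hrr, sub_self]
  have hrq : (r0 - r) * r = 0 := by rw [sub_mul, hr0r, hrr, sub_self]
  have hqz : (r0 - r) * z = 0 := by rw [← htz, ← mul_assoc, hqt, zero_mul]
  have hzq : z * (r0 - r) = 0 := by rw [← hzr, mul_assoc, hqr, mul_zero]
  have hzsq : star z * (r0 - r) = 0 := by rw [← hzst, mul_assoc, htq, mul_zero]
  have hqzs : (r0 - r) * star z = 0 := by rw [← hrzs, ← mul_assoc, hrq, zero_mul]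
  have hqq : (r0 - r) * (r0 - r) = r0 - r := by
    rw [mul_sub, sub_mul, hrq, hr02, hrr0, sub_zero]
  have hqs : star (r0 - r) = r0 - r := by rw [star_sub, hr0s, hrs]
  set g : H →L[ℂ] H := (r0 - r) + z with hg
  have hgA : g ∈ A := add_mem (sub_mem hr0A hrA) hzA
  have hgs : star g = (r0 - r) + star z := by rw [hg, star_add, hqs]
  have hgg : star g * g = r0 := by
    rw [hgs, hg, add_mul, mul_add, mul_add, hqq, hqz, hzsq, hz1]; abel
  have hgg' : g * star g = f := by
    rw [hgs, hg, add_mul, mul_add, mul_add, hqq, hqzs, hzq, hz2, ht]; abel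
  have hgpi : g * star g * g = g := by
    have : g * r0 = g := mul_eq hr0s hr02 hgg
    rw [mul_assoc, hgg, this]
  have hgr0 : g * r0 = g := mul_eq hr0s hr02 hgg
  have hgf : g * f = g := by rw [← hgr0, mul_assoc, hr0f]
  have hr0gs : r0 * star g = star g := by
    have := congrArg star hgr0
    simpa [star_mul, hr0s] using this
  have hfgs : f * star g = star g := by
    have := congrArg star hgf
    simpa [star_mul, hfs] using this
  refine ⟨g * v, mul_mem hgA hvA, ?_, ?_, ?_⟩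
  · rw [star_mul]
    calc star v * star g * (g * v) = star v * (star g * g) * v := by simp only [mul_assoc]
      _ = star v * (v * star v) * v := by rw [hgg]
      _ = star v * (v * star v * v) := by simp only [mul_assoc]
      _ = e := by rw [hv, hve]
  · rw [star_mul]
    calc g * v * (star v * star g) = g * (v * star v) * star g := by simp only [mul_assoc]
      _ = g * star g := by rw [← hr0, hgr0]
      _ = f := hgg'
  · -- the estimate
    have hgspi : star g * star (star g) * star g = star g := by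
      rw [star_star]; exact star_pi hgpi
    have m1 : (g * v) (rm J (star (g * v)) ξ) = rm J (star g) (g (v (rm J (star v) ξ))) := by
      rw [star_mul, ← rm_mul h, rm_comm h hgA (star_mem hgA), rm_comm h hvA (star_mem hgA)]
      rfl
    have m2 : rm J (star g) (g (f ξ)) = g (rm J (star g) ξ) := by
      rw [← apply_mul, hgf, rm_comm h hgA (star_mem hgA)]
    have m3 : ‖g (rm J (star g) ξ) - f ξ‖ ≤ 4 * δ + 2 * Real.sqrt (2 * δ) := by
      have n0 : ‖(z - r) ξ‖ ≤ 2 * δ := by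
        have : (z - r) ξ = z (r ξ) - r ξ := by
          rw [← apply_mul, hzr]; rfl
        rw [this]
        have p1 := norm_sub_le (z (r ξ)) (r ξ)
        have p2 := norm_pi_le hzpi (r ξ)
        linarith
      have hzrA : z - r ∈ A := sub_mem hzA hrA
      have n1 : g (rm J (star g) ξ) = (z - r) (rm J (star g) ξ) + r0 (rm J (star g) ξ) := by
        have h7 : g = (z - r) + r0 := by rw [hg]; abel
        calc g (rm J (star g) ξ) = ((z - r) + r0) (rm J (star g) ξ) := by rw [← h7]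
          _ = _ := rfl
      have n2 : r0 (rm J (star g) ξ) = r0 (rm J (star (z - r)) ξ) + r0 (rm J r0 ξ) := by
        have : star g = star (z - r) + r0 := by rw [hgs, star_sub, hrs]; abel
        rw [this, rm_add_left, map_add]
      have n3 : ‖(z - r) (rm J (star g) ξ)‖ ≤ 2 * δ := by
        rw [← rm_comm h hzrA (star_mem hgA)]
        exact (norm_rm_le h hgspi _).trans n0
      have n4 : ‖r0 (rm J (star (z - r)) ξ)‖ ≤ 2 * δ := by
        rw [← h.J_norm, J_mul h hr0A (star_mem hzrA), star_star, hr0s,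
          ← rm_comm h hzrA hr0A]
        exact (norm_rm_le h (proj_pi hr0s hr02) _).trans n0
      have n5 : g (rm J (star g) ξ) - f ξ = (z - r) (rm J (star g) ξ) +
          r0 (rm J (star (z - r)) ξ) - (f ξ - r0 (rm J r0 ξ)) := by
        rw [n1, n2]; abel
      rw [n5]
      have q1 := norm_sub_le ((z - r) (rm J (star g) ξ) + r0 (rm J (star (z - r)) ξ))
        (f ξ - r0 (rm J r0 ξ))
      have q2 := norm_add_le ((z - r) (rm J (star g) ξ)) (r0 (rm J (star (z - r)) ξ))
      linarith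
    have m4 : (g * v) (rm J (star (g * v)) ξ) - f ξ =
        rm J (star g) (g (v (rm J (star v) ξ) - f ξ)) + (g (rm J (star g) ξ) - f ξ) := by
      rw [m1, map_sub, rm_sub, m2]; abel
    have m5 : ‖rm J (star g) (g (v (rm J (star v) ξ) - f ξ))‖ ≤ δ + 2 * Real.sqrt (2 * δ) :=
      ((norm_rm_le h hgspi _).trans (norm_pi_le hgpi _)).trans k5
    rw [m4]
    have := norm_add_le (rm J (star g) (g (v (rm J (star v) ξ) - f ξ)))
      (g (rm J (star g) ξ) - f ξ)
    linarith

end FullAux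

open FullAux ExhAux InftyAux in
theorem exists_full (h : St A ξ J Ψ R D) (hA : III1V A) {e f : H →L[ℂ] H} (he : IsP A e)
    (hf : IsP A f) (hef : e + f = 1) (hJe : J (e ξ) = e ξ) (hm : ‖e ξ‖ = ‖f ξ‖) {δ : ℝ}
    (hδ : 0 < δ) :
    ∃ v ∈ A, star v * v = e ∧ v * star v = f ∧
      ∀ x ∈ A, ‖⟪v ξ, x (v ξ)⟫_ℂ - ⟪f ξ, x (f ξ)⟫_ℂ‖ ≤ δ * ‖x‖ := by
  have hone := h.norm_one
  have hfe : f = 1 - e := by rw [← hef]; abel
  have hJf : J (f ξ) = f ξ := by
    have : f ξ = ξ - e ξ := by rw [hfe]; rfl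
    rw [this, map_sub, h.J_xi, hJe]
  obtain ⟨heA, hes, hee⟩ := he
  obtain ⟨hfA, hfs, hff⟩ := hf
  have hξ0 : ξ ≠ 0 := by
    intro h0; rw [h0, norm_zero] at hone; norm_num at hone
  have hξef : ξ = e ξ + f ξ := by
    have : (e + f) ξ = ξ := by rw [hef]; rfl
    exact this.symm
  have he0 : e ≠ 0 := by
    intro h0
    rw [h0] at hm
    have h1 : ‖f ξ‖ = 0 := by rw [← hm]; simp
    apply hξ0
    rw [hξef, h0, norm_eq_zero.1 h1]; simp
  have hf0 : f ≠ 0 := by
    intro h0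
    rw [h0] at hm
    have h1 : ‖e ξ‖ = 0 := by rw [hm]; simp
    apply hξ0
    rw [hξef, h0, norm_eq_zero.1 h1]; simp
  -- the parameter
  set t : ℝ := min 1 (δ / 22) with ht
  have ht0 : 0 < t := lt_min one_pos (by positivity)
  have ht1 : t ≤ 1 := min_le_left _ _
  have ht2 : 22 * t ≤ δ := by
    have : t ≤ δ / 22 := min_le_right _ _
    linarith
  have hd0 : 0 < t ^ 2 := by positivity
  have hfin : 5 * t ^ 2 + 4 * Real.sqrt (2 * t ^ 2) ≤ 11 * t := by
    have h1 : Real.sqrt (2 * t ^ 2) ≤ 3 / 2 * t := by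
      rw [Real.sqrt_le_left (by positivity)]
      nlinarith
    nlinarith
  obtain ⟨v, hvA, hv, hfv, hve, hΦ, hcase⟩ := exists_maximal h hA ⟨heA, hes, hee⟩
    ⟨hfA, hfs, hff⟩ hef hJe (δ := (t ^ 2) ^ 2) (by positivity)
  have hΦ1 : ‖v (rm J (star v * v) ξ) - (v * star v) (rm J v ξ)‖ ≤ t ^ 2 := by
    unfold Phi at hΦ
    have h1 : ‖v (rm J (star v * v) ξ) - (v * star v) (rm J v ξ)‖ ^ 2 ≤ (t ^ 2) ^ 2 := by
      have a1 := sq_nonneg ‖(star v * v) (rm J (e - star v * v) ξ)‖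
      have a2 := sq_nonneg ‖(f - v * star v) (rm J (v * star v) ξ)‖
      linarith
    exact (sq_le_sq₀ (norm_nonneg _) hd0.le).1 h1
  -- the full partial isometry
  obtain ⟨u, huA, hu1, hu2, hu⟩ : ∃ u ∈ A, star u * u = e ∧ u * star u = f ∧
      ‖u (rm J (star u) ξ) - f ξ‖ ≤ 11 * t := by
    rcases hcase with hc | hc
    · obtain ⟨u, huA, hu1, hu2, hu⟩ := case1 h hA.toFInf ⟨heA, hes, hee⟩ ⟨hfA, hfs, hff⟩ he0
        hJe hJf hm hd0 hvA hv hfv hc hΦ1
      exact ⟨u, huA, hu1, hu2, hu.trans hfin⟩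
    · have hsv : star v * star (star v) * star v = star v := by rw [star_star]; exact star_pi hv
      have hev : e * star v = star v := by
        have := congrArg star hve
        simpa [star_mul, hes] using this
      have hΦ2 : ‖(star v) (rm J (star (star v) * star v) ξ) -
          (star v * star (star v)) (rm J (star v) ξ)‖ ≤ t ^ 2 := by
        rw [star_star]
        have b1 : J ((star v) (rm J (v * star v) ξ)) = (v * star v) (rm J v ξ) := by
          rw [J_mul h (star_mem hvA) (mul_mem hvA (star_mem hvA)), star_star]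
          congr 1
          simp [star_mul]
        have b2 : J ((star v * v) (rm J (star v) ξ)) = v (rm J (star v * v) ξ) := by
          rw [J_mul h (mul_mem (star_mem hvA) hvA) (star_mem hvA), star_star]
          congr 2
          simp [star_mul]
        rw [← h.J_norm, map_sub, b1, b2, norm_sub_rev]
        exact hΦ1
      obtain ⟨u, huA, hu1, hu2, hu⟩ := case1 h hA.toFInf ⟨hfA, hfs, hff⟩ ⟨heA, hes, hee⟩ hf0
        hJf hJe hm.symm hd0 (star_mem hvA) hsv hev (by rw [star_star]; exact hc) hΦ2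
      refine ⟨star u, star_mem huA, by rw [star_star]; exact hu2, by rw [star_star]; exact hu1, ?_⟩
      rw [star_star]
      have huf : u * f = u := mul_eq hfs hff hu1
      have hupi : u * star u * u = u := by rw [mul_assoc, hu1, huf]
      have huspi : star u * star (star u) * star u = star u := by
        rw [star_star]; exact star_pi hupi
      have hfus : f * star u = star u := by
        have := congrArg star huf
        simpa [star_mul, hfs] using this
      have huse : star u * e = star u := by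
        rw [← hu2, ← mul_assoc]; exact star_pi hupi
      have c1 : rm J u ((star u) (u (rm J (star u) ξ))) = f ξ := by
        rw [← apply_mul (star u) u, hu1, rm_comm h hfA huA, rm_mul h, hu1, rm_fix h hfs hJf,
          ← apply_mul, hff]
      have c2 : rm J u ((star u) (e ξ)) = (star u) (rm J u ξ) := by
        rw [← apply_mul, huse, rm_comm h (star_mem huA) huA]
      have c3 : (star u) (rm J u ξ) - f ξ =
          - rm J u ((star u) (u (rm J (star u) ξ) - e ξ)) := by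
        rw [map_sub, rm_sub, c1, c2]; abel
      rw [c3, norm_neg]
      exact ((norm_rm_le h hupi _).trans (norm_pi_le huspi _)).trans (hu.trans hfin)
  refine ⟨u, huA, hu1, hu2, fun x hx => ?_⟩
  have hue : u * e = u := mul_eq hes hee hu1
  have hupi : u * star u * u = u := by rw [mul_assoc, hu1, hue]
  have huspi : star u * star (star u) * star u = star u := by
    rw [star_star]; exact star_pi hupi
  set p : H := u (rm J (star u) ξ) with hp
  set q : H := f ξ with hq
  have d1 : ⟪u ξ, x (u ξ)⟫_ℂ = ⟪p, x p⟫_ℂ := by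
    have a1 : rm J (star e) (u ξ) = u ξ := by
      have : u ξ = u (e ξ) := by rw [← apply_mul, hue]
      rw [hes, this, rm_comm h huA heA, rm_comm h heA heA, rm_fix h hes hJe, ← apply_mul e e, hee]
    rw [← inner_rm h hu1 a1, rm_comm h hx (star_mem huA), rm_comm h huA (star_mem huA)]
  rw [d1]
  have hp1 : ‖p‖ ≤ 1 := by
    have a1 := norm_pi_le hupi (rm J (star u) ξ)
    have a2 := norm_rm_le h huspi ξ
    rw [hone] at a2
    exact a1.trans a2
  have hq1 : ‖q‖ ≤ 1 := by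
    have := norm_proj_le hfs hff ξ
    rwa [hone] at this
  have d2 : ⟪p, x p⟫_ℂ - ⟪q, x q⟫_ℂ = ⟪p - q, x p⟫_ℂ + ⟪q, x (p - q)⟫_ℂ := by
    rw [inner_sub_left, map_sub, inner_sub_right]; ring
  rw [d2]
  have d3 : ‖⟪p - q, x p⟫_ℂ‖ ≤ 11 * t * ‖x‖ := by
    have a1 := norm_inner_le_norm (𝕜 := ℂ) (p - q) (x p)
    have a2 : ‖x p‖ ≤ ‖x‖ := by
      have := x.le_opNorm p
      have h3 := norm_nonneg x
      nlinarith
    have h4 := norm_nonneg (p - q)
    have h5 := norm_nonneg x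
    have h6 := norm_nonneg (x p)
    calc _ ≤ ‖p - q‖ * ‖x p‖ := a1
      _ ≤ ‖p - q‖ * ‖x‖ := by gcongr
      _ ≤ 11 * t * ‖x‖ := by gcongr
  have d4 : ‖⟪q, x (p - q)⟫_ℂ‖ ≤ 11 * t * ‖x‖ := by
    have a1 := norm_inner_le_norm (𝕜 := ℂ) q (x (p - q))
    have a2 := x.le_opNorm (p - q)
    have h5 := norm_nonneg x
    calc _ ≤ ‖q‖ * ‖x (p - q)‖ := a1
      _ ≤ 1 * (‖x‖ * ‖p - q‖) := by gcongr
      _ ≤ 1 * (‖x‖ * (11 * t)) := by gcongr
      _ = _ := by ring
  have d5 := norm_add_le (⟪p - q, x p⟫_ℂ) (⟪q, x (p - q)⟫_ℂ)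
  have h5 := norm_nonneg x
  nlinarith

end Pool.Agent.Helper88.CS
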