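import Pool.Agent.Helper88.CS.Polar
import Pool.Agent.Helper88.CS.Sums

/-!
# Project CS, module Infty: all nonzero projections are equivalent
-/

open scoped InnerProductSpace Topology BoundedContinuousFunction
open ContinuousLinearMap Filter MeasureTheory

namespace Pool.Agent.Helper88.CS

open Pool.Agent.Helper23
open Pool.Agent.Helper78.BC (Std rm Fixed)

variable {H : Type*} [NormedAddCommGroup H] [InnerProductSpace ℂ H] [CompleteSpace H]

variable {A : VonNeumannAlgebra H} {ξ : H}

namespace InftyAux

theorem eq_zero_of_star_mul {a : H →L[ℂ] H} (h : star a * a = 0) : a = 0 :=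
  CStarRing.star_mul_self_eq_zero_iff a |>.1 h

theorem eq_zero_of_mul_star {a : H →L[ℂ] H} (h : a * star a = 0) : a = 0 :=
  CStarRing.mul_star_self_eq_zero_iff a |>.1 h

/-- `v e = v` if `v* v = e` is a projection -/
theorem mul_eq {v e : H →L[ℂ] H} (he1 : star e = e) (he2 : e * e = e) (hv : star v * v = e) :
    v * e = v := by
  have h : star (v * e - v) * (v * e - v) = 0 := by
    rw [star_sub, star_mul, he1]
    calc (e * star v - star v) * (v * e - v)
        = e * (star v * v) * e - e * (star v * v) - (star v * v) * e + star v * v := by noncomm_ring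
      _ = 0 := by rw [hv]; simp only [he2]; abel
  exact sub_eq_zero.1 (eq_zero_of_star_mul h)

end InftyAux

open InftyAux

/-- an infinite projection contains a sequence of orthogonal equivalent nonzero projections -/
theorem exists_seq (hA : FInf A) {e : H →L[ℂ] H} (he : IsP A e) (he0 : e ≠ 0) :
    ∃ p : ℕ → H →L[ℂ] H, ∃ x : ℕ → H →L[ℂ] H, (∀ n, IsP A (p n) ∧ p n ≠ 0 ∧ e * p n = p n) ∧
      (∀ m n, m ≠ n → p m * p n = 0) ∧
      ∀ n, x n ∈ A ∧ star (x n) * x n = p 0 ∧ x n * star (x n) = p n := by
  obtain ⟨v, hvA, hv1, hv2, hv3⟩ := hA.infinite e he he0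
  obtain ⟨heA, he1, he2⟩ := he
  have hve : v * e = v := mul_eq he1 he2 hv1
  have hev : e * star v = star v := by
    have := congrArg star hve
    rwa [star_mul, he1] at this
  have hve' : star v * e = star v := by
    have := congrArg star hv2
    rwa [star_mul, he1] at this
  set d : H →L[ℂ] H := e - v * star v with hd
  have hdA : d ∈ A := sub_mem heA (mul_mem hvA (star_mem hvA))
  have hd0 : d ≠ 0 := fun h => hv3 (sub_eq_zero.1 h).symm
  have hd1 : star d = d := by rw [hd, star_sub, star_mul, star_star, he1]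
  have hvd : star v * d = 0 := by
    rw [hd, mul_sub, hve', ← mul_assoc, hv1, hev, sub_self]
  have hed : e * d = d := by
    rw [hd, mul_sub, he2, ← mul_assoc, hv2]
  have hde : d * e = d := by
    have := congrArg star hed
    rwa [star_mul, he1, hd1] at this
  have hdd : d * d = d := by
    have h1 : d * v = 0 := by
      have := congrArg star hvd
      rwa [star_mul, star_star, hd1, star_zero] at this
    calc d * d = d * e - d * v * star v := by rw [hd]; noncomm_ring
      _ = d := by rw [hde, h1, zero_mul, sub_zero]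
  let y : ℕ → H →L[ℂ] H := fun n => v ^ n * d
  have hy0 : y 0 = d := by simp [y]
  have hyS : ∀ n, y (n + 1) = v * y n := fun n => by
    simp only [y, pow_succ', mul_assoc]
  have hyA : ∀ n, y n ∈ A := fun n => mul_mem (pow_mem hvA n) hdA
  have hey : ∀ n, e * y n = y n := by
    intro n
    cases n with
    | zero => rw [hy0, hed]
    | succ n => rw [hyS, ← mul_assoc, hv2]
  have hyd : ∀ n, y n * d = y n := fun n => by
    simp only [y, mul_assoc, hdd]
  have hort : ∀ m n, star (y m) * y n = if m = n then d else 0 := by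
    intro m
    induction m with
    | zero =>
      intro n
      cases n with
      | zero => rw [hy0, hd1, hdd]; simp
      | succ n =>
        rw [hy0, hyS, ← mul_assoc]
        have : star d * v = 0 := by
          have := congrArg star hvd
          rwa [star_mul, star_star, star_zero] at this
        rw [this, zero_mul]; simp
    | succ m ih =>
      intro n
      cases n with
      | zero =>
        rw [hyS, hy0, star_mul, mul_assoc, hvd, mul_zero]; simp
      | succ n =>
        rw [hyS, hyS, star_mul, mul_assoc, ← mul_assoc (star v) v, hv1, hey, ih]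
        simp
  refine ⟨fun n => y n * star (y n), y, fun n => ⟨⟨?_, ?_, ?_⟩, ?_, ?_⟩, ?_, fun n => ⟨?_, ?_, ?_⟩⟩
  · exact mul_mem (hyA n) (star_mem (hyA n))
  · rw [star_mul, star_star]
  · calc y n * star (y n) * (y n * star (y n)) = y n * (star (y n) * y n) * star (y n) := by
          noncomm_ring
      _ = y n * star (y n) := by rw [hort, if_pos rfl, hyd]
  · intro h
    have h1 := eq_zero_of_mul_star h
    have h2 := hort n n
    rw [h1, mul_zero, if_pos rfl] at h2
    exact hd0 h2.symm
  · show e * (y n * star (y n)) = y n * star (y n)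
    rw [← mul_assoc, hey]
  · intro m n hmn
    show y m * star (y m) * (y n * star (y n)) = 0
    calc y m * star (y m) * (y n * star (y n)) = y m * (star (y m) * y n) * star (y n) := by
          noncomm_ring
      _ = 0 := by rw [hort, if_neg hmn, mul_zero, zero_mul]
  · exact hyA n
  · show star (y n) * y n = y 0 * star (y 0)
    rw [hort, if_pos rfl, hy0, hd1, hdd]
  · rfl

namespace InftyAux

/-- the candidates: partial isometries with initial projection below `r` and range below `p` -/
def Cand (A : VonNeumannAlgebra H) (p r w : H →L[ℂ] H) : Prop :=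
  w ∈ A ∧ w * star w * w = w ∧ w * r = w ∧ p * w = w

theorem cand_norm_le {p r w : H →L[ℂ] H} (h : Cand A p r w) (ξ : H) :
    ‖(star w * w) ξ‖ ≤ ‖ξ‖ := by
  have h1 : star (star w * w) * (star w * w) = star w * w := by
    rw [star_mul, star_star]
    calc star w * w * (star w * w) = star w * (w * star w * w) := by noncomm_ring
      _ = star w * w := by rw [h.2.1]
  have h2 : ‖star w * w‖ * ‖star w * w‖ = ‖star w * w‖ := by
    rw [← CStarRing.norm_star_mul_self, h1]
  have h3 : ‖star w * w‖ ≤ 1 := by
    by_contra hc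
    push Not at hc
    nlinarith [norm_nonneg (star w * w)]
  calc ‖(star w * w) ξ‖ ≤ ‖star w * w‖ * ‖ξ‖ := (star w * w).le_opNorm ξ
    _ ≤ 1 * ‖ξ‖ := by gcongr
    _ = ‖ξ‖ := one_mul _

theorem exists_best (A : VonNeumannAlgebra H) (ξ : H) (p r : H →L[ℂ] H) :
    ∃ w, Cand A p r w ∧ ∀ w', Cand A p r w' → ‖(star w' * w') ξ‖ ≤ 2 * ‖(star w * w) ξ‖ := by
  have h0 : Cand A p r 0 := ⟨zero_mem A, by simp, by simp, by simp⟩
  let T : Set ℝ := {s | ∃ w, Cand A p r w ∧ s = ‖(star w * w) ξ‖}
  have hne : T.Nonempty := ⟨_, 0, h0, rfl⟩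
  have hb : BddAbove T := ⟨‖ξ‖, by rintro s ⟨w, hw, rfl⟩; exact cand_norm_le hw ξ⟩
  by_cases hS : sSup T ≤ 0
  · refine ⟨0, h0, fun w' hw' => ?_⟩
    have h1 : ‖(star w' * w') ξ‖ ≤ sSup T := le_csSup hb ⟨w', hw', rfl⟩
    have h2 : 0 ≤ ‖(star (0 : H →L[ℂ] H) * 0) ξ‖ := norm_nonneg _
    linarith
  · push Not at hS
    obtain ⟨s, ⟨w, hw, rfl⟩, hs⟩ := exists_lt_of_lt_csSup hne (show sSup T / 2 < sSup T by linarith)
    refine ⟨w, hw, fun w' hw' => ?_⟩
    have h1 : ‖(star w' * w') ξ‖ ≤ sSup T := le_csSup hb ⟨w', hw', rfl⟩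
    linarith

/-- the choice at stage `n` -/
noncomputable def ch (A : VonNeumannAlgebra H) (ξ : H) (p r : H →L[ℂ] H) : H →L[ℂ] H :=
  (exists_best A ξ p r).choose

theorem ch_cand (A : VonNeumannAlgebra H) (ξ : H) (p r : H →L[ℂ] H) :
    Cand A p r (ch A ξ p r) := (exists_best A ξ p r).choose_spec.1

theorem ch_best (A : VonNeumannAlgebra H) (ξ : H) (p r : H →L[ℂ] H) {w' : H →L[ℂ] H}
    (h : Cand A p r w') :
    ‖(star w' * w') ξ‖ ≤ 2 * ‖(star (ch A ξ p r) * ch A ξ p r) ξ‖ :=
  (exists_best A ξ p r).choose_spec.2 w' h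

/-- the remaining projections -/
noncomputable def rr (A : VonNeumannAlgebra H) (ξ : H) (p : ℕ → H →L[ℂ] H) : ℕ → H →L[ℂ] H
  | 0 => 1
  | n + 1 => rr A ξ p n - star (ch A ξ (p n) (rr A ξ p n)) * ch A ξ (p n) (rr A ξ p n)

end InftyAux

/-- an isometry with range under `e` -/
theorem exists_isometry (hA : FInf A) (hsep : ∀ a ∈ A, a ξ = 0 → a = 0) {e : H →L[ℂ] H}
    (he : IsP A e) (he0 : e ≠ 0) : ∃ w ∈ A, star w * w = 1 ∧ e * w = w := by
  obtain ⟨p, x, hp, hpp, hx⟩ := exists_seq hA he he0
  set r : ℕ → H →L[ℂ] H := rr A ξ p with hr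
  set w : ℕ → H →L[ℂ] H := fun n => ch A ξ (p n) (r n) with hw
  have hc : ∀ n, Cand A (p n) (r n) (w n) := fun n => ch_cand A ξ (p n) (r n)
  have hr0 : r 0 = 1 := rfl
  have hrS : ∀ n, r (n + 1) = r n - star (w n) * w n := fun n => rfl
  -- r n are projections
  have hrs : ∀ n, star (r n) = r n := by
    intro n
    induction n with
    | zero => rw [hr0, star_one]
    | succ n ih => rw [hrS, star_sub, star_mul, star_star, ih]
  have hrw : ∀ n, r n * star (w n) = star (w n) := by
    intro n
    have h := congrArg star (hc n).2.2.1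
    rwa [star_mul, hrs] at h
  have hkill : ∀ n, r (n + 1) * star (w n) = 0 := by
    intro n
    rw [hrS, sub_mul, hrw]
    have h := congrArg star (hc n).2.1
    rw [star_mul, star_mul, star_star] at h
    rw [mul_assoc, h, sub_self]
  have hkill2 : ∀ n k, r (n + 1 + k) * star (w n) = 0 := by
    intro n k
    induction k with
    | zero => exact hkill n
    | succ k ih =>
      have h1 : w (n + 1 + k) * star (w n) = 0 := by
        rw [← (hc (n + 1 + k)).2.2.1, mul_assoc, ih, mul_zero]
      rw [← add_assoc, hrS, sub_mul, ih, mul_assoc, h1, mul_zero, sub_zero]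
  have h2a : ∀ m n, n < m → w m * star (w n) = 0 := by
    intro m n hmn
    obtain ⟨k, rfl⟩ := Nat.exists_eq_add_of_le hmn
    rw [← (hc (n + 1 + k)).2.2.1, mul_assoc, hkill2, mul_zero]
  have h2 : ∀ m n, m ≠ n → w m * star (w n) = 0 := by
    intro m n hmn
    rcases lt_or_gt_of_ne hmn with h | h
    · have h3 := congrArg star (h2a n m h)
      rwa [star_mul, star_star, star_zero] at h3
    · exact h2a m n h
  have h1 : ∀ m n, m ≠ n → star (w m) * w n = 0 := by
    intro m n hmn
    have e1 : star (w m) * p m = star (w m) := by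
      have h := congrArg star (hc m).2.2.2
      rwa [star_mul, (hp m).1.2.1] at h
    calc star (w m) * w n = star (w m) * p m * (p n * w n) := by rw [e1, (hc n).2.2.2]
      _ = star (w m) * (p m * p n) * w n := by noncomm_ring
      _ = 0 := by rw [hpp m n hmn, mul_zero, zero_mul]
  obtain ⟨v, hvA, hv1, hv2, -, hv4, -, hv6, hv7⟩ :=
    exists_sum (fun n => (hc n).1) (fun n => (hc n).2.1) h1 h2
  have hev : e * v = v := by
    ext z
    have h3 : HasSum (fun n => e (w n z)) (e (v z)) := e.hasSum (hv2 z)
    have h4 : (fun n => e (w n z)) = fun n => w n z := by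
      funext n
      have h5 : e * w n = w n := by rw [← (hc n).2.2.2, ← mul_assoc, (hp n).2.2]
      exact congrArg (fun T : H →L[ℂ] H => T z) h5
    rw [h4] at h3
    exact h3.unique (hv2 z)
  refine ⟨v, hvA, ?_, hev⟩
  by_contra hcon
  set t : H →L[ℂ] H := 1 - star v * v with ht
  have htA : t ∈ A := sub_mem (one_mem A) (mul_mem (star_mem hvA) hvA)
  have ht0 : t ≠ 0 := fun h => hcon (sub_eq_zero.1 h).symm
  have ht1 : star t = t := by rw [ht, star_sub, star_mul, star_star, star_one]
  have hvv : star v * v * (star v * v) = star v * v := by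
    calc star v * v * (star v * v) = star v * (v * star v * v) := by noncomm_ring
      _ = star v * v := by rw [hv1]
  have ht2 : t * t = t := by
    calc t * t = 1 - star v * v - star v * v + star v * v * (star v * v) := by
          rw [ht]; noncomm_ring
      _ = t := by rw [hvv, ht]; abel
  have htw : ∀ n, t * (star (w n) * w n) = 0 := by
    intro n
    have h3 : star v * w n = star (w n) * w n := by
      have h4 := congrArg star (hv7 n)
      rw [star_mul, star_mul, star_star] at h4
      calc star v * w n = star v * (w n * star (w n)) * w n := by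
            rw [mul_assoc, (hc n).2.1]
        _ = star (w n) * w n := by rw [h4]
    rw [ht, sub_mul, one_mul, mul_assoc, hv6, h3, sub_self]
  have htr : ∀ n, t * r n = t := by
    intro n
    induction n with
    | zero => rw [hr0, mul_one]
    | succ n ih => rw [hrS, mul_sub, ih, htw, sub_zero]
  obtain ⟨w', hwA, hw0, hw1, hw2, hw3⟩ := exists_pi hA ⟨htA, ht1, ht2⟩ (hp 0).1 ht0 (hp 0).2.1
  have hcand : ∀ n, Cand A (p n) (r n) (x n * w') := by
    intro n
    obtain ⟨hxA, hx1, hx2⟩ := hx n
    refine ⟨mul_mem hxA hwA, ?_, ?_, ?_⟩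
    · calc x n * w' * star (x n * w') * (x n * w')
          = x n * (w' * star w' * ((star (x n) * x n) * w')) := by
            rw [star_mul]; noncomm_ring
        _ = x n * w' := by rw [hx1, hw2, hw1]
    · rw [mul_assoc]
      congr 1
      calc w' * r n = w' * t * r n := by rw [hw3]
        _ = w' * (t * r n) := by rw [mul_assoc]
        _ = w' := by rw [htr, hw3]
    · calc p n * (x n * w') = x n * ((star (x n) * x n) * w') := by
            rw [← hx2]; noncomm_ring
        _ = x n * w' := by rw [hx1, hw2]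
  have hnorm : ∀ n, ‖(star w' * w') ξ‖ ≤ 2 * ‖(star (w n) * w n) ξ‖ := by
    intro n
    have h3 := ch_best A ξ (p n) (r n) (hcand n)
    have h4 : star (x n * w') * (x n * w') = star w' * w' := by
      calc star (x n * w') * (x n * w') = star w' * ((star (x n) * x n) * w') := by
            rw [star_mul]; noncomm_ring
        _ = star w' * w' := by rw [(hx n).2.1, hw2]
    rwa [h4] at h3
  have htend : Tendsto (fun n => 2 * ‖(star (w n) * w n) ξ‖) atTop (𝓝 0) := by
    have h3 : Tendsto (fun n => (star (w n) * w n) ξ) atTop (𝓝 0) :=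
      (hv4 ξ).summable.tendsto_atTop_zero
    have h4 := (h3.norm).const_mul 2
    simpa using h4
  have hle : ‖(star w' * w') ξ‖ ≤ 0 := ge_of_tendsto' htend hnorm
  have hz : (star w' * w') ξ = 0 := norm_le_zero_iff.1 hle
  exact hw0 (eq_zero_of_star_mul (hsep _ (mul_mem (star_mem hwA) hwA) hz))

end Pool.Agent.Helper88.CS
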