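import Pool.Agent.Helper88.CS.Fourier

/-!
# Project CS, module SuppA: supports: elementary facts
-/

open scoped InnerProductSpace Topology BoundedContinuousFunction
open ContinuousLinearMap Filter MeasureTheory

namespace Pool.Agent.Helper88.CS

open Pool.Agent.Helper23
open Pool.Agent.Helper78.BC (Std rm Fixed)

variable {H : Type*} [NormedAddCommGroup H] [InnerProductSpace ℂ H] [CompleteSpace H]

variable {A : VonNeumannAlgebra H} {ξ : H} {J : H →L[ℝ] H}
  {Ψ : (ℝ →ᵇ ℂ) →⋆ₐ[ℂ] (H →L[ℂ] H)} {R : H →L[ℂ] H} {D : H →L[ℝ] H}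

theorem Supp.mono {v : H} {a b a' b' : ℝ} (h : Supp Ψ v a b) (ha : a' ≤ a) (hb : b ≤ b') :
    Supp Ψ v a' b' :=
  fun G hG => h G fun ρ hρ => hG ρ ⟨ha.trans hρ.1, hρ.2.trans hb⟩

/-- if all bumps around `[a, b]` fix `v` then `v` is supported in `[a, b]` -/
theorem supp_of_bump {v : H} {a b : ℝ} (h : ∀ δ : ℝ, 0 < δ → ∃ K : ℝ →ᵇ ℂ,
      (∀ ρ, ∃ r : ℝ, 0 ≤ r ∧ r ≤ 1 ∧ K ρ = (r : ℂ)) ∧
      (∀ ρ, ρ ∉ Set.Ioo (a - δ) (b + δ) → K ρ = 0) ∧ Ψ K v = v) : Supp Ψ v a b := by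
  intro G hG
  rcases le_or_gt a b with hab | hab
  · have key : ∀ ε : ℝ, 0 < ε → ‖Ψ G v‖ ≤ ε * ‖v‖ := by
      intro ε hε
      obtain ⟨d1, hd1, h1⟩ := Metric.continuousAt_iff.1
        (G.continuous.continuousAt : ContinuousAt (fun ρ : ℝ => G ρ) a) ε hε
      obtain ⟨d2, hd2, h2⟩ := Metric.continuousAt_iff.1
        (G.continuous.continuousAt : ContinuousAt (fun ρ : ℝ => G ρ) b) ε hε
      obtain ⟨K, hK1, hK2, hK3⟩ := h (min d1 d2) (lt_min hd1 hd2)
      have h3 : Ψ G v = Ψ (G * K) v := by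
        rw [Pool.Agent.Helper43.TTF.psi_mul_apply, hK3]
      have h4 : ‖(G * K : ℝ →ᵇ ℂ)‖ ≤ ε := by
        refine (BoundedContinuousFunction.norm_le hε.le).2 fun ρ => ?_
        rw [BoundedContinuousFunction.mul_apply, norm_mul]
        by_cases hρ : ρ ∈ Set.Ioo (a - min d1 d2) (b + min d1 d2)
        · obtain ⟨r, hr0, hr1, hr⟩ := hK1 ρ
          have hr' : ‖K ρ‖ ≤ 1 := by
            rw [hr, Complex.norm_real, Real.norm_of_nonneg hr0]
            exact hr1
          have hg : ‖G ρ‖ ≤ ε := by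
            rcases lt_or_ge ρ a with h5 | h5
            · have h6 : dist (G ρ) (G a) < ε := h1 (by
                rw [Real.dist_eq, abs_sub_comm, abs_of_pos (by linarith)]
                linarith [hρ.1, min_le_left d1 d2])
              rw [hG a ⟨le_rfl, hab⟩, dist_zero_right] at h6
              exact h6.le
            · rcases le_or_gt ρ b with h7 | h7
              · rw [hG ρ ⟨h5, h7⟩, norm_zero]
                exact hε.le
              · have h6 : dist (G ρ) (G b) < ε := h2 (by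
                  rw [Real.dist_eq, abs_of_pos (by linarith)]
                  linarith [hρ.2, min_le_right d1 d2])
                rw [hG b ⟨hab, le_rfl⟩, dist_zero_right] at h6
                exact h6.le
          calc ‖G ρ‖ * ‖K ρ‖ ≤ ε * 1 := mul_le_mul hg hr' (norm_nonneg _) hε.le
            _ = ε := mul_one ε
        · rw [hK2 ρ hρ, norm_zero, mul_zero]
          exact hε.le
      rw [h3]
      refine ((Ψ (G * K)).le_opNorm v).trans ?_
      gcongr
      exact (psi_norm_le Ψ _).trans h4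
    have hv : (0 : ℝ) < ‖v‖ + 1 := by positivity
    rw [← norm_le_zero_iff]
    refine le_of_forall_pos_le_add fun ε hε => ?_
    rw [zero_add]
    refine (key (ε / (‖v‖ + 1)) (div_pos hε hv)).trans ?_
    rw [div_mul_eq_mul_div, div_le_iff₀ hv]
    nlinarith [norm_nonneg v]
  · obtain ⟨K, -, hK2, hK3⟩ := h ((a - b) / 2) (by linarith)
    have h1 : K = 0 := by
      ext ρ
      refine hK2 ρ fun hρ => ?_
      have h2 := hρ.1
      have h3 := hρ.2
      linarith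
    rw [h1, map_zero, ContinuousLinearMap.zero_apply] at hK3
    rw [← hK3, map_zero]

/-- smoothed elements -/
theorem supp_sm (h : St A ξ J Ψ R D) {k : ℝ → ℂ} {K : ℝ →ᵇ ℂ} (hk : Ker k K) {a b : ℝ}
    (hK : ∀ ρ, ρ ∉ Set.Icc a b → K ρ = 0) (x : H →L[ℂ] H) :
    Supp Ψ (Pool.Agent.Helper70.U8.sm h.mod hk.int x ξ) a b := by
  intro G hG
  rw [Pool.Agent.Helper70.U8.sm_xi h.mod hk.int hk.four x,
    ← Pool.Agent.Helper43.TTF.psi_mul_apply]
  have h1 : G * K = 0 := by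
    ext ρ
    rw [BoundedContinuousFunction.mul_apply]
    by_cases hρ : ρ ∈ Set.Icc a b
    · rw [hG ρ hρ, zero_mul]
      rfl
    · rw [hK ρ hρ, mul_zero]
      rfl
  rw [h1, map_zero, ContinuousLinearMap.zero_apply]

namespace SuppAAux

/-- the ramp `0` up to `x`, `1` from `x + η / 2` on -/
noncomputable def ra (η x ρ : ℝ) : ℝ := min 1 (max 0 (2 / η * (ρ - x)))

theorem ra_cont (η x : ℝ) : Continuous (ra η x) := by
  unfold ra
  fun_prop

theorem ra_nonneg (η x ρ : ℝ) : 0 ≤ ra η x ρ := le_min zero_le_one (le_max_left _ _)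

theorem ra_le (η x ρ : ℝ) : ra η x ρ ≤ 1 := min_le_left _ _

theorem ra_zero {η x ρ : ℝ} (hη : 0 < η) (h : ρ ≤ x) : ra η x ρ = 0 := by
  unfold ra
  have h1 : 2 / η * (ρ - x) ≤ 0 :=
    mul_nonpos_of_nonneg_of_nonpos (by positivity) (by linarith)
  rw [max_eq_left h1]
  exact min_eq_right zero_le_one

theorem ra_one {η x ρ : ℝ} (hη : 0 < η) (h : x + η / 2 ≤ ρ) : ra η x ρ = 1 := by
  unfold ra
  have h1 : 1 ≤ 2 / η * (ρ - x) := by
    rw [div_mul_eq_mul_div, le_div_iff₀ hη]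
    linarith
  exact min_eq_left (h1.trans (le_max_right _ _))

noncomputable def Ra (η x : ℝ) : ℝ →ᵇ ℂ :=
  BoundedContinuousFunction.ofNormedAddCommGroup (fun ρ : ℝ => ((ra η x ρ : ℝ) : ℂ))
    (Complex.continuous_ofReal.comp (ra_cont η x)) 1 (fun ρ => by
      rw [Complex.norm_real, Real.norm_of_nonneg (ra_nonneg η x ρ)]
      exact ra_le η x ρ)

theorem Ra_apply (η x ρ : ℝ) : Ra η x ρ = ((ra η x ρ : ℝ) : ℂ) := rfl

theorem norm_Ra_le (η x : ℝ) : ‖Ra η x‖ ≤ 1 :=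
  BoundedContinuousFunction.norm_ofNormedAddCommGroup_le _ zero_le_one _

/-- ramps moving to the right tend to `0` -/
theorem Ra_right {η : ℝ} (hη : 0 < η) (x L : ℝ) :
    TendstoUniformlyOn (fun (n : ℕ) ρ => Ra η (x + n * (η / 2)) ρ)
      (fun ρ => (0 : ℝ →ᵇ ℂ) ρ) atTop (Set.Icc (-L) L) := by
  rw [Metric.tendstoUniformlyOn_iff]
  intro ε hε
  obtain ⟨N, hN⟩ := exists_nat_ge ((L - x) / (η / 2))
  filter_upwards [eventually_ge_atTop N] with n hn ρ hρ
  have h1 : (N : ℝ) ≤ n := by exact_mod_cast hn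
  have h2 : (L - x) / (η / 2) ≤ n := hN.trans h1
  rw [div_le_iff₀ (by positivity)] at h2
  rw [Ra_apply, ra_zero hη (by linarith [hρ.2])]
  simpa using hε

/-- ramps moving to the left tend to `1` -/
theorem Ra_left {η : ℝ} (hη : 0 < η) (L : ℝ) :
    TendstoUniformlyOn (fun (n : ℕ) ρ => Ra η (-(n : ℝ)) ρ)
      (fun ρ => (1 : ℝ →ᵇ ℂ) ρ) atTop (Set.Icc (-L) L) := by
  rw [Metric.tendstoUniformlyOn_iff]
  intro ε hε
  obtain ⟨N, hN⟩ := exists_nat_ge (L + η / 2)
  filter_upwards [eventually_ge_atTop N] with n hn ρ hρ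
  have h1 : (N : ℝ) ≤ n := by exact_mod_cast hn
  rw [Ra_apply, ra_one hη (by linarith [hρ.1])]
  simpa using hε

end SuppAAux

open SuppAAux in
/-- a nonzero vector has a nonzero piece with small support -/
theorem exists_piece (h : St A ξ J Ψ R D) {v : H} (hv : v ≠ 0) {η : ℝ} (hη : 0 < η) :
    ∃ (s : ℝ) (k : ℝ → ℂ) (K : ℝ →ᵇ ℂ), Ker k K ∧
      (∀ ρ, ρ ∉ Set.Icc (s - η) (s + η) → K ρ = 0) ∧ Ψ K v ≠ 0 := by
  by_contra hcon
  push Not at hcon
  have h1 : ∀ x : ℝ, Ψ (Ra η x) v = Ψ (Ra η (x + η / 2)) v := by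
    intro x
    obtain ⟨k, K, hk, -, hK1, hK0⟩ := exists_bump x (x + η) (η / 2) (by linarith) (by linarith)
    have h2 : Ψ K v = 0 := by
      refine hcon (x + η / 2) k K hk fun ρ hρ => hK0 ρ fun hh => hρ ?_
      exact ⟨by linarith [hh.1], by linarith [hh.2]⟩
    have h3 : Ra η x - Ra η (x + η / 2) = (Ra η x - Ra η (x + η / 2)) * K := by
      ext ρ
      rw [BoundedContinuousFunction.mul_apply, BoundedContinuousFunction.sub_apply, Ra_apply,
        Ra_apply]
      rcases lt_or_ge ρ x with h4 | h4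
      · rw [ra_zero hη h4.le, ra_zero hη (by linarith)]
        simp
      · rcases le_or_gt ρ (x + η) with h5 | h5
        · rw [hK1 ρ ⟨h4, h5⟩, mul_one]
        · rw [ra_one hη (by linarith), ra_one hη (by linarith)]
          simp
    rw [← sub_eq_zero, ← ContinuousLinearMap.sub_apply, ← map_sub, h3,
      Pool.Agent.Helper43.TTF.psi_mul_apply, h2, map_zero]
  have h2 : ∀ (x : ℝ) (n : ℕ), Ψ (Ra η (x + n * (η / 2))) v = Ψ (Ra η x) v := by
    intro x n
    induction n with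
    | zero => rw [Nat.cast_zero, zero_mul, add_zero]
    | succ n ih =>
      rw [← ih, h1 (x + n * (η / 2))]
      congr 3
      push_cast
      ring
  have h3 : ∀ x : ℝ, Ψ (Ra η x) v = 0 := by
    intro x
    have h4 := h.psi_cont (fun n : ℕ => Ra η (x + n * (η / 2))) 0 1 (fun n => norm_Ra_le _ _)
      (Ra_right hη x) v
    simp only [h2] at h4
    rw [map_zero, ContinuousLinearMap.zero_apply] at h4
    exact tendsto_nhds_unique tendsto_const_nhds h4
  have h5 := h.psi_cont (fun n : ℕ => Ra η (-(n : ℝ))) 1 1 (fun n => norm_Ra_le _ _)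
    (Ra_left hη) v
  simp only [h3] at h5
  rw [map_one, ContinuousLinearMap.one_apply] at h5
  exact hv (tendsto_nhds_unique h5 tendsto_const_nhds)

/-- a bump at a point of the support -/
theorem exists_piece_at (h : St A ξ J Ψ R D) {s η : ℝ} (hη : 0 < η) :
    ∃ (k : ℝ → ℂ) (K : ℝ →ᵇ ℂ), Ker k K ∧
      (∀ ρ, ρ ∉ Set.Icc (s - η) (s + η) → K ρ = 0) ∧ K s = 1 := by
  obtain ⟨k, K, h1, -, h3, h4⟩ := exists_bump s s η le_rfl hη
  exact ⟨k, K, h1, fun ρ hρ => h4 ρ fun hh => hρ ⟨hh.1.le, hh.2.le⟩,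
    h3 s ⟨le_rfl, le_rfl⟩⟩

namespace SuppAAux

/-- the clamp -/
noncomputable def cl (η ρ : ℝ) : ℝ := max (-η) (min η ρ)

theorem cl_bound {η : ℝ} (hη : 0 < η) (ρ : ℝ) :
    ‖((1 - Real.exp (cl η ρ / 2) : ℝ) : ℂ)‖ ≤ Real.exp (η / 2) - 1 := by
  have h1 : -η ≤ cl η ρ := le_max_left _ _
  have h2 : cl η ρ ≤ η := max_le (by linarith) (min_le_left _ _)
  have h3 : Real.exp (cl η ρ / 2) ≤ Real.exp (η / 2) := Real.exp_le_exp.2 (by linarith)
  have h4 : Real.exp (-(η / 2)) ≤ Real.exp (cl η ρ / 2) := Real.exp_le_exp.2 (by linarith)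
  have h5 : 2 ≤ Real.exp (η / 2) + Real.exp (-(η / 2)) := by
    have h6 := Real.exp_pos (η / 2)
    have h7 : Real.exp (η / 2) * Real.exp (-(η / 2)) = 1 := by
      rw [← Real.exp_add, add_neg_cancel, Real.exp_zero]
    have h8 := Real.exp_pos (-(η / 2))
    nlinarith [sq_nonneg (Real.exp (η / 2) - Real.exp (-(η / 2)))]
  rw [Complex.norm_real, Real.norm_eq_abs, abs_le]
  constructor <;> linarith

noncomputable def Cl (η : ℝ) (hη : 0 < η) : ℝ →ᵇ ℂ :=
  BoundedContinuousFunction.ofNormedAddCommGroup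
    (fun ρ : ℝ => ((1 - Real.exp (cl η ρ / 2) : ℝ) : ℂ))
    (Complex.continuous_ofReal.comp (by unfold cl; fun_prop)) (Real.exp (η / 2) - 1)
    (cl_bound hη)

theorem Cl_apply {η : ℝ} (hη : 0 < η) (ρ : ℝ) :
    Cl η hη ρ = ((1 - Real.exp (cl η ρ / 2) : ℝ) : ℂ) := rfl

theorem norm_Cl_le {η : ℝ} (hη : 0 < η) : ‖Cl η hη‖ ≤ Real.exp (η / 2) - 1 :=
  BoundedContinuousFunction.norm_ofNormedAddCommGroup_le _
    (sub_nonneg.2 (Real.one_le_exp (by linarith))) _

end SuppAAux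

open SuppAAux Pool.Agent.Helper78.BC.FixAux in
/-- elements with support near `0` almost commute with `ξ` -/
theorem supp_comm (h : St A ξ J Ψ R D) {x : H →L[ℂ] H} (hx : x ∈ A) {η : ℝ} (hη : 0 < η)
    (hs : Supp Ψ (x ξ) (-η) η) : ‖x ξ - rm J x ξ‖ ≤ (Real.exp (η / 2) - 1) * ‖x ξ‖ := by
  have hr : rm J x ξ = J ((star x) ξ) := by
    unfold rm
    rw [h.J_xi]
  have h1 : ∀ n : ℕ, ‖Ψ (Pl n) (x ξ - rm J x ξ)‖ ≤ (Real.exp (η / 2) - 1) * ‖x ξ‖ := by
    intro n
    have h2 : Ψ (Pl n) (x ξ - rm J x ξ) = Ψ (Cl η hη * Pl n) (x ξ) := by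
      rw [hr, map_sub, h.psi_half (Pl n) (Pe n) (fun ρ => rfl) x hx,
        ← ContinuousLinearMap.sub_apply, ← map_sub, ← sub_eq_zero,
        ← ContinuousLinearMap.sub_apply, ← map_sub]
      refine hs _ fun ρ hρ => ?_
      have h3 : cl η ρ = ρ := by
        unfold cl
        rw [min_eq_right hρ.2, max_eq_right hρ.1]
      rw [BoundedContinuousFunction.sub_apply, BoundedContinuousFunction.sub_apply,
        BoundedContinuousFunction.mul_apply, Cl_apply, Pl_apply, Pe_apply, h3]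
      push_cast
      ring
    rw [h2]
    refine ((Ψ _).le_opNorm _).trans ?_
    gcongr
    refine (psi_norm_le Ψ _).trans ((norm_mul_le _ _).trans ?_)
    calc ‖Cl η hη‖ * ‖Pl n‖ ≤ (Real.exp (η / 2) - 1) * 1 :=
          mul_le_mul (norm_Cl_le hη) (norm_Pl_le n) (norm_nonneg _)
            (sub_nonneg.2 (Real.one_le_exp (by linarith)))
      _ = _ := mul_one _
  have h2 := h.psi_cont (fun n => Pl n) 1 1 norm_Pl_le Pl_tendsto (x ξ - rm J x ξ)
  rw [map_one, ContinuousLinearMap.one_apply] at h2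
  exact le_of_tendsto' h2.norm h1

end Pool.Agent.Helper88.CS
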