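import Pool.Agent.Helper88.CS.Triple
import Pool.Agent.Helper88.CS.SuppA

/-!
# Project CS, module SuppB: supports add
-/

open scoped InnerProductSpace Topology BoundedContinuousFunction
open ContinuousLinearMap Filter MeasureTheory

namespace Pool.Agent.Helper88.CS

open Pool.Agent.Helper23
open Pool.Agent.Helper78.BC (Std rm Fixed)

variable {H : Type*} [NormedAddCommGroup H] [InnerProductSpace ℂ H] [CompleteSpace H]

variable {A : VonNeumannAlgebra H} {ξ : H} {J : H →L[ℝ] H}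
  {Ψ : (ℝ →ᵇ ℂ) →⋆ₐ[ℂ] (H →L[ℂ] H)} {R : H →L[ℂ] H} {D : H →L[ℝ] H}

namespace SuppBAux

open Pool.Agent.Helper70.U8 (sm U V)

omit [CompleteSpace H] in
theorem cont_apply' {X : Type*} [TopologicalSpace X] {T : X → H →L[ℂ] H}
    (hT : ∀ t v, ‖T t v‖ ≤ ‖v‖) (hc : ∀ v, Continuous fun t => T t v) {f : X → H}
    (hf : Continuous f) : Continuous fun t => T t (f t) := by
  rw [continuous_iff_continuousAt]
  intro t₀
  rw [ContinuousAt, tendsto_iff_norm_sub_tendsto_zero]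
  have h1 : Tendsto (fun t => ‖f t - f t₀‖ + ‖T t (f t₀) - T t₀ (f t₀)‖) (𝓝 t₀) (𝓝 0) := by
    have e1 := tendsto_iff_norm_sub_tendsto_zero.1 (hf.tendsto t₀)
    have e2 := tendsto_iff_norm_sub_tendsto_zero.1 ((hc (f t₀)).tendsto t₀)
    simpa using e1.add e2
  refine squeeze_zero (fun _ => norm_nonneg _) (fun t => ?_) h1
  have h2 : T t (f t) - T t₀ (f t₀) = T t (f t - f t₀) + (T t (f t₀) - T t₀ (f t₀)) := by
    rw [map_sub]; abel
  rw [h2]
  refine (norm_add_le _ _).trans ?_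
  gcongr
  exact hT _ _

theorem U_add (Ψ : (ℝ →ᵇ ℂ) →⋆ₐ[ℂ] (H →L[ℂ] H)) (t r : ℝ) (v : H) :
    U Ψ (t + r) v = U Ψ r (U Ψ t v) := by
  unfold U
  rw [← Pool.Agent.Helper43.TTF.psi_mul_apply, expB_mul]
  congr 3
  ring

theorem V_U (Ψ : (ℝ →ᵇ ℂ) →⋆ₐ[ℂ] (H →L[ℂ] H)) (t s r : ℝ) (v : H) :
    V Ψ (t + r) (U Ψ (s + r) v) = V Ψ t (U Ψ s v) := by
  unfold U V
  rw [← Pool.Agent.Helper43.TTF.psi_mul_apply, expB_mul,
    ← Pool.Agent.Helper43.TTF.psi_mul_apply, expB_mul]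
  congr 3
  ring

/-- zero function of the support condition -/
theorem ker_zero {k : ℝ → ℂ} {K : ℝ →ᵇ ℂ} (hk : Ker k K) {a b : ℝ} (hab : b < a)
    (hK : ∀ ρ, ρ ∉ Set.Icc a b → K ρ = 0) (t : ℝ) : k t = 0 := by
  rw [hk.inv t]
  have h1 : ∀ ρ, K ρ = 0 := fun ρ => hK ρ fun h => by
    have := h.1.trans h.2
    exact absurd hab (not_lt.2 this)
  simp only [h1, zero_mul, integral_zero]

theorem sm_zero (h : Modular A ξ R D Ψ) {k : ℝ → ℂ} (hk : Integrable k) (hz : ∀ t, k t = 0)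
    (x : H →L[ℂ] H) (w : H) : sm h hk x w = 0 := by
  rw [Pool.Agent.Helper70.U8.sm_apply]
  simp only [hz, zero_smul, integral_zero]

/-- the inner product formula -/
theorem formula (h : Modular A ξ R D Ψ) {k l : ℝ → ℂ} (hk : Integrable k) (hl : Integrable l)
    (x y : H →L[ℂ] H) (v : H) (r : ℝ) :
    ⟪v, U Ψ r ((sm h hk x * sm h hl y) ξ)⟫_ℂ = ∫ t, k t * ∫ s, l s *
      ⟪v, U Ψ (t + r) (x (V Ψ (t + r) (U Ψ (s + r) (y ξ))))⟫_ℂ := by
  have e1 : ⟪v, U Ψ r ((sm h hk x * sm h hl y) ξ)⟫_ℂ =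
      ⟪star (U Ψ r) v, sm h hk x (sm h hl y ξ)⟫_ℂ := by
    rw [ContinuousLinearMap.star_eq_adjoint, ContinuousLinearMap.adjoint_inner_left,
      mul_apply_eq_comp]
  rw [e1, Pool.Agent.Helper70.U8.inner_sm]
  congr 1
  funext t
  congr 1
  have e2 : ∀ w : H, ⟪star (U Ψ r) v, U Ψ t (x (V Ψ t w))⟫_ℂ =
      ⟪star (V Ψ t) (star x (star (U Ψ t) (star (U Ψ r) v))), w⟫_ℂ := by
    intro w
    simp only [ContinuousLinearMap.star_eq_adjoint, ContinuousLinearMap.adjoint_inner_left]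
  rw [e2, Pool.Agent.Helper70.U8.inner_sm]
  congr 1
  funext s
  congr 1
  rw [← e2, Pool.Agent.Helper70.U8.V_xi h, ContinuousLinearMap.star_eq_adjoint,
    ContinuousLinearMap.adjoint_inner_left, V_U, U_add]

end SuppBAux

open Pool.Agent.Helper70.U8 (sm U V) in
theorem supp_mul (h : St A ξ J Ψ R D) {k l : ℝ → ℂ} {K L : ℝ →ᵇ ℂ} (hk : Ker k K) (hl : Ker l L)
    {a b c d : ℝ} (hK : ∀ ρ, ρ ∉ Set.Icc a b → K ρ = 0) (hL : ∀ ρ, ρ ∉ Set.Icc c d → L ρ = 0)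
    (x y : H →L[ℂ] H) :
    Supp Ψ ((sm h.mod hk.int x * sm h.mod hl.int y) ξ) (a + c) (b + d) := by
  rcases lt_or_ge b a with hab | hab
  · intro G _
    rw [mul_apply_eq_comp, SuppBAux.sm_zero h.mod hk.int (SuppBAux.ker_zero hk hab hK), map_zero]
  rcases lt_or_ge d c with hcd | hcd
  · intro G _
    rw [mul_apply_eq_comp, SuppBAux.sm_zero h.mod hl.int (SuppBAux.ker_zero hl hcd hL), map_zero,
      map_zero]
  refine supp_of_bump fun δ hδ => ?_
  obtain ⟨η, H', hη, hη1, hη2, hη3⟩ := exists_bump (a + c) (b + d) δ (add_le_add hab hcd) hδ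
  refine ⟨H', hη1, hη3, ?_⟩
  refine ext_inner_left ℂ fun v => ?_
  have hs : ∀ α β, K α ≠ 0 → L β ≠ 0 → H' (α + β) = 1 := by
    intro α β hα hβ
    have h1 : α ∈ Set.Icc a b := by
      by_contra hh
      exact hα (hK α hh)
    have h2 : β ∈ Set.Icc c d := by
      by_contra hh
      exact hβ (hL β hh)
    exact hη2 _ ⟨add_le_add h1.1 h2.1, add_le_add h1.2 h2.2⟩
  set Φ : ℝ → ℝ → ℂ := fun t s => ⟪v, U Ψ t (x (V Ψ t (U Ψ s (y ξ))))⟫_ℂ with hΦ
  have hcont : Continuous fun p : ℝ × ℝ => Φ p.1 p.2 := by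
    refine continuous_const.inner ?_
    refine SuppBAux.cont_apply' (T := fun p : ℝ × ℝ => U Ψ p.1)
      (fun p v => (Pool.Agent.Helper70.U8.U_norm p.1 v).le)
      (fun v => (Pool.Agent.Helper70.U8.U_cont h.mod v).comp continuous_fst) ?_
    refine x.continuous.comp ?_
    refine SuppBAux.cont_apply' (T := fun p : ℝ × ℝ => V Ψ p.1)
      (fun p v => (Pool.Agent.Helper70.U8.V_norm p.1 v).le)
      (fun v => (Pool.Agent.Helper70.U8.V_cont h.mod v).comp continuous_fst) ?_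
    exact (Pool.Agent.Helper70.U8.U_cont h.mod (y ξ)).comp continuous_snd
  have hbd : ∀ t s, ‖Φ t s‖ ≤ ‖v‖ * (‖x‖ * ‖y ξ‖) := by
    intro t s
    refine (norm_inner_le_norm _ _).trans ?_
    gcongr
    rw [Pool.Agent.Helper70.U8.U_norm]
    refine (x.le_opNorm _).trans ?_
    rw [Pool.Agent.Helper70.U8.V_norm, Pool.Agent.Helper70.U8.U_norm]
  have h1 := triple hη hk hl hs hcont hbd
  have h2 : ⟪v, Ψ H' ((sm h.mod hk.int x * sm h.mod hl.int y) ξ)⟫_ℂ =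
      ∫ r, η r * ∫ t, k t * ∫ s, l s * Φ (t + r) (s + r) := by
    rw [← h.mod.integral_psi hη.int hη.four]
    congr 1
    funext r
    congr 1
    exact SuppBAux.formula h.mod hk.int hl.int x y v r
  have h3 : ⟪v, (sm h.mod hk.int x * sm h.mod hl.int y) ξ⟫_ℂ =
      ∫ t, k t * ∫ s, l s * Φ t s := by
    have h4 := SuppBAux.formula h.mod hk.int hl.int x y v 0
    simp only [add_zero] at h4
    rw [← h4]
    unfold U
    rw [mul_zero, expB_zero, map_one, one_apply_eq_self]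
  rw [h2, h3]
  exact h1

end Pool.Agent.Helper88.CS
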