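import Pool.Agent.Helper88.CS.Polar

/-!
# Project CS, module Trick1: Connes' trick
-/

open scoped InnerProductSpace Topology BoundedContinuousFunction CompactlySupported
open ContinuousLinearMap Filter MeasureTheory

namespace Pool.Agent.Helper88.CS

open Pool.Agent.Helper23
open Pool.Agent.Helper78.BC (Std rm Fixed)

variable {H : Type*} [NormedAddCommGroup H] [InnerProductSpace ℂ H] [CompleteSpace H]

variable {A : VonNeumannAlgebra H} {J : H →L[ℝ] H} {κ : H}

namespace Trick1Aux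

/-! ### the spectral measure of a normal operator -/

lemma inner_star_mul (T : H →L[ℂ] H) (v : H) :
    inner ℂ v ((star T * T) v) = ((‖T v‖ ^ 2 : ℝ) : ℂ) := by
  rw [mul_apply_eq_comp, ContinuousLinearMap.star_eq_adjoint,
    ContinuousLinearMap.adjoint_inner_right, inner_self_eq_norm_sq_to_K]
  norm_cast

/-- a real function as a complex function -/
noncomputable def emb {K : Type*} [TopologicalSpace K] (f : C(K, ℝ)) : C(K, ℂ) :=
  ⟨fun x => ((f x : ℝ) : ℂ), by fun_prop⟩

lemma emb_add {K : Type*} [TopologicalSpace K] (f g : C(K, ℝ)) :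
    emb (f + g) = emb f + emb g := by ext x; simp [emb]

lemma emb_mul {K : Type*} [TopologicalSpace K] (f g : C(K, ℝ)) :
    emb (f * g) = emb f * emb g := by ext x; simp [emb]

lemma emb_smul {K : Type*} [TopologicalSpace K] (c : ℝ) (f : C(K, ℝ)) :
    emb (c • f) = (c : ℂ) • emb f := by ext x; simp [emb]

lemma star_emb {K : Type*} [TopologicalSpace K] (f : C(K, ℝ)) : star (emb f) = emb f := by
  ext x; simp [emb]

lemma inner_cfcHom_mul (T : H →L[ℂ] H) (hT : IsStarNormal T) (v : H)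
    (h : C(spectrum ℂ T, ℝ)) :
    (inner ℂ v ((cfcHom (R := ℂ) (a := T) hT (emb (h * h))) v)).re =
      ‖cfcHom (R := ℂ) (a := T) hT (emb h) v‖ ^ 2 := by
  have : cfcHom (R := ℂ) (a := T) hT (emb (h * h)) =
      star (cfcHom (R := ℂ) (a := T) hT (emb h)) * (cfcHom (R := ℂ) (a := T) hT (emb h)) := by
    rw [← map_star, star_emb, emb_mul, map_mul]
  rw [this, inner_star_mul, Complex.ofReal_re]

/-- The positive functional `f ↦ ⟨v, f(T) v⟩`. -/
noncomputable def Lam (T : H →L[ℂ] H) (hT : IsStarNormal T) (v : H) :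
    C_c(spectrum ℂ T, ℝ) →ₚ[ℝ] ℝ where
  toFun f := (inner ℂ v ((cfcHom (R := ℂ) (a := T) hT) (emb f.toContinuousMap) v)).re
  map_add' f g := by
    have : (f + g).toContinuousMap = f.toContinuousMap + g.toContinuousMap := rfl
    rw [this, emb_add, map_add]
    simp
  map_smul' c f := by
    have : (c • f).toContinuousMap = c • f.toContinuousMap := rfl
    rw [this, emb_smul, map_smul]
    simp
  monotone' f g hfg := by
    have h1 : ∃ h : C(spectrum ℂ T, ℝ), g.toContinuousMap = f.toContinuousMap + h * h := by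
      refine ⟨⟨fun x => Real.sqrt (g x - f x), by fun_prop⟩, ?_⟩
      ext x
      have : f x ≤ g x := hfg x
      simp only [ContinuousMap.add_apply, ContinuousMap.mul_apply, ContinuousMap.coe_mk]
      rw [Real.mul_self_sqrt (by linarith)]
      change g x = f x + _
      ring
    obtain ⟨h, hh⟩ := h1
    have h2 : (inner ℂ v ((cfcHom (R := ℂ) (a := T) hT) (emb g.toContinuousMap) v)).re =
      (inner ℂ v ((cfcHom (R := ℂ) (a := T) hT) (emb f.toContinuousMap) v)).re +
      ‖cfcHom (R := ℂ) (a := T) hT (emb h) v‖ ^ 2 := by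
      rw [← inner_cfcHom_mul, hh, emb_add, map_add]
      simp
    change (inner ℂ v ((cfcHom (R := ℂ) (a := T) hT) (emb f.toContinuousMap) v)).re ≤
      (inner ℂ v ((cfcHom (R := ℂ) (a := T) hT) (emb g.toContinuousMap) v)).re
    rw [h2]
    have := sq_nonneg ‖cfcHom (R := ℂ) (a := T) hT (emb h) v‖
    linarith

instance compX (T : H →L[ℂ] H) : CompactSpace (spectrum ℂ T) :=
  isCompact_iff_compactSpace.mp (spectrum.isCompact T)

/-- The spectral measure on the complex plane. -/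
noncomputable def mu (T : H →L[ℂ] H) (hT : IsStarNormal T) (v : H) : Measure ℂ :=
  (RealRMK.rieszMeasure (Lam T hT v)).map Subtype.val

instance (T : H →L[ℂ] H) (hT : IsStarNormal T) (v : H) : IsFiniteMeasure (mu T hT v) := by
  unfold mu; infer_instance

/-- restriction of a continuous function to the spectrum -/
def res (T : H →L[ℂ] H) (F : ℂ → ℝ) (hF : Continuous F) : C(spectrum ℂ T, ℝ) :=
  ⟨fun x => F x.1, by fun_prop⟩

lemma integral_mu (T : H →L[ℂ] H) (hT : IsStarNormal T) (v : H) (F : ℂ → ℝ)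
    (hF : Continuous F) :
    ∫ x, F x ∂(mu T hT v) = (inner ℂ v (cfcHom (R := ℂ) (a := T) hT (emb (res T F hF)) v)).re := by
  unfold mu
  rw [integral_map (by fun_prop) hF.aestronglyMeasurable]
  exact RealRMK.integral_rieszMeasure (Lam T hT v)
    ⟨res T F hF, HasCompactSupport.of_compactSpace _⟩

lemma integrable_mu (T : H →L[ℂ] H) (hT : IsStarNormal T) (v : H) (F : ℂ → ℝ)
    (hF : Continuous F) : Integrable F (mu T hT v) := by
  unfold mu
  rw [integrable_map_measure hF.aestronglyMeasurable (by fun_prop)]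
  have hc : Continuous (F ∘ (Subtype.val : spectrum ℂ T → ℂ)) := by fun_prop
  exact hc.integrable_of_hasCompactSupport (HasCompactSupport.of_compactSpace _)

lemma integral_mu_sq (T : H →L[ℂ] H) (hT : IsStarNormal T) (v : H) (F : ℂ → ℝ)
    (hF : Continuous F) :
    ∫ x, F x ^ 2 ∂(mu T hT v) = ‖cfc (fun z => ((F z : ℝ) : ℂ)) T v‖ ^ 2 := by
  rw [integral_mu T hT v (fun x => F x ^ 2) (by fun_prop)]
  have h1 : res T (fun x => F x ^ 2) (by fun_prop) = res T F hF * res T F hF := by
    ext x; simp [res, sq]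
  rw [h1, inner_cfcHom_mul, cfc_apply (fun z => ((F z : ℝ) : ℂ)) T hT (by fun_prop)]
  rfl

/-! ### two commuting self-adjoint operators -/

section two

variable {X Y : H →L[ℂ] H} (hX : star X = X) (hY : star Y = Y) (hXY : X * Y = Y * X)

include hX hY hXY

lemma normal : IsStarNormal (X + Complex.I • Y) := by
  refine ⟨?_⟩
  have h1 : star (X + Complex.I • Y) = X - Complex.I • Y := by
    rw [star_add, star_smul, hX, hY]
    simp [sub_eq_add_neg]
  rw [h1, commute_iff_eq]
  simp only [sub_mul, mul_add, mul_sub, add_mul, smul_mul_assoc, mul_smul_comm, hXY, smul_add,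
    smul_sub]
  abel

lemma X_eq : cfc (fun z : ℂ => ((z.re : ℝ) : ℂ)) (X + Complex.I • Y) = X := by
  have hN := normal hX hY hXY
  have h1 : star (X + Complex.I • Y) = X - Complex.I • Y := by
    rw [star_add, star_smul, hX, hY]
    simp [sub_eq_add_neg]
  have h2 : (fun z : ℂ => ((z.re : ℝ) : ℂ)) = fun z : ℂ => (1 / 2 : ℂ) * (z + star z) := by
    funext z
    rw [Complex.re_eq_add_conj]
    simp only [Complex.star_def]
    ring
  have hN' : IsStarNormal (X + Complex.I • Y) := hN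
  rw [h2, cfc_const_mul (1 / 2 : ℂ) (fun z : ℂ => z + star z) (X + Complex.I • Y) (by fun_prop),
    cfc_add (a := X + Complex.I • Y) (fun z : ℂ => z) (fun z : ℂ => star z) (by fun_prop)
      (by fun_prop), cfc_id' ℂ (X + Complex.I • Y),
    cfc_star_id (R := ℂ) (a := X + Complex.I • Y) (ha := hN), h1]
  rw [show X + Complex.I • Y + (X - Complex.I • Y) = (2 : ℂ) • X by rw [two_smul]; abel, smul_smul]
  norm_num

lemma Y_eq : cfc (fun z : ℂ => ((z.im : ℝ) : ℂ)) (X + Complex.I • Y) = Y := by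
  have hN := normal hX hY hXY
  have h1 : star (X + Complex.I • Y) = X - Complex.I • Y := by
    rw [star_add, star_smul, hX, hY]
    simp [sub_eq_add_neg]
  have h2 : (fun z : ℂ => ((z.im : ℝ) : ℂ)) = fun z : ℂ => (-Complex.I / 2 : ℂ) * (z - star z) := by
    funext z
    rw [Complex.im_eq_sub_conj]
    simp only [Complex.star_def]
    field_simp
    ring_nf
    rw [Complex.I_sq]
    ring
  rw [h2, cfc_const_mul (-Complex.I / 2 : ℂ) (fun z : ℂ => z - star z) (X + Complex.I • Y)
      (by fun_prop),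
    cfc_sub (a := X + Complex.I • Y) (fun z : ℂ => z) (fun z : ℂ => star z) (by fun_prop)
      (by fun_prop), cfc_id' ℂ (X + Complex.I • Y),
    cfc_star_id (R := ℂ) (a := X + Complex.I • Y) (ha := hN), h1]
  rw [show X + Complex.I • Y - (X - Complex.I • Y) = (2 : ℂ) • Complex.I • Y by
    rw [two_smul]; abel, smul_smul, smul_smul]
  rw [show (-Complex.I / 2 * 2 * Complex.I : ℂ) = 1 by
    rw [show (-Complex.I / 2 * 2 * Complex.I : ℂ) = -(Complex.I * Complex.I) by ring,
      Complex.I_mul_I]; ring, one_smul]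

lemma cfc_X {g : ℝ → ℝ} (hg : Continuous g) :
    cfc (fun z : ℂ => ((g z.re : ℝ) : ℂ)) (X + Complex.I • Y) = cfc g X := by
  have hN := normal hX hY hXY
  have hsX : IsSelfAdjoint X := hX
  rw [cfc_real_eq_complex g hsX]
  conv_rhs => rw [← X_eq hX hY hXY]
  rw [← cfc_comp' (fun x : ℂ => ((g x.re : ℝ) : ℂ)) (fun z : ℂ => ((z.re : ℝ) : ℂ)) _
    (by fun_prop) (by fun_prop)]
  simp

lemma cfc_Y {g : ℝ → ℝ} (hg : Continuous g) :
    cfc (fun z : ℂ => ((g z.im : ℝ) : ℂ)) (X + Complex.I • Y) = cfc g Y := by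
  have hN := normal hX hY hXY
  have hsY : IsSelfAdjoint Y := hY
  rw [cfc_real_eq_complex g hsY]
  conv_rhs => rw [← Y_eq hX hY hXY]
  rw [← cfc_comp' (fun x : ℂ => ((g x.re : ℝ) : ℂ)) (fun z : ℂ => ((z.im : ℝ) : ℂ)) _
    (by fun_prop) (by fun_prop)]
  simp

/-- the joint spectral measure -/
lemma exists_joint (v : H) : ∃ μ : Measure ℂ, IsFiniteMeasure μ ∧
    (∀ F : ℂ → ℝ, Continuous F → Integrable F μ) ∧
    (∀ g : ℝ → ℝ, Continuous g → ∫ z, g z.re ^ 2 ∂μ = ‖cfc g X v‖ ^ 2) ∧
    (∀ g : ℝ → ℝ, Continuous g → ∫ z, g z.im ^ 2 ∂μ = ‖cfc g Y v‖ ^ 2) ∧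
    (∀ g : ℝ → ℝ, Continuous g →
      ∫ z, (g z.re - g z.im) ^ 2 ∂μ = ‖cfc g X v - cfc g Y v‖ ^ 2) := by
  have hN := normal hX hY hXY
  refine ⟨mu _ hN v, inferInstance, fun F hF => integrable_mu _ hN v F hF, ?_, ?_, ?_⟩
  · intro g hg
    rw [integral_mu_sq _ hN v (fun z => g z.re) (by fun_prop), cfc_X hX hY hXY hg]
  · intro g hg
    rw [integral_mu_sq _ hN v (fun z => g z.im) (by fun_prop), cfc_Y hX hY hXY hg]
  · intro g hg
    rw [integral_mu_sq _ hN v (fun z => g z.re - g z.im) (by fun_prop)]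
    have h1 : (fun z : ℂ => ((g z.re - g z.im : ℝ) : ℂ)) =
        fun z : ℂ => ((g z.re : ℝ) : ℂ) - ((g z.im : ℝ) : ℂ) := by
      funext z; push_cast; ring
    rw [h1, cfc_sub _ _ _ (by fun_prop) (by fun_prop), cfc_X hX hY hXY hg, cfc_Y hX hY hXY hg]
    rfl

end two

/-! ### the conjugation `a ↦ J a J` -/

lemma J_left (hJ : Conj A J) (v w : H) : ⟪J v, w⟫_ℂ = ⟪J w, v⟫_ℂ := by
  have h := hJ.J_inner v (J w)
  rw [hJ.J_J] at h
  exact h

/-- `v ↦ J (a (J v))` -/
noncomputable def cj (hJ : Conj A J) (a : H →L[ℂ] H) : H →L[ℂ] H :=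
  LinearMap.mkContinuous
    { toFun := fun v => J (a (J v))
      map_add' := by intro v w; simp
      map_smul' := by
        intro c v
        rw [hJ.J_conj, map_smul, hJ.J_conj]
        simp }
    ‖a‖ (by
      intro v
      change ‖J (a (J v))‖ ≤ _
      rw [hJ.J_norm]
      exact (a.le_opNorm _).trans (by rw [hJ.J_norm]))

lemma cj_apply (hJ : Conj A J) (a : H →L[ℂ] H) (v : H) : cj hJ a v = J (a (J v)) := rfl

lemma norm_cj_le (hJ : Conj A J) (a : H →L[ℂ] H) : ‖cj hJ a‖ ≤ ‖a‖ :=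
  LinearMap.mkContinuous_norm_le _ (norm_nonneg _) _

/-- the conjugation as a real star homomorphism -/
noncomputable def cjH (hJ : Conj A J) : (H →L[ℂ] H) →⋆ₐ[ℝ] (H →L[ℂ] H) where
  toFun := cj hJ
  map_one' := by ext v; simp [cj_apply, hJ.J_J]
  map_mul' a b := by ext v; simp [cj_apply, hJ.J_J]
  map_zero' := by ext v; simp [cj_apply]
  map_add' a b := by ext v; simp [cj_apply]
  commutes' r := by
    ext v
    simp [cj_apply, Algebra.algebraMap_eq_smul_one, hJ.J_J]
  map_star' a := by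
    ext v
    apply ext_inner_right ℂ
    intro w
    rw [cj_apply, ContinuousLinearMap.star_eq_adjoint, ContinuousLinearMap.star_eq_adjoint,
      ContinuousLinearMap.adjoint_inner_left, cj_apply, J_left hJ,
      ContinuousLinearMap.adjoint_inner_right]
    have h := hJ.J_inner (J (a (J w))) v
    rw [hJ.J_J] at h
    exact h

lemma cjH_apply (hJ : Conj A J) (a : H →L[ℂ] H) (v : H) : cjH hJ a v = J (a (J v)) := rfl

lemma continuous_cjH (hJ : Conj A J) : Continuous (cjH hJ) :=
  AddMonoidHomClass.continuous_of_bound (cjH hJ) 1 (fun a => by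
    rw [one_mul]; exact norm_cj_le hJ a)

lemma cfc_cj (hJ : Conj A J) {X : H →L[ℂ] H} (hX : star X = X) {g : ℝ → ℝ} (hg : Continuous g) :
    cfc g (cjH hJ X) = cjH hJ (cfc g X) := by
  have hsX : IsSelfAdjoint X := hX
  have hsY : IsSelfAdjoint (cjH hJ X) := by
    change star (cjH hJ X) = cjH hJ X
    rw [← map_star, hX]
  exact (StarAlgHomClass.map_cfc (S := ℝ) (cjH hJ) g X (by fun_prop) (continuous_cjH hJ) hsX
    hsY).symm

/-! ### membership -/

lemma cfc_mem {X : H →L[ℂ] H} (hX : X ∈ A) (g : ℝ → ℝ) : cfc g X ∈ A := by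
  rw [mem_iff_commutes]
  intro b hb
  have h1 : Commute X b := mem_comm_iff.1 hb X hX
  exact ((h1.cfc_real g).eq).symm

lemma star_cfc (X : H →L[ℂ] H) (g : ℝ → ℝ) : star (cfc g X) = cfc g X :=
  IsSelfAdjoint.star_eq (cfc_predicate g X)

/-! ### range projections as limits -/

lemma tendsto_rp {X : H →L[ℂ] H} (hX : star X = X) {p : ℝ → ℝ} (hp : Continuous p)
    (hp0 : ∀ s, 0 ≤ p s) (v : H) :
    Tendsto (fun n : ℕ => cfc (fun s => (n : ℝ) * p s / (1 + n * p s)) X v) atTop
      (𝓝 (rp (cfc p X) v)) := by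
  have hsX : IsSelfAdjoint X := hX
  have hpos : ∀ n : ℕ, ∀ s, 0 < 1 + (n : ℝ) * p s := fun n s => by
    have := mul_nonneg (Nat.cast_nonneg (α := ℝ) n) (hp0 s)
    linarith
  have hcont : ∀ n : ℕ, Continuous (fun s => (n : ℝ) * p s / (1 + n * p s)) := fun n =>
    Continuous.div (by fun_prop) (by fun_prop) (fun s => (hpos n s).ne')
  have hcont' : ∀ n : ℕ, Continuous (fun s => (n : ℝ) / (1 + n * p s)) := fun n =>
    Continuous.div (by fun_prop) (by fun_prop) (fun s => (hpos n s).ne')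
  set P := cfc p X with hP
  set Pn : ℕ → (H →L[ℂ] H) := fun n => cfc (fun s => (n : ℝ) * p s / (1 + n * p s)) X with hPn
  have h1 : ∀ n, ‖Pn n‖ ≤ 1 := by
    intro n
    refine norm_cfc_le zero_le_one ?_
    intro s _
    have h := hpos n s
    have h' := mul_nonneg (Nat.cast_nonneg (α := ℝ) n) (hp0 s)
    rw [Real.norm_eq_abs, abs_of_nonneg (div_nonneg h' h.le), div_le_one h]
    linarith
  have h2 : ∀ n : ℕ, 0 < n → ‖Pn n * P - P‖ ≤ 1 / n := by
    intro n hn
    have hn' : (0 : ℝ) < n := by exact_mod_cast hn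
    have e1 : Pn n * P - P = cfc (fun s => (n : ℝ) * p s / (1 + n * p s) * p s - p s) X := by
      rw [cfc_sub (fun s => (n : ℝ) * p s / (1 + n * p s) * p s) p X
        (((hcont n).mul hp).continuousOn) hp.continuousOn,
        cfc_mul (fun s => (n : ℝ) * p s / (1 + n * p s)) p X (hcont n).continuousOn
          hp.continuousOn]
    rw [e1]
    refine norm_cfc_le (by positivity) ?_
    intro s _
    have h := hpos n s
    have e2 : (n : ℝ) * p s / (1 + n * p s) * p s - p s = -(p s / (1 + n * p s)) := by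
      field_simp
      ring
    rw [e2, norm_neg, Real.norm_eq_abs, abs_of_nonneg (div_nonneg (hp0 s) h.le),
      div_le_div_iff₀ h hn']
    nlinarith [hp0 s]
  have h3 : ∀ n, Pn n * rp P = Pn n := by
    intro n
    have e1 : Pn n = cfc (fun s => (n : ℝ) / (1 + n * p s)) X * P := by
      rw [hP, ← cfc_mul (fun s => (n : ℝ) / (1 + n * p s)) p X (hcont' n).continuousOn
          hp.continuousOn]
      simp only [hPn]
      congr 1
      funext s
      ring
    have e2 : P * rp P = P := by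
      have := mul_rp_star P
      rwa [star_cfc] at this
    rw [e1, mul_assoc, e2]
  set w := rp P v with hw
  have h4 : ∀ n, Pn n v = Pn n w := by
    intro n
    conv_lhs => rw [← h3 n]
    rfl
  have h5 : w ∈ closure (Set.range P) := by
    have h6 : w ∈ (LinearMap.range (P : H →ₗ[ℂ] H)).topologicalClosure :=
      Submodule.starProjection_apply_mem _ v
    exact h6
  change Tendsto (fun n => Pn n v) atTop (𝓝 w)
  rw [Metric.tendsto_atTop]
  intro ε hε
  obtain ⟨w', ⟨u, hu⟩, hw'⟩ := Metric.mem_closure_iff.1 h5 (ε / 4) (by positivity)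
  obtain ⟨N, hN⟩ := exists_nat_gt (4 * ‖u‖ / ε)
  refine ⟨N + 1, fun n hn => ?_⟩
  have hn0 : 0 < n := by omega
  have hn1 : (0 : ℝ) < n := by exact_mod_cast hn0
  rw [dist_eq_norm] at hw' ⊢
  change ‖Pn n v - w‖ < ε
  rw [h4]
  have e1 : Pn n w - w = Pn n (w - w') + (Pn n * P - P) u - (w - w') := by
    rw [map_sub, sub_apply, mul_apply_eq_comp, hu]
    abel
  have e2 : ‖Pn n (w - w')‖ ≤ ε / 4 := by
    refine ((Pn n).le_opNorm _).trans ?_
    calc ‖Pn n‖ * ‖w - w'‖ ≤ 1 * ‖w - w'‖ := by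
          gcongr
          exact h1 n
      _ ≤ ε / 4 := by rw [one_mul]; exact hw'.le
  have e3 : ‖(Pn n * P - P) u‖ ≤ ε / 4 := by
    refine ((Pn n * P - P).le_opNorm _).trans ?_
    calc ‖Pn n * P - P‖ * ‖u‖ ≤ 1 / n * ‖u‖ := by
          gcongr
          exact h2 n hn0
      _ ≤ ε / 4 := by
          have h6 : 4 * ‖u‖ / ε < n := hN.trans_le (by exact_mod_cast (by omega : N ≤ n))
          rw [div_lt_iff₀ hε] at h6
          rw [one_div, ← div_eq_inv_mul, div_le_iff₀ hn1]
          linarith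
  rw [e1]
  calc ‖Pn n (w - w') + (Pn n * P - P) u - (w - w')‖
      ≤ ‖Pn n (w - w') + (Pn n * P - P) u‖ + ‖w - w'‖ := norm_sub_le _ _
    _ ≤ ‖Pn n (w - w')‖ + ‖(Pn n * P - P) u‖ + ‖w - w'‖ := by
        gcongr
        exact norm_add_le _ _
    _ < ε := by linarith

/-! ### the cut functions -/

/-- positive part of `s - t` -/
noncomputable def pt (t s : ℝ) : ℝ := max (s - t) 0

/-- positive part of `-s - t` -/
noncomputable def qt (t s : ℝ) : ℝ := max (-s - t) 0

lemma pt_cont (t : ℝ) : Continuous (pt t) := by unfold pt; fun_prop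
lemma qt_cont (t : ℝ) : Continuous (qt t) := by unfold qt; fun_prop
lemma pt_nonneg (t s : ℝ) : 0 ≤ pt t s := le_max_right _ _
lemma qt_nonneg (t s : ℝ) : 0 ≤ qt t s := le_max_right _ _

/-- `n s / (1 + n s)` -/
noncomputable def cn (n : ℕ) (s : ℝ) : ℝ := (n : ℝ) * s / (1 + n * s)

lemma cn_nonneg (n : ℕ) {s : ℝ} (hs : 0 ≤ s) : 0 ≤ cn n s := by
  unfold cn; positivity

lemma cn_le_one (n : ℕ) {s : ℝ} (hs : 0 ≤ s) : cn n s ≤ 1 := by
  unfold cn
  have : 0 ≤ (n : ℝ) * s := by positivity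
  rw [div_le_one (by linarith)]
  linarith

lemma cn_tendsto {s : ℝ} (hs : 0 < s) : Tendsto (fun n => cn n s) atTop (𝓝 1) := by
  have h1 : ∀ n : ℕ, cn n s = 1 - 1 / (1 + n * s) := by
    intro n
    have : (0 : ℝ) < 1 + n * s := by positivity
    unfold cn
    field_simp
    ring
  simp_rw [h1]
  have h2 : Tendsto (fun n : ℕ => 1 + (n : ℝ) * s) atTop atTop :=
    tendsto_atTop_add_const_left _ _ (tendsto_natCast_atTop_atTop.atTop_mul_const hs)
  have h3 : Tendsto (fun n : ℕ => 1 / (1 + (n : ℝ) * s)) atTop (𝓝 0) :=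
    tendsto_const_nhds.div_atTop h2
  simpa using h3.const_sub 1

lemma cn_zero (n : ℕ) : cn n 0 = 0 := by simp [cn]

lemma cn_cont {p : ℝ → ℝ} (hp : Continuous p) (hp0 : ∀ s, 0 ≤ p s) (n : ℕ) :
    Continuous (fun s => cn n (p s)) := by
  unfold cn
  refine Continuous.div (by fun_prop) (by fun_prop) (fun s => ?_)
  have := mul_nonneg (Nat.cast_nonneg (α := ℝ) n) (hp0 s)
  linarith

/-- continuous approximations -/
noncomputable def fn (t : ℝ) (n : ℕ) (s : ℝ) : ℝ := cn n (pt t s) - cn n (qt t s)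

lemma fn_cont (t : ℝ) (n : ℕ) : Continuous (fn t n) :=
  (cn_cont (pt_cont t) (pt_nonneg t) n).sub (cn_cont (qt_cont t) (qt_nonneg t) n)

/-- the cut function -/
noncomputable def sg (t s : ℝ) : ℝ := (if t < s then 1 else 0) - (if s < -t then 1 else 0)

lemma abs_fn_le (t : ℝ) (n : ℕ) (s : ℝ) : |fn t n s| ≤ 1 := by
  have h1 := cn_nonneg n (pt_nonneg t s)
  have h2 := cn_nonneg n (qt_nonneg t s)
  have h3 := cn_le_one n (pt_nonneg t s)
  have h4 := cn_le_one n (qt_nonneg t s)
  unfold fn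
  rw [abs_le]
  constructor <;> linarith

lemma fn_tendsto (t s : ℝ) : Tendsto (fun n => fn t n s) atTop (𝓝 (sg t s)) := by
  unfold fn sg
  refine Tendsto.sub ?_ ?_
  · by_cases h : t < s
    · rw [if_pos h]
      exact cn_tendsto (by unfold pt; rw [lt_max_iff]; left; linarith)
    · rw [if_neg h]
      have h1 : pt t s = 0 := by unfold pt; exact max_eq_right (by linarith)
      simp_rw [h1, cn_zero]
      exact tendsto_const_nhds
  · by_cases h : s < -t
    · rw [if_pos h]
      exact cn_tendsto (by unfold qt; rw [lt_max_iff]; left; linarith)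
    · rw [if_neg h]
      have h1 : qt t s = 0 := by unfold qt; exact max_eq_right (by linarith)
      simp_rw [h1, cn_zero]
      exact tendsto_const_nhds

/-- the spectral symmetry -/
noncomputable def Ft (X : H →L[ℂ] H) (t : ℝ) : H →L[ℂ] H :=
  rp (cfc (pt t) X) - rp (cfc (qt t) X)

lemma tendsto_Ft {X : H →L[ℂ] H} (hX : star X = X) (t : ℝ) (v : H) :
    Tendsto (fun n => cfc (fn t n) X v) atTop (𝓝 (Ft X t v)) := by
  have h1 := tendsto_rp hX (pt_cont t) (pt_nonneg t) v
  have h2 := tendsto_rp hX (qt_cont t) (qt_nonneg t) v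
  have h3 := h1.sub h2
  refine h3.congr ?_
  intro n
  have e1 : cfc (fn t n) X = cfc (fun s => cn n (pt t s)) X - cfc (fun s => cn n (qt t s)) X :=
    cfc_sub _ _ _ (cn_cont (pt_cont t) (pt_nonneg t) n).continuousOn
      (cn_cont (qt_cont t) (qt_nonneg t) n).continuousOn
  rw [e1]
  rfl

lemma pq_zero {t : ℝ} (ht : 0 ≤ t) (s : ℝ) : pt t s * qt t s = 0 := by
  unfold pt qt
  by_cases h : s ≤ t
  · rw [max_eq_right (by linarith : s - t ≤ 0), zero_mul]
  · rw [max_eq_right (by linarith : -s - t ≤ 0), mul_zero]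

lemma rp_star {X : H →L[ℂ] H} (hX : X ∈ A) : star (rp X) = rp X := (rp_isP hX).2.1

lemma rp_idem {X : H →L[ℂ] H} (hX : X ∈ A) : rp X * rp X = rp X := (rp_isP hX).2.2

lemma Ft_mem {X : H →L[ℂ] H} (hX : X ∈ A) (t : ℝ) : Ft X t ∈ A :=
  A.toStarSubalgebra.sub_mem (rp_isP (cfc_mem hX _)).1 (rp_isP (cfc_mem hX _)).1

lemma Ft_star {X : H →L[ℂ] H} (hX : X ∈ A) (t : ℝ) : star (Ft X t) = Ft X t := by
  unfold Ft
  rw [star_sub, rp_star (cfc_mem hX _), rp_star (cfc_mem hX _)]

lemma rp_mul_rp {X : H →L[ℂ] H} (hX : X ∈ A) {t : ℝ} (ht : 0 ≤ t) :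
    rp (cfc (pt t) X) * rp (cfc (qt t) X) = 0 ∧ rp (cfc (qt t) X) * rp (cfc (pt t) X) = 0 := by
  have h1 : cfc (pt t) X * cfc (qt t) X = 0 := by
    rw [← cfc_mul (pt t) (qt t) X (pt_cont t).continuousOn (qt_cont t).continuousOn]
    simp_rw [pq_zero ht]
    exact cfc_const_zero ℝ X
  have h2 : cfc (pt t) X * rp (cfc (qt t) X) = 0 := zero_mul_rp h1
  have h3 : rp (cfc (qt t) X) * cfc (pt t) X = 0 := by
    have := congrArg star h2
    rwa [star_mul, star_cfc, rp_star (cfc_mem hX _), star_zero] at this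
  have h4 : rp (cfc (qt t) X) * rp (cfc (pt t) X) = 0 := zero_mul_rp h3
  refine ⟨?_, h4⟩
  have := congrArg star h4
  rwa [star_mul, rp_star (cfc_mem hX _), rp_star (cfc_mem hX _), star_zero] at this

lemma Ft_cube {X : H →L[ℂ] H} (hX : X ∈ A) {t : ℝ} (ht : 0 ≤ t) :
    Ft X t * Ft X t * Ft X t = Ft X t := by
  obtain ⟨h1, h2⟩ := rp_mul_rp hX ht
  have h3 := rp_idem (cfc_mem (A := A) hX (pt t))
  have h4 := rp_idem (cfc_mem (A := A) hX (qt t))
  unfold Ft
  set p := rp (cfc (pt t) X)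
  set q := rp (cfc (qt t) X)
  rw [show (p - q) * (p - q) = p + q by
    rw [sub_mul, mul_sub, mul_sub, h1, h2, h3, h4]; abel]
  rw [add_mul, mul_sub, mul_sub, h1, h2, h3, h4]
  abel

lemma Ft_anti {X : H →L[ℂ] H} (hX : X ∈ A) (hs : star X = X) (t : ℝ) {U : H →L[ℂ] H}
    (hU : star U = U) (hUU : U * U = 1) (hUX : U * X = -(X * U)) :
    U * Ft X t = -(Ft X t * U) := by
  have hsX : IsSelfAdjoint X := hs
  have hUm : U ∈ unitary (H →L[ℂ] H) := by
    rw [Unitary.mem_iff, hU]
    exact ⟨hUU, hUU⟩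
  set u : unitary (H →L[ℂ] H) := ⟨U, hUm⟩ with hu
  have h0 : Unitary.conjStarAlgAut ℝ (H →L[ℂ] H) u X = -X := by
    rw [Unitary.conjStarAlgAut_apply]
    change U * X * star U = -X
    rw [hU, hUX, neg_mul, mul_assoc, hUU, mul_one]
  have hc : Continuous (Unitary.conjStarAlgAut ℝ (H →L[ℂ] H) u) := by
    have : (Unitary.conjStarAlgAut ℝ (H →L[ℂ] H) u : (H →L[ℂ] H) → (H →L[ℂ] H)) =
        fun x => U * x * star U := rfl
    rw [this]
    fun_prop
  have h1 : U * cfc (pt t) X * U = cfc (qt t) X := by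
    have e1 := StarAlgHomClass.map_cfc (S := ℝ) (Unitary.conjStarAlgAut ℝ (H →L[ℂ] H) u) (pt t) X
      (pt_cont t).continuousOn hc hsX (by rw [h0]; exact hsX.neg)
    rw [h0, ← cfc_comp_neg (pt t) X (pt_cont t).continuousOn hsX] at e1
    rw [Unitary.conjStarAlgAut_apply] at e1
    change U * cfc (pt t) X * star U = _ at e1
    rw [hU] at e1
    exact e1
  have h2 : U * cfc (qt t) X * U = cfc (pt t) X := by
    rw [← h1]
    calc U * (U * cfc (pt t) X * U) * U = (U * U) * cfc (pt t) X * (U * U) := by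
          simp only [mul_assoc]
      _ = _ := by rw [hUU, one_mul, mul_one]
  set P := cfc (pt t) X with hP
  set Q := cfc (qt t) X with hQ
  have hpP : rp P * P = P := rp_mul P
  have hqQ : rp Q * Q = Q := rp_mul Q
  have h3 : (U * rp P * U) * rp Q = rp Q := by
    apply mul_rp
    calc U * rp P * U * Q = U * rp P * U * (U * P * U) := by rw [h1]
      _ = U * (rp P * ((U * U) * P)) * U := by simp only [mul_assoc]
      _ = Q := by rw [hUU, one_mul, hpP, h1]
  have h4 : (U * rp Q * U) * rp P = rp P := by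
    apply mul_rp
    calc U * rp Q * U * P = U * rp Q * U * (U * Q * U) := by rw [h2]
      _ = U * (rp Q * ((U * U) * Q)) * U := by simp only [mul_assoc]
      _ = P := by rw [hUU, one_mul, hqQ, h2]
  have hps : star (rp P) = rp P := rp_star (cfc_mem (A := A) hX (pt t))
  have hqs : star (rp Q) = rp Q := rp_star (cfc_mem (A := A) hX (qt t))
  have h5 : rp Q * (U * rp P * U) = rp Q := by
    have := congrArg star h3
    rw [star_mul, star_mul, star_mul, hps, hqs, hU] at this
    rw [← mul_assoc] at this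
    simpa only [mul_assoc] using this
  have h6 : rp Q * (U * rp P * U) = U * rp P * U := by
    calc rp Q * (U * rp P * U) = (U * U) * rp Q * (U * rp P * U) := by rw [hUU, one_mul]
      _ = U * ((U * rp Q * U) * rp P) * U := by simp only [mul_assoc]
      _ = U * rp P * U := by rw [h4]
  have h7 : U * rp P * U = rp Q := h6.symm.trans h5
  have h8 : U * rp P = rp Q * U := by
    rw [← h7, mul_assoc, hUU, mul_one]
  have h9 : U * rp Q = rp P * U := by
    rw [← h7]
    calc U * (U * rp P * U) = (U * U) * rp P * U := by simp only [mul_assoc]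
      _ = _ := by rw [hUU, one_mul]
  unfold Ft
  rw [mul_sub, sub_mul, h8, h9]
  abel

/-! ### the layer cake argument -/

/-- `min (a², b²)` if the signs agree -/
noncomputable def gp (a b : ℝ) : ℝ := if 0 < a * b then min (a ^ 2) (b ^ 2) else 0

/-- `min (a², b²)` if the signs are opposite -/
noncomputable def gm (a b : ℝ) : ℝ := if a * b < 0 then min (a ^ 2) (b ^ 2) else 0

lemma gp_nonneg (a b : ℝ) : 0 ≤ gp a b := by unfold gp; split_ifs <;> positivity
lemma gm_nonneg (a b : ℝ) : 0 ≤ gm a b := by unfold gm; split_ifs <;> positivity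

lemma gp_le (a b : ℝ) : gp a b ≤ a ^ 2 := by
  unfold gp; split_ifs
  · exact min_le_left _ _
  · positivity

lemma gm_le (a b : ℝ) : gm a b ≤ a ^ 2 := by
  unfold gm; split_ifs
  · exact min_le_left _ _
  · positivity

lemma gp_meas : Measurable (fun z : ℂ => gp z.re z.im) := by
  unfold gp
  exact Measurable.ite (measurableSet_lt measurable_const (by fun_prop)) (by fun_prop)
    measurable_const

lemma gm_meas : Measurable (fun z : ℂ => gm z.re z.im) := by
  unfold gm
  exact Measurable.ite (measurableSet_lt (by fun_prop) measurable_const) (by fun_prop)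
    measurable_const

/-- indicator of a proposition -/
noncomputable def ch (p : Prop) : ℝ := by classical exact if p then 1 else 0

lemma ch_true {p : Prop} (h : p) : ch p = 1 := by simp [ch, h]
lemma ch_false {p : Prop} (h : ¬ p) : ch p = 0 := by simp [ch, h]

lemma sg_cases {t : ℝ} (ht : 0 < t) (s : ℝ) :
    (t < s ∧ sg t s = 1) ∨ (s < -t ∧ sg t s = -1) ∨ (-t ≤ s ∧ s ≤ t ∧ sg t s = 0) := by
  unfold sg
  by_cases h1 : t < s
  · left
    refine ⟨h1, ?_⟩
    rw [if_pos h1, if_neg (by linarith)]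
    ring
  · by_cases h2 : s < -t
    · right; left
      refine ⟨h2, ?_⟩
      rw [if_neg h1, if_pos h2]
      ring
    · right; right
      refine ⟨by linarith, by linarith, ?_⟩
      rw [if_neg h1, if_neg h2]
      ring

lemma sg_sq {t : ℝ} (ht : 0 < t) (a : ℝ) : sg t a ^ 2 = ch (t ^ 2 < a ^ 2) := by
  rcases sg_cases ht a with ⟨h, h'⟩ | ⟨h, h'⟩ | ⟨h1, h2, h'⟩
  · rw [h', ch_true (by nlinarith)]; norm_num
  · rw [h', ch_true (by nlinarith)]; norm_num
  · rw [h', ch_false (by nlinarith)]; norm_num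

lemma sg_diff {t : ℝ} (ht : 0 < t) (a b : ℝ) :
    (sg t a - sg t b) ^ 2 + 2 * ch (t ^ 2 < gp a b) =
      ch (t ^ 2 < a ^ 2) + ch (t ^ 2 < b ^ 2) + 2 * ch (t ^ 2 < gm a b) := by
  have ht2 : 0 < t ^ 2 := by positivity
  rcases sg_cases ht a with ⟨h, h'⟩ | ⟨h, h'⟩ | ⟨h1, h2, h'⟩
  · have ha : t ^ 2 < a ^ 2 := by nlinarith
    rcases sg_cases ht b with ⟨k, k'⟩ | ⟨k, k'⟩ | ⟨k1, k2, k'⟩
    · have hb : t ^ 2 < b ^ 2 := by nlinarith
      have hab : 0 < a * b := mul_pos (by linarith) (by linarith)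
      rw [h', k', ch_true ha, ch_true hb, ch_true (by unfold gp; rw [if_pos hab]; exact lt_min ha hb),
        ch_false (by unfold gm; rw [if_neg (by linarith)]; linarith)]
      norm_num
    · have hb : t ^ 2 < b ^ 2 := by nlinarith
      have hab : a * b < 0 := mul_neg_of_pos_of_neg (by linarith) (by linarith)
      rw [h', k', ch_true ha, ch_true hb, ch_false (by unfold gp; rw [if_neg (by linarith)]; linarith),
        ch_true (by unfold gm; rw [if_pos hab]; exact lt_min ha hb)]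
      norm_num
    · have hb : ¬ t ^ 2 < b ^ 2 := by nlinarith
      have h5 : ¬ t ^ 2 < gp a b := by
        unfold gp; split_ifs
        · rw [lt_min_iff]; tauto
        · linarith
      have h6 : ¬ t ^ 2 < gm a b := by
        unfold gm; split_ifs
        · rw [lt_min_iff]; tauto
        · linarith
      rw [h', k', ch_true ha, ch_false hb, ch_false h5, ch_false h6]
      norm_num
  · have ha : t ^ 2 < a ^ 2 := by nlinarith
    rcases sg_cases ht b with ⟨k, k'⟩ | ⟨k, k'⟩ | ⟨k1, k2, k'⟩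
    · have hb : t ^ 2 < b ^ 2 := by nlinarith
      have hab : a * b < 0 := mul_neg_of_neg_of_pos (by linarith) (by linarith)
      rw [h', k', ch_true ha, ch_true hb, ch_false (by unfold gp; rw [if_neg (by linarith)]; linarith),
        ch_true (by unfold gm; rw [if_pos hab]; exact lt_min ha hb)]
      norm_num
    · have hb : t ^ 2 < b ^ 2 := by nlinarith
      have hab : 0 < a * b := mul_pos_of_neg_of_neg (by linarith) (by linarith)
      rw [h', k', ch_true ha, ch_true hb, ch_true (by unfold gp; rw [if_pos hab]; exact lt_min ha hb),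
        ch_false (by unfold gm; rw [if_neg (by linarith)]; linarith)]
      norm_num
    · have hb : ¬ t ^ 2 < b ^ 2 := by nlinarith
      have h5 : ¬ t ^ 2 < gp a b := by
        unfold gp; split_ifs
        · rw [lt_min_iff]; tauto
        · linarith
      have h6 : ¬ t ^ 2 < gm a b := by
        unfold gm; split_ifs
        · rw [lt_min_iff]; tauto
        · linarith
      rw [h', k', ch_true ha, ch_false hb, ch_false h5, ch_false h6]
      norm_num
  · have ha : ¬ t ^ 2 < a ^ 2 := by nlinarith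
    have h5 : ¬ t ^ 2 < gp a b := by
      have := gp_le a b
      linarith
    have h6 : ¬ t ^ 2 < gm a b := by
      have := gm_le a b
      linarith
    rcases sg_cases ht b with ⟨k, k'⟩ | ⟨k, k'⟩ | ⟨k1, k2, k'⟩
    · have hb : t ^ 2 < b ^ 2 := by nlinarith
      rw [h', k', ch_false ha, ch_true hb, ch_false h5, ch_false h6]
      norm_num
    · have hb : t ^ 2 < b ^ 2 := by nlinarith
      rw [h', k', ch_false ha, ch_true hb, ch_false h5, ch_false h6]
      norm_num
    · have hb : ¬ t ^ 2 < b ^ 2 := by nlinarith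
      rw [h', k', ch_false ha, ch_false hb, ch_false h5, ch_false h6]
      norm_num

/-- the pointwise inequality -/
lemma pointwise {δ : ℝ} (hδ : 0 < δ) (a b : ℝ) :
    a ^ 2 + b ^ 2 + 2 * gm a b - 2 * gp a b ≤ 1 / (2 * δ) * (a - b) ^ 2 + δ * (a ^ 2 + b ^ 2) := by
  have h1 : a ^ 2 + b ^ 2 + 2 * gm a b - 2 * gp a b ≤ |a - b| * (|a| + |b|) := by
    unfold gm gp
    rcases lt_trichotomy (a * b) 0 with h | h | h
    · rw [if_pos h, if_neg (by linarith)]
      have e1 : |a - b| = |a| + |b| := by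
        rcases mul_neg_iff.1 h with ⟨h2, h3⟩ | ⟨h2, h3⟩
        · rw [abs_of_pos h2, abs_of_neg h3, abs_of_pos (by linarith)]; ring
        · rw [abs_of_neg h2, abs_of_pos h3, abs_of_neg (by linarith)]; ring
      rw [e1]
      have e2 : min (a ^ 2) (b ^ 2) ≤ |a| * |b| := by
        rcases le_total |a| |b| with h4 | h4
        · refine (min_le_left _ _).trans ?_
          rw [← sq_abs a]
          nlinarith [abs_nonneg a]
        · refine (min_le_right _ _).trans ?_
          rw [← sq_abs b]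
          nlinarith [abs_nonneg b]
      nlinarith [sq_abs a, sq_abs b]
    · rw [if_neg (by linarith), if_neg (by linarith)]
      rcases mul_eq_zero.1 h with h2 | h2
      · subst h2
        simp [sq]
      · subst h2
        simp [sq]
    · rw [if_neg (by linarith), if_pos h]
      rcases le_total |a| |b| with h4 | h4
      · have h5 : a ^ 2 ≤ b ^ 2 := sq_le_sq.2 h4
        rw [min_eq_left h5]
        have e1 : |a - b| = |b| - |a| := by
          rcases pos_and_pos_or_neg_and_neg_of_mul_pos h with ⟨h2, h3⟩ | ⟨h2, h3⟩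
          · rw [abs_of_pos h2, abs_of_pos h3] at h4 ⊢
            rw [abs_of_nonpos (by linarith)]; ring
          · rw [abs_of_neg h2, abs_of_neg h3] at h4 ⊢
            rw [abs_of_nonneg (by linarith)]; ring
        rw [e1]
        nlinarith [sq_abs a, sq_abs b]
      · have h5 : b ^ 2 ≤ a ^ 2 := sq_le_sq.2 h4
        rw [min_eq_right h5]
        have e1 : |a - b| = |a| - |b| := by
          rcases pos_and_pos_or_neg_and_neg_of_mul_pos h with ⟨h2, h3⟩ | ⟨h2, h3⟩
          · rw [abs_of_pos h2, abs_of_pos h3] at h4 ⊢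
            rw [abs_of_nonneg (by linarith)]
          · rw [abs_of_neg h2, abs_of_neg h3] at h4 ⊢
            rw [abs_of_nonpos (by linarith)]; ring
        rw [e1]
        nlinarith [sq_abs a, sq_abs b]
  have h2 : |a - b| * (|a| + |b|) ≤ 1 / (2 * δ) * (a - b) ^ 2 + δ / 2 * (|a| + |b|) ^ 2 := by
    rw [← sq_abs (a - b)]
    set x := |a - b|
    set y := |a| + |b|
    have h3 : 0 ≤ (x - δ * y) ^ 2 := sq_nonneg _
    have h4 : 1 / (2 * δ) * x ^ 2 + δ / 2 * y ^ 2 - x * y = 1 / (2 * δ) * (x - δ * y) ^ 2 := by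
      field_simp
      ring
    have h5 : 0 ≤ 1 / (2 * δ) * (x - δ * y) ^ 2 := by positivity
    linarith
  have h3 : (|a| + |b|) ^ 2 ≤ 2 * (a ^ 2 + b ^ 2) := by
    nlinarith [sq_abs a, sq_abs b, sq_nonneg (|a| - |b|)]
  have h4 : δ / 2 * (|a| + |b|) ^ 2 ≤ δ / 2 * (2 * (a ^ 2 + b ^ 2)) := by gcongr
  linarith

lemma integral_ch {μ : Measure ℂ} [IsFiniteMeasure μ] {f : ℂ → ℝ} (hf : Measurable f) (u : ℝ) :
    Integrable (fun z => ch (u < f z)) μ ∧ ∫ z, ch (u < f z) ∂μ = μ.real {z | u < f z} := by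
  have hS : MeasurableSet {z | u < f z} := measurableSet_lt measurable_const hf
  have e : (fun z => ch (u < f z)) = ({z | u < f z} : Set ℂ).indicator (1 : ℂ → ℝ) := by
    funext z
    by_cases h : u < f z
    · rw [ch_true h, Set.indicator_of_mem (by exact h)]; rfl
    · rw [ch_false h, Set.indicator_of_notMem (by exact h)]
  rw [e]
  exact ⟨(integrable_const (1 : ℝ)).indicator hS, integral_indicator_one hS⟩

lemma integral_comb {μ : Measure ℂ} {f g h k : ℂ → ℝ} (hf : Integrable f μ) (hg : Integrable g μ)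
    (hh : Integrable h μ) (hk : Integrable k μ) :
    ∫ z, (f z + g z + 2 * h z - 2 * k z) ∂μ =
      ∫ z, f z ∂μ + ∫ z, g z ∂μ + 2 * ∫ z, h z ∂μ - 2 * ∫ z, k z ∂μ := by
  have e1 : Integrable (fun z => f z + g z) μ := hf.add hg
  have e2 : Integrable (fun z => 2 * h z) μ := hh.const_mul 2
  have e3 : Integrable (fun z => f z + g z + 2 * h z) μ := e1.add e2
  have e4 : Integrable (fun z => 2 * k z) μ := hk.const_mul 2
  rw [integral_sub e3 e4, integral_add e1 e2, integral_add hf hg, integral_const_mul,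
    integral_const_mul]

lemma meas_layer {μ : Measure ℂ} (f : ℂ → ℝ) : Measurable (fun u : ℝ => μ {z | u < f z}) := by
  apply Antitone.measurable
  intro u v huv
  apply measure_mono
  intro z hz
  exact huv.trans_lt hz

/-- the integrated inequality -/
lemma layer {μ : Measure ℂ} [IsFiniteMeasure μ] {al be ga gb : ℂ → ℝ} {c : ℝ} (hc : 0 ≤ c)
    (h1 : Integrable al μ) (h2 : Integrable be μ) (h3 : Integrable ga μ) (h4 : Integrable gb μ)
    (n1 : ∀ z, 0 ≤ al z) (n2 : ∀ z, 0 ≤ be z) (n3 : ∀ z, 0 ≤ ga z) (n4 : ∀ z, 0 ≤ gb z)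
    (h : ∀ u : ℝ, 0 < u → c * μ.real {z | u < al z} + 2 * μ.real {z | u < ga z} ≤
      μ.real {z | u < al z} + μ.real {z | u < be z} + 2 * μ.real {z | u < gb z}) :
    c * ∫ z, al z ∂μ + 2 * ∫ z, ga z ∂μ ≤ ∫ z, al z ∂μ + ∫ z, be z ∂μ + 2 * ∫ z, gb z ∂μ := by
  have key : ∀ u : ℝ, 0 < u → ENNReal.ofReal c * μ {z | u < al z} + 2 * μ {z | u < ga z} ≤
      μ {z | u < al z} + μ {z | u < be z} + 2 * μ {z | u < gb z} := by
    intro u hu
    have f1 : ∀ s : Set ℂ, μ s ≠ ⊤ := fun s => measure_ne_top μ s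
    have f2 : ∀ s : Set ℂ, ENNReal.ofReal (μ.real s) = μ s := fun s =>
      ENNReal.ofReal_toReal (f1 s)
    have h5 := ENNReal.ofReal_le_ofReal (h u hu)
    rw [ENNReal.ofReal_add (by positivity) (by positivity),
      ENNReal.ofReal_add (by positivity) (by positivity),
      ENNReal.ofReal_add (by positivity) (by positivity),
      ENNReal.ofReal_mul hc, ENNReal.ofReal_mul (by norm_num), ENNReal.ofReal_mul (by norm_num),
      f2, f2, f2, f2] at h5
    simpa using h5
  have key2 : ∫⁻ u in Set.Ioi (0 : ℝ), (ENNReal.ofReal c * μ {z | u < al z} +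
        2 * μ {z | u < ga z}) ≤
      ∫⁻ u in Set.Ioi (0 : ℝ), (μ {z | u < al z} + μ {z | u < be z} + 2 * μ {z | u < gb z}) := by
    apply lintegral_mono_ae
    filter_upwards [ae_restrict_mem measurableSet_Ioi] with u hu
    exact key u hu
  rw [lintegral_add_left ((meas_layer al).const_mul _),
    lintegral_add_left (f := fun u => μ {z | u < al z} + μ {z | u < be z})
      ((meas_layer al).add (meas_layer be)),
    lintegral_add_left (meas_layer al), lintegral_const_mul _ (meas_layer al),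
    lintegral_const_mul _ (meas_layer ga), lintegral_const_mul _ (meas_layer gb)] at key2
  have L : ∀ f : ℂ → ℝ, Integrable f μ → (∀ z, 0 ≤ f z) →
      ∫⁻ u in Set.Ioi (0 : ℝ), μ {z | u < f z} = ENNReal.ofReal (∫ z, f z ∂μ) := by
    intro f hf hf0
    rw [← lintegral_eq_lintegral_meas_lt μ (Filter.Eventually.of_forall hf0) hf.aemeasurable,
      ← ofReal_integral_eq_lintegral_ofReal hf (Filter.Eventually.of_forall hf0)]
  rw [L al h1 n1, L be h2 n2, L ga h3 n3, L gb h4 n4] at key2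
  have i1 : 0 ≤ ∫ z, al z ∂μ := integral_nonneg n1
  have i2 : 0 ≤ ∫ z, be z ∂μ := integral_nonneg n2
  have i3 : 0 ≤ ∫ z, ga z ∂μ := integral_nonneg n3
  have i4 : 0 ≤ ∫ z, gb z ∂μ := integral_nonneg n4
  have e2 : (2 : ENNReal) = ENNReal.ofReal 2 := by simp
  rw [e2, ← ENNReal.ofReal_mul hc, ← ENNReal.ofReal_mul (by norm_num),
    ← ENNReal.ofReal_mul (by norm_num), ← ENNReal.ofReal_add (by positivity) (by positivity),
    ← ENNReal.ofReal_add (by positivity) (by positivity),
    ← ENNReal.ofReal_add (by positivity) (by positivity),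
    ENNReal.ofReal_le_ofReal_iff (by positivity)] at key2
  exact key2

end Trick1Aux

open Trick1Aux in
/-- A self-adjoint `X` which almost commutes with `κ` has a spectral symmetry `F` (the function
`sgn(s) 1_{|s| > c}` of `X`) which almost commutes with `κ`. -/
theorem cut (hJ : Conj A J) (hκ : J κ = κ) {X : H →L[ℂ] H} (hX : X ∈ A) (hs : star X = X)
    {δ : ℝ} (hδ : 0 < δ) (hX0 : X κ ≠ 0) (h : ‖X κ - J (X κ)‖ ≤ δ * ‖X κ‖) :
    ∃ F ∈ A, star F = F ∧ F * F * F = F ∧ F κ ≠ 0 ∧ ‖F κ - J (F κ)‖ ^ 2 ≤ 16 * δ * ‖F κ‖ ^ 2 ∧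
      (∀ U : H →L[ℂ] H, star U = U → U * U = 1 → U * X = -(X * U) → U * F = -(F * U)) := by
  have hY : star (cjH hJ X) = cjH hJ X := by rw [← map_star, hs]
  have hXY : X * cjH hJ X = cjH hJ X * X := by
    ext v
    rw [mul_apply_eq_comp, mul_apply_eq_comp, cjH_apply, cjH_apply]
    exact (hJ.J_comm X hX X hX v).symm
  obtain ⟨μ, hμ, hint, hmX, hmY, hmXY⟩ := exists_joint hs hY hXY κ
  have hcfcJ : ∀ g : ℝ → ℝ, Continuous g → cfc g (cjH hJ X) κ = J (cfc g X κ) := by
    intro g hg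
    rw [cfc_cj hJ hs hg, cjH_apply, hκ]
  have L1 : ∀ t, ∫ z, sg t z.re ^ 2 ∂μ = ‖Ft X t κ‖ ^ 2 := by
    intro t
    have a1 : Tendsto (fun n => ∫ z, fn t n z.re ^ 2 ∂μ) atTop (𝓝 (∫ z, sg t z.re ^ 2 ∂μ)) := by
      apply tendsto_integral_of_dominated_convergence (fun _ => (1 : ℝ))
      · intro n
        exact (((fn_cont t n).comp Complex.continuous_re).pow 2).aestronglyMeasurable
      · exact integrable_const _
      · intro n
        filter_upwards with z
        rw [Real.norm_eq_abs, abs_pow]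
        exact pow_le_one₀ (abs_nonneg _) (abs_fn_le t n z.re)
      · filter_upwards with z
        exact (fn_tendsto t z.re).pow 2
    have a2 : Tendsto (fun n => ‖cfc (fn t n) X κ‖ ^ 2) atTop (𝓝 (‖Ft X t κ‖ ^ 2)) :=
      ((tendsto_Ft hs t κ).norm).pow 2
    have a3 : ∀ n, ∫ z, fn t n z.re ^ 2 ∂μ = ‖cfc (fn t n) X κ‖ ^ 2 := fun n =>
      hmX _ (fn_cont t n)
    simp_rw [a3] at a1
    exact tendsto_nhds_unique a1 a2
  have L2 : ∀ t, ∫ z, (sg t z.re - sg t z.im) ^ 2 ∂μ = ‖Ft X t κ - J (Ft X t κ)‖ ^ 2 := by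
    intro t
    have a1 : Tendsto (fun n => ∫ z, (fn t n z.re - fn t n z.im) ^ 2 ∂μ) atTop
        (𝓝 (∫ z, (sg t z.re - sg t z.im) ^ 2 ∂μ)) := by
      apply tendsto_integral_of_dominated_convergence (fun _ => (4 : ℝ))
      · intro n
        exact ((((fn_cont t n).comp Complex.continuous_re).sub
          ((fn_cont t n).comp Complex.continuous_im)).pow 2).aestronglyMeasurable
      · exact integrable_const _
      · intro n
        filter_upwards with z
        rw [Real.norm_eq_abs, abs_of_nonneg (sq_nonneg _)]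
        have b1 := abs_le.1 (abs_fn_le t n z.re)
        have b2 := abs_le.1 (abs_fn_le t n z.im)
        nlinarith
      · filter_upwards with z
        exact ((fn_tendsto t z.re).sub (fn_tendsto t z.im)).pow 2
    have a2 : Tendsto (fun n => ‖cfc (fn t n) X κ - J (cfc (fn t n) X κ)‖ ^ 2) atTop
        (𝓝 (‖Ft X t κ - J (Ft X t κ)‖ ^ 2)) :=
      (((tendsto_Ft hs t κ).sub ((J.continuous.tendsto _).comp (tendsto_Ft hs t κ))).norm).pow 2
    have a3 : ∀ n, ∫ z, (fn t n z.re - fn t n z.im) ^ 2 ∂μ =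
        ‖cfc (fn t n) X κ - J (cfc (fn t n) X κ)‖ ^ 2 := fun n => by
      rw [hmXY _ (fn_cont t n), hcfcJ _ (fn_cont t n)]
    simp_rw [a3] at a1
    exact tendsto_nhds_unique a1 a2
  by_contra hne
  push Not at hne
  have hall : ∀ t, 0 < t → 16 * δ * ‖Ft X t κ‖ ^ 2 ≤ ‖Ft X t κ - J (Ft X t κ)‖ ^ 2 := by
    intro t ht
    by_contra hlt
    push Not at hlt
    have h0 : Ft X t κ ≠ 0 := by
      intro h0
      rw [h0] at hlt
      simp at hlt
    obtain ⟨U, hU1, hU2, hU3, hU4⟩ := hne (Ft X t) (Ft_mem hX t) (Ft_star hX t)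
      (Ft_cube hX ht.le) h0 hlt.le
    exact hU4 (Ft_anti hX hs t hU1 hU2 hU3)
  -- integrability
  have hre : Measurable (fun z : ℂ => z.re ^ 2) := by fun_prop
  have him : Measurable (fun z : ℂ => z.im ^ 2) := by fun_prop
  have I1 : Integrable (fun z : ℂ => z.re ^ 2) μ := hint _ (by fun_prop)
  have I2 : Integrable (fun z : ℂ => z.im ^ 2) μ := hint _ (by fun_prop)
  have I3 : Integrable (fun z : ℂ => gp z.re z.im) μ := by
    refine I1.mono' gp_meas.aestronglyMeasurable ?_
    filter_upwards with z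
    rw [Real.norm_eq_abs, abs_of_nonneg (gp_nonneg _ _)]
    exact gp_le _ _
  have I4 : Integrable (fun z : ℂ => gm z.re z.im) μ := by
    refine I1.mono' gm_meas.aestronglyMeasurable ?_
    filter_upwards with z
    rw [Real.norm_eq_abs, abs_of_nonneg (gm_nonneg _ _)]
    exact gm_le _ _
  have hlay := layer (μ := μ) (al := fun z => z.re ^ 2) (be := fun z => z.im ^ 2)
    (ga := fun z => gp z.re z.im) (gb := fun z => gm z.re z.im) (c := 16 * δ) (by positivity)
    I1 I2 I3 I4 (fun z => sq_nonneg _) (fun z => sq_nonneg _) (fun z => gp_nonneg _ _)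
    (fun z => gm_nonneg _ _) (by
      intro u hu
      set t := Real.sqrt u with ht
      have ht0 : 0 < t := Real.sqrt_pos.2 hu
      have htu : t ^ 2 = u := Real.sq_sqrt hu.le
      obtain ⟨c1, d1⟩ := integral_ch (μ := μ) hre u
      obtain ⟨c2, d2⟩ := integral_ch (μ := μ) him u
      obtain ⟨c3, d3⟩ := integral_ch (μ := μ) gp_meas u
      obtain ⟨c4, d4⟩ := integral_ch (μ := μ) gm_meas u
      have k1 : ∫ z, sg t z.re ^ 2 ∂μ = μ.real {z | u < z.re ^ 2} := by
        rw [← d1]
        congr 1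
        funext z
        rw [sg_sq ht0, htu]
      have k2 : ∫ z, (sg t z.re - sg t z.im) ^ 2 ∂μ = μ.real {z | u < z.re ^ 2} +
          μ.real {z | u < z.im ^ 2} + 2 * μ.real {z | u < gm z.re z.im} -
            2 * μ.real {z | u < gp z.re z.im} := by
        have e : (fun z : ℂ => (sg t z.re - sg t z.im) ^ 2) = fun z : ℂ =>
            ch (u < z.re ^ 2) + ch (u < z.im ^ 2) + 2 * ch (u < gm z.re z.im) -
              2 * ch (u < gp z.re z.im) := by
          funext z
          have := sg_diff ht0 z.re z.im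
          rw [htu] at this
          linarith
        rw [e, integral_comb c1 c2 c4 c3, d1, d2, d3, d4]
      have k3 := hall t ht0
      rw [← L1, ← L2, k1, k2] at k3
      linarith)
  have hpt : ∫ z, (z.re ^ 2 + z.im ^ 2 + 2 * gm z.re z.im - 2 * gp z.re z.im) ∂μ ≤
      ∫ z, (1 / (2 * δ) * (z.re - z.im) ^ 2 + δ * (z.re ^ 2 + z.im ^ 2)) ∂μ := by
    apply integral_mono
    · exact ((I1.add I2).add (I4.const_mul 2)).sub (I3.const_mul 2)
    · exact hint _ (by fun_prop)
    · intro z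
      exact pointwise hδ z.re z.im
  have I5 : Integrable (fun z : ℂ => (z.re - z.im) ^ 2) μ := hint _ (by fun_prop)
  have I6 : Integrable (fun z : ℂ => z.re ^ 2 + z.im ^ 2) μ := I1.add I2
  rw [integral_comb I1 I2 I4 I3, integral_add (I5.const_mul _) (I6.const_mul _),
    integral_const_mul, integral_const_mul, integral_add I1 I2] at hpt
  have hsX : IsSelfAdjoint X := hs
  have hsY : IsSelfAdjoint (cjH hJ X) := hY
  have v1 : ∫ z : ℂ, z.re ^ 2 ∂μ = ‖X κ‖ ^ 2 := by
    rw [hmX (fun s => s) continuous_id, cfc_id' ℝ X]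
  have v2 : ∫ z : ℂ, z.im ^ 2 ∂μ = ‖X κ‖ ^ 2 := by
    rw [hmY (fun s => s) continuous_id, cfc_id' ℝ (cjH hJ X), cjH_apply, hκ, hJ.J_norm]
  have v3 : ∫ z : ℂ, (z.re - z.im) ^ 2 ∂μ = ‖X κ - J (X κ)‖ ^ 2 := by
    rw [hmXY (fun s => s) continuous_id, cfc_id' ℝ X, cfc_id' ℝ (cjH hJ X), cjH_apply, hκ]
  have hn : 0 < ‖X κ‖ ^ 2 := by positivity
  have v4 : ‖X κ - J (X κ)‖ ^ 2 ≤ δ ^ 2 * ‖X κ‖ ^ 2 := by
    rw [← mul_pow]
    gcongr
  have v5 : 1 / (2 * δ) * ‖X κ - J (X κ)‖ ^ 2 ≤ δ / 2 * ‖X κ‖ ^ 2 := by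
    calc 1 / (2 * δ) * ‖X κ - J (X κ)‖ ^ 2 ≤ 1 / (2 * δ) * (δ ^ 2 * ‖X κ‖ ^ 2) := by gcongr
      _ = δ / 2 * ‖X κ‖ ^ 2 := by field_simp
  rw [v1, v2] at hlay
  rw [v1, v2, v3] at hpt
  have : 0 < δ * ‖X κ‖ ^ 2 := by positivity
  nlinarith

end Pool.Agent.Helper88.CS
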