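import Pool.Agent.Helper88.CS.Fourier

/-!
# Project CS, module Triple: the triple integral
-/

open scoped InnerProductSpace Topology BoundedContinuousFunction
open ContinuousLinearMap Filter MeasureTheory

namespace Pool.Agent.Helper88.CS

open Pool.Agent.Helper23
open Pool.Agent.Helper78.BC (Std rm Fixed)

variable {H : Type*} [NormedAddCommGroup H] [InnerProductSpace ℂ H] [CompleteSpace H]

namespace TripleAux


theorem shear : MeasurePreserving
    (fun z : ℝ × (ℝ × ℝ) => (z.1, ((z.2.1 - z.1, z.2.2 - z.1) : ℝ × ℝ)))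
    ((volume : Measure ℝ).prod ((volume : Measure ℝ).prod (volume : Measure ℝ)))
    ((volume : Measure ℝ).prod ((volume : Measure ℝ).prod (volume : Measure ℝ))) := by
  have h := MeasurePreserving.skew_product (μa := (volume : Measure ℝ)) (μb := (volume : Measure ℝ))
    (μc := (volume : Measure ℝ).prod (volume : Measure ℝ))
    (μd := (volume : Measure ℝ).prod (volume : Measure ℝ))
    (f := fun r : ℝ => r) (MeasurePreserving.id _)
    (g := fun r (q : ℝ × ℝ) => ((q.1 - r, q.2 - r) : ℝ × ℝ))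
    (by
      show Measurable (fun z : ℝ × (ℝ × ℝ) => ((z.2.1 - z.1, z.2.2 - z.1) : ℝ × ℝ))
      fun_prop)
    (Eventually.of_forall fun r => by
      have := (measurePreserving_sub_right (volume : Measure ℝ) r).prod
        (measurePreserving_sub_right (volume : Measure ℝ) r)
      exact this.map_eq)
  exact h

theorem integrable3 {h k l : ℝ → ℂ} (hh : Integrable h) (hk : Integrable k) (hl : Integrable l)
    {Φ : ℝ → ℝ → ℂ} (hΦ : Continuous fun p : ℝ × ℝ => Φ p.1 p.2) {C : ℝ}
    (hC : ∀ t s, ‖Φ t s‖ ≤ C) :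
    Integrable (fun z : ℝ × (ℝ × ℝ) =>
      h z.1 * (k (z.2.1 - z.1) * (l (z.2.2 - z.1) * Φ z.2.1 z.2.2)))
      ((volume : Measure ℝ).prod ((volume : Measure ℝ).prod (volume : Measure ℝ))) := by
  have h1 : Integrable (fun z : ℝ × (ℝ × ℝ) => h z.1 * (k z.2.1 * l z.2.2))
      ((volume : Measure ℝ).prod ((volume : Measure ℝ).prod (volume : Measure ℝ))) :=
    hh.mul_prod (hk.mul_prod hl)
  have h2 := (shear.integrable_comp h1.aestronglyMeasurable).2 h1
  have h3 := h2.mul_bdd (c := C) (g := fun z : ℝ × (ℝ × ℝ) => Φ z.2.1 z.2.2)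
    (hΦ.comp continuous_snd).aestronglyMeasurable
    (Eventually.of_forall fun z => hC _ _)
  refine h3.congr (Eventually.of_forall fun z => ?_)
  simp only [Function.comp]
  ring

theorem core {h k l : ℝ → ℂ} (hh : Integrable h) (hk : Integrable k) (hl : Integrable l)
    (hid : ∀ t s, ∫ r, h r * (k (t - r) * l (s - r)) = k t * l s)
    {Φ : ℝ → ℝ → ℂ} (hΦ : Continuous fun p : ℝ × ℝ => Φ p.1 p.2) {C : ℝ}
    (hC : ∀ t s, ‖Φ t s‖ ≤ C) :
    ∫ r, h r * ∫ t, k t * ∫ s, l s * Φ (t + r) (s + r) = ∫ t, k t * ∫ s, l s * Φ t s := by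
  have hI := integrable3 hh hk hl hΦ hC
  -- integrability on the plane
  have hP : ∀ r : ℝ, Integrable (fun q : ℝ × ℝ => k (q.1 - r) * (l (q.2 - r) * Φ q.1 q.2))
      ((volume : Measure ℝ).prod (volume : Measure ℝ)) := by
    intro r
    have h1 : Integrable (fun q : ℝ × ℝ => k (q.1 - r) * l (q.2 - r))
        ((volume : Measure ℝ).prod (volume : Measure ℝ)) :=
      (hk.comp_sub_right r).mul_prod (hl.comp_sub_right r)
    have h3 := h1.mul_bdd (c := C) (g := fun q : ℝ × ℝ => Φ q.1 q.2)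
      hΦ.aestronglyMeasurable (Eventually.of_forall fun z => hC _ _)
    refine h3.congr (Eventually.of_forall fun z => ?_)
    simp only
    ring
  have hprod : ∀ r : ℝ, ∫ q, k (q.1 - r) * (l (q.2 - r) * Φ q.1 q.2)
      ∂((volume : Measure ℝ).prod (volume : Measure ℝ)) =
      ∫ t, k (t - r) * ∫ s, l (s - r) * Φ t s := by
    intro r
    rw [integral_prod _ (hP r)]
    refine integral_congr_ae (Eventually.of_forall fun t => ?_)
    simp only
    exact integral_const_mul _ _
  have htr : ∀ r : ℝ, ∫ t, k t * ∫ s, l s * Φ (t + r) (s + r) =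
      ∫ t, k (t - r) * ∫ s, l (s - r) * Φ t s := by
    intro r
    rw [← integral_add_right_eq_self (fun t => k (t - r) * ∫ s, l (s - r) * Φ t s) r]
    refine integral_congr_ae (Eventually.of_forall fun t => ?_)
    simp only [add_sub_cancel_right]
    congr 1
    rw [← integral_add_right_eq_self (fun s => l (s - r) * Φ (t + r) s) r]
    simp only [add_sub_cancel_right]
  calc ∫ r, h r * ∫ t, k t * ∫ s, l s * Φ (t + r) (s + r)
      = ∫ r, ∫ q : ℝ × ℝ, h r * (k (q.1 - r) * (l (q.2 - r) * Φ q.1 q.2))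
          ∂((volume : Measure ℝ).prod (volume : Measure ℝ)) := by
        refine integral_congr_ae (Eventually.of_forall fun r => ?_)
        simp only
        rw [htr r, ← hprod r, integral_const_mul]
    _ = ∫ q : ℝ × ℝ, (∫ r, h r * (k (q.1 - r) * (l (q.2 - r) * Φ q.1 q.2)))
          ∂((volume : Measure ℝ).prod (volume : Measure ℝ)) :=
        integral_integral_swap hI
    _ = ∫ q : ℝ × ℝ, k (q.1 - 0) * (l (q.2 - 0) * Φ q.1 q.2)
          ∂((volume : Measure ℝ).prod (volume : Measure ℝ)) := by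
        refine integral_congr_ae (Eventually.of_forall fun q => ?_)
        simp only [sub_zero]
        have h1 : ∀ r, h r * (k (q.1 - r) * (l (q.2 - r) * Φ q.1 q.2)) =
            (h r * (k (q.1 - r) * l (q.2 - r))) * Φ q.1 q.2 := fun r => by ring
        simp only [h1]
        rw [integral_mul_const, hid]
        ring
    _ = ∫ t, k t * ∫ s, l s * Φ t s := by
        rw [hprod 0]
        simp only [sub_zero]

end TripleAux

theorem triple {h k l : ℝ → ℂ} {H' K L : ℝ →ᵇ ℂ} (hh : Ker h H') (hk : Ker k K)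
    (hl : Ker l L) (hs : ∀ α β, K α ≠ 0 → L β ≠ 0 → H' (α + β) = 1) {Φ : ℝ → ℝ → ℂ}
    (hΦ : Continuous fun p : ℝ × ℝ => Φ p.1 p.2) {C : ℝ} (hC : ∀ t s, ‖Φ t s‖ ≤ C) :
    ∫ r, h r * ∫ t, k t * ∫ s, l s * Φ (t + r) (s + r) = ∫ t, k t * ∫ s, l s * Φ t s :=
  TripleAux.core hh.int hk.int hl.int (kernel_identity hh hk hl hs) hΦ hC

end Pool.Agent.Helper88.CS
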